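import Pool.Agent.N929.EG.Main
import Pool.Agent.N507.EZ.Log

/-!
# Regularity to all orders, pointwise in `n`
-/

set_option autoImplicit false
set_option linter.unusedVariables false

namespace Pool.Agent.N929.EG

open Finset Filter Topology
open scoped Classical
open Pool.Agent.N929.EZ (Df)

noncomputable section

variable {α σ : Type}

/-- differences at later points -/
theorem df_shift {f : ℕ → ℝ} {B ε : ℝ} {r : ℕ} (hB : 0 ≤ B) (hε0 : 0 < ε) (hε1 : ε ≤ 1)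
    (h : ∀ t, t ≤ r → |Df t f 0| ≤ B * ε ^ t) :
    ∀ j t, t + j ≤ r → |Df t f j| ≤ 2 ^ j * B * ε ^ t := by
  intro j
  induction j with
  | zero =>
    intro t ht
    have := h t (by omega)
    simpa using this
  | succ j ih =>
    intro t ht
    have h1 := ih t (by omega)
    have h2 := ih (t + 1) (by omega)
    have h3 : Df t f (j + 1) = Df t f j - Df (t + 1) f j := by
      rw [Pool.Agent.N278.EZ.Df_succ]
      ring
    rw [h3]
    have h4 : ε ^ (t + 1) ≤ ε ^ t := pow_le_pow_of_le_one hε0.le hε1 (Nat.le_succ t)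
    have h5 : 0 ≤ 2 ^ j * B := by positivity
    calc |Df t f j - Df (t + 1) f j| ≤ |Df t f j| + |Df (t + 1) f j| := abs_sub _ _
      _ ≤ 2 ^ j * B * ε ^ t + 2 ^ j * B * ε ^ (t + 1) := add_le_add h1 h2
      _ ≤ 2 ^ j * B * ε ^ t + 2 ^ j * B * ε ^ t := by
          have := mul_le_mul_of_nonneg_left h4 h5
          linarith
      _ = 2 ^ (j + 1) * B * ε ^ t := by ring

/-- comparison of the values -/
theorem df_comp {f : ℕ → ℝ} {B ε : ℝ} {r : ℕ} (hB : 0 ≤ B) (hε0 : 0 < ε) (hε1 : ε ≤ 1)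
    (h : ∀ t, t ≤ r → |Df t f 0| ≤ B * ε ^ t) :
    ∀ j, j ≤ r → |f j - f 0| ≤ (j : ℝ) * (2 ^ r * B * ε) := by
  intro j
  induction j with
  | zero => intro _; simp
  | succ j ih =>
    intro hj
    have h1 := ih (by omega)
    have h2 := df_shift hB hε0 hε1 h j 1 (by omega)
    have h3 : Df 1 f j = f j - f (j + 1) := by
      unfold Df
      rw [sum_range_succ, sum_range_succ, sum_range_zero]
      simp
      ring
    rw [h3, pow_one] at h2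
    have h4 : (2 : ℝ) ^ j ≤ 2 ^ r := pow_le_pow_right₀ (by norm_num) (by omega)
    have h5 : 2 ^ j * B * ε ≤ 2 ^ r * B * ε := by gcongr
    have e : f (j + 1) - f 0 = (f j - f 0) - (f j - f (j + 1)) := by ring
    rw [e]
    push_cast
    calc |f j - f 0 - (f j - f (j + 1))| ≤ |f j - f 0| + |f j - f (j + 1)| := abs_sub _ _
      _ ≤ (j : ℝ) * (2 ^ r * B * ε) + 2 ^ r * B * ε := add_le_add h1 (h2.trans h5)
      _ = _ := by ring

/-- from the differences with error terms to the differences of the logarithms, at one `n` -/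
theorem pt_fin (r : ℕ) (hr : 1 ≤ r) {μ : ℝ} (hμ : 1 ≤ μ) (s : ℕ) (T E φ : ℕ → ℝ)
    (hE : ∀ n, 0 ≤ E n) (hφ : ∀ n : ℕ, 2 ≤ n → Real.log n ≤ φ n) {K : ℝ} (hK : 0 ≤ K)
    (hd : ∀ t : ℕ, ∃ A C : ℝ, 0 < A ∧ 0 < C ∧ ∀ (n : ℕ) (ε : ℝ), 2 ≤ n → 0 < ε → ε ≤ 1 →
      A * φ n ≤ ε ^ 2 * n →
      |∑ i ∈ range (t + 1), (-1 : ℝ) ^ i * (t.choose i : ℝ) * (T (n + s * i) / μ ^ (s * i))| ≤
        C * (ε ^ t * T n + Real.exp (-(ε ^ 2 * n / A)) * E n)) :
    ∃ A' C' : ℝ, 0 < A' ∧ 0 < C' ∧ ∀ (n : ℕ) (ε L : ℝ), 2 ≤ n → 0 < ε → ε ≤ 1 / A' → 0 ≤ L →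
      A' * (φ n + L) ≤ ε ^ 2 * n → 0 < T n → E n ≤ Real.exp (L + K * φ n) * T n →
      |∑ i ∈ range (r + 1), (-1 : ℝ) ^ i * (r.choose i : ℝ) *
        Real.log (T (n + s * i) / μ ^ (n + s * i))| ≤ C' * ε ^ r := by
  choose A C hA hC hAC using hd
  have hμ0 : 0 < μ := by linarith
  obtain ⟨A0, hA0⟩ : ∃ A0 : ℝ, A0 = 1 + ∑ t ∈ range (r + 1), A t := ⟨_, rfl⟩
  obtain ⟨C0, hC0⟩ : ∃ C0 : ℝ, C0 = 1 + ∑ t ∈ range (r + 1), C t := ⟨_, rfl⟩
  have hA0p : 1 ≤ A0 := by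
    rw [hA0]; have := sum_nonneg (s := range (r + 1)) fun t _ => (hA t).le; linarith
  have hC0p : 1 ≤ C0 := by
    rw [hC0]; have := sum_nonneg (s := range (r + 1)) fun t _ => (hC t).le; linarith
  have hAle : ∀ t, t ≤ r → A t ≤ A0 := fun t ht => by
    have := single_le_sum (f := A) (fun t _ => (hA t).le) (mem_range.2 (Nat.lt_succ_of_le ht))
    rw [hA0]; linarith
  have hCle : ∀ t, t ≤ r → C t ≤ C0 := fun t ht => by
    have := single_le_sum (f := C) (fun t _ => (hC t).le) (mem_range.2 (Nat.lt_succ_of_le ht))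
    rw [hC0]; linarith
  have hr0 : (0 : ℝ) ≤ r := Nat.cast_nonneg r
  obtain ⟨B, hB⟩ : ∃ B : ℝ, B = 2 ^ r * (2 * C0) + 2 := ⟨_, rfl⟩
  have hB0 : 0 < B := by rw [hB]; positivity
  obtain ⟨D, hD0, hD⟩ := Pool.Agent.N507.EZ.log_diff r hr B hB0
  obtain ⟨A', hA'⟩ : ∃ A' : ℝ, A' = A0 * (K + r + 2) + 2 * (r * (2 ^ r * (2 * C0))) := ⟨_, rfl⟩
  have hx : 0 ≤ 2 * (r * (2 ^ r * (2 * C0))) := by positivity
  have hA'1 : A0 * (K + r + 2) ≤ A' := by rw [hA']; linarith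
  have hA'2 : 2 * (r * (2 ^ r * (2 * C0))) ≤ A' := by
    rw [hA']
    have : 0 ≤ A0 * (K + r + 2) := by positivity
    linarith
  have hA'3 : 2 ≤ A' := by nlinarith
  have hA'0 : 0 < A' := by linarith
  refine ⟨A', D, hA'0, hD0, fun n ε L hn hε0 hεA hL hle hTn hEn => ?_⟩
  have hn0 : (0 : ℝ) < n := by exact_mod_cast (by omega : 0 < n)
  have hε1 : ε ≤ 1 := hεA.trans (by rw [div_le_one hA'0]; linarith)
  have hlog := hφ n hn
  have hl2 : 0.69 ≤ Real.log (n : ℝ) := by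
    have hn' : (2 : ℝ) ≤ n := by exact_mod_cast hn
    have := Real.log_two_gt_d9
    have h3 : Real.log 2 ≤ Real.log n := Real.log_le_log (by norm_num) hn'
    linarith
  have hφ0 : 0 < φ n := by linarith
  -- the error term
  have herr : Real.exp (-(ε ^ 2 * n / A0)) * E n ≤ ε ^ r * T n := by
    have h1 : (K + r + 2) * (φ n + L) ≤ ε ^ 2 * n / A0 := by
      rw [le_div_iff₀ (by linarith)]
      calc (K + r + 2) * (φ n + L) * A0 = A0 * (K + r + 2) * (φ n + L) := by ring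
        _ ≤ A' * (φ n + L) := mul_le_mul_of_nonneg_right hA'1 (by linarith)
        _ ≤ _ := hle
    have h2 : Real.exp (-(ε ^ 2 * n / A0)) * Real.exp (L + K * φ n) ≤
        Real.exp (-(r * Real.log n)) := by
      rw [← Real.exp_add]
      apply Real.exp_le_exp.mpr
      have h3 : (r : ℝ) * Real.log n ≤ r * φ n := mul_le_mul_of_nonneg_left hlog hr0
      have h4 : 0 ≤ (K + r + 1) * L := by positivity
      nlinarith
    have h5 : Real.exp (-(r * Real.log n)) ≤ ε ^ r := by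
      have h6 : 1 ≤ ε ^ 2 * n := by
        have : 2 * 0.69 ≤ A' * (φ n + L) := by nlinarith
        linarith
      have h7 : (n : ℝ)⁻¹ ≤ ε := by
        have h8 : (n : ℝ)⁻¹ ≤ ε ^ 2 := by
          rw [inv_le_iff_one_le_mul₀ hn0]
          linarith
        have h9 : ε ^ 2 ≤ ε := by nlinarith
        linarith
      have h8 : Real.exp (-(r * Real.log n)) = ((n : ℝ)⁻¹) ^ r := by
        rw [← mul_neg, ← Real.log_inv, ← Real.log_pow, Real.exp_log (by positivity)]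
      rw [h8]
      exact pow_le_pow_left₀ (by positivity) h7 r
    calc Real.exp (-(ε ^ 2 * n / A0)) * E n
        ≤ Real.exp (-(ε ^ 2 * n / A0)) * (Real.exp (L + K * φ n) * T n) :=
          mul_le_mul_of_nonneg_left hEn (Real.exp_pos _).le
      _ = Real.exp (-(ε ^ 2 * n / A0)) * Real.exp (L + K * φ n) * T n := by ring
      _ ≤ ε ^ r * T n := mul_le_mul_of_nonneg_right (h2.trans h5) hTn.le
  obtain ⟨f, hf⟩ : ∃ f : ℕ → ℝ, f = fun i => T (n + s * i) / μ ^ (s * i) := ⟨_, rfl⟩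
  have hf0 : f 0 = T n := by rw [hf]; simp
  have hdf : ∀ t, t ≤ r → |Df t f 0| ≤ (2 * C0 * T n) * ε ^ t := by
    intro t ht
    have h1 : A t * φ n ≤ ε ^ 2 * n := by
      have h2 : A0 ≤ A' := by nlinarith
      calc A t * φ n ≤ A' * φ n := mul_le_mul_of_nonneg_right ((hAle t ht).trans h2) hφ0.le
        _ ≤ A' * (φ n + L) := by nlinarith
        _ ≤ _ := hle
    have h2 := hAC t n ε hn hε0 hε1 h1
    have h3 : Real.exp (-(ε ^ 2 * n / A t)) ≤ Real.exp (-(ε ^ 2 * n / A0)) := by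
      apply Real.exp_le_exp.2
      apply neg_le_neg
      exact div_le_div_of_nonneg_left (by positivity) (hA t) (hAle t ht)
    have h4 : Df t f 0 = ∑ i ∈ range (t + 1), (-1 : ℝ) ^ i * (t.choose i : ℝ) *
        (T (n + s * i) / μ ^ (s * i)) := by
      unfold Df
      rw [hf]
      simp only [zero_add]
    rw [h4]
    have h5 : ε ^ r ≤ ε ^ t := pow_le_pow_of_le_one hε0.le hε1 ht
    have h6 := hE n
    calc _ ≤ C t * (ε ^ t * T n + Real.exp (-(ε ^ 2 * n / A t)) * E n) := h2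
      _ ≤ C0 * (ε ^ t * T n + Real.exp (-(ε ^ 2 * n / A0)) * E n) := by
          have h7 := hCle t ht
          have h8 := hC t
          gcongr
      _ ≤ C0 * (ε ^ t * T n + ε ^ t * T n) := by
          have := mul_le_mul_of_nonneg_right h5 hTn.le
          have h9 := herr.trans this
          exact mul_le_mul_of_nonneg_left (by linarith) (by linarith)
      _ = _ := by ring
  have hBT : 0 ≤ 2 * C0 * T n := by positivity
  have hcomp : ∀ j, j ≤ r → f 0 ≤ 2 * f j := by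
    intro j hj
    have h1 := df_comp hBT hε0 hε1 hdf j hj
    have h2 : (j : ℝ) ≤ r := by exact_mod_cast hj
    have h3 : (j : ℝ) * (2 ^ r * (2 * C0 * T n) * ε) ≤ T n / 2 := by
      have h4 : ε * A' ≤ 1 := by rwa [le_div_iff₀ hA'0] at hεA
      have h5 : ε * (2 * (r * (2 ^ r * (2 * C0)))) ≤ 1 :=
        (mul_le_mul_of_nonneg_left hA'2 hε0.le).trans h4
      calc (j : ℝ) * (2 ^ r * (2 * C0 * T n) * ε) ≤ r * (2 ^ r * (2 * C0 * T n) * ε) := by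
            gcongr
        _ = (ε * (2 * (r * (2 ^ r * (2 * C0))))) * T n / 2 := by ring
        _ ≤ 1 * T n / 2 := by gcongr
        _ = T n / 2 := by ring
    rw [hf0] at h1 ⊢
    have := (abs_le.1 (h1.trans h3)).1
    linarith
  have hlogd := hD f 0 ε hε0 hε1
    (fun j hj => by
      have h1 := hcomp j hj
      rw [zero_add]
      rw [hf0] at h1
      linarith)
    (fun j hj => by
      have h1 := hcomp j hj
      rw [zero_add]
      have h2 : 0 ≤ f j := by rw [hf0] at h1; linarith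
      have h3 : 2 ≤ B := by rw [hB]; linarith [show 0 ≤ 2 ^ r * (2 * C0) by positivity]
      nlinarith)
    (fun t j htj => by
      have h1 := df_shift hBT hε0 hε1 hdf j t htj
      rw [zero_add]
      refine h1.trans ?_
      have h4 : (2 : ℝ) ^ j ≤ 2 ^ r := pow_le_pow_right₀ (by norm_num) (by omega)
      rw [hf0]
      have h5 : 2 ^ j * (2 * C0 * T n) ≤ B * T n := by
        rw [hB]
        have h6 : 2 ^ j * (2 * C0 * T n) ≤ 2 ^ r * (2 * C0 * T n) :=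
          mul_le_mul_of_nonneg_right h4 hBT
        have h7 : (2 ^ r * (2 * C0) + 2) * T n = 2 ^ r * (2 * C0 * T n) + 2 * T n := by ring
        rw [h7]
        linarith
      have h6 : 0 ≤ ε ^ t := by positivity
      calc 2 ^ j * (2 * C0 * T n) * ε ^ t ≤ B * T n * ε ^ t := mul_le_mul_of_nonneg_right h5 h6
        _ = B * ε ^ t * T n := by ring)
  have e : ∑ i ∈ range (r + 1), (-1 : ℝ) ^ i * (r.choose i : ℝ) *
        Real.log (T (n + s * i) / μ ^ (n + s * i)) =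
      Df r (fun j => Real.log (f j)) 0 := by
    have hzero : ∑ i ∈ range (r + 1), (-1 : ℝ) ^ i * (r.choose i : ℝ) * Real.log (μ ^ n) = 0 := by
      rw [← sum_mul]
      have h := (add_pow (-1 : ℝ) 1 r).symm
      simp only [one_pow, mul_one] at h
      rw [h, neg_add_cancel, zero_pow (by omega), zero_mul]
    have h1 : Df r (fun j => Real.log (f j)) 0 = ∑ i ∈ range (r + 1),
        ((-1 : ℝ) ^ i * (r.choose i : ℝ) * Real.log (T (n + s * i) / μ ^ (n + s * i)) +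
          (-1 : ℝ) ^ i * (r.choose i : ℝ) * Real.log (μ ^ n)) := by
      unfold Df
      refine sum_congr rfl (fun i hi => ?_)
      have hi' := mem_range.1 hi
      have h2 := hcomp i (by omega)
      rw [hf0] at h2
      have h3 : 0 < f i := by linarith
      rw [zero_add, ← mul_add]
      congr 1
      rw [hf] at h3 ⊢
      simp only at h3 ⊢
      have h4 : 0 < T (n + s * i) := by
        have h5 : 0 < μ ^ (s * i) := by positivity
        have h6 := (div_pos_iff_of_pos_right h5).1 h3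
        exact h6
      rw [Real.log_div h4.ne' (by positivity), Real.log_div h4.ne' (by positivity), pow_add,
        Real.log_mul (by positivity) (by positivity)]
      ring
    rw [h1, sum_add_distrib, hzero, add_zero]
  rw [e]
  exact hlogd

/-- the differences with error terms, for functionals -/
theorem hd_gen (Y : TS α σ) {μ : ℝ} {φ : ℕ → ℝ} (G : Gr Y μ φ) (F : α → ℝ) (C₀ : ℝ) (p : ℕ)
    (hC₀ : 0 ≤ C₀) (hFB : ∀ n, ∀ w ∈ Y.K n, 0 ≤ F w ∧ F w ≤ C₀ * ((n : ℝ) + 1) ^ p)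
    (hrep : ∀ L : Finset σ, Fam Y L → ∀ st fl, Fill Y L st fl →
      ∃ M : α → ℝ, (∀ w, 0 ≤ M w) ∧
        (∀ w, Em Y L w → Rp (Sl Y L w) (fun U => F (fl w U)) (M w)) ∧
        ∀ n, 2 ≤ n → ∑ w ∈ Y.K n, M (st w) ≤ C₀ * ∑ w ∈ Y.K n, F w) :
    ∀ t : ℕ, ∃ A C : ℝ, 0 < A ∧ 0 < C ∧ ∀ (n : ℕ) (ε : ℝ), 2 ≤ n → 0 < ε → ε ≤ 1 →
      A * φ n ≤ ε ^ 2 * n →
      |∑ i ∈ range (t + 1), (-1 : ℝ) ^ i * (t.choose i : ℝ) *
        ((∑ w ∈ Y.K (n + Y.s * i), F w) / μ ^ (Y.s * i))| ≤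
        C * (ε ^ t * (∑ w ∈ Y.K n, F w) +
          Real.exp (-(ε ^ 2 * n / A)) * (C₀ * ((n : ℝ) + 1) ^ p * μ ^ n)) := by
  intro r
  obtain ⟨A, C, hA, hC, h⟩ := s_aof α σ Y μ φ G r
  have hμ1 := G.one
  have hsr : (1 : ℝ) ≤ 1 + (Y.s : ℝ) * r := by
    have : (0 : ℝ) ≤ (Y.s : ℝ) * r := by positivity
    linarith
  refine ⟨A, C * ((1 + (Y.s : ℝ) * r) ^ p + C₀), hA, by positivity,
    fun n ε hn hε hε1 hAn => ?_⟩
  obtain ⟨L, hL, hh⟩ := h n ε hn hε hε1 hAn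
  obtain ⟨st, fl, hfl⟩ := s_bij α σ Y L hL
  obtain ⟨M, hM0, hM1, hM2⟩ := hrep L hL st fl hfl
  obtain ⟨B, hB⟩ : ∃ B : ℝ, B = C₀ * ((1 + (Y.s : ℝ) * r) * ((n : ℝ) + 1)) ^ p := ⟨_, rfl⟩
  have hB0 : 0 ≤ B := by rw [hB]; positivity
  have h1 := hh st fl hfl F M B hB0 hM0
    (fun i hi w hw => by
      have hi' := mem_range.1 hi
      obtain ⟨f0, f1⟩ := hFB _ w hw
      rw [abs_of_nonneg f0, hB]
      refine f1.trans (mul_le_mul_of_nonneg_left (pow_le_pow_left₀ (by positivity) ?_ p) hC₀)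
      have h2 : (i : ℝ) ≤ r := by exact_mod_cast (by omega : i ≤ r)
      have h3 : (Y.s : ℝ) * i ≤ (Y.s : ℝ) * r := by gcongr
      have h4 : (0 : ℝ) ≤ (Y.s : ℝ) * r * n := by positivity
      push_cast
      nlinarith) hM1
  have h5 := hM2 n hn
  refine h1.trans ?_
  rw [hB, mul_pow]
  have h9 : (1 : ℝ) ≤ (1 + (Y.s : ℝ) * r) ^ p := one_le_pow₀ hsr
  have h10 : 0 ≤ ∑ w ∈ Y.K n, F w := sum_nonneg (fun w hw => (hFB n w hw).1)
  have h11 : 0 ≤ ε ^ r * ∑ w ∈ Y.K n, F w := by positivity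
  have h12 : ε ^ r * ∑ w ∈ Y.K n, M (st w) ≤
      ((1 + (Y.s : ℝ) * r) ^ p + C₀) * (ε ^ r * ∑ w ∈ Y.K n, F w) := by
    have h13 : ε ^ r * ∑ w ∈ Y.K n, M (st w) ≤ ε ^ r * (C₀ * ∑ w ∈ Y.K n, F w) :=
      mul_le_mul_of_nonneg_left h5 (by positivity)
    have h14 : 0 ≤ (1 + (Y.s : ℝ) * r) ^ p * (ε ^ r * ∑ w ∈ Y.K n, F w) := by positivity
    calc _ ≤ _ := h13
      _ = C₀ * (ε ^ r * ∑ w ∈ Y.K n, F w) := by ring
      _ ≤ _ := by rw [add_mul]; linarith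
  have h15 : 0 ≤ C₀ * ((n : ℝ) + 1) ^ p * (Real.exp (-(ε ^ 2 * n / A)) * μ ^ n) := by
    positivity
  have h16 : C₀ * ((1 + (Y.s : ℝ) * r) ^ p * ((n : ℝ) + 1) ^ p) *
        (Real.exp (-(ε ^ 2 * n / A)) * μ ^ n) ≤
      ((1 + (Y.s : ℝ) * r) ^ p + C₀) *
        (C₀ * ((n : ℝ) + 1) ^ p * (Real.exp (-(ε ^ 2 * n / A)) * μ ^ n)) := by
    have : 0 ≤ C₀ * (C₀ * ((n : ℝ) + 1) ^ p * (Real.exp (-(ε ^ 2 * n / A)) * μ ^ n)) :=
      mul_nonneg hC₀ h15
    rw [add_mul]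
    calc _ = (1 + (Y.s : ℝ) * r) ^ p *
          (C₀ * ((n : ℝ) + 1) ^ p * (Real.exp (-(ε ^ 2 * n / A)) * μ ^ n)) := by ring
      _ ≤ _ := by linarith
  calc C * (ε ^ r * (∑ w ∈ Y.K n, M (st w)) +
        C₀ * ((1 + (Y.s : ℝ) * r) ^ p * ((n : ℝ) + 1) ^ p) *
        (Real.exp (-(ε ^ 2 * n / A)) * μ ^ n))
      ≤ C * (((1 + (Y.s : ℝ) * r) ^ p + C₀) * (ε ^ r * ∑ w ∈ Y.K n, F w) +
        ((1 + (Y.s : ℝ) * r) ^ p + C₀) *
        (C₀ * ((n : ℝ) + 1) ^ p * (Real.exp (-(ε ^ 2 * n / A)) * μ ^ n))) :=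
        mul_le_mul_of_nonneg_left (add_le_add h12 h16) hC.le
    _ = _ := by ring

/-- the sum over the objects without occupied slots, for invariant weights -/
theorem sum_st {Y : TS α σ} {L : Finset σ} {st : α → α} {fl : α → Finset σ → α}
    (hfl : Fill Y L st fl) {F : α → ℝ} (hFi : ∀ n, ∀ w ∈ Y.K n, ∀ q ∈ Y.S w, F (Y.ins w q) = F w)
    {n : ℕ} {w : α} (hw : w ∈ Y.K n) : F (st w) = F w := by
  have hlen := Y.len_K n w hw
  have hw' : w ∈ Y.K (Y.len w) := by rw [hlen]; exact hw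
  have h6 := hfl.fl_st w hw'
  have h7 : Oc Y L w ⊆ Sl Y L (st w) := by
    rw [hfl.st_sl w hw']
    exact Oc_sub
  have h8 := fl_inv hfl hFi (hfl.st_em w hw') _ h7
  rw [h6] at h8
  exact h8.symm

/-- **Pointwise regularity to all orders, for functionals** -/
theorem gen_pt (Y : TS α σ) {μ : ℝ} {φ : ℕ → ℝ} (G : Gr Y μ φ) (F : α → ℝ) (C₀ : ℝ) (p : ℕ)
    (hC₀ : 0 ≤ C₀) (hFB : ∀ n, ∀ w ∈ Y.K n, 0 ≤ F w ∧ F w ≤ C₀ * ((n : ℝ) + 1) ^ p)
    (hrep : ∀ L : Finset σ, Fam Y L → ∀ st fl, Fill Y L st fl →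
      ∃ M : α → ℝ, (∀ w, 0 ≤ M w) ∧
        (∀ w, Em Y L w → Rp (Sl Y L w) (fun U => F (fl w U)) (M w)) ∧
        ∀ n, 2 ≤ n → ∑ w ∈ Y.K n, M (st w) ≤ C₀ * ∑ w ∈ Y.K n, F w) (r : ℕ) (hr : 1 ≤ r) :
    ∃ A' C' : ℝ, 0 < A' ∧ 0 < C' ∧ ∀ (n : ℕ) (ε L : ℝ), 2 ≤ n → 0 < ε → ε ≤ 1 / A' → 0 ≤ L →
      A' * (φ n + L) ≤ ε ^ 2 * n → μ ^ n ≤ Real.exp L * ∑ w ∈ Y.K n, F w →
      |∑ i ∈ range (r + 1), (-1 : ℝ) ^ i * (r.choose i : ℝ) *
        Real.log ((∑ w ∈ Y.K (n + Y.s * i), F w) / μ ^ (n + Y.s * i))| ≤ C' * ε ^ r := by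
  have hμ1 := G.one
  obtain ⟨A', C', hA', hC', h⟩ := pt_fin r hr G.one Y.s (fun n => ∑ w ∈ Y.K n, F w)
    (fun n => C₀ * ((n : ℝ) + 1) ^ p * μ ^ n) φ (fun n => by positivity) G.phi.log
    (K := 2 * C₀ + 2 * p) (by positivity) (hd_gen Y G F C₀ p hC₀ hFB hrep)
  refine ⟨A', C', hA', hC', fun n ε L hn hε hεA hL hle hlow => ?_⟩
  have hpos : 0 < ∑ w ∈ Y.K n, F w := by
    by_contra hcon
    push Not at hcon
    have h2 : 0 < μ ^ n := by positivity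
    have h3 : 0 < Real.exp L := Real.exp_pos _
    nlinarith
  refine h n ε L hn hε hεA hL hle hpos ?_
  have h1 := poly_le G.phi hn hC₀ p
  calc C₀ * ((n : ℝ) + 1) ^ p * μ ^ n
      ≤ Real.exp ((2 * C₀ + 2 * p) * φ n) * (Real.exp L * ∑ w ∈ Y.K n, F w) := by gcongr
    _ = _ := by
        rw [← mul_assoc, ← Real.exp_add, add_comm L]

/-- **Pointwise regularity to all orders, for invariant weights** -/
theorem inv_pt (Y : TS α σ) {μ : ℝ} {φ : ℕ → ℝ} (G : Gr Y μ φ) (F : α → ℝ) (C₀ : ℝ) (p : ℕ)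
    (hC₀ : 0 ≤ C₀) (hFB : ∀ n, ∀ w ∈ Y.K n, 0 ≤ F w ∧ F w ≤ C₀ * ((n : ℝ) + 1) ^ p)
    (hFi : ∀ n, ∀ w ∈ Y.K n, ∀ q ∈ Y.S w, F (Y.ins w q) = F w) (r : ℕ) (hr : 1 ≤ r) :
    ∃ A' C' : ℝ, 0 < A' ∧ 0 < C' ∧ ∀ (n : ℕ) (ε L : ℝ), 2 ≤ n → 0 < ε → ε ≤ 1 / A' → 0 ≤ L →
      A' * (φ n + L) ≤ ε ^ 2 * n → μ ^ n ≤ Real.exp L * ∑ w ∈ Y.K n, F w →
      |∑ i ∈ range (r + 1), (-1 : ℝ) ^ i * (r.choose i : ℝ) *
        Real.log ((∑ w ∈ Y.K (n + Y.s * i), F w) / μ ^ (n + Y.s * i))| ≤ C' * ε ^ r := by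
  refine gen_pt Y G F (C₀ + 1) p (by linarith) (fun n w hw => ?_) (fun L hL st fl hfl => ?_) r hr
  · obtain ⟨h1, h2⟩ := hFB n w hw
    refine ⟨h1, h2.trans (mul_le_mul_of_nonneg_right (by linarith) (by positivity))⟩
  · refine ⟨fun w => |F w|, fun w => abs_nonneg _, fun w hw => ?_, fun n hn => ?_⟩
    · obtain ⟨v, hv, hv'⟩ := Rp.const (E := Sl Y L w) (F w)
      exact ⟨v, hv, fun U hU => (fl_inv hfl hFi hw U hU).trans (hv' U hU)⟩
    · have h5 : ∑ w ∈ Y.K n, |F (st w)| = ∑ w ∈ Y.K n, F w := by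
        refine sum_congr rfl (fun w hw => ?_)
        rw [sum_st hfl hFi hw, abs_of_nonneg (hFB n w hw).1]
      rw [h5]
      have : 0 ≤ ∑ w ∈ Y.K n, F w := sum_nonneg (fun w hw => (hFB n w hw).1)
      nlinarith

end

end Pool.Agent.N929.EG
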