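import Pool.Agent.N929.EG.Main

/-!
# Numbers and moments of invariant quantities
-/

set_option autoImplicit false
set_option linter.unusedVariables false

namespace Pool.Agent.N929.EG

open Finset Filter Topology
open scoped Classical

noncomputable section

variable {α σ : Type}

theorem cntT (Y : TS α σ) {μ : ℝ} {φ : ℕ → ℝ} (G : Gr Y μ φ)
    (hc : ∃ K' : ℝ, 0 ≤ K' ∧ ∀ n : ℕ, 2 ≤ n →
      μ ^ n ≤ Real.exp (K' * φ n) * ((Y.K n).card : ℝ)) :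
    ∀ r : ℕ, 1 ≤ r → ∃ C : ℝ, 0 < C ∧ ∀ n : ℕ, 2 ≤ n →
      |∑ i ∈ range (r + 1), (-1 : ℝ) ^ i * (r.choose i : ℝ) *
        Real.log (((Y.K (n + Y.s * i)).card : ℝ) / μ ^ (n + Y.s * i))| ≤
        C * Real.sqrt (φ n / n) ^ r := by
  intro r hr
  obtain ⟨K', hK', h⟩ := hc
  have e : ∀ n, ∑ w ∈ Y.K n, (1 : ℝ) = ((Y.K n).card : ℝ) := fun n => by
    rw [sum_const, nsmul_eq_mul, mul_one]
  have h1 := s_inv _ _ Y μ φ G (fun n => 2 ≤ n) (fun _ => 1) 1 0 (by norm_num) (fun n hn => hn)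
    (fun n hn => by omega) (fun n w _ => by norm_num) (fun n w _ q _ => rfl)
    ⟨K', hK', fun n hn => by rw [e]; exact h n hn⟩ r hr
  simpa only [e] using h1

theorem pwT {X y p : ℝ} {q : ℕ} (hX : 1 ≤ X) (h1 : 1 / X ≤ y) (h2 : y ≤ X) (hq : |p| ≤ q) :
    y ^ p ≤ X ^ q ∧ 1 ≤ X ^ q * y ^ p := by
  have hX0 : 0 < X := by linarith
  have hy : 0 < y := lt_of_lt_of_le (by positivity) h1
  have h3 : ∀ z : ℝ, 0 < z → z ≤ X → 1 / X ≤ z → ∀ p' : ℝ, |p'| ≤ q → z ^ p' ≤ X ^ q := by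
    intro z hz hzX hXz p' hp'
    rcases le_total 1 z with hz1 | hz1
    · calc z ^ p' ≤ z ^ (q : ℝ) :=
            Real.rpow_le_rpow_of_exponent_le hz1 ((le_abs_self p').trans hp')
        _ = z ^ q := Real.rpow_natCast _ _
        _ ≤ X ^ q := pow_le_pow_left₀ hz.le hzX q
    · have h4 : z⁻¹ ≤ X := by
        rw [inv_le_comm₀ hz hX0]
        rwa [one_div] at hXz
      have h5 : 1 ≤ z⁻¹ := (one_le_inv₀ hz).2 hz1
      calc z ^ p' = (z⁻¹) ^ (-p') := by rw [Real.inv_rpow hz.le, Real.rpow_neg hz.le, inv_inv]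
        _ ≤ (z⁻¹) ^ (q : ℝ) :=
            Real.rpow_le_rpow_of_exponent_le h5 ((neg_le_abs p').trans hp')
        _ = (z⁻¹) ^ q := Real.rpow_natCast _ _
        _ ≤ X ^ q := pow_le_pow_left₀ (by positivity) h4 q
  refine ⟨h3 y hy h2 h1 p hq, ?_⟩
  have h4 := h3 y hy h2 h1 (-p) (by rwa [abs_neg])
  have h5 : y ^ (-p) * y ^ p = 1 := by
    rw [← Real.rpow_add hy]
    simp
  rw [← h5]
  exact mul_le_mul_of_nonneg_right h4 (by positivity)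

theorem card_posT (Y : TS α σ) {μ : ℝ} {φ : ℕ → ℝ} (G : Gr Y μ φ)
    (hc : ∃ K' : ℝ, 0 ≤ K' ∧ ∀ n : ℕ, 2 ≤ n →
      μ ^ n ≤ Real.exp (K' * φ n) * ((Y.K n).card : ℝ)) {n : ℕ} (hn : 2 ≤ n) :
    0 < ((Y.K n).card : ℝ) := by
  obtain ⟨K', hK', h⟩ := hc
  have h1 := h n hn
  have hμ := G.one
  have h2 : 0 < μ ^ n := by positivity
  by_contra hcon
  push Not at hcon
  have h3 := Real.exp_pos (K' * φ n)
  nlinarith

theorem momT (Y : TS α σ) {μ : ℝ} {φ : ℕ → ℝ} (G : Gr Y μ φ)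
    (hc : ∃ K' : ℝ, 0 ≤ K' ∧ ∀ n : ℕ, 2 ≤ n →
      μ ^ n ≤ Real.exp (K' * φ n) * ((Y.K n).card : ℝ))
    (y : α → ℝ) (D : ℝ) (hD : 1 ≤ D)
    (hy : ∀ n, ∀ w ∈ Y.K n, (n < 2 ∧ y w = 0) ∨ (1 / D ≤ y w ∧ y w ≤ D * ((n : ℝ) + 1)))
    (hinv : ∀ n, ∀ w ∈ Y.K n, ∀ q ∈ Y.S w, y (Y.ins w q) = y w) (p : ℝ) :
    (∀ n, 2 ≤ n → 0 < ∑ w ∈ Y.K n, y w ^ p) ∧
    ∀ r : ℕ, 1 ≤ r → ∃ C : ℝ, 0 < C ∧ ∀ n : ℕ, 2 ≤ n →
      |∑ i ∈ range (r + 1), (-1 : ℝ) ^ i * (r.choose i : ℝ) *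
        Real.log ((∑ w ∈ Y.K (n + Y.s * i), y w ^ p) / ((Y.K (n + Y.s * i)).card : ℝ))| ≤
        C * Real.sqrt (φ n / n) ^ r := by
  have hcp : ∀ n, 2 ≤ n → 0 < ((Y.K n).card : ℝ) := fun n hn => card_posT Y G hc hn
  obtain ⟨q, hq⟩ : ∃ q : ℕ, q = ⌈|p|⌉₊ := ⟨_, rfl⟩
  have hpq : |p| ≤ q := by rw [hq]; exact Nat.le_ceil _
  have hμ0 : 0 < μ := by linarith [G.one]
  have hbd : ∀ n, ∀ w ∈ Y.K n, (1 / D ≤ y w ∧ y w ≤ D * ((n : ℝ) + 1)) →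
      y w ^ p ≤ D ^ q * ((n : ℝ) + 1) ^ q ∧ 1 ≤ D ^ q * ((n : ℝ) + 1) ^ q * y w ^ p := by
    intro n w hw h
    have hn0 : (0 : ℝ) ≤ n := Nat.cast_nonneg n
    have hX : 1 ≤ D * ((n : ℝ) + 1) := by nlinarith
    have h3 := pwT (X := D * ((n : ℝ) + 1)) (y := y w) (p := p) (q := q) hX
      (by
        refine le_trans ?_ h.1
        apply one_div_le_one_div_of_le (by linarith)
        nlinarith) h.2 hpq
    rw [mul_pow] at h3
    exact h3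
  have hbd2 : ∀ n, 2 ≤ n → ∀ w ∈ Y.K n,
      y w ^ p ≤ D ^ q * ((n : ℝ) + 1) ^ q ∧ 1 ≤ D ^ q * ((n : ℝ) + 1) ^ q * y w ^ p := by
    intro n hn w hw
    rcases hy n w hw with h | h
    · omega
    · exact hbd n w hw h
  have hpos : ∀ n, 2 ≤ n → 0 < ∑ w ∈ Y.K n, y w ^ p := by
    intro n hn
    refine sum_pos (fun w hw => ?_) (card_pos.1 (by exact_mod_cast hcp n hn))
    rcases hy n w hw with h | h
    · omega
    · exact Real.rpow_pos_of_pos (lt_of_lt_of_le (by positivity) h.1) p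
  refine ⟨hpos, fun r hr => ?_⟩
  obtain ⟨C1, hC1, g1⟩ := cntT Y G hc r hr
  obtain ⟨K', hK', hc'⟩ := hc
  obtain ⟨C2, hC2, g2⟩ := s_inv _ _ Y μ φ G (fun n => 2 ≤ n) (fun w => y w ^ p) (D ^ q) q
    (by positivity) (fun n hn => hn) (fun n hn => by omega)
    (fun n w hw => by
      rcases hy n w hw with ⟨-, h⟩ | h
      · rw [h]
        have h3 : (1 : ℝ) ≤ D ^ q := one_le_pow₀ hD
        have h4 : (1 : ℝ) ≤ ((n : ℝ) + 1) ^ q := one_le_pow₀ (by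
          have := Nat.cast_nonneg (α := ℝ) n
          linarith)
        have := Real.zero_rpow_le_one p
        refine ⟨Real.zero_rpow_nonneg p, ?_⟩
        nlinarith
      · exact ⟨Real.rpow_nonneg (le_trans (by positivity) h.1) p, (hbd n w hw h).1⟩)
    (fun n w hw q' hq' => by simp only [hinv n w hw q' hq'])
    ⟨(2 * D ^ q + 2 * q) + K', by positivity, fun n hn => by
      have h3 := poly_le G.phi hn (C₀ := D ^ q) (by positivity) q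
      have h4 : ((Y.K n).card : ℝ) ≤
          D ^ q * ((n : ℝ) + 1) ^ q * ∑ w ∈ Y.K n, y w ^ p := by
        rw [mul_sum, show ((Y.K n).card : ℝ) = ∑ w ∈ Y.K n, (1 : ℝ) by simp]
        exact sum_le_sum (fun w hw => (hbd2 n hn w hw).2)
      have h5 := hpos n hn
      calc μ ^ n ≤ Real.exp (K' * φ n) * ((Y.K n).card : ℝ) := hc' n hn
        _ ≤ Real.exp (K' * φ n) * (D ^ q * ((n : ℝ) + 1) ^ q * ∑ w ∈ Y.K n, y w ^ p) := by
            gcongr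
        _ ≤ Real.exp (K' * φ n) * (Real.exp ((2 * D ^ q + 2 * q) * φ n) *
            ∑ w ∈ Y.K n, y w ^ p) := by gcongr
        _ = _ := by
            rw [← mul_assoc, ← Real.exp_add]
            ring_nf⟩ r hr
  refine ⟨C2 + C1, by positivity, fun n hn => ?_⟩
  have e : ∑ i ∈ range (r + 1), (-1 : ℝ) ^ i * (r.choose i : ℝ) *
        Real.log ((∑ w ∈ Y.K (n + Y.s * i), y w ^ p) / ((Y.K (n + Y.s * i)).card : ℝ)) =
      (∑ i ∈ range (r + 1), (-1 : ℝ) ^ i * (r.choose i : ℝ) *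
        Real.log ((∑ w ∈ Y.K (n + Y.s * i), y w ^ p) / μ ^ (n + Y.s * i))) -
      (∑ i ∈ range (r + 1), (-1 : ℝ) ^ i * (r.choose i : ℝ) *
        Real.log (((Y.K (n + Y.s * i)).card : ℝ) / μ ^ (n + Y.s * i))) := by
    rw [← sum_sub_distrib]
    refine sum_congr rfl (fun i _ => ?_)
    have h3 := hpos (n + Y.s * i) (by omega)
    have h4 := hcp (n + Y.s * i) (by omega)
    have h5 : 0 < μ ^ (n + Y.s * i) := by positivity
    rw [Real.log_div h3.ne' h4.ne', Real.log_div h3.ne' h5.ne', Real.log_div h4.ne' h5.ne']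
    ring
  rw [e, add_mul]
  exact (abs_sub _ _).trans (add_le_add (g2 n hn) (g1 n hn))

end

end Pool.Agent.N929.EG
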