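import Pool.Agent.N929.EG.Main

/-!
# Laws of functionals: statement
-/

set_option autoImplicit false
set_option linter.unusedVariables false

namespace Pool.Agent.N929.EG

open Finset
open scoped Classical

/-- LAW: the laws of functionals are regular to all orders, uniformly in the functional -/
def S_LAW : Prop :=
  ∀ (α σ : Type) (Y : TS α σ) (μ : ℝ) (φ : ℕ → ℝ), Gr Y μ φ →
    (∃ K' : ℝ, 0 ≤ K' ∧ ∀ n : ℕ, 2 ≤ n →
      μ ^ n ≤ Real.exp (K' * φ n) * ((Y.K n).card : ℝ)) →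
    ∀ (r : ℕ) (M₀ : ℝ), 0 ≤ M₀ → ∃ C : ℝ, 0 < C ∧ ∀ n : ℕ, 2 ≤ n →
      ∀ F : α → ℝ, (∀ w, |F w| ≤ 1) →
      (∀ L : Finset σ, Fam Y L → ∀ st fl, Fill Y L st fl → ∀ w, Em Y L w →
        Rp (Sl Y L w) (fun U => F (fl w U)) M₀) →
      |∑ i ∈ range (r + 1), (-1 : ℝ) ^ i * (r.choose i : ℝ) *
        ((∑ w ∈ Y.K (n + Y.s * i), F w) / ((Y.K (n + Y.s * i)).card : ℝ))| ≤
        C * Real.sqrt (φ n / n) ^ r

end Pool.Agent.N929.EG
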