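import Pool.Agent.N929.EG.Two
import Pool.Agent.N929.EG.MomT
import Pool.Agent.N929.EG.Stm4
import Pool.Agent.R965.HP.End

/-!
# Walks on planar graphs with two-sided growth bounds (domains): regularity to all orders
-/

set_option autoImplicit false
set_option linter.unusedVariables false

namespace Pool.Agent.N929.EG

open Finset Filter Topology
open scoped Classical

noncomputable section

variable {A : ℤ × ℤ → ℤ × ℤ → Prop}

theorem log_two_le {n : ℕ} (hn : 2 ≤ n) : 0.69 ≤ Real.log n := by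
  have hn' : (2 : ℝ) ≤ n := by exact_mod_cast hn
  have := Real.log_two_gt_d9
  have h3 : Real.log 2 ≤ Real.log n := Real.log_le_log (by norm_num) hn'
  linarith

theorem log_dbl {n m : ℕ} (hn : 2 ≤ n) (hm : m ≤ 2 * n) : Real.log m ≤ 2 * Real.log n := by
  have hn' : (2 : ℝ) ≤ n := by exact_mod_cast hn
  have hm' : (m : ℝ) ≤ 2 * n := by exact_mod_cast hm
  rcases Nat.eq_zero_or_pos m with rfl | h0
  · simp only [Nat.cast_zero, Real.log_zero]
    have := log_two_le hn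
    linarith
  · have h0' : (0 : ℝ) < m := by exact_mod_cast h0
    have h2 : Real.log m ≤ Real.log (n ^ 2 : ℝ) := Real.log_le_log h0' (by nlinarith)
    rwa [Real.log_pow, Nat.cast_ofNat] at h2

/-- the rate function -/
theorem phi_pow (a : ℕ) (ha : 1 ≤ a) (K₁ : ℝ) (h : 2 ^ a ≤ K₁) :
    Phi (fun n => K₁ * Real.log n ^ a) := by
  have h2a : (0 : ℝ) < 2 ^ a := by positivity
  constructor
  · intro n hn
    have h4 := log_two_le hn
    have h5 : 1 ≤ 2 * Real.log (n : ℝ) := by linarith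
    have h6 : (2 * Real.log (n : ℝ)) ^ 1 ≤ (2 * Real.log (n : ℝ)) ^ a :=
      pow_le_pow_right₀ h5 ha
    have h7 : (2 * Real.log (n : ℝ)) ^ a ≤ K₁ * Real.log n ^ a := by
      rw [mul_pow]
      exact mul_le_mul_of_nonneg_right h (by positivity)
    rw [pow_one] at h6
    linarith
  · refine ⟨2 ^ a, one_le_pow₀ (by norm_num), fun n m hn hnm hm => ?_⟩
    have h0 : 0 ≤ Real.log (m : ℝ) := Real.log_natCast_nonneg m
    have h3 : Real.log (m : ℝ) ^ a ≤ 2 ^ a * Real.log n ^ a := by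
      rw [← mul_pow]
      exact pow_le_pow_left₀ h0 (log_dbl hn hm) a
    calc K₁ * Real.log m ^ a ≤ K₁ * (2 ^ a * Real.log n ^ a) :=
          mul_le_mul_of_nonneg_left h3 (by linarith)
      _ = _ := by ring
  · have h1 := (Pool.Agent.R965.HP.log_pow_div a).const_mul K₁
    rw [mul_zero] at h1
    refine h1.congr (fun n => ?_)
    rw [mul_div_assoc]

theorem sqrt_phiA {K₁ : ℝ} (h : 0 ≤ K₁) (a n : ℕ) :
    Real.sqrt (K₁ * Real.log n ^ a / n) = Real.sqrt K₁ * Real.sqrt (Real.log n ^ a / n) := by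
  rw [mul_div_assoc, Real.sqrt_mul h]

/-- growth -/
theorem grD {Z : TH966.AK.Rule A} {μ K : ℝ} {a : ℕ} (G : Pool.Agent.R965.HP.Gr Z.sys μ K a)
    (ha : 1 ≤ a)
    {Y : TS (List (ℤ × ℤ)) (List (ℤ × ℤ) × List (ℤ × ℤ))} (hK : ∀ n, Y.K n = TH966.AK.Kw A n)
    (hS : ∀ w, Y.S w = Z.S w) (hB : ∀ w, Y.B w = Z.B w) :
    ∃ K₁ : ℝ, 2 ^ a ≤ K₁ ∧ Gr Y μ (fun n => K₁ * Real.log n ^ a) ∧
      ∃ K' : ℝ, 0 ≤ K' ∧ ∀ n : ℕ, 2 ≤ n →
        μ ^ n ≤ Real.exp (K' * (K₁ * Real.log n ^ a)) * ((Y.K n).card : ℝ) := by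
  obtain ⟨c, hc⟩ : ∃ c : ℝ, c = ((TH966.AK.Kw A 0).card : ℝ) + ((TH966.AK.Kw A 1).card : ℝ) :=
    ⟨_, rfl⟩
  have hc0 : 0 ≤ c := by rw [hc]; positivity
  have hK0 := G.hK
  have hμ := G.hμ
  have h2a : (0 : ℝ) < 2 ^ a := by positivity
  have hkey : 2 ^ a ≤ 2 ^ a * (K + c + 1) := le_mul_of_one_le_right h2a.le (by linarith)
  refine ⟨2 ^ a * (K + c + 1), hkey, ⟨hμ, phi_pow a ha _ hkey, ?_, ?_⟩, 1, by norm_num, ?_⟩
  · intro n m hn hm
    have hlog := log_two_le hn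
    have h5' : 1 ≤ 2 * Real.log (n : ℝ) := by linarith
    have h6' : 1 ≤ (2 * Real.log (n : ℝ)) ^ a := one_le_pow₀ h5'
    rw [hK]
    rcases Nat.lt_or_ge m 2 with h2 | h2
    · have h3 : ((TH966.AK.Kw A m).card : ℝ) ≤ c := by
        rw [hc]
        interval_cases m
        · have : (0 : ℝ) ≤ ((TH966.AK.Kw A 1).card : ℝ) := Nat.cast_nonneg _
          linarith
        · have : (0 : ℝ) ≤ ((TH966.AK.Kw A 0).card : ℝ) := Nat.cast_nonneg _
          linarith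
      have h4 : c ≤ Real.exp (2 ^ a * (K + c + 1) * Real.log n ^ a) := by
        have h7 := Real.add_one_le_exp (2 ^ a * (K + c + 1) * Real.log n ^ a)
        have h8 : 2 ^ a * (K + c + 1) * Real.log n ^ a =
            (2 * Real.log (n : ℝ)) ^ a * (K + c + 1) := by
          rw [mul_pow]
          ring
        have h9 : 1 * (K + c + 1) ≤ (2 * Real.log (n : ℝ)) ^ a * (K + c + 1) :=
          mul_le_mul_of_nonneg_right h6' (by linarith)
        rw [← h8] at h9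
        linarith
      have h5 : 1 ≤ μ ^ m := one_le_pow₀ hμ
      calc ((TH966.AK.Kw A m).card : ℝ) ≤ c := h3
        _ ≤ Real.exp (2 ^ a * (K + c + 1) * Real.log n ^ a) := h4
        _ ≤ _ := le_mul_of_one_le_left (Real.exp_pos _).le h5
    · refine (show ((TH966.AK.Kw A m).card : ℝ) ≤ _ from G.up m h2).trans ?_
      have h0 : 0 ≤ Real.log (m : ℝ) := Real.log_natCast_nonneg m
      have h3 : Real.log (m : ℝ) ^ a ≤ 2 ^ a * Real.log n ^ a := by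
        rw [← mul_pow]
        exact pow_le_pow_left₀ h0 (log_dbl hn hm) a
      have hla : 0 ≤ Real.log (n : ℝ) ^ a := by positivity
      have h4 : K * Real.log m ^ a ≤ 2 ^ a * (K + c + 1) * Real.log n ^ a := by
        calc K * Real.log m ^ a ≤ K * (2 ^ a * Real.log n ^ a) :=
              mul_le_mul_of_nonneg_left h3 hK0
          _ ≤ (K + c + 1) * (2 ^ a * Real.log n ^ a) :=
              mul_le_mul_of_nonneg_right (by linarith) (by positivity)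
          _ = _ := by ring
      have hμ0 : 0 ≤ μ ^ m := pow_nonneg (by linarith) m
      exact mul_le_mul_of_nonneg_left (Real.exp_le_exp.mpr h4) hμ0
  · obtain ⟨M, θ, C', h1, h2, h3, h4, h5⟩ := Z.sys.pattern μ hμ G.hup G.poor
    refine ⟨M, θ, C', h1, h2, h3, h4, fun n => ?_⟩
    have h6 : bad Y M n = Z.sys.bad M n := by
      unfold bad TH966.AK.Sys.bad
      rw [hK]
      simp only [hS, hB]
      rfl
    rw [h6]
    exact h5 n
  · intro n hn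
    have h1 := G.low n hn
    have hlog := log_two_le hn
    have h2 : 0 ≤ Real.log (n : ℝ) ^ a := by positivity
    have h2' : (1 : ℝ) ≤ 2 ^ a := one_le_pow₀ (by norm_num)
    have h3 : K * Real.log n ^ a ≤ 1 * (2 ^ a * (K + c + 1) * Real.log n ^ a) := by
      rw [one_mul]
      refine mul_le_mul_of_nonneg_right ?_ h2
      nlinarith
    rw [hK]
    have h4 : (0 : ℝ) ≤ ((TH966.AK.Kw A n).card : ℝ) := Nat.cast_nonneg _
    calc μ ^ n = Real.exp (K * Real.log n ^ a) * (μ ^ n * Real.exp (-(K * Real.log n ^ a))) := by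
          rw [mul_left_comm, ← Real.exp_add]
          simp
      _ ≤ Real.exp (K * Real.log n ^ a) * ((TH966.AK.Kw A n).card : ℝ) :=
          mul_le_mul_of_nonneg_left h1 (Real.exp_pos _).le
      _ ≤ _ := mul_le_mul_of_nonneg_right (Real.exp_le_exp.mpr h3) h4

theorem rep_one {α σ : Type} {Y : TS α σ} {F : α → ℝ} (hF : ∀ w, |F w| ≤ 1)
    (hI : ∀ n, ∀ w ∈ Y.K n, ∀ q ∈ Y.S w, F (Y.ins w q) = F w) :
    ∀ L : Finset σ, Fam Y L → ∀ st fl, Fill Y L st fl → ∀ w, Em Y L w →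
      Rp (Sl Y L w) (fun U => F (fl w U)) 1 := by
  intro L _ st fl hfl w hw
  obtain ⟨v, hv, hv'⟩ := Rp.const (E := Sl Y L w) (F w)
  exact ⟨v, hv.trans (hF w), fun U hU => (fl_inv hfl hI hw U hU).trans (hv' U hU)⟩

/-- the end point is invariant -/
theorem lst_invD {Z : TH966.AK.Rule A}
    {Y : TS (List (ℤ × ℤ)) (List (ℤ × ℤ) × List (ℤ × ℤ))} (hK : ∀ n, Y.K n = TH966.AK.Kw A n)
    (hS : ∀ w, Y.S w = Z.S w) (hI : ∀ w q, Y.ins w q = rep w q.1 q.2) {β : Type}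
    (f : ℤ × ℤ → β) :
    ∀ n, ∀ w ∈ Y.K n, ∀ q ∈ Y.S w, f (TH966.AK.lst (Y.ins w q)) = f (TH966.AK.lst w) := by
  intro n w hw q hq
  rw [hK, Z.mem_K] at hw
  rw [hS, Z.mem_S] at hq
  have h1 := last_rep (A := A) (o := (0 : ℤ × ℤ)) (U := q.1) (U' := q.2) (w := w)
    (Z.pair _ _ hq.1) hw.2 hq.2
  rw [hI]
  unfold TH966.AK.lst
  rw [h1]

/-- **Numbers of walks** -/
theorem dom_count {Z : TH966.AK.Rule A} {μ K : ℝ} {a : ℕ}
    (G : Pool.Agent.R965.HP.Gr Z.sys μ K a) (ha : 1 ≤ a) :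
    ∀ r : ℕ, 1 ≤ r → ∃ C : ℝ, 0 < C ∧ ∀ n : ℕ, 2 ≤ n →
      |∑ i ∈ range (r + 1), (-1 : ℝ) ^ i * (r.choose i : ℝ) *
        Real.log (((TH966.AK.Kw A (n + Z.s * i)).card : ℝ) / μ ^ (n + Z.s * i))| ≤
        C * Real.sqrt (Real.log n ^ a / n) ^ r := by
  intro r hr
  obtain ⟨Y, y1, y2, y3, y4, y5⟩ := sys2 Z G.hs
  obtain ⟨K₁, hK₁, hG, hl⟩ := grD G ha y2 y3 y4
  obtain ⟨C, hC, h⟩ := cntT Y hG hl r hr
  have hK0 : (0 : ℝ) < K₁ := lt_of_lt_of_le (by positivity) hK₁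
  refine ⟨C * Real.sqrt K₁ ^ r, by positivity, fun n hn => ?_⟩
  have h1 := h n hn
  rw [y1] at h1
  simp only [y2] at h1
  rw [sqrt_phiA hK0.le, mul_pow] at h1
  rw [mul_assoc]
  exact h1

/-- **Moments** -/
theorem dom_moment {Z : TH966.AK.Rule A} {μ K : ℝ} {a : ℕ}
    (G : Pool.Agent.R965.HP.Gr Z.sys μ K a) (ha : 1 ≤ a)
    (N : ℤ × ℤ → ℝ) (D : ℝ) (hD : 1 ≤ D) (h0 : N 0 = 0)
    (h1 : ∀ n, 1 ≤ n → ∀ w ∈ TH966.AK.Kw A n, 1 / D ≤ N (TH966.AK.lst w))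
    (h2 : ∀ n, ∀ w ∈ TH966.AK.Kw A n, N (TH966.AK.lst w) ≤ D * ((n : ℝ) + 1)) (p : ℝ) :
    (∀ n, 2 ≤ n → 0 < TH966.AK.WF A (fun x => N x ^ p) n) ∧
    ∀ r : ℕ, 1 ≤ r → ∃ C : ℝ, 0 < C ∧ ∀ n : ℕ, 2 ≤ n →
      |∑ i ∈ range (r + 1), (-1 : ℝ) ^ i * (r.choose i : ℝ) *
        Real.log (TH966.AK.WF A (fun x => N x ^ p) (n + Z.s * i) /
          ((TH966.AK.Kw A (n + Z.s * i)).card : ℝ))| ≤
        C * Real.sqrt (Real.log n ^ a / n) ^ r := by
  obtain ⟨Y, y1, y2, y3, y4, y5⟩ := sys2 Z G.hs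
  obtain ⟨K₁, hK₁, hG, hl⟩ := grD G ha y2 y3 y4
  have hz : ∀ w ∈ TH966.AK.Kw A 0, TH966.AK.lst w = 0 := by
    intro w hw
    have h3 := TH966.AK.lst_le Z hw
    rw [Nat.cast_zero, abs_nonpos_iff, abs_nonpos_iff] at h3
    exact Prod.ext h3.1 h3.2
  obtain ⟨hp, h⟩ := momT Y hG hl (fun w => N (TH966.AK.lst w)) D hD
    (fun n w hw => by
      rw [y2] at hw
      rcases Nat.eq_zero_or_pos n with rfl | hn
      · left
        refine ⟨by norm_num, ?_⟩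
        rw [hz w hw, h0]
      · right
        exact ⟨h1 n hn w hw, h2 n w hw⟩)
    (lst_invD y2 y3 y5 N) p
  refine ⟨fun n hn => ?_, fun r hr => ?_⟩
  · have := hp n hn
    rw [y2] at this
    exact this
  · obtain ⟨C, hC, h'⟩ := h r hr
    have hK0 : (0 : ℝ) < K₁ := lt_of_lt_of_le (by positivity) hK₁
    refine ⟨C * Real.sqrt K₁ ^ r, by positivity, fun n hn => ?_⟩
    have h1 := h' n hn
    rw [y1] at h1
    simp only [y2] at h1
    rw [sqrt_phiA hK0.le, mul_pow] at h1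
    rw [mul_assoc]
    exact h1

/-- **The law of the end point** -/
theorem dom_end (hlaw : S_LAW) {Z : TH966.AK.Rule A} {μ K : ℝ}
    {a : ℕ} (G : Pool.Agent.R965.HP.Gr Z.sys μ K a) (ha : 1 ≤ a) (r : ℕ) :
    ∃ C : ℝ, 0 < C ∧ ∀ n : ℕ, 2 ≤ n →
      ∀ S : Set (ℤ × ℤ), |∑ i ∈ range (r + 1), (-1 : ℝ) ^ i * (r.choose i : ℝ) *
        ((((TH966.AK.Kw A (n + Z.s * i)).filter (fun w => TH966.AK.lst w ∈ S)).card : ℝ) /
          ((TH966.AK.Kw A (n + Z.s * i)).card : ℝ))| ≤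
        C * Real.sqrt (Real.log n ^ a / n) ^ r := by
  obtain ⟨Y, y1, y2, y3, y4, y5⟩ := sys2 Z G.hs
  obtain ⟨K₁, hK₁, hG, hl⟩ := grD G ha y2 y3 y4
  obtain ⟨C, hC, h⟩ := hlaw _ _ Y μ _ hG hl r 1 (by norm_num)
  have hK0 : (0 : ℝ) < K₁ := lt_of_lt_of_le (by positivity) hK₁
  refine ⟨C * Real.sqrt K₁ ^ r, by positivity, fun n hn S => ?_⟩
  have hF : ∀ w : List (ℤ × ℤ), |(if TH966.AK.lst w ∈ S then (1 : ℝ) else 0)| ≤ 1 := by
    intro w
    split_ifs <;> norm_num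
  have h1 := h n hn (fun w => if TH966.AK.lst w ∈ S then (1 : ℝ) else 0) hF
    (rep_one hF (lst_invD y2 y3 y5 (fun x => if x ∈ S then (1 : ℝ) else 0)))
  rw [y1] at h1
  simp only [y2, Finset.sum_boole] at h1
  rw [sqrt_phiA hK0.le, mul_pow] at h1
  rw [mul_assoc]
  exact h1

end

end Pool.Agent.N929.EG
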