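import Pool.Agent.N929.EG.SzStm

/-!
# The sum over the vertices is additive in the occupied slots
(adapted from a proof of helper82)
-/

set_option autoImplicit false

namespace Pool.Agent.N929.EG

open Finset
open scoped Classical

theorem fl_add {α σ V : Type} [AddCommGroup V] {Y : TS α σ} {L : Finset σ} {st : α → α}
    {fl : α → Finset σ → α} (h : Fill Y L st fl) {F : α → V} {D : σ → V}
    (hF : ∀ n, ∀ w ∈ Y.K n, ∀ q ∈ Y.S w, F (Y.ins w q) = F w + D q)
    {w : α} (hw : Em Y L w) : ∀ U : Finset σ, U ⊆ Sl Y L w → F (fl w U) = F w + ∑ q ∈ U, D q := by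
  intro U
  induction U using Finset.induction_on with
  | empty =>
    intro _
    rw [h.fl_empty w hw, sum_empty, add_zero]
  | insert q U hq ih =>
    intro hU
    have h1 : U ⊆ Sl Y L w := fun x hx => hU (mem_insert_of_mem hx)
    have h2 : q ∈ Sl Y L w := hU (mem_insert_self q U)
    obtain ⟨h3, h4⟩ := h.fl_insert w U q hw h1 h2 hq
    rw [h4, hF _ _ (h.fl_K w U hw h1) q h3, ih h1, sum_insert hq, add_assoc, add_comm (D q)]

theorem sm_append {Ver V : Type} [AddCommGroup V] (f : Ver → V) (a b : List Ver) :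
    sm f (a ++ b) = sm f a + sm f b := by
  unfold sm
  rw [List.map_append, List.sum_append]

theorem sm_rep {Ver : Type} {o : Ver} {A : Ver → Ver → Prop} {U U' w : List Ver}
    (h : Pair A U U') (hw : Walk o A w) (hf : Free U U' w) {V : Type} [AddCommGroup V]
    (f : Ver → V) : sm f (rep w U U') = sm f w + (sm f U' - sm f U) := by
  obtain ⟨L, R, h1, h2, -, -, -⟩ := rep_all h hw hf
  have e : sm f w = sm f L + sm f U + sm f R := by rw [h1, sm_append, sm_append]
  rw [h2, sm_append, sm_append, e]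
  abel

theorem fsm : S_FSM := by
  intro Ver X A Z Y hW L st fl hF V _ f w hE U hU
  refine fl_add hF (F := fun w => sm f w) (D := fun q => sm f q.2 - sm f q.1)
    (fun n w hw q hq => ?_) hE U hU
  obtain ⟨h3, h4⟩ := (hW.S _ _).1 hq
  rw [hW.ins]
  exact sm_rep (Z.pair _ _ h3) ((hW.K _ _).1 hw).2 h4 f

end Pool.Agent.N929.EG
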