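import Pool.Agent.N929.EG.SizeM
import Pool.Agent.N929.EG.Dom
import Pool.Agent.N394.EG.Law
import Pool.Agent.N929.EG.Fsm
import Pool.Agent.N713.EG.Mul
import Pool.Agent.N692.EG.NEA
import Pool.Agent.N342.EG.TTI
import Pool.Agent.N835.EG.Lgn

/-!
# The sizes of walks on planar lattices
-/

set_option autoImplicit false
set_option linter.unusedVariables false

namespace Pool.Agent.N929.EG

open Finset Filter Topology
open scoped Classical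

noncomputable section

theorem lib : Lib := ⟨Pool.Agent.N929.EG.fsm, Pool.Agent.N713.EG.mul, Pool.Agent.N692.EG.nea,
  Pool.Agent.N342.EG.tti, Pool.Agent.N342.EG.ttl, Pool.Agent.N835.EG.lgn⟩

variable {A : ℤ × ℤ → ℤ × ℤ → Prop}

/-- the system of moves -/
theorem sys2W (Z : TH966.AK.Rule A) (hs : 1 ≤ Z.s) :
    ∃ Y : TS (List (ℤ × ℤ)) (List (ℤ × ℤ) × List (ℤ × ℤ)), Win (toRul Z hs) Y ∧ Y.s = Z.s ∧
      (∀ n, Y.K n = TH966.AK.Kw A n) ∧ (∀ w, Y.S w = Z.S w) ∧ (∀ w, Y.B w = Z.B w) ∧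
      (∀ w q, Y.ins w q = rep w q.1 q.2) := by
  obtain ⟨Y, h1, h2, h3, h4, h5, h6⟩ := s_win (ℤ × ℤ) X2 A (toRul Z hs)
  refine ⟨Y, ⟨h1, h2, h3, h4, h5, h6⟩, h1, fun n => ?_, fun w => ?_, fun w => ?_, h6⟩
  · ext w
    rw [h3, Z.mem_K]
    rfl
  · ext q
    rw [h4, Z.mem_S]
    rfl
  · ext q
    rw [h5, Z.mem_B]
    rfl

/-- an embedding of the planar graph -/
structure Pl (A : ℤ × ℤ → ℤ × ℤ → Prop) (pt : ℤ × ℤ → ℂ) (c δ : ℝ) : Prop where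
  near : ∀ (x y : ℤ × ℤ) (d : ℕ), |x.1 - y.1| ≤ d → |x.2 - y.2| ≤ d →
    ‖pt x - pt y‖ ≤ c * ((d : ℝ) + 1)
  δ0 : 0 < δ
  sep : ∀ x y, x ≠ y → δ ≤ ‖pt x - pt y‖
  adj : ∀ x y, A x y → ‖pt x - pt y‖ ≤ 1

theorem Pl.lt {pt : ℤ × ℤ → ℂ} {c δ : ℝ} (H : Pl A pt c δ) (ρ : ℕ) :
    Lt X2 A ρ pt (c * ((ρ : ℝ) + 1)) δ where
  near := by
    intro x y h
    change y ∈ TH966.AK.box x ρ at h
    rw [TH966.AK.mem_box] at h
    exact H.near x y ρ h.1 h.2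
  δ0 := H.δ0
  sep := H.sep
  adj := H.adj

/-- the moments of the sum of the squared distances of pairs -/
theorem dom_gyr {Z : TH966.AK.Rule A} {μ K : ℝ} {a : ℕ} (G : Pool.Agent.R965.HP.Gr Z.sys μ K a)
    (ha : 1 ≤ a) {pt : ℤ × ℤ → ℂ} {c δ : ℝ} (H : Pl A pt c δ) (k : ℕ) :
    (∀ n, 2 ≤ n → 0 < ∑ w ∈ TH966.AK.Kw A n, TT pt w ^ k) ∧
    ∀ r : ℕ, 1 ≤ r → ∃ C : ℝ, 0 < C ∧ ∀ n : ℕ, 2 ≤ n →
      |∑ i ∈ range (r + 1), (-1 : ℝ) ^ i * (r.choose i : ℝ) *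
        Real.log ((∑ w ∈ TH966.AK.Kw A (n + Z.s * i), TT pt w ^ k) /
          ((TH966.AK.Kw A (n + Z.s * i)).card : ℝ) /
          (2 ^ k * (((n + Z.s * i : ℕ) : ℝ) + 1) ^ (2 * k)))| ≤
        C * Real.sqrt (Real.log n ^ a / n) ^ r := by
  obtain ⟨Y, W, y1, y2, y3, y4, y5⟩ := sys2W Z G.hs
  obtain ⟨K₁, hK₁, hG, hl⟩ := grD G ha y2 y3 y4
  obtain ⟨h1, h2⟩ := gyr lib W (H.lt _) hG hl k
  have hcp : ∀ n, 2 ≤ n → 0 < ((Y.K n).card : ℝ) := fun n hn => card_posT Y hG hl hn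
  refine ⟨fun n hn => by have := h1 n hn; rwa [y2] at this, fun r hr => ?_⟩
  obtain ⟨C, hC, h⟩ := mean_norm Y hG lib.lgn
    (fun n => (∑ w ∈ Y.K n, TT pt w ^ k) / ((Y.K n).card : ℝ))
    (fun n hn => div_pos (h1 n hn) (hcp n hn)) (2 ^ k) (by positivity) (2 * k) r hr (h2 r hr)
  have hK0 : (0 : ℝ) < K₁ := lt_of_lt_of_le (by positivity) hK₁
  refine ⟨C * Real.sqrt K₁ ^ r, by positivity, fun n hn => ?_⟩
  have h3 := h n hn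
  rw [y1] at h3
  simp only [y2] at h3
  rw [sqrt_phiA hK0.le, mul_pow] at h3
  rw [mul_assoc]
  exact h3

/-- the moments of the sum of the squared distances from the ends -/
theorem dom_mon {Z : TH966.AK.Rule A} {μ K : ℝ} {a : ℕ} (G : Pool.Agent.R965.HP.Gr Z.sys μ K a)
    (ha : 1 ≤ a) {pt : ℤ × ℤ → ℂ} {c δ : ℝ} (H : Pl A pt c δ) (k : ℕ) :
    (∀ n, 2 ≤ n → 0 < ∑ w ∈ TH966.AK.Kw A n, MM X2 pt w ^ k) ∧
    ∀ r : ℕ, 1 ≤ r → ∃ C : ℝ, 0 < C ∧ ∀ n : ℕ, 2 ≤ n →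
      |∑ i ∈ range (r + 1), (-1 : ℝ) ^ i * (r.choose i : ℝ) *
        Real.log ((∑ w ∈ TH966.AK.Kw A (n + Z.s * i), MM X2 pt w ^ k) /
          ((TH966.AK.Kw A (n + Z.s * i)).card : ℝ) /
          (2 ^ k * (((n + Z.s * i : ℕ) : ℝ) + 1) ^ k))| ≤
        C * Real.sqrt (Real.log n ^ a / n) ^ r := by
  obtain ⟨Y, W, y1, y2, y3, y4, y5⟩ := sys2W Z G.hs
  obtain ⟨K₁, hK₁, hG, hl⟩ := grD G ha y2 y3 y4
  obtain ⟨h1, h2⟩ := mon lib W (H.lt _) hG hl k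
  have hcp : ∀ n, 2 ≤ n → 0 < ((Y.K n).card : ℝ) := fun n hn => card_posT Y hG hl hn
  refine ⟨fun n hn => by have := h1 n hn; rwa [y2] at this, fun r hr => ?_⟩
  obtain ⟨C, hC, h⟩ := mean_norm Y hG lib.lgn
    (fun n => (∑ w ∈ Y.K n, MM X2 pt w ^ k) / ((Y.K n).card : ℝ))
    (fun n hn => div_pos (h1 n hn) (hcp n hn)) (2 ^ k) (by positivity) k r hr (h2 r hr)
  have hK0 : (0 : ℝ) < K₁ := lt_of_lt_of_le (by positivity) hK₁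
  refine ⟨C * Real.sqrt K₁ ^ r, by positivity, fun n hn => ?_⟩
  have h3 := h n hn
  rw [y1] at h3
  simp only [y2] at h3
  rw [sqrt_phiA hK0.le, mul_pow] at h3
  rw [mul_assoc]
  exact h3

/-! ### the three lattices in the full plane -/

open TH966.AK Pool.Agent.R965.HP

/-- the growth bounds for the full plane, from those in the domain of all points -/
theorem full_gr (L : H982.Lat) {A : ℤ × ℤ → ℤ × ℤ → Prop} (Z : Rule A) (hs1 : 1 ≤ Z.s)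
    {φ : ℤ × ℤ → ℤ × ℤ} {R : ℕ → ℤ × ℤ → Prop} (H : @H982.Coord L A φ R)
    (hp : ∃ (M0 : ℕ) (ρ C0 : ℝ), 1 ≤ M0 ∧ 0 ≤ ρ ∧ ρ < @H982.mu L ∧ ∀ n : ℕ,
      (((Kw A n).filter (fun w => M0 * (Z.B w).card ≤ n)).card : ℝ) ≤ C0 * ρ ^ n) :
    ∃ K : ℝ, Pool.Agent.R965.HP.Gr (ruleD Z (fun _ => True)).sys (@H982.mu L) K 2 := by
  refine gr_dom Z H hs1 (fun _ => True) trivial (fun _ _ _ _ _ _ => trivial) hp (K := 0) le_rfl
    fun n hn => ?_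
  have e2 : AD A (fun _ => True) = A := by
    funext p q
    unfold AD
    simp
  rw [e2, card_full Z H n, zero_mul, neg_zero, Real.exp_zero, mul_one]
  exact @H982.mu_pow_le L n

/-! ### walks as functions -/

theorem sum_list {A : ℤ × ℤ → ℤ × ℤ → Prop} (Z : Rule A) (n : ℕ)
    (F : (Fin (n + 1) → ℤ × ℤ) → ℝ) (F' : List (ℤ × ℤ) → ℝ) (h : ∀ f, F f = F' (List.ofFn f)) :
    ∑ᶠ f ∈ wks A n, F f = ∑ w ∈ Kw A n, F' w := by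
  rw [← finsum_mem_coe_finset, ← image_wks Z,
    finsum_mem_image (List.ofFn_injective.injOn)]
  exact finsum_mem_congr rfl fun f _ => h f

theorem sm_ofFn {n : ℕ} (g : ℤ × ℤ → ℝ) (f : Fin n → ℤ × ℤ) : sm g (List.ofFn f) = ∑ i, g (f i) := by
  unfold sm
  rw [List.map_ofFn, List.sum_ofFn]
  rfl

theorem TT_ofFn (pt : ℤ × ℤ → ℂ) {n : ℕ} (f : Fin (n + 1) → ℤ × ℤ) :
    TT pt (List.ofFn f) = ∑ i, ∑ j, ‖pt (f i) - pt (f j)‖ ^ 2 := by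
  unfold TT
  rw [sm_ofFn]
  refine sum_congr rfl (fun i _ => ?_)
  rw [sm_ofFn]

theorem MM_ofFn (pt : ℤ × ℤ → ℂ) (h0 : pt 0 = 0) {n : ℕ} (f : Fin (n + 1) → ℤ × ℤ) :
    MM X2 pt (List.ofFn f) =
      ∑ i, (‖pt (f i)‖ ^ 2 + ‖pt (f i) - pt (f (Fin.last n))‖ ^ 2) := by
  have h1 : en X2 (List.ofFn f) = f (Fin.last n) := lst_ofFn f
  have h2 : pt X2.o = 0 := h0
  unfold MM S2
  rw [h1, h2, sm_ofFn, sm_ofFn, sum_add_distrib]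
  simp only [sub_zero]

end

end Pool.Agent.N929.EG
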