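import Pool.Agent.N929.EG.Lst
import Pool.Agent.TH966.KO.Kes
import Pool.Agent.TH966.KO.WCls

/-!
# Walks on `ℤ³`: statements
-/

set_option autoImplicit false
set_option linter.unusedVariables false

namespace Pool.Agent.N929.EG

open Finset Filter Topology KN TH966.KO

/-- adjacency on `ℤ³` -/
def A3 (p q : Z3) : Prop := ∃ d : Dir, q = p + vec d

/-- one edge of a unit square is replaced by the three others -/
def T3 (U U' : List Z3) : Prop := ∃ (p : Z3) (d e : Dir), perp d e ∧ U = [p, p + vec e] ∧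
  U' = [p, p + vec d, p + vec d + vec e, p + vec e]

/-- GEO3: the local rule -/
def S_GEO3 : Prop := ∃ (X : Geo Z3) (Z : Rul X A3), X.o = 0 ∧ Z.s = 2 ∧ Z.T = T3

/-- WK3: words and lists of vertices -/
def S_WK3 : Prop := ∀ (n : ℕ) (w : List Z3), (w.length = n + 1 ∧ Walk 0 A3 w) ↔
  ∃ u ∈ SS n, w = (path u).reverse

/-- CNT3: the number of moves -/
def S_CNT3 : Prop := ∀ (n : ℕ) (u : List Dir), u ∈ SS n → ∀ S : Finset (List Z3 × List Z3),
  ((∀ q, q ∈ S ↔ T3 q.1 q.2 ∧ Free q.1 q.2 (path u).reverse) → fr u ≤ S.card) ∧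
  ((∀ q, q ∈ S ↔ T3 q.1 q.2 ∧ Free q.2 q.1 (path u).reverse) → bu u ≤ S.card)

end Pool.Agent.N929.EG
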