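import Pool.Agent.N929.EG.Main
import Pool.Agent.TH966.AK.HexEnd

/-!
# Walks on planar lattices: regularity to all orders
-/

set_option autoImplicit false
set_option linter.unusedVariables false

namespace Pool.Agent.N929.EG

open Finset Filter Topology
open scoped Classical

noncomputable section

/-- boxes in `ℤ²` -/
def X2 : Geo (ℤ × ℤ) where
  o := 0
  bx := TH966.AK.box
  g ρ := (2 * ρ + 1) ^ 2
  card_bx x ρ := (TH966.AK.card_box x ρ).le
  self x ρ := by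
    rw [TH966.AK.mem_box]
    simp
  symm x y ρ h := by
    rw [TH966.AK.mem_box] at h ⊢
    rw [abs_le, abs_le] at h ⊢
    omega
  mono x ρ ρ' h y hy := by
    rw [TH966.AK.mem_box] at hy ⊢
    rw [abs_le, abs_le] at hy ⊢
    omega
  tri x y z ρ ρ' h1 h2 := by
    rw [TH966.AK.mem_box] at h1 h2 ⊢
    rw [abs_le, abs_le] at h1 h2 ⊢
    push_cast
    omega

variable {A : ℤ × ℤ → ℤ × ℤ → Prop}

/-- the local rule -/
def toRul (Z : TH966.AK.Rule A) (hs : 1 ≤ Z.s) : Rul X2 A where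
  T := Z.T
  ρ := Z.ρ
  k := Z.k
  s := Z.s
  hs := hs
  step p q h := by
    have := Z.step p q h
    change q ∈ TH966.AK.box p 1
    rw [TH966.AK.mem_box]
    exact_mod_cast this
  pair U U' h := Z.pair U U' h
  len U U' h := Z.len U U' h
  loc U U' h x hx y hy := by
    change y ∈ TH966.AK.box x Z.ρ
    rw [TH966.AK.mem_box]
    exact Z.loc U U' h x hx y hy

/-- the system of moves -/
theorem sys2 (Z : TH966.AK.Rule A) (hs : 1 ≤ Z.s) :
    ∃ Y : TS (List (ℤ × ℤ)) (List (ℤ × ℤ) × List (ℤ × ℤ)), Y.s = Z.s ∧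
      (∀ n, Y.K n = TH966.AK.Kw A n) ∧ (∀ w, Y.S w = Z.S w) ∧ (∀ w, Y.B w = Z.B w) ∧
      (∀ w q, Y.ins w q = rep w q.1 q.2) := by
  obtain ⟨Y, h1, h2, h3, h4, h5, h6⟩ := s_win (ℤ × ℤ) X2 A (toRul Z hs)
  refine ⟨Y, h1, fun n => ?_, fun w => ?_, fun w => ?_, h6⟩
  · ext w
    rw [h3, Z.mem_K]
    rfl
  · ext q
    rw [h4, Z.mem_S]
    rfl
  · ext q
    rw [h5, Z.mem_B]
    rfl

/-- the last vertex does not change -/
theorem last_rep {Ver : Type} {o : Ver} {A : Ver → Ver → Prop} {U U' w : List Ver}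
    (h : Pair A U U') (hw : Walk o A w) (hf : Free U U' w) :
    (rep w U U').getLast? = w.getLast? := by
  obtain ⟨L, R, h1, h2, -, -, -⟩ := rep_all h hw hf
  obtain ⟨⟨p, r, X, X', e1, e2, -, -⟩, -⟩ := h
  have e : ∀ Q : List Ver, (L ++ (p :: (Q ++ [r])) ++ R).getLast? = (r :: R).getLast? := by
    intro Q
    have h3 : L ++ (p :: (Q ++ [r])) ++ R = (L ++ (p :: Q)) ++ r :: R := by simp
    rw [h3, List.getLast?_append_cons]
  rw [h2, h1, e1, e2, e, e]

/-- the rate function -/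
theorem phi_log (K₁ : ℝ) (h : 2 ≤ K₁) : Phi (fun n => K₁ * Real.log n ^ 2) := by
  constructor
  · intro n hn
    have hn' : (2 : ℝ) ≤ n := by exact_mod_cast hn
    have := Real.log_two_gt_d9
    have h3 : Real.log 2 ≤ Real.log n := Real.log_le_log (by norm_num) hn'
    have h4 : 0.69 ≤ Real.log n := by linarith
    have h5 : 0 ≤ Real.log n ^ 2 := by positivity
    nlinarith
  · refine ⟨4, by norm_num, fun n m hn hnm hm => ?_⟩
    have hn' : (2 : ℝ) ≤ n := by exact_mod_cast hn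
    have hm' : (m : ℝ) ≤ 2 * n := by exact_mod_cast hm
    have hnm' : (n : ℝ) ≤ m := by exact_mod_cast hnm
    have h0 : 0 ≤ Real.log m := Real.log_nonneg (by linarith)
    have h1 : Real.log m ≤ 2 * Real.log n := by
      have h2 : Real.log m ≤ Real.log (n ^ 2 : ℝ) := Real.log_le_log (by linarith) (by nlinarith)
      rwa [Real.log_pow, Nat.cast_ofNat] at h2
    have h3 : Real.log m ^ 2 ≤ 4 * Real.log n ^ 2 := by nlinarith
    calc K₁ * Real.log m ^ 2 ≤ K₁ * (4 * Real.log n ^ 2) := by gcongr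
      _ = _ := by ring
  · have h1 := (TH966.AK.log_sq_tendsto.pow 2).const_mul K₁
    rw [zero_pow two_ne_zero, mul_zero] at h1
    refine h1.congr (fun n => ?_)
    rw [div_pow, Real.sq_sqrt (Nat.cast_nonneg n), mul_div_assoc]

theorem sqrt_phi {K₁ : ℝ} (h : 0 ≤ K₁) (n : ℕ) :
    Real.sqrt (K₁ * Real.log n ^ 2 / n) = Real.sqrt K₁ * (Real.log n / Real.sqrt n) := by
  have h1 : 0 ≤ Real.log (n : ℝ) := Real.log_natCast_nonneg n
  rw [mul_div_assoc, Real.sqrt_mul h, Real.sqrt_div (by positivity), Real.sqrt_sq h1]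

/-- growth -/
theorem gr2 {Z : TH966.AK.Rule A} {μ K : ℝ} (G : TH966.AK.Growth Z μ K)
    {Y : TS (List (ℤ × ℤ)) (List (ℤ × ℤ) × List (ℤ × ℤ))} (hK : ∀ n, Y.K n = TH966.AK.Kw A n)
    (hS : ∀ w, Y.S w = Z.S w) (hB : ∀ w, Y.B w = Z.B w) :
    ∃ K₁ : ℝ, 2 ≤ K₁ ∧ Gr Y μ (fun n => K₁ * Real.log n ^ 2) := by
  obtain ⟨c, hc⟩ : ∃ c : ℝ, c = ((TH966.AK.Kw A 0).card : ℝ) + ((TH966.AK.Kw A 1).card : ℝ) :=
    ⟨_, rfl⟩
  have hc0 : 0 ≤ c := by rw [hc]; positivity
  have hK0 := G.hK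
  have hμ := G.hμ
  refine ⟨4 * K + 3 * c + 2, by linarith, ⟨hμ, phi_log _ (by linarith), ?_, ?_⟩⟩
  · intro n m hn hm
    have hn' : (2 : ℝ) ≤ n := by exact_mod_cast hn
    have hlog : 0.69 ≤ Real.log n := by
      have := Real.log_two_gt_d9
      have h3 : Real.log 2 ≤ Real.log n := Real.log_le_log (by norm_num) hn'
      linarith
    have hlog2 : 0.476 ≤ Real.log n ^ 2 := by nlinarith
    rw [hK]
    rcases Nat.lt_or_ge m 2 with h2 | h2
    · have h3 : ((TH966.AK.Kw A m).card : ℝ) ≤ c := by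
        rw [hc]
        interval_cases m
        · have : (0 : ℝ) ≤ ((TH966.AK.Kw A 1).card : ℝ) := Nat.cast_nonneg _
          linarith
        · have : (0 : ℝ) ≤ ((TH966.AK.Kw A 0).card : ℝ) := Nat.cast_nonneg _
          linarith
      have h4 : c ≤ Real.exp ((4 * K + 3 * c + 2) * Real.log n ^ 2) := by
        have := Real.add_one_le_exp ((4 * K + 3 * c + 2) * Real.log n ^ 2)
        nlinarith
      have h5 : 1 ≤ μ ^ m := one_le_pow₀ hμ
      calc ((TH966.AK.Kw A m).card : ℝ) ≤ c := h3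
        _ ≤ Real.exp ((4 * K + 3 * c + 2) * Real.log n ^ 2) := h4
        _ ≤ _ := le_mul_of_one_le_left (Real.exp_pos _).le h5
    · refine (G.up m h2).trans ?_
      have hm' : (m : ℝ) ≤ 2 * n := by exact_mod_cast hm
      have hm2 : (2 : ℝ) ≤ m := by exact_mod_cast h2
      have h0 : 0 ≤ Real.log m := Real.log_nonneg (by linarith)
      have h1 : Real.log m ≤ 2 * Real.log n := by
        have h2 : Real.log m ≤ Real.log (n ^ 2 : ℝ) :=
          Real.log_le_log (by linarith) (by nlinarith)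
        rwa [Real.log_pow, Nat.cast_ofNat] at h2
      have h3 : Real.log m ^ 2 ≤ 4 * Real.log n ^ 2 := by nlinarith
      have h4 : K * Real.log m ^ 2 ≤ (4 * K + 3 * c + 2) * Real.log n ^ 2 := by nlinarith
      gcongr
  · obtain ⟨M, θ, C', h1, h2, h3, h4, h5⟩ := Z.sys.pattern μ hμ G.hup G.poor
    refine ⟨M, θ, C', h1, h2, h3, h4, fun n => ?_⟩
    have h6 : bad Y M n = Z.sys.bad M n := by
      unfold bad TH966.AK.Sys.bad
      rw [hK]
      simp only [hS, hB]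
      rfl
    rw [h6]
    exact h5 n

/-- **The main theorem for planar lattices**: sums over the walks of functions of the end point -/
theorem planar {Z : TH966.AK.Rule A} {μ K : ℝ} (G : TH966.AK.Growth Z μ K) (P : ℕ → Prop)
    (f : ℤ × ℤ → ℝ) (C₀ : ℝ) (p : ℕ) (hC₀ : 0 ≤ C₀) (hP2 : ∀ n, P n → 2 ≤ n)
    (hPs : ∀ n, P n → P (n + Z.s))
    (hf : ∀ n, ∀ w ∈ TH966.AK.Kw A n, 0 ≤ f (TH966.AK.lst w) ∧
      f (TH966.AK.lst w) ≤ C₀ * ((n : ℝ) + 1) ^ p)
    (hlow : ∃ K' : ℝ, 0 ≤ K' ∧ ∀ n, P n →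
      μ ^ n ≤ Real.exp (K' * Real.log n ^ 2) * TH966.AK.WF A f n) :
    ∀ r : ℕ, 1 ≤ r → ∃ C : ℝ, 0 < C ∧ ∀ n : ℕ, P n →
      |∑ i ∈ range (r + 1), (-1 : ℝ) ^ i * (r.choose i : ℝ) *
        Real.log (TH966.AK.WF A f (n + Z.s * i) / μ ^ (n + Z.s * i))| ≤
        C * (Real.log n / Real.sqrt n) ^ r := by
  intro r hr
  obtain ⟨Y, y1, y2, y3, y4, y5⟩ := sys2 Z G.hs
  obtain ⟨K₁, hK₁, hG⟩ := gr2 G y2 y3 y4
  obtain ⟨K', hK', hlow'⟩ := hlow
  obtain ⟨C, hC, h⟩ := s_inv _ _ Y μ _ hG P (fun w => f (TH966.AK.lst w)) C₀ p hC₀ hP2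
    (by rw [y1]; exact hPs) (fun n w hw => by rw [y2] at hw; exact hf n w hw)
    (fun n w hw q hq => by
      rw [y2, Z.mem_K] at hw
      rw [y3, Z.mem_S] at hq
      have h1 := last_rep (A := A) (o := (0 : ℤ × ℤ)) (U := q.1) (U' := q.2) (w := w)
        (Z.pair _ _ hq.1) hw.2 hq.2
      rw [y5]
      unfold TH966.AK.lst
      rw [h1])
    ⟨K', hK', fun n hn => by
      have h1 := hlow' n hn
      have h2 : K' * Real.log n ^ 2 ≤ K' * (K₁ * Real.log n ^ 2) := by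
        have h3 : Real.log (n : ℝ) ^ 2 ≤ K₁ * Real.log n ^ 2 := by
          have := sq_nonneg (Real.log (n : ℝ))
          nlinarith
        gcongr
      have h4 : 0 ≤ TH966.AK.WF A f n := by
        unfold TH966.AK.WF
        exact sum_nonneg (fun w hw => (hf n w hw).1)
      rw [y2]
      refine h1.trans (mul_le_mul_of_nonneg_right (Real.exp_le_exp.mpr h2) h4)⟩ r hr
  refine ⟨C * Real.sqrt K₁ ^ r, by positivity, fun n hn => ?_⟩
  have h1 := h n hn
  rw [y1] at h1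
  simp only [y2] at h1
  rw [sqrt_phi (by linarith), mul_pow] at h1
  rw [mul_assoc]
  exact h1

end

end Pool.Agent.N929.EG
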