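import Pool.Agent.N929.EG.Phi3
import Pool.Agent.N929.EG.MomT
import Pool.Agent.N929.EG.Stm3
import Pool.Agent.N929.EG.Two
import Pool.Agent.N394.EG.Law
import Pool.Agent.N558.EG.WK3
import Pool.Agent.N953.EG.Geo3
import Pool.Agent.TH966.KO.WEnd
import Pool.Agent.TH232.S3.Iter

/-!
# Self-avoiding walks on `ℤ³`: regularity to all orders
-/

set_option autoImplicit false
set_option linter.unusedVariables false

namespace Pool.Agent.N929.EG

open Finset Filter Topology KN TH966.KO TH966.KO.BR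
open scoped Classical

noncomputable section

theorem vec_inj : ∀ d e : Dir, vec d = vec e → d = e := by decide

theorem path_inj : ∀ u v : List Dir, path u = path v → u = v
  | [], [], _ => rfl
  | [], d :: v, h => by
    have := congrArg List.length h
    rw [Pool.Agent.N558.EG.path_len, Pool.Agent.N558.EG.path_len] at this
    simp at this
  | d :: u, [], h => by
    have := congrArg List.length h
    rw [Pool.Agent.N558.EG.path_len, Pool.Agent.N558.EG.path_len] at this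
    simp at this
  | d :: u, e :: v, h => by
    rw [path, path, List.cons.injEq] at h
    have h1 := path_inj u v h.2
    subst h1
    rw [vec_inj d e (add_left_cancel h.1)]

/-- the last vertex -/
def e3 (w : List Z3) : Z3 := w.getLast?.getD 0

theorem e3_path (u : List Dir) : e3 (path u).reverse = pos u := by
  obtain ⟨l, hl⟩ := Pool.Agent.N558.EG.path_head u
  unfold e3
  rw [hl, List.getLast?_reverse]
  rfl

/-- The system of moves on `ℤ³` -/
structure Sys3 (Y : TS (List Z3) (List Z3 × List Z3)) : Prop where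
  s : Y.s = 2
  K : ∀ n w, w ∈ Y.K n ↔ ∃ u ∈ SS n, w = (path u).reverse
  e3 : ∀ n, ∀ w ∈ Y.K n, ∀ q ∈ Y.S w, e3 (Y.ins w q) = e3 w
  gr : ∃ K K₁ : ℝ, 0 ≤ K ∧ 3 ≤ K₁ ∧ Gr Y μ (fun n => K₁ * psi3 K n)

theorem sum_Y {Y : TS (List Z3) (List Z3 × List Z3)} (H : Sys3 Y) (n : ℕ) (F : List Z3 → ℝ) :
    ∑ w ∈ Y.K n, F w = ∑ u ∈ SS n, F (path u).reverse := by
  symm
  refine sum_bij (fun u _ => (path u).reverse) (fun u hu => (H.K n _).2 ⟨u, hu, rfl⟩)
    (fun u _ v _ h => path_inj u v (List.reverse_injective h)) (fun w hw => ?_)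
    (fun _ _ => rfl)
  obtain ⟨u, hu, rfl⟩ := (H.K n w).1 hw
  exact ⟨u, hu, rfl⟩

theorem card_Y {Y : TS (List Z3) (List Z3 × List Z3)} (H : Sys3 Y) (n : ℕ) :
    ((Y.K n).card : ℝ) = c n := by
  have h := sum_Y H n (fun _ => 1)
  rw [sum_const, sum_const, nsmul_eq_mul, nsmul_eq_mul, mul_one, mul_one, card_SS] at h
  exact h

theorem c_small {m : ℕ} (hm : m < 3) : (c m : ℝ) ≤ 36 := by
  have h0 : c 0 ≤ 1 := by
    rw [← card_SS]
    refine Finset.card_le_one.2 fun a ha b hb => ?_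
    have h1 := (mem_SS.1 ha).1
    have h2 := (mem_SS.1 hb).1
    rw [List.length_eq_zero_iff] at h1 h2
    rw [h1, h2]
  have hW : ∀ n, c n ≤ 6 ^ n := by
    intro n
    rw [← card_SS]
    unfold SS
    refine (card_filter_le _ _).trans ?_
    unfold W
    refine card_image_le.trans ?_
    rw [card_univ, Fintype.card_fun, Fintype.card_fin]
    rfl
  have h := hW m
  have h2 : 6 ^ m ≤ 36 := by
    calc 6 ^ m ≤ 6 ^ 2 := Nat.pow_le_pow_right (by norm_num) (by omega)
      _ = 36 := by norm_num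
  exact_mod_cast h.trans h2

/-- the upper bound -/
theorem up3 : ∃ K K₁ : ℝ, 0 ≤ K ∧ 3 ≤ K₁ ∧ ∀ n m : ℕ, 2 ≤ n → m ≤ 2 * n →
    (c m : ℝ) ≤ μ ^ m * Real.exp (K₁ * psi3 K n) := by
  obtain ⟨K0, hK0⟩ := Pool.Agent.TH232.S3.c_bound
  obtain ⟨K, hKd⟩ : ∃ K : ℝ, K = max K0 0 := ⟨_, rfl⟩
  have hK : 0 ≤ K := by rw [hKd]; exact le_max_right _ _
  have hKK : K0 ≤ K := by rw [hKd]; exact le_max_left _ _
  have hone := mu_one
  refine ⟨K, K * (2 * Real.exp (8 * K)) + 4, hK, by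
    have : 0 ≤ K * (2 * Real.exp (8 * K)) := by positivity
    linarith, fun n m hn hm => ?_⟩
  have hp1 := one_le_psi3 hK (n := n) (by omega)
  have hA : 0 ≤ K * (2 * Real.exp (8 * K)) := by positivity
  have h4 : 4 ≤ (K * (2 * Real.exp (8 * K)) + 4) * psi3 K n := by nlinarith
  rcases Nat.lt_or_ge m 3 with h | h
  · have h1 := c_small h
    have h2 : (36 : ℝ) ≤ Real.exp ((K * (2 * Real.exp (8 * K)) + 4) * psi3 K n) := by
      have h3 : Real.exp 4 ≤ Real.exp ((K * (2 * Real.exp (8 * K)) + 4) * psi3 K n) :=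
        Real.exp_le_exp.mpr h4
      have h5 : Real.exp 4 = Real.exp 1 ^ 4 := by
        rw [← Real.exp_nat_mul]
        norm_num
      have h6 := Real.exp_one_gt_d9
      have h7 : (2.7 : ℝ) ^ 4 ≤ Real.exp 1 ^ 4 := by
        apply pow_le_pow_left₀ (by norm_num)
        linarith
      have h8 : (36 : ℝ) ≤ 2.7 ^ 4 := by norm_num
      linarith
    have h3 : 1 ≤ μ ^ m := one_le_pow₀ hone
    have := Real.exp_pos ((K * (2 * Real.exp (8 * K)) + 4) * psi3 K n)
    nlinarith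
  · have h1 : (c m : ℝ) ≤ μ ^ m * Real.exp (K0 * (m : ℝ) ^ (1 / 3 : ℝ) *
        Real.exp (K0 * Real.log (Real.log m) ^ 2)) := hK0 m h
    refine h1.trans ?_
    have hμ : 0 ≤ μ ^ m := pow_nonneg (by linarith) m
    refine mul_le_mul_of_nonneg_left (Real.exp_le_exp.mpr ?_) hμ
    have h2 : K0 * (m : ℝ) ^ (1 / 3 : ℝ) * Real.exp (K0 * Real.log (Real.log m) ^ 2) ≤
        K * psi3 K m := by
      unfold psi3
      rw [← mul_assoc]
      have h5 : Real.exp (K0 * Real.log (Real.log m) ^ 2) ≤ Real.exp (K * ll m) := by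
        apply Real.exp_le_exp.mpr
        have h6 := le_ll h
        have h7 := ll_nonneg m
        have h8 : 0 ≤ Real.log (Real.log (m : ℝ)) ^ 2 := sq_nonneg _
        nlinarith
      have h9 : (0 : ℝ) ≤ (m : ℝ) ^ (1 / 3 : ℝ) := by positivity
      have h10 : K0 * (m : ℝ) ^ (1 / 3 : ℝ) ≤ K * (m : ℝ) ^ (1 / 3 : ℝ) :=
        mul_le_mul_of_nonneg_right hKK h9
      exact mul_le_mul h10 h5 (Real.exp_pos _).le (by positivity)
    have h3 := psi3_dbl hK hm
    have h4 := psi3_nonneg K n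
    calc K0 * (m : ℝ) ^ (1 / 3 : ℝ) * Real.exp (K0 * Real.log (Real.log m) ^ 2)
        ≤ K * psi3 K m := h2
      _ ≤ K * ((2 * Real.exp (8 * K)) * psi3 K n) := mul_le_mul_of_nonneg_left h3 hK
      _ ≤ (K * (2 * Real.exp (8 * K)) + 4) * psi3 K n := by nlinarith

theorem sys3 (hcnt : S_CNT3) : ∃ Y : TS (List Z3) (List Z3 × List Z3), Sys3 Y := by
  obtain ⟨X, Z, hX, hs, hT⟩ := Pool.Agent.N953.EG.geo3
  obtain ⟨Y, h1, h2, h3, h4, h5, h6⟩ := s_win Z3 X A3 Z
  have hK : ∀ n w, w ∈ Y.K n ↔ ∃ u ∈ SS n, w = (path u).reverse := by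
    intro n w
    rw [h3, hX]
    exact Pool.Agent.N558.EG.wk3 n w
  refine ⟨Y, h1.trans hs, hK, ?_, ?_⟩
  · intro n w hw q hq
    rw [h3, hX] at hw
    rw [h4] at hq
    have := last_rep (U := q.1) (U' := q.2) (Z.pair _ _ hq.1) hw.2 hq.2
    rw [h6]
    unfold e3
    rw [this]
  · obtain ⟨K, K₁, hK0, hK₁, hup⟩ := up3
    have hcard : ∀ n, ((Y.K n).card : ℝ) = c n := by
      intro n
      have : Y.K n = (SS n).image (fun u => (path u).reverse) := by
        ext w
        rw [hK, mem_image]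
        constructor
        · rintro ⟨u, hu, rfl⟩; exact ⟨u, hu, rfl⟩
        · rintro ⟨u, hu, rfl⟩; exact ⟨u, hu, rfl⟩
      rw [this, card_image_of_injective _ (fun u v h => path_inj u v (List.reverse_injective h)),
        card_SS]
    refine ⟨K, K₁, hK0, hK₁, ⟨mu_one, phi3 K K₁ hK0 hK₁, ?_, ?_⟩⟩
    · intro n m hn hm
      rw [hcard]
      exact hup n m hn hm
    · -- the pattern theorem
      have hinv : TH966.KO.Inv (fun _ => True) := fun w _ i d _ => Iff.rfl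
      obtain ⟨θ, C, hθ0, hθ1, hbad⟩ := o_pattern (fun _ => True) hinv μ (by linarith [mu_ge]) mu_le
        (fun τ hτ => by
          obtain ⟨C, _, hC⟩ := growth τ hτ
          refine ⟨C, fun n => le_trans ?_ (hC n)⟩
          exact_mod_cast a_le n)
      have hμ : 0 < μ := by linarith [mu_one]
      have hθμ : 0 < θ * μ := mul_pos hθ0 hμ
      obtain ⟨C', hC'⟩ : ∃ C' : ℝ, C' = |C| + ∑ m ∈ range 4, (c m : ℝ) / (θ * μ) ^ m := ⟨_, rfl⟩
      have hsum0 : 0 ≤ ∑ m ∈ range 4, (c m : ℝ) / (θ * μ) ^ m :=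
        sum_nonneg fun m _ => by positivity
      refine ⟨10 ^ 7, θ, C', by norm_num, hθ0, hθ1, ?_, fun n => ?_⟩
      · rw [hC']
        positivity
      · rcases Nat.lt_or_ge n 4 with hn | hn
        · have e1 : ((bad Y (10 ^ 7) n).card : ℝ) ≤ c n := by
            rw [← hcard]
            exact_mod_cast card_filter_le _ _
          have e2 : (c n : ℝ) / (θ * μ) ^ n ≤ ∑ m ∈ range 4, (c m : ℝ) / (θ * μ) ^ m :=
            single_le_sum (f := fun m => (c m : ℝ) / (θ * μ) ^ m)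
              (fun m _ => by positivity) (mem_range.2 hn)
          have e3 : (c n : ℝ) / (θ * μ) ^ n ≤ C' := by
            rw [hC']
            linarith [abs_nonneg C]
          rw [div_le_iff₀ (by positivity)] at e3
          linarith
        · have e1 : ((bad Y (10 ^ 7) n).card : ℝ) ≤ TH966.KO.bad (fun _ => True) n := by
            unfold TH966.KO.bad
            have e2 : bad Y (10 ^ 7) n ⊆ ((TH966.KO.K (fun _ => True) n).filter
                (fun w => 10 ^ 7 * fr w ≤ n ∨ 10 ^ 7 * bu w ≤ n)).image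
                (fun u => (path u).reverse) := by
              intro w hw
              unfold bad at hw
              rw [mem_filter, hK] at hw
              obtain ⟨⟨u, hu, rfl⟩, hw2⟩ := hw
              rw [mem_image]
              refine ⟨u, ?_, rfl⟩
              obtain ⟨hl, hsaw⟩ := mem_SS.1 hu
              rw [mem_filter, TH966.KO.mem_K]
              refine ⟨⟨hl, ⟨by omega, hsaw⟩, trivial⟩, ?_⟩
              rcases hw2 with hw2 | hw2
              · left
                have e4 := (hcnt n u hu (Y.S (path u).reverse)).1 (fun q => by rw [h4, hT])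
                have := Nat.mul_le_mul_left (10 ^ 7) e4
                omega
              · right
                have e4 := (hcnt n u hu (Y.B (path u).reverse)).2 (fun q => by rw [h5, hT])
                have := Nat.mul_le_mul_left (10 ^ 7) e4
                omega
            exact_mod_cast (card_le_card e2).trans card_image_le
          refine e1.trans ((hbad n).trans ?_)
          have e5 : C ≤ C' := by
            rw [hC']
            have := le_abs_self C
            linarith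
          exact mul_le_mul_of_nonneg_right e5 (by positivity)

/-! ### the theorems -/

theorem rep_inv {α σ : Type} {Y : TS α σ} {F : α → ℝ} (hF : ∀ w, |F w| ≤ 1)
    (hI : ∀ n, ∀ w ∈ Y.K n, ∀ q ∈ Y.S w, F (Y.ins w q) = F w) :
    ∀ L : Finset σ, Fam Y L → ∀ st fl, Fill Y L st fl → ∀ w, Em Y L w →
      Rp (Sl Y L w) (fun U => F (fl w U)) 1 := by
  intro L _ st fl hfl w hw
  obtain ⟨v, hv, hv'⟩ := Rp.const (E := Sl Y L w) (F w)
  exact ⟨v, hv.trans (hF w), fun U hU => (fl_inv hfl hI hw U hU).trans (hv' U hU)⟩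

variable (hcnt : S_CNT3)
include hcnt

omit hcnt in
theorem low3 {Y : TS (List Z3) (List Z3 × List Z3)} (H : Sys3 Y) (φ : ℕ → ℝ) :
    ∃ K' : ℝ, 0 ≤ K' ∧ ∀ n : ℕ, 2 ≤ n →
      μ ^ n ≤ Real.exp (K' * φ n) * ((Y.K n).card : ℝ) := by
  refine ⟨0, le_rfl, fun n _ => ?_⟩
  rw [zero_mul, Real.exp_zero, one_mul, card_Y H]
  exact mu_pow n

/-- **Numbers of walks** -/
theorem count3 : ∃ K : ℝ, 0 ≤ K ∧ ∀ r : ℕ, 1 ≤ r → ∃ C : ℝ, 0 < C ∧ ∀ n : ℕ, 3 ≤ n →
    |∑ i ∈ range (r + 1), (-1 : ℝ) ^ i * (r.choose i : ℝ) *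
      Real.log ((c (n + 2 * i) : ℝ) / μ ^ (n + 2 * i))| ≤
      C * ((n : ℝ) ^ (-(1 / 3) : ℝ) * Real.exp (K * Real.log (Real.log n) ^ 2)) ^ r := by
  obtain ⟨Y, H⟩ := sys3 hcnt
  obtain ⟨K, K₁, hK, hK₁, G⟩ := H.gr
  refine ⟨K, hK, fun r hr => ?_⟩
  obtain ⟨C, hC, h⟩ := cntT Y G (low3 H _) r hr
  refine ⟨C * (Real.sqrt K₁ * Real.exp (4 * K)) ^ r, by positivity, fun n hn => ?_⟩
  have h1 := h n (by omega)
  rw [H.s] at h1
  simp only [card_Y H] at h1
  refine h1.trans ?_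
  rw [mul_assoc, ← mul_pow]
  refine mul_le_mul_of_nonneg_left (pow_le_pow_left₀ (Real.sqrt_nonneg _) ?_ r) hC.le
  exact sqrt_phi3 hK (by linarith) hn

/-- **Moments** -/
theorem moment3 (p : ℝ) : (∀ n : ℕ, 2 ≤ n → 0 < mean n (fun x => norm2 x ^ p)) ∧
    ∃ K : ℝ, 0 ≤ K ∧ ∀ r : ℕ, 1 ≤ r → ∃ C : ℝ, 0 < C ∧ ∀ n : ℕ, 3 ≤ n →
    |∑ i ∈ range (r + 1), (-1 : ℝ) ^ i * (r.choose i : ℝ) *
      Real.log (mean (n + 2 * i) (fun x => norm2 x ^ p))| ≤
      C * ((n : ℝ) ^ (-(1 / 3) : ℝ) * Real.exp (K * Real.log (Real.log n) ^ 2)) ^ r := by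
  obtain ⟨Y, H⟩ := sys3 hcnt
  obtain ⟨K, K₁, hK, hK₁, G⟩ := H.gr
  obtain ⟨hp, h⟩ := momT Y G (low3 H _) (fun w => norm2 (E (e3 w))) 1 le_rfl
    (fun n w hw => by
      obtain ⟨u, hu, rfl⟩ := (H.K n w).1 hw
      obtain ⟨hl, hsaw⟩ := mem_SS.1 hu
      rw [e3_path]
      rcases Nat.eq_zero_or_pos n with rfl | hn
      · left
        rw [List.length_eq_zero_iff] at hl
        subst hl
        refine ⟨by norm_num, ?_⟩
        rw [pos, E_zero]
        simp [norm2]
      · right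
        refine ⟨?_, ?_⟩
        · rw [div_one]
          exact norm2_one_le (pos_ne hsaw (by omega))
        · have := norm2_le u
          rw [hl] at this
          linarith)
    (fun n w hw q hq => by simp only [H.e3 n w hw q hq]) p
  have em : ∀ n, mean n (fun x => norm2 x ^ p) =
      (∑ w ∈ Y.K n, norm2 (E (e3 w)) ^ p) / ((Y.K n).card : ℝ) := by
    intro n
    rw [mean_eq, sum_Y H, card_Y H]
    simp only [e3_path]
    rfl
  refine ⟨fun n hn => ?_, K, hK, fun r hr => ?_⟩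
  · rw [em]
    exact div_pos (hp n hn) (card_posT Y G (low3 H _) hn)
  obtain ⟨C, hC, h'⟩ := h r hr
  refine ⟨C * (Real.sqrt K₁ * Real.exp (4 * K)) ^ r, by positivity, fun n hn => ?_⟩
  have h1 := h' n (by omega)
  rw [H.s] at h1
  simp only [em]
  refine h1.trans ?_
  rw [mul_assoc, ← mul_pow]
  refine mul_le_mul_of_nonneg_left (pow_le_pow_left₀ (Real.sqrt_nonneg _) ?_ r) hC.le
  exact sqrt_phi3 hK (by linarith) hn

/-- **The law of the end point** -/
theorem end3 : ∃ K : ℝ, 0 ≤ K ∧ ∀ r : ℕ, 1 ≤ r → ∃ C : ℝ, 0 < C ∧ ∀ n : ℕ, 3 ≤ n →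
    ∀ S : Set (Fin 3 → ℤ), |∑ i ∈ range (r + 1), (-1 : ℝ) ^ i * (r.choose i : ℝ) *
      mean (n + 2 * i) (S.indicator 1)| ≤
      C * ((n : ℝ) ^ (-(1 / 3) : ℝ) * Real.exp (K * Real.log (Real.log n) ^ 2)) ^ r := by
  obtain ⟨Y, H⟩ := sys3 hcnt
  obtain ⟨K, K₁, hK, hK₁, G⟩ := H.gr
  refine ⟨K, hK, fun r hr => ?_⟩
  obtain ⟨C, hC, h⟩ := Pool.Agent.N394.EG.law _ _ Y μ _ G (low3 H _) r 1 (by norm_num)
  refine ⟨C * (Real.sqrt K₁ * Real.exp (4 * K)) ^ r, by positivity, fun n hn S => ?_⟩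
  have hF : ∀ w : List Z3, |S.indicator (1 : (Fin 3 → ℤ) → ℝ) (E (e3 w))| ≤ 1 := by
    intro w
    unfold Set.indicator
    split_ifs <;> simp
  have hI : ∀ n, ∀ w ∈ Y.K n, ∀ q ∈ Y.S w, S.indicator (1 : (Fin 3 → ℤ) → ℝ) (E (e3 (Y.ins w q))) =
      S.indicator (1 : (Fin 3 → ℤ) → ℝ) (E (e3 w)) := by
    intro n w hw q hq
    rw [H.e3 n w hw q hq]
  have h1 := h n (by omega) (fun w => S.indicator (1 : (Fin 3 → ℤ) → ℝ) (E (e3 w))) hF
    (rep_inv hF hI)
  have em : ∀ n, mean n (S.indicator (1 : (Fin 3 → ℤ) → ℝ)) =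
      (∑ w ∈ Y.K n, S.indicator (1 : (Fin 3 → ℤ) → ℝ) (E (e3 w))) / ((Y.K n).card : ℝ) := by
    intro n
    rw [mean_eq, sum_Y H, card_Y H]
    simp only [e3_path]
    rfl
  rw [H.s] at h1
  simp only [em]
  refine h1.trans ?_
  rw [mul_assoc, ← mul_pow]
  refine mul_le_mul_of_nonneg_left (pow_le_pow_left₀ (Real.sqrt_nonneg _) ?_ r) hC.le
  exact sqrt_phi3 hK (by linarith) hn

end

end Pool.Agent.N929.EG
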