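import Pool.Agent.N929.EG.Unb

/-!
# Regularity to all orders, for functionals (adapted from EZ.AOF)
-/

set_option autoImplicit false
set_option linter.unusedVariables false

namespace Pool.Agent.N929.EG

open Finset
open scoped Classical

noncomputable section

variable {α σ : Type}

/-- the balanced objects with `i` additional occupied slots -/
def GG (Y : TS α σ) (L : Finset σ) (m ε : ℝ) (n i : ℕ) : Finset α :=
  (Y.K (n + Y.s * i)).filter (fun w => Bal m ε i (Sl Y L w).card (Oc Y L w).card)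

/-- the number of occupied slots of the filled object of size `n` -/
def kk (Y : TS α σ) (n : ℕ) (w : α) : ℕ := (n - Y.len w) / Y.s

/-- the stripped objects of the balanced classes -/
def XX (Y : TS α σ) (L : Finset σ) (m ε : ℝ) (n : ℕ) : Finset α :=
  ((range (n + 1)).biUnion (fun N => Y.K N)).filter (fun w => Em Y L w ∧
    Y.len w + Y.s * kk Y n w = n ∧ Gk m ε (Sl Y L w).card (kk Y n w))

theorem mem_XX {Y : TS α σ} {L : Finset σ} {m ε : ℝ} {n : ℕ} {w : α} :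
    w ∈ XX Y L m ε n ↔ Em Y L w ∧ Y.len w + Y.s * kk Y n w = n ∧
      Gk m ε (Sl Y L w).card (kk Y n w) := by
  unfold XX
  rw [mem_filter, mem_biUnion]
  constructor
  · exact fun h => h.2
  · intro h
    exact ⟨⟨Y.len w, by rw [mem_range]; omega, h.1.1⟩, h⟩

theorem Oc_sub {Y : TS α σ} {L : Finset σ} {w : α} : Oc Y L w ⊆ Sl Y L w := by
  unfold Oc Sl
  intro q hq
  rw [mem_filter] at hq ⊢
  exact ⟨hq.1, Or.inr hq.2⟩

/-- the balanced objects are the filled ones -/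
theorem gg_sum {Y : TS α σ} {L : Finset σ} {st : α → α} {fl : α → Finset σ → α} {m ε : ℝ}
    {n i : ℕ} (h : Fill Y L st fl) (F : α → ℝ) :
    ∑ w ∈ GG Y L m ε n i, F w =
      ∑ w ∈ XX Y L m ε n, ∑ U ∈ (Sl Y L w).powersetCard (kk Y n w + i), F (fl w U) := by
  rw [sum_sigma']
  symm
  refine sum_nbij' (fun x => fl x.1 x.2) (fun w => ⟨st w, Oc Y L w⟩) ?_ ?_ ?_ ?_ ?_
  · rintro ⟨w, U⟩ hx
    rw [mem_sigma, mem_XX, mem_powersetCard] at hx
    obtain ⟨⟨h1, h2, h3⟩, h4, h5⟩ := hx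
    simp only at h1 h2 h3 h4 h5 ⊢
    have e2 := h.fl_K w U h1 h4
    have e3 := h.fl_sl w U h1 h4
    have e4 := h.fl_oc w U h1 h4
    have e5 : Y.len w + Y.s * U.card = n + Y.s * i := by rw [h5, mul_add]; omega
    rw [e5] at e2
    unfold GG
    rw [mem_filter, e3, e4]
    refine ⟨e2, ?_, ?_⟩
    · omega
    · rw [h5, Nat.add_sub_cancel]
      exact h3
  · intro w hw
    unfold GG at hw
    rw [mem_filter] at hw
    obtain ⟨h1, h2, h3⟩ := hw
    have hlen : Y.len w = n + Y.s * i := Y.len_K _ _ h1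
    have h1' : w ∈ Y.K (Y.len w) := by rw [hlen]; exact h1
    rw [mem_sigma, mem_XX, mem_powersetCard]
    simp only
    have g1 := h.st_em w h1'
    have g2 := h.st_len w h1'
    have g3 := h.st_sl w h1'
    obtain ⟨j, hj⟩ : ∃ j, (Oc Y L w).card = j + i := ⟨(Oc Y L w).card - i, by omega⟩
    have e6 : n - Y.len (st w) = Y.s * j := by
      rw [hj, mul_add] at g2
      omega
    have e5 : kk Y n (st w) = j := by
      unfold kk
      rw [e6]
      exact Nat.mul_div_cancel_left j Y.hs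
    have e7 : (Oc Y L w).card - i = j := by omega
    rw [g3, e5]
    rw [e7] at h3
    refine ⟨⟨g1, by rw [hj, mul_add] at g2; omega, h3⟩, Oc_sub, hj⟩
  · rintro ⟨w, U⟩ hx
    rw [mem_sigma, mem_XX, mem_powersetCard] at hx
    obtain ⟨⟨h1, h2, h3⟩, h4, h5⟩ := hx
    simp only at h1 h2 h3 h4 h5 ⊢
    rw [h.st_fl w U h1 h4, h.fl_oc w U h1 h4]
  · intro w hw
    unfold GG at hw
    rw [mem_filter] at hw
    have hlen : Y.len w = n + Y.s * i := Y.len_K _ _ hw.1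
    have h1' : w ∈ Y.K (Y.len w) := by rw [hlen]; exact hw.1
    exact h.fl_st w h1'
  · rintro ⟨w, U⟩ hx
    rfl

/-- the sum over the sets with a given number of elements -/
theorem rp_sum {E : Finset σ} {Φ : Finset σ → ℝ} {v : Finset σ → ℝ}
    (h : ∀ U ⊆ E, Φ U = ∑ T ∈ E.powerset, if Disjoint T U then v T else 0) (k : ℕ) :
    ∑ U ∈ E.powersetCard k, Φ U = ∑ T ∈ E.powerset, v T * ((E.card - T.card).choose k : ℝ) := by
  have h1 : ∑ U ∈ E.powersetCard k, Φ U =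
      ∑ U ∈ E.powersetCard k, ∑ T ∈ E.powerset, if Disjoint T U then v T else 0 :=
    sum_congr rfl (fun U hU => h U (mem_powersetCard.1 hU).1)
  rw [h1, sum_comm]
  refine sum_congr rfl (fun T hT => ?_)
  rw [mem_powerset] at hT
  rw [← sum_filter, sum_const, nsmul_eq_mul, mul_comm]
  congr 2
  have h2 : (E.powersetCard k).filter (fun U => Disjoint T U) = (E \ T).powersetCard k := by
    ext U
    rw [mem_filter, mem_powersetCard, mem_powersetCard]
    constructor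
    · rintro ⟨⟨h3, h4⟩, h5⟩
      refine ⟨fun x hx => mem_sdiff.2 ⟨h3 hx, fun hx' => ?_⟩, h4⟩
      exact (disjoint_left.1 h5 hx') hx
    · rintro ⟨h3, h4⟩
      refine ⟨⟨fun x hx => (mem_sdiff.1 (h3 hx)).1, h4⟩, ?_⟩
      rw [disjoint_left]
      intro x hx hx'
      exact (mem_sdiff.1 (h3 hx')).2 hx
  rw [h2, card_powersetCard, card_sdiff_of_subset hT]

/-- the balanced part -/
theorem goodF (hdfj : Pool.Agent.N929.EZ.S_DFJ) (r : ℕ) (m : ℝ) (hm : 1 ≤ m) :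
    ∃ C : ℝ, 0 < C ∧ ∀ (Y : TS α σ) (n : ℕ) (ε : ℝ), 0 < ε → ε ≤ 1 →
      ∀ (L : Finset σ) (st : α → α) (fl : α → Finset σ → α), Fill Y L st fl →
        ∀ (F M : α → ℝ), (∀ w, 0 ≤ M w) →
        (∀ w, Em Y L w → Rp (Sl Y L w) (fun U => F (fl w U)) (M w)) →
        |∑ i ∈ range (r + 1), (-1 : ℝ) ^ i * (r.choose i : ℝ) *
          ((∑ w ∈ GG Y L m ε n i, F w) / m ^ i)| ≤ C * ε ^ r * (∑ w ∈ Y.K n, M (st w)) := by
  obtain ⟨C, hC, hd⟩ := hdfj r m hm
  refine ⟨C, hC, fun Y n ε hε hε1 L st fl hfl F M hM hF => ?_⟩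
  have e1 : ∀ w ∈ XX Y L m ε n, |∑ i ∈ range (r + 1), (-1 : ℝ) ^ i * (r.choose i : ℝ) *
      ((∑ U ∈ (Sl Y L w).powersetCard (kk Y n w + i), F (fl w U)) / m ^ i)| ≤
      C * ε ^ r * ∑ U ∈ (Sl Y L w).powersetCard (kk Y n w + 0), M w := by
    intro w hw
    obtain ⟨h1, h2, h3, h4, h5⟩ := mem_XX.1 hw
    obtain ⟨v, hv, hv'⟩ := hF w h1
    have g1 : ∑ i ∈ range (r + 1), (-1 : ℝ) ^ i * (r.choose i : ℝ) *
        ((∑ U ∈ (Sl Y L w).powersetCard (kk Y n w + i), F (fl w U)) / m ^ i) =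
        ∑ T ∈ (Sl Y L w).powerset, v T * ∑ i ∈ range (r + 1), (-1 : ℝ) ^ i *
          (r.choose i : ℝ) * ((((Sl Y L w).card - T.card).choose (kk Y n w + i) : ℝ) / m ^ i) := by
      rw [sum_congr rfl (fun i _ => by rw [rp_sum hv' (kk Y n w + i)])]
      simp_rw [Finset.sum_div, mul_sum]
      rw [sum_comm]
      refine sum_congr rfl (fun x _ => sum_congr rfl (fun i _ => ?_))
      ring
    rw [g1, Nat.add_zero, sum_const, card_powersetCard, nsmul_eq_mul]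
    refine (abs_sum_le_sum_abs _ _).trans ?_
    calc ∑ T ∈ (Sl Y L w).powerset, |v T * ∑ i ∈ range (r + 1), (-1 : ℝ) ^ i *
          (r.choose i : ℝ) * ((((Sl Y L w).card - T.card).choose (kk Y n w + i) : ℝ) / m ^ i)|
        ≤ ∑ T ∈ (Sl Y L w).powerset, |v T| * (C * ε ^ r *
            ((Sl Y L w).card.choose (kk Y n w) : ℝ)) := by
          refine sum_le_sum (fun T hT => ?_)
          rw [abs_mul]
          exact mul_le_mul_of_nonneg_left (hd _ _ _ ε hε hε1 h3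
            (card_le_card (mem_powerset.1 hT)) h4 h5) (abs_nonneg _)
      _ = (∑ T ∈ (Sl Y L w).powerset, |v T|) * (C * ε ^ r *
            ((Sl Y L w).card.choose (kk Y n w) : ℝ)) := by rw [sum_mul]
      _ ≤ M w * (C * ε ^ r * ((Sl Y L w).card.choose (kk Y n w) : ℝ)) :=
          mul_le_mul_of_nonneg_right hv (by positivity)
      _ = _ := by ring_nf
  have e2 : ∑ i ∈ range (r + 1), (-1 : ℝ) ^ i * (r.choose i : ℝ) *
      ((∑ w ∈ GG Y L m ε n i, F w) / m ^ i) =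
      ∑ w ∈ XX Y L m ε n, ∑ i ∈ range (r + 1), (-1 : ℝ) ^ i * (r.choose i : ℝ) *
        ((∑ U ∈ (Sl Y L w).powersetCard (kk Y n w + i), F (fl w U)) / m ^ i) := by
    rw [sum_comm]
    refine sum_congr rfl (fun i _ => ?_)
    rw [gg_sum hfl, Finset.sum_div, mul_sum]
  rw [e2]
  refine (abs_sum_le_sum_abs _ _).trans ((sum_le_sum e1).trans ?_)
  rw [← mul_sum]
  refine mul_le_mul_of_nonneg_left ?_ (by positivity)
  have e3 : ∑ w ∈ XX Y L m ε n, ∑ U ∈ (Sl Y L w).powersetCard (kk Y n w + 0), M w =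
      ∑ w ∈ GG Y L m ε n 0, M (st w) := by
    rw [gg_sum hfl (fun w => M (st w))]
    refine sum_congr rfl (fun w hw => sum_congr rfl (fun U hU => ?_))
    rw [hfl.st_fl w U (mem_XX.1 hw).1 (mem_powersetCard.1 hU).1]
  rw [e3]
  refine sum_le_sum_of_subset_of_nonneg ?_ (fun w _ _ => hM _)
  unfold GG
  rw [Nat.mul_zero, Nat.add_zero]
  exact filter_subset _ _

theorem aof (hdfj : Pool.Agent.N929.EZ.S_DFJ) (hmv : S_MV) (hrat : Pool.Agent.N929.EZ.S_RAT)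
    (hfam : S_FAM) : S_AOF := by
  intro α σ Y μ φ G r
  have hμ1 := G.one
  have hμ0 : 0 < μ := by linarith
  obtain ⟨c, C₀, M₀, hc, hC₀, hM₀, hf⟩ := hfam α σ Y μ hμ1 G.pat
  obtain ⟨C₁, hC₁, hg⟩ := goodF (α := α) (σ := σ) hdfj r (μ ^ Y.s) (one_le_pow₀ hμ1)
  obtain ⟨A, C₂, hA, hC₂, hu⟩ := unb hmv hrat Y G hc hC₀ hM₀ r
  refine ⟨A, C₁ + 2 ^ r * C₂, hA, by positivity, ?_⟩
  intro n ε hn hε hε1 hAn
  obtain ⟨L, hL, hfa⟩ := hf n (by omega)
  refine ⟨L, hL, fun st fl hfl F M B hB hM hFB hI => ?_⟩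
  have hg' := hg Y n ε hε hε1 L st fl hfl F M hM hI
  obtain ⟨E, hE⟩ : ∃ E : ℝ, E = Real.exp (-(ε ^ 2 * n / A)) * μ ^ n := ⟨_, rfl⟩
  rw [← hE]
  have hE0 : 0 ≤ E := by rw [hE]; positivity
  -- the remaining objects
  have hbad : ∀ i ∈ range (r + 1), |(∑ w ∈ Y.K (n + Y.s * i), F w) / μ ^ (Y.s * i) -
      (∑ w ∈ GG Y L (μ ^ Y.s) ε n i, F w) / (μ ^ Y.s) ^ i| ≤ B * (C₂ * E) := by
    intro i hi'
    have hi := mem_range.1 hi'
    have h1 := hu n i ε hn (by omega) hε hε1 hAn L st fl hfl hfa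
    rw [← pow_mul, ← sub_div]
    have h2 : (∑ w ∈ Y.K (n + Y.s * i), F w) - (∑ w ∈ GG Y L (μ ^ Y.s) ε n i, F w) =
        ∑ w ∈ (Y.K (n + Y.s * i)).filter (fun w => ¬ Bal (μ ^ Y.s) ε i
          (Sl Y L w).card (Oc Y L w).card), F w := by
      rw [GG, sub_eq_iff_eq_add]
      have := sum_filter_add_sum_filter_not (Y.K (n + Y.s * i)) (fun w => Bal (μ ^ Y.s) ε i
          (Sl Y L w).card (Oc Y L w).card) F
      linarith
    rw [h2, abs_div, abs_of_pos (show 0 < μ ^ (Y.s * i) by positivity),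
      div_le_iff₀ (by positivity)]
    refine (abs_sum_le_sum_abs _ _).trans ?_
    have h3 : ∑ w ∈ (Y.K (n + Y.s * i)).filter (fun w => ¬ Bal (μ ^ Y.s) ε i
          (Sl Y L w).card (Oc Y L w).card), |F w| ≤
        B * (((Y.K (n + Y.s * i)).filter (fun w => ¬ Bal (μ ^ Y.s) ε i
          (Sl Y L w).card (Oc Y L w).card)).card : ℝ) := by
      rw [mul_comm B, ← nsmul_eq_mul, ← sum_const]
      refine sum_le_sum (fun w hw => ?_)
      rw [mem_filter] at hw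
      exact hFB i hi' w hw.1
    refine h3.trans ((mul_le_mul_of_nonneg_left h1 hB).trans (le_of_eq ?_))
    rw [hE, pow_add]
    ring
  have e : ∑ i ∈ range (r + 1), (-1 : ℝ) ^ i * (r.choose i : ℝ) *
        ((∑ w ∈ Y.K (n + Y.s * i), F w) / μ ^ (Y.s * i)) =
      ∑ i ∈ range (r + 1), (-1 : ℝ) ^ i * (r.choose i : ℝ) *
        ((∑ w ∈ GG Y L (μ ^ Y.s) ε n i, F w) / (μ ^ Y.s) ^ i) +
      ∑ i ∈ range (r + 1), (-1 : ℝ) ^ i * (r.choose i : ℝ) *
        ((∑ w ∈ Y.K (n + Y.s * i), F w) / μ ^ (Y.s * i) -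
          (∑ w ∈ GG Y L (μ ^ Y.s) ε n i, F w) / (μ ^ Y.s) ^ i) := by
    rw [← sum_add_distrib]
    exact sum_congr rfl (fun i _ => by ring)
  rw [e]
  refine (abs_add_le _ _).trans ?_
  have h3 : |∑ i ∈ range (r + 1), (-1 : ℝ) ^ i * (r.choose i : ℝ) *
        ((∑ w ∈ Y.K (n + Y.s * i), F w) / μ ^ (Y.s * i) -
          (∑ w ∈ GG Y L (μ ^ Y.s) ε n i, F w) / (μ ^ Y.s) ^ i)| ≤ 2 ^ r * (B * (C₂ * E)) := by
    refine (abs_sum_le_sum_abs _ _).trans ?_
    have h4 : ∑ i ∈ range (r + 1), (r.choose i : ℝ) = 2 ^ r := by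
      exact_mod_cast Nat.sum_range_choose r
    rw [← h4, sum_mul]
    refine sum_le_sum (fun i hi => ?_)
    rw [abs_mul, abs_mul, abs_pow, abs_neg, abs_one, one_pow, one_mul, Nat.abs_cast]
    exact mul_le_mul_of_nonneg_left (hbad i hi) (Nat.cast_nonneg _)
  have hS : 0 ≤ ∑ w ∈ Y.K n, M (st w) := sum_nonneg (fun w _ => hM _)
  have hp : 0 ≤ (2 : ℝ) ^ r * C₂ := by positivity
  calc _ ≤ C₁ * ε ^ r * (∑ w ∈ Y.K n, M (st w)) + 2 ^ r * (B * (C₂ * E)) := add_le_add hg' h3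
    _ ≤ C₁ * ε ^ r * (∑ w ∈ Y.K n, M (st w)) + 2 ^ r * (B * (C₂ * E)) +
        (2 ^ r * C₂ * (ε ^ r * (∑ w ∈ Y.K n, M (st w))) + C₁ * (B * E)) := by
        have : 0 ≤ 2 ^ r * C₂ * (ε ^ r * (∑ w ∈ Y.K n, M (st w))) + C₁ * (B * E) := by positivity
        linarith
    _ = _ := by ring

end

end Pool.Agent.N929.EG
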