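import Pool.Agent.N929.EG.Seq

/-!
# Binomial averages of differences
-/

set_option autoImplicit false
set_option linter.unusedVariables false

namespace Pool.Agent.N929.EG

open Finset Pool.Agent.N929.EG.Seq

noncomputable section

/-- weighted sums over the numbers of occupied slots -/
def Ab (y : ℝ) (S : ℕ) (G : ℕ → ℝ) (a : ℕ) : ℝ :=
  ∑ j ∈ range (S + 1), (S.choose j : ℝ) * y ^ j * G (a + j)

theorem Ab_zero (y : ℝ) (G : ℕ → ℝ) (a : ℕ) : Ab y 0 G a = G a := by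
  simp [Ab]

theorem Ab_succ (y : ℝ) (S : ℕ) (G : ℕ → ℝ) (a : ℕ) :
    Ab y (S + 1) G a = Ab y S G a + y * Ab y S G (a + 1) := by
  unfold Ab
  rw [sum_range_succ' _ (S + 1)]
  have e1 : ∑ k ∈ range (S + 1), (((S + 1).choose (k + 1) : ℕ) : ℝ) * y ^ (k + 1) * G (a + (k + 1)) =
      (∑ k ∈ range (S + 1), ((S.choose k : ℕ) : ℝ) * y ^ (k + 1) * G (a + (k + 1))) +
      ∑ k ∈ range (S + 1), ((S.choose (k + 1) : ℕ) : ℝ) * y ^ (k + 1) * G (a + (k + 1)) := by
    rw [← sum_add_distrib]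
    refine sum_congr rfl (fun k _ => ?_)
    rw [Nat.choose_succ_succ]
    push_cast
    ring
  have e2 : (∑ k ∈ range (S + 1), ((S.choose (k + 1) : ℕ) : ℝ) * y ^ (k + 1) * G (a + (k + 1))) +
      (((S + 1).choose 0 : ℕ) : ℝ) * y ^ 0 * G (a + 0) =
      ∑ j ∈ range (S + 1), (S.choose j : ℝ) * y ^ j * G (a + j) := by
    have h := sum_range_succ' (fun j => ((S.choose j : ℕ) : ℝ) * y ^ j * G (a + j)) (S + 1)
    have h2 := sum_range_succ (fun j => ((S.choose j : ℕ) : ℝ) * y ^ j * G (a + j)) (S + 1)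
    rw [Nat.choose_succ_self] at h2
    simp only [Nat.choose_zero_right] at h ⊢
    rw [← h, h2]
    simp
  rw [e1, add_assoc, e2, add_comm]
  congr 1
  rw [mul_sum]
  refine sum_congr rfl (fun k _ => ?_)
  rw [show a + (k + 1) = a + 1 + k by ring]
  ring

theorem Ab_add (y : ℝ) (S T : ℕ) (G : ℕ → ℝ) : ∀ a, Ab y (S + T) G a = Ab y S (Ab y T G) a := by
  induction S with
  | zero =>
    intro a
    rw [Nat.zero_add, Ab_zero]
  | succ S ih =>
    intro a
    rw [show S + 1 + T = S + T + 1 by ring, Ab_succ, ih, ih, Ab_succ]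

theorem Ab_bound {y : ℝ} (hy : 0 ≤ y) {G : ℕ → ℝ} {M : ℝ} (hG : ∀ a, |G a| ≤ M) (S : ℕ) :
    ∀ a, |Ab y S G a| ≤ (1 + y) ^ S * M := by
  induction S with
  | zero =>
    intro a
    rw [Ab_zero]
    simpa using hG a
  | succ S ih =>
    intro a
    rw [Ab_succ]
    have h1 := ih a
    have h2 := ih (a + 1)
    calc |Ab y S G a + y * Ab y S G (a + 1)| ≤ |Ab y S G a| + |y * Ab y S G (a + 1)| :=
          abs_add_le _ _
      _ ≤ (1 + y) ^ S * M + y * ((1 + y) ^ S * M) := by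
          rw [abs_mul, abs_of_nonneg hy]
          gcongr
      _ = _ := by ring

/-- the second moment -/
theorem Ab_var {y : ℝ} (hy : 0 < y) (S : ℕ) :
    ∀ c : ℝ, Ab y S (fun j => ((j : ℝ) - (c + S * (y / (1 + y)))) ^ 2) 0 =
      (1 + y) ^ S * (c ^ 2 + S * (y / (1 + y) ^ 2)) ∧
    Ab y S (fun j => (j : ℝ) - (c + S * (y / (1 + y)))) 0 = (1 + y) ^ S * (-c) ∧
    Ab y S (fun _ => 1) 0 = (1 + y) ^ S := by
  have h1y : (1 + y) ≠ 0 := by positivity
  induction S with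
  | zero =>
    intro c
    rw [Ab_zero, Ab_zero, Ab_zero]
    refine ⟨by simp, by simp, by simp⟩
  | succ S ih =>
    intro c
    have hs : ∀ G : ℕ → ℝ, Ab y S G (0 + 1) = Ab y S (fun j => G (j + 1)) 0 := by
      intro G
      unfold Ab
      refine sum_congr rfl (fun j _ => ?_)
      rw [show 0 + 1 + j = 0 + j + 1 by ring]
    obtain ⟨a1, a2, a3⟩ := ih (c + y / (1 + y))
    obtain ⟨b1, b2, b3⟩ := ih (c + y / (1 + y) - 1)
    refine ⟨?_, ?_, ?_⟩
    · rw [Ab_succ, hs]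
      have e1 : (fun j : ℕ => ((j : ℝ) - (c + ((S + 1 : ℕ) : ℝ) * (y / (1 + y)))) ^ 2) =
          fun j : ℕ => ((j : ℝ) - (c + y / (1 + y) + S * (y / (1 + y)))) ^ 2 := by
        funext j
        push_cast
        ring
      have e2 : (fun j : ℕ => (((j + 1 : ℕ) : ℝ) - (c + ((S + 1 : ℕ) : ℝ) * (y / (1 + y)))) ^ 2) =
          fun j : ℕ => ((j : ℝ) - (c + y / (1 + y) - 1 + S * (y / (1 + y)))) ^ 2 := by
        funext j
        push_cast
        ring
      rw [e1, e2, a1, b1]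
      push_cast
      field_simp
      ring
    · rw [Ab_succ, hs]
      have e1 : (fun j : ℕ => (j : ℝ) - (c + ((S + 1 : ℕ) : ℝ) * (y / (1 + y)))) =
          fun j : ℕ => (j : ℝ) - (c + y / (1 + y) + S * (y / (1 + y))) := by
        funext j
        push_cast
        ring
      have e2 : (fun j : ℕ => ((j + 1 : ℕ) : ℝ) - (c + ((S + 1 : ℕ) : ℝ) * (y / (1 + y)))) =
          fun j : ℕ => (j : ℝ) - (c + y / (1 + y) - 1 + S * (y / (1 + y))) := by
        funext j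
        push_cast
        ring
      rw [e1, e2, a2, b2]
      field_simp
      ring
    · rw [Ab_succ, hs, a3]
      ring

theorem Ab_sub (y : ℝ) (S : ℕ) (G H : ℕ → ℝ) (a : ℕ) :
    Ab y S (fun b => G b - H b) a = Ab y S G a - Ab y S H a := by
  unfold Ab
  rw [← sum_sub_distrib]
  exact sum_congr rfl (fun j _ => by ring)

theorem Ab_shift (y : ℝ) (S : ℕ) (G : ℕ → ℝ) (a : ℕ) :
    Ab y S (fun b => G (b + 1)) a = Ab y S G (a + 1) := by
  unfold Ab
  refine sum_congr rfl (fun j _ => ?_)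
  simp only
  rw [show a + j + 1 = a + 1 + j by ring]

/-- averages commute with differences -/
theorem Ab_D1 (y : ℝ) (S : ℕ) (G : ℕ → ℝ) (a : ℕ) :
    Ab y S (D 1 1 G) a = D 1 1 (Ab y S G) a := by
  have e : D 1 1 G = fun b => G b - G (b + 1) := by
    funext b
    rw [D_one]
  rw [D_one, e, Ab_sub, Ab_shift]

/-- summation by parts -/
theorem Ab_parts {y : ℝ} (hy : 0 < y) (S : ℕ) (G : ℕ → ℝ) (a : ℕ) :
    Ab y S (D 1 1 G) a = -((1 + y) / (y * (S + 1))) *
      ∑ k ∈ range (S + 2), ((S + 1).choose k : ℝ) * y ^ k *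
        ((k : ℝ) - ((S + 1 : ℕ) : ℝ) * (y / (1 + y))) * G (a + k) := by
  have e : D 1 1 G = fun b => G b - G (b + 1) := by
    funext b
    rw [D_one]
  have hS : (0 : ℝ) < (S : ℝ) + 1 := by positivity
  have h1y : (1 + y) ≠ 0 := by positivity
  rw [e, Ab_sub, Ab_shift]
  unfold Ab
  have h1 : ∑ j ∈ range (S + 1), (S.choose j : ℝ) * y ^ j * G (a + j) =
      ∑ k ∈ range (S + 2), ((S + 1).choose k : ℝ) * (((S : ℝ) + 1 - k) / (S + 1)) * y ^ k *
        G (a + k) := by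
    rw [sum_range_succ _ (S + 1)]
    have : (((S + 1 : ℕ) : ℝ)) = (S : ℝ) + 1 := by push_cast; ring
    rw [this, sub_self, zero_div, mul_zero, zero_mul, zero_mul, add_zero]
    refine sum_congr rfl (fun k hk => ?_)
    have hk' : k ≤ S := by
      have := mem_range.1 hk
      omega
    have h3 : ((S + 1).choose k : ℝ) * ((S : ℝ) + 1 - k) = (S.choose k : ℝ) * (S + 1) := by
      have h4 := Nat.choose_mul_succ_eq S k
      have h5 : (((S.choose k * (S + 1) : ℕ)) : ℝ) = (((S + 1).choose k * (S + 1 - k) : ℕ) : ℝ) := by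
        rw [h4]
      rw [Nat.cast_mul, Nat.cast_mul, Nat.cast_sub (by omega)] at h5
      push_cast at h5
      linarith
    rw [← mul_div_assoc, h3]
    field_simp
  have h2 : ∑ j ∈ range (S + 1), (S.choose j : ℝ) * y ^ j * G (a + 1 + j) =
      ∑ k ∈ range (S + 2), ((S + 1).choose k : ℝ) * ((k : ℝ) / ((S + 1) * y)) * y ^ k *
        G (a + k) := by
    rw [sum_range_succ' _ (S + 1)]
    have : (((0 : ℕ) : ℝ)) = 0 := by norm_num
    rw [this, zero_div, mul_zero, zero_mul, zero_mul, add_zero]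
    refine sum_congr rfl (fun k hk => ?_)
    have h3 : ((S + 1).choose (k + 1) : ℝ) * (((k + 1 : ℕ)) : ℝ) = (S.choose k : ℝ) * (S + 1) := by
      have h4 := Nat.add_one_mul_choose_eq S k
      have h5 : ((((S + 1) * S.choose k : ℕ)) : ℝ) = (((S + 1).choose (k + 1) * (k + 1) : ℕ) : ℝ) := by
        rw [h4]
      push_cast at h5 ⊢
      linarith
    rw [← mul_div_assoc, h3, show a + (k + 1) = a + 1 + k by ring, pow_succ]
    field_simp
  rw [h1, h2, ← sum_sub_distrib, mul_sum]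
  refine sum_congr rfl (fun k _ => ?_)
  push_cast
  field_simp
  ring

/-- the first difference -/
theorem Ab_one {y : ℝ} (hy : 0 < y) {G : ℕ → ℝ} {M : ℝ} (hG : ∀ a, |G a| ≤ M) (S a : ℕ) :
    |Ab y S (D 1 1 G) a| ≤ (1 + y) / Real.sqrt y * ((1 + y) ^ S * M) / Real.sqrt (S + 1) := by
  have hS : (0 : ℝ) < (S : ℝ) + 1 := by positivity
  have h1y : 0 < 1 + y := by positivity
  have hM : 0 ≤ M := (abs_nonneg _).trans (hG 0)
  obtain ⟨m, hm⟩ : ∃ m : ℝ, m = ((S + 1 : ℕ) : ℝ) * (y / (1 + y)) := ⟨_, rfl⟩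
  rw [Ab_parts hy, ← hm, abs_mul, abs_neg, abs_of_pos (show 0 < (1 + y) / (y * (S + 1)) by positivity)]
  have h1 : |∑ k ∈ range (S + 2), ((S + 1).choose k : ℝ) * y ^ k * ((k : ℝ) - m) * G (a + k)| ≤
      M * ∑ k ∈ range (S + 2), ((S + 1).choose k : ℝ) * y ^ k * |(k : ℝ) - m| := by
    refine (abs_sum_le_sum_abs _ _).trans ?_
    rw [mul_sum]
    refine sum_le_sum (fun k _ => ?_)
    rw [abs_mul, abs_mul, abs_of_nonneg (show 0 ≤ ((S + 1).choose k : ℝ) * y ^ k by positivity)]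
    have h2 : 0 ≤ ((S + 1).choose k : ℝ) * y ^ k * |(k : ℝ) - m| := by positivity
    calc _ ≤ ((S + 1).choose k : ℝ) * y ^ k * |(k : ℝ) - m| * M :=
          mul_le_mul_of_nonneg_left (hG _) h2
      _ = _ := by ring
  obtain ⟨v1, -, v3⟩ := Ab_var hy (S + 1) 0
  rw [zero_add, ← hm] at v1
  unfold Ab at v1 v3
  simp only [zero_add, mul_one] at v1 v3
  have hcs := sum_mul_sq_le_sq_mul_sq (range (S + 2))
    (fun k => Real.sqrt (((S + 1).choose k : ℝ) * y ^ k))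
    (fun k => Real.sqrt (((S + 1).choose k : ℝ) * y ^ k) * |(k : ℝ) - m|)
  have e1 : ∑ k ∈ range (S + 2), Real.sqrt (((S + 1).choose k : ℝ) * y ^ k) *
      (Real.sqrt (((S + 1).choose k : ℝ) * y ^ k) * |(k : ℝ) - m|) =
      ∑ k ∈ range (S + 2), ((S + 1).choose k : ℝ) * y ^ k * |(k : ℝ) - m| := by
    refine sum_congr rfl (fun k _ => ?_)
    rw [← mul_assoc, Real.mul_self_sqrt (by positivity)]
  have e2 : ∑ k ∈ range (S + 2), Real.sqrt (((S + 1).choose k : ℝ) * y ^ k) ^ 2 =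
      (1 + y) ^ (S + 1) := by
    rw [← v3]
    exact sum_congr rfl (fun k _ => Real.sq_sqrt (by positivity))
  have e3 : ∑ k ∈ range (S + 2), (Real.sqrt (((S + 1).choose k : ℝ) * y ^ k) *
      |(k : ℝ) - m|) ^ 2 = (1 + y) ^ (S + 1) * (((S : ℝ) + 1) * (y / (1 + y) ^ 2)) := by
    have e4 : (1 + y) ^ (S + 1) * (((S : ℝ) + 1) * (y / (1 + y) ^ 2)) =
        (1 + y) ^ (S + 1) * (0 ^ 2 + ((S + 1 : ℕ) : ℝ) * (y / (1 + y) ^ 2)) := by
      push_cast
      ring
    rw [e4, ← v1]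
    refine sum_congr rfl (fun k _ => ?_)
    rw [mul_pow, Real.sq_sqrt (by positivity), sq_abs]
  rw [e1, e2, e3] at hcs
  have h2 : ∑ k ∈ range (S + 2), ((S + 1).choose k : ℝ) * y ^ k * |(k : ℝ) - m| ≤
      (1 + y) ^ S * (Real.sqrt (S + 1) * Real.sqrt y) := by
    refine abs_le_of_sq_le_sq' ?_ (by positivity) |>.2
    refine hcs.trans (le_of_eq ?_)
    rw [mul_pow, mul_pow, Real.sq_sqrt hS.le, Real.sq_sqrt hy.le, pow_succ]
    field_simp
  calc (1 + y) / (y * (S + 1)) * |∑ k ∈ range (S + 2), ((S + 1).choose k : ℝ) * y ^ k *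
        ((k : ℝ) - m) * G (a + k)|
      ≤ (1 + y) / (y * (S + 1)) * (M * ((1 + y) ^ S * (Real.sqrt (S + 1) * Real.sqrt y))) := by
        refine mul_le_mul_of_nonneg_left (h1.trans ?_) (by positivity)
        exact mul_le_mul_of_nonneg_left h2 hM
    _ = _ := by
        have hs1 : Real.sqrt ((S : ℝ) + 1) ≠ 0 := (Real.sqrt_pos.2 hS).ne'
        have hs2 : Real.sqrt y ≠ 0 := (Real.sqrt_pos.2 hy).ne'
        have e5 : (S : ℝ) + 1 = Real.sqrt (S + 1) * Real.sqrt (S + 1) :=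
          (Real.mul_self_sqrt hS.le).symm
        have e6 : y * ((S : ℝ) + 1) =
            Real.sqrt y * Real.sqrt y * (Real.sqrt (S + 1) * Real.sqrt (S + 1)) := by
          rw [Real.mul_self_sqrt hS.le, Real.mul_self_sqrt hy.le]
        rw [e6]
        field_simp

theorem Ab_rT {y : ℝ} (hy : 0 < y) (T r : ℕ) : ∀ (G : ℕ → ℝ) (M : ℝ), (∀ a, |G a| ≤ M) →
    ∀ a, |Ab y (r * T) (D 1 r G) a| ≤
      ((1 + y) / Real.sqrt y / Real.sqrt (T + 1)) ^ r * ((1 + y) ^ (r * T) * M) := by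
  induction r with
  | zero =>
    intro G M hG a
    rw [Nat.zero_mul, Ab_zero, D_zero]
    simpa using hG a
  | succ r ih =>
    intro G M hG a
    have e1 : Ab y ((r + 1) * T) (D 1 (r + 1) G) a =
        Ab y T (D 1 1 (Ab y (r * T) (D 1 r G))) a := by
      rw [show (r + 1) * T = T + r * T by ring, Ab_add]
      congr 1
      funext b
      rw [← Ab_D1]
      congr 1
      funext b
      rw [D_D, add_comm 1 r]
    rw [e1]
    have h1 := Ab_one hy (ih G M hG) T a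
    refine h1.trans (le_of_eq ?_)
    rw [show (r + 1) * T = T + r * T by ring, pow_add (1 + y), pow_succ]
    ring

/-- **all orders** -/
theorem Ab_all {c : ℝ} (hc0 : 0 < c) (r : ℕ) : ∃ C : ℝ, 0 < C ∧ ∀ y : ℝ, 0 < y →
    (1 + y) / Real.sqrt y ≤ c → ∀ (S : ℕ) (G : ℕ → ℝ) (M : ℝ),
    (∀ a, |G a| ≤ M) → ∀ a, |Ab y S (D 1 r G) a| ≤ C * ((1 + y) ^ S * M) / Real.sqrt (S + 1) ^ r := by
  rcases Nat.eq_zero_or_pos r with rfl | hr
  · refine ⟨1, one_pos, fun y hy _ S G M hG a => ?_⟩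
    have h1 : D 1 0 G = G := by
      funext b
      rw [D_zero]
    rw [h1, pow_zero, div_one, one_mul]
    exact Ab_bound hy.le hG S a
  have hr0 : (0 : ℝ) < r := by exact_mod_cast hr
  have hsr : 0 < Real.sqrt r := Real.sqrt_pos.2 hr0
  refine ⟨(c * Real.sqrt r) ^ r, by positivity, fun y hy hcy S G M hG a => ?_⟩
  have hsy : 0 < Real.sqrt y := Real.sqrt_pos.2 hy
  have hM : 0 ≤ M := (abs_nonneg _).trans (hG 0)
  obtain ⟨T, hT⟩ : ∃ T, T = S / r := ⟨_, rfl⟩
  obtain ⟨R, hR⟩ : ∃ R, R = S % r := ⟨_, rfl⟩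
  have hS : S = R + r * T := by
    rw [hR, hT, Nat.mod_add_div]
  have hRr : R < r := by rw [hR]; exact Nat.mod_lt _ hr
  have h1 := Ab_bound hy.le (Ab_rT hy T r G M hG) R a
  rw [← Ab_add, ← hS] at h1
  refine h1.trans ?_
  have hST : (S : ℝ) + 1 ≤ r * ((T : ℝ) + 1) := by
    have : S + 1 ≤ r * (T + 1) := by
      rw [hS]
      nlinarith
    exact_mod_cast this
  have hT0 : (0 : ℝ) < (T : ℝ) + 1 := by positivity
  have hS0 : (0 : ℝ) < (S : ℝ) + 1 := by positivity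
  have hsS : 0 < Real.sqrt (S + 1) := Real.sqrt_pos.2 hS0
  have hsT : 0 < Real.sqrt (T + 1) := Real.sqrt_pos.2 hT0
  have h2 : 1 / Real.sqrt (T + 1) ≤ Real.sqrt r / Real.sqrt (S + 1) := by
    rw [div_le_div_iff₀ hsT hsS, one_mul, ← Real.sqrt_mul hr0.le]
    exact Real.sqrt_le_sqrt hST
  have h3 : ((1 + y) / Real.sqrt y / Real.sqrt (T + 1)) ^ r ≤
      (c * Real.sqrt r / Real.sqrt (S + 1)) ^ r := by
    refine pow_le_pow_left₀ (by positivity) ?_ r
    calc (1 + y) / Real.sqrt y / Real.sqrt (T + 1) ≤ c / Real.sqrt (T + 1) := by gcongr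
      _ = c * (1 / Real.sqrt (T + 1)) := by ring
      _ ≤ c * (Real.sqrt r / Real.sqrt (S + 1)) := mul_le_mul_of_nonneg_left h2 hc0.le
      _ = _ := by ring
  calc (1 + y) ^ R * (((1 + y) / Real.sqrt y / Real.sqrt (T + 1)) ^ r * ((1 + y) ^ (r * T) * M))
      = ((1 + y) / Real.sqrt y / Real.sqrt (T + 1)) ^ r * ((1 + y) ^ (R + r * T) * M) := by
        rw [pow_add]; ring
    _ ≤ (c * Real.sqrt r / Real.sqrt (S + 1)) ^ r * ((1 + y) ^ (R + r * T) * M) := by gcongr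
    _ = _ := by rw [← hS, div_pow]; ring

end

end Pool.Agent.N929.EG
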