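import Pool.Agent.N929.EG.PtU
import Pool.Agent.N929.EG.SizeP

/-!
# Walks on planar lattices: all functionals of the end point
-/

set_option autoImplicit false
set_option linter.unusedVariables false

namespace Pool.Agent.N929.EG

open Finset Filter Topology
open scoped Classical

noncomputable section

variable {A : ℤ × ℤ → ℤ × ℤ → Prop}

/-- **All functionals of the end point, uniformly** -/
theorem dom_ptU {Z : TH966.AK.Rule A} {μ K : ℝ} {a : ℕ}
    (G : Pool.Agent.R965.HP.Gr Z.sys μ K a) (ha : 1 ≤ a) (r : ℕ) (hr : 1 ≤ r) :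
    ∃ C : ℝ, 0 < C ∧ ∀ f : ℤ × ℤ → ℝ, (∀ x, 0 ≤ f x ∧ f x ≤ 1) → ∀ n : ℕ, 2 ≤ n →
      0 < TH966.AK.WF A f n →
      C * (Real.log n ^ a + Real.log (((TH966.AK.Kw A n).card : ℝ) / TH966.AK.WF A f n)) ≤ n →
      (∀ i, i ≤ r → 0 < TH966.AK.WF A f (n + Z.s * i)) ∧
      |∑ i ∈ range (r + 1), (-1 : ℝ) ^ i * (r.choose i : ℝ) *
        Real.log (TH966.AK.WF A f (n + Z.s * i) / ((TH966.AK.Kw A (n + Z.s * i)).card : ℝ))| ≤
        C * Real.sqrt ((Real.log n ^ a +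
          Real.log (((TH966.AK.Kw A n).card : ℝ) / TH966.AK.WF A f n)) / n) ^ r := by
  obtain ⟨Y, y1, y2, y3, y4, y5⟩ := sys2 Z G.hs
  obtain ⟨K₁, hK₁, hG, hl⟩ := grD G ha y2 y3 y4
  obtain ⟨C, hC, h⟩ := mean_ptU Y hG hl r hr
  have hK1 : (1 : ℝ) ≤ K₁ := le_trans (one_le_pow₀ (by norm_num)) hK₁
  have hK0 : (0 : ℝ) < K₁ := by linarith
  refine ⟨C * K₁ + C * Real.sqrt K₁ ^ r, by positivity, fun f hf n hn hpos hle => ?_⟩
  have hn0 : (0 : ℝ) < n := by exact_mod_cast (by omega : 0 < n)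
  obtain ⟨l, hl'⟩ : ∃ l : ℝ, l = Real.log (((TH966.AK.Kw A n).card : ℝ) / TH966.AK.WF A f n) :=
    ⟨_, rfl⟩
  rw [← hl'] at hle ⊢
  have hl0 : 0 ≤ l := by
    rw [hl']
    apply Real.log_nonneg
    rw [le_div_iff₀ hpos, one_mul]
    calc TH966.AK.WF A f n ≤ ∑ w ∈ TH966.AK.Kw A n, (1 : ℝ) :=
          sum_le_sum (fun w hw => (hf _).2)
      _ = _ := by simp
  have hlog : 0 ≤ Real.log (n : ℝ) ^ a := pow_nonneg (Real.log_natCast_nonneg n) a
  have hx : K₁ * Real.log n ^ a + l ≤ K₁ * (Real.log n ^ a + l) := by nlinarith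
  have h1 := h (fun w => f (TH966.AK.lst w)) (fun n w hw => hf _) (lst_invD y2 y3 y5 f) n hn
    (by rw [y2]; exact hpos)
    (by
      rw [y2]
      change C * (K₁ * Real.log n ^ a +
        Real.log (((TH966.AK.Kw A n).card : ℝ) / TH966.AK.WF A f n)) ≤ n
      rw [← hl']
      have h2 : 0 ≤ C * Real.sqrt K₁ ^ r * (Real.log n ^ a + l) := by positivity
      calc C * (K₁ * Real.log n ^ a + l) ≤ C * (K₁ * (Real.log n ^ a + l)) :=
            mul_le_mul_of_nonneg_left hx hC.le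
        _ ≤ (C * K₁ + C * Real.sqrt K₁ ^ r) * (Real.log n ^ a + l) := by nlinarith
        _ ≤ n := hle)
  rw [y1] at h1
  simp only [y2] at h1
  change (∀ i, i ≤ r → 0 < TH966.AK.WF A f (n + Z.s * i)) ∧
      |∑ i ∈ range (r + 1), (-1 : ℝ) ^ i * (r.choose i : ℝ) *
        Real.log (TH966.AK.WF A f (n + Z.s * i) / ((TH966.AK.Kw A (n + Z.s * i)).card : ℝ))| ≤
        C * Real.sqrt ((K₁ * Real.log n ^ a +
          Real.log (((TH966.AK.Kw A n).card : ℝ) / TH966.AK.WF A f n)) / n) ^ r at h1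
  rw [← hl'] at h1
  refine ⟨h1.1, h1.2.trans ?_⟩
  have h3 : Real.sqrt ((K₁ * Real.log n ^ a + l) / n) ≤
      Real.sqrt K₁ * Real.sqrt ((Real.log n ^ a + l) / n) := by
    rw [← Real.sqrt_mul hK0.le]
    apply Real.sqrt_le_sqrt
    rw [← mul_div_assoc]
    exact div_le_div_of_nonneg_right hx hn0.le
  have h4 := pow_le_pow_left₀ (Real.sqrt_nonneg _) h3 r
  rw [mul_pow] at h4
  have h5 : 0 ≤ Real.sqrt ((Real.log n ^ a + l) / n) ^ r := by positivity
  calc C * Real.sqrt ((K₁ * Real.log n ^ a + l) / n) ^ r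
      ≤ C * (Real.sqrt K₁ ^ r * Real.sqrt ((Real.log n ^ a + l) / n) ^ r) :=
        mul_le_mul_of_nonneg_left h4 hC.le
    _ ≤ _ := by
        have h6 : 0 ≤ C * K₁ * Real.sqrt ((Real.log n ^ a + l) / n) ^ r := by positivity
        nlinarith

end

end Pool.Agent.N929.EG
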