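import Pool.Agent.N929.EG.Pt

/-!
# Regularity to all orders, pointwise in `n` and uniformly in the functional
-/

set_option autoImplicit false
set_option linter.unusedVariables false

namespace Pool.Agent.N929.EG

open Finset Filter Topology
open scoped Classical
open Pool.Agent.N929.EZ (Df)

noncomputable section

variable {α σ : Type}

/-- from the differences with error terms to the differences of the logarithms, at one `n` -/
theorem pt_finU (r : ℕ) (hr : 1 ≤ r) {μ : ℝ} (hμ : 1 ≤ μ) (s : ℕ) (φ : ℕ → ℝ)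
    (hφ : ∀ n : ℕ, 2 ≤ n → Real.log n ≤ φ n) {K : ℝ} (hK : 0 ≤ K) (A C : ℕ → ℝ)
    (hA : ∀ t, 0 < A t) (hC : ∀ t, 0 < C t) :
    ∃ A' C' : ℝ, 0 < A' ∧ 0 < C' ∧ ∀ (T E : ℕ → ℝ), (∀ n, 0 ≤ E n) →
      (∀ (t : ℕ) (n : ℕ) (ε : ℝ), 2 ≤ n → 0 < ε → ε ≤ 1 → A t * φ n ≤ ε ^ 2 * n →
        |∑ i ∈ range (t + 1), (-1 : ℝ) ^ i * (t.choose i : ℝ) * (T (n + s * i) / μ ^ (s * i))| ≤
        C t * (ε ^ t * T n + Real.exp (-(ε ^ 2 * n / A t)) * E n)) →
      ∀ (n : ℕ) (ε L : ℝ), 2 ≤ n → 0 < ε → ε ≤ 1 / A' → 0 ≤ L →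
      A' * (φ n + L) ≤ ε ^ 2 * n → 0 < T n → E n ≤ Real.exp (L + K * φ n) * T n →
      (∀ i, i ≤ r → 0 < T (n + s * i)) ∧
      |∑ i ∈ range (r + 1), (-1 : ℝ) ^ i * (r.choose i : ℝ) *
        Real.log (T (n + s * i) / μ ^ (n + s * i))| ≤ C' * ε ^ r := by
  have hμ0 : 0 < μ := by linarith
  obtain ⟨A0, hA0⟩ : ∃ A0 : ℝ, A0 = 1 + ∑ t ∈ range (r + 1), A t := ⟨_, rfl⟩
  obtain ⟨C0, hC0⟩ : ∃ C0 : ℝ, C0 = 1 + ∑ t ∈ range (r + 1), C t := ⟨_, rfl⟩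
  have hA0p : 1 ≤ A0 := by
    rw [hA0]; have := sum_nonneg (s := range (r + 1)) fun t _ => (hA t).le; linarith
  have hC0p : 1 ≤ C0 := by
    rw [hC0]; have := sum_nonneg (s := range (r + 1)) fun t _ => (hC t).le; linarith
  have hAle : ∀ t, t ≤ r → A t ≤ A0 := fun t ht => by
    have := single_le_sum (f := A) (fun t _ => (hA t).le) (mem_range.2 (Nat.lt_succ_of_le ht))
    rw [hA0]; linarith
  have hCle : ∀ t, t ≤ r → C t ≤ C0 := fun t ht => by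
    have := single_le_sum (f := C) (fun t _ => (hC t).le) (mem_range.2 (Nat.lt_succ_of_le ht))
    rw [hC0]; linarith
  have hr0 : (0 : ℝ) ≤ r := Nat.cast_nonneg r
  obtain ⟨B, hB⟩ : ∃ B : ℝ, B = 2 ^ r * (2 * C0) + 2 := ⟨_, rfl⟩
  have hB0 : 0 < B := by rw [hB]; positivity
  obtain ⟨D, hD0, hD⟩ := Pool.Agent.N507.EZ.log_diff r hr B hB0
  obtain ⟨A', hA'⟩ : ∃ A' : ℝ, A' = A0 * (K + r + 2) + 2 * (r * (2 ^ r * (2 * C0))) := ⟨_, rfl⟩
  have hx : 0 ≤ 2 * (r * (2 ^ r * (2 * C0))) := by positivity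
  have hA'1 : A0 * (K + r + 2) ≤ A' := by rw [hA']; linarith
  have hA'2 : 2 * (r * (2 ^ r * (2 * C0))) ≤ A' := by
    rw [hA']
    have : 0 ≤ A0 * (K + r + 2) := by positivity
    linarith
  have hA'3 : 2 ≤ A' := by nlinarith
  have hA'0 : 0 < A' := by linarith
  refine ⟨A', D, hA'0, hD0, fun T E hE hAC n ε L hn hε0 hεA hL hle hTn hEn => ?_⟩
  have hn0 : (0 : ℝ) < n := by exact_mod_cast (by omega : 0 < n)
  have hε1 : ε ≤ 1 := hεA.trans (by rw [div_le_one hA'0]; linarith)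
  have hlog := hφ n hn
  have hl2 : 0.69 ≤ Real.log (n : ℝ) := by
    have hn' : (2 : ℝ) ≤ n := by exact_mod_cast hn
    have := Real.log_two_gt_d9
    have h3 : Real.log 2 ≤ Real.log n := Real.log_le_log (by norm_num) hn'
    linarith
  have hφ0 : 0 < φ n := by linarith
  -- the error term
  have herr : Real.exp (-(ε ^ 2 * n / A0)) * E n ≤ ε ^ r * T n := by
    have h1 : (K + r + 2) * (φ n + L) ≤ ε ^ 2 * n / A0 := by
      rw [le_div_iff₀ (by linarith)]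
      calc (K + r + 2) * (φ n + L) * A0 = A0 * (K + r + 2) * (φ n + L) := by ring
        _ ≤ A' * (φ n + L) := mul_le_mul_of_nonneg_right hA'1 (by linarith)
        _ ≤ _ := hle
    have h2 : Real.exp (-(ε ^ 2 * n / A0)) * Real.exp (L + K * φ n) ≤
        Real.exp (-(r * Real.log n)) := by
      rw [← Real.exp_add]
      apply Real.exp_le_exp.mpr
      have h3 : (r : ℝ) * Real.log n ≤ r * φ n := mul_le_mul_of_nonneg_left hlog hr0
      have h4 : 0 ≤ (K + r + 1) * L := by positivity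
      nlinarith
    have h5 : Real.exp (-(r * Real.log n)) ≤ ε ^ r := by
      have h6 : 1 ≤ ε ^ 2 * n := by
        have : 2 * 0.69 ≤ A' * (φ n + L) := by nlinarith
        linarith
      have h7 : (n : ℝ)⁻¹ ≤ ε := by
        have h8 : (n : ℝ)⁻¹ ≤ ε ^ 2 := by
          rw [inv_le_iff_one_le_mul₀ hn0]
          linarith
        have h9 : ε ^ 2 ≤ ε := by nlinarith
        linarith
      have h8 : Real.exp (-(r * Real.log n)) = ((n : ℝ)⁻¹) ^ r := by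
        rw [← mul_neg, ← Real.log_inv, ← Real.log_pow, Real.exp_log (by positivity)]
      rw [h8]
      exact pow_le_pow_left₀ (by positivity) h7 r
    calc Real.exp (-(ε ^ 2 * n / A0)) * E n
        ≤ Real.exp (-(ε ^ 2 * n / A0)) * (Real.exp (L + K * φ n) * T n) :=
          mul_le_mul_of_nonneg_left hEn (Real.exp_pos _).le
      _ = Real.exp (-(ε ^ 2 * n / A0)) * Real.exp (L + K * φ n) * T n := by ring
      _ ≤ ε ^ r * T n := mul_le_mul_of_nonneg_right (h2.trans h5) hTn.le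
  obtain ⟨f, hf⟩ : ∃ f : ℕ → ℝ, f = fun i => T (n + s * i) / μ ^ (s * i) := ⟨_, rfl⟩
  have hf0 : f 0 = T n := by rw [hf]; simp
  have hdf : ∀ t, t ≤ r → |Df t f 0| ≤ (2 * C0 * T n) * ε ^ t := by
    intro t ht
    have h1 : A t * φ n ≤ ε ^ 2 * n := by
      have h2 : A0 ≤ A' := by nlinarith
      calc A t * φ n ≤ A' * φ n := mul_le_mul_of_nonneg_right ((hAle t ht).trans h2) hφ0.le
        _ ≤ A' * (φ n + L) := by nlinarith
        _ ≤ _ := hle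
    have h2 := hAC t n ε hn hε0 hε1 h1
    have h3 : Real.exp (-(ε ^ 2 * n / A t)) ≤ Real.exp (-(ε ^ 2 * n / A0)) := by
      apply Real.exp_le_exp.2
      apply neg_le_neg
      exact div_le_div_of_nonneg_left (by positivity) (hA t) (hAle t ht)
    have h4 : Df t f 0 = ∑ i ∈ range (t + 1), (-1 : ℝ) ^ i * (t.choose i : ℝ) *
        (T (n + s * i) / μ ^ (s * i)) := by
      unfold Df
      rw [hf]
      simp only [zero_add]
    rw [h4]
    have h5 : ε ^ r ≤ ε ^ t := pow_le_pow_of_le_one hε0.le hε1 ht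
    have h6 := hE n
    calc _ ≤ C t * (ε ^ t * T n + Real.exp (-(ε ^ 2 * n / A t)) * E n) := h2
      _ ≤ C0 * (ε ^ t * T n + Real.exp (-(ε ^ 2 * n / A0)) * E n) := by
          have h7 := hCle t ht
          have h8 := hC t
          gcongr
      _ ≤ C0 * (ε ^ t * T n + ε ^ t * T n) := by
          have := mul_le_mul_of_nonneg_right h5 hTn.le
          have h9 := herr.trans this
          exact mul_le_mul_of_nonneg_left (by linarith) (by linarith)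
      _ = _ := by ring
  have hBT : 0 ≤ 2 * C0 * T n := by positivity
  have hcomp : ∀ j, j ≤ r → f 0 ≤ 2 * f j := by
    intro j hj
    have h1 := df_comp hBT hε0 hε1 hdf j hj
    have h2 : (j : ℝ) ≤ r := by exact_mod_cast hj
    have h3 : (j : ℝ) * (2 ^ r * (2 * C0 * T n) * ε) ≤ T n / 2 := by
      have h4 : ε * A' ≤ 1 := by rwa [le_div_iff₀ hA'0] at hεA
      have h5 : ε * (2 * (r * (2 ^ r * (2 * C0)))) ≤ 1 :=
        (mul_le_mul_of_nonneg_left hA'2 hε0.le).trans h4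
      calc (j : ℝ) * (2 ^ r * (2 * C0 * T n) * ε) ≤ r * (2 ^ r * (2 * C0 * T n) * ε) := by
            gcongr
        _ = (ε * (2 * (r * (2 ^ r * (2 * C0))))) * T n / 2 := by ring
        _ ≤ 1 * T n / 2 := by gcongr
        _ = T n / 2 := by ring
    rw [hf0] at h1 ⊢
    have := (abs_le.1 (h1.trans h3)).1
    linarith
  have hlogd := hD f 0 ε hε0 hε1
    (fun j hj => by
      have h1 := hcomp j hj
      rw [zero_add]
      rw [hf0] at h1
      linarith)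
    (fun j hj => by
      have h1 := hcomp j hj
      rw [zero_add]
      have h2 : 0 ≤ f j := by rw [hf0] at h1; linarith
      have h3 : 2 ≤ B := by rw [hB]; linarith [show 0 ≤ 2 ^ r * (2 * C0) by positivity]
      nlinarith)
    (fun t j htj => by
      have h1 := df_shift hBT hε0 hε1 hdf j t htj
      rw [zero_add]
      refine h1.trans ?_
      have h4 : (2 : ℝ) ^ j ≤ 2 ^ r := pow_le_pow_right₀ (by norm_num) (by omega)
      rw [hf0]
      have h5 : 2 ^ j * (2 * C0 * T n) ≤ B * T n := by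
        rw [hB]
        have h6 : 2 ^ j * (2 * C0 * T n) ≤ 2 ^ r * (2 * C0 * T n) :=
          mul_le_mul_of_nonneg_right h4 hBT
        have h7 : (2 ^ r * (2 * C0) + 2) * T n = 2 ^ r * (2 * C0 * T n) + 2 * T n := by ring
        rw [h7]
        linarith
      have h6 : 0 ≤ ε ^ t := by positivity
      calc 2 ^ j * (2 * C0 * T n) * ε ^ t ≤ B * T n * ε ^ t := mul_le_mul_of_nonneg_right h5 h6
        _ = B * ε ^ t * T n := by ring)
  have e : ∑ i ∈ range (r + 1), (-1 : ℝ) ^ i * (r.choose i : ℝ) *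
        Real.log (T (n + s * i) / μ ^ (n + s * i)) =
      Df r (fun j => Real.log (f j)) 0 := by
    have hzero : ∑ i ∈ range (r + 1), (-1 : ℝ) ^ i * (r.choose i : ℝ) * Real.log (μ ^ n) = 0 := by
      rw [← sum_mul]
      have h := (add_pow (-1 : ℝ) 1 r).symm
      simp only [one_pow, mul_one] at h
      rw [h, neg_add_cancel, zero_pow (by omega), zero_mul]
    have h1 : Df r (fun j => Real.log (f j)) 0 = ∑ i ∈ range (r + 1),
        ((-1 : ℝ) ^ i * (r.choose i : ℝ) * Real.log (T (n + s * i) / μ ^ (n + s * i)) +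
          (-1 : ℝ) ^ i * (r.choose i : ℝ) * Real.log (μ ^ n)) := by
      unfold Df
      refine sum_congr rfl (fun i hi => ?_)
      have hi' := mem_range.1 hi
      have h2 := hcomp i (by omega)
      rw [hf0] at h2
      have h3 : 0 < f i := by linarith
      rw [zero_add, ← mul_add]
      congr 1
      rw [hf] at h3 ⊢
      simp only at h3 ⊢
      have h4 : 0 < T (n + s * i) := by
        have h5 : 0 < μ ^ (s * i) := by positivity
        have h6 := (div_pos_iff_of_pos_right h5).1 h3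
        exact h6
      rw [Real.log_div h4.ne' (by positivity), Real.log_div h4.ne' (by positivity), pow_add,
        Real.log_mul (by positivity) (by positivity)]
      ring
    rw [h1, sum_add_distrib, hzero, add_zero]
  refine ⟨fun i hi => ?_, ?_⟩
  · have h2 := hcomp i hi
    rw [hf0] at h2
    have h3 : 0 < f i := by linarith
    rw [hf] at h3
    have h5 : 0 < μ ^ (s * i) := by positivity
    exact (div_pos_iff_of_pos_right h5).1 h3
  rw [e]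
  exact hlogd

/-- the differences with error terms, for functionals; the constants are uniform -/
theorem hd_genU (Y : TS α σ) {μ : ℝ} {φ : ℕ → ℝ} (G : Gr Y μ φ) (C₀ : ℝ) (p : ℕ)
    (hC₀ : 0 ≤ C₀) : ∀ t : ℕ, ∃ A C : ℝ, 0 < A ∧ 0 < C ∧ ∀ F : α → ℝ,
    (∀ n, ∀ w ∈ Y.K n, 0 ≤ F w ∧ F w ≤ C₀ * ((n : ℝ) + 1) ^ p) →
    (∀ L : Finset σ, Fam Y L → ∀ st fl, Fill Y L st fl →
      ∃ M : α → ℝ, (∀ w, 0 ≤ M w) ∧
        (∀ w, Em Y L w → Rp (Sl Y L w) (fun U => F (fl w U)) (M w)) ∧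
        ∀ n, 2 ≤ n → ∑ w ∈ Y.K n, M (st w) ≤ C₀ * ∑ w ∈ Y.K n, F w) →
    ∀ (n : ℕ) (ε : ℝ), 2 ≤ n → 0 < ε → ε ≤ 1 → A * φ n ≤ ε ^ 2 * n →
      |∑ i ∈ range (t + 1), (-1 : ℝ) ^ i * (t.choose i : ℝ) *
        ((∑ w ∈ Y.K (n + Y.s * i), F w) / μ ^ (Y.s * i))| ≤
        C * (ε ^ t * (∑ w ∈ Y.K n, F w) +
          Real.exp (-(ε ^ 2 * n / A)) * (C₀ * ((n : ℝ) + 1) ^ p * μ ^ n)) := by
  intro r
  obtain ⟨A, C, hA, hC, h⟩ := s_aof α σ Y μ φ G r
  have hμ1 := G.one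
  have hsr : (1 : ℝ) ≤ 1 + (Y.s : ℝ) * r := by
    have : (0 : ℝ) ≤ (Y.s : ℝ) * r := by positivity
    linarith
  refine ⟨A, C * ((1 + (Y.s : ℝ) * r) ^ p + C₀), hA, by positivity,
    fun F hFB hrep n ε hn hε hε1 hAn => ?_⟩
  obtain ⟨L, hL, hh⟩ := h n ε hn hε hε1 hAn
  obtain ⟨st, fl, hfl⟩ := s_bij α σ Y L hL
  obtain ⟨M, hM0, hM1, hM2⟩ := hrep L hL st fl hfl
  obtain ⟨B, hB⟩ : ∃ B : ℝ, B = C₀ * ((1 + (Y.s : ℝ) * r) * ((n : ℝ) + 1)) ^ p := ⟨_, rfl⟩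
  have hB0 : 0 ≤ B := by rw [hB]; positivity
  have h1 := hh st fl hfl F M B hB0 hM0
    (fun i hi w hw => by
      have hi' := mem_range.1 hi
      obtain ⟨f0, f1⟩ := hFB _ w hw
      rw [abs_of_nonneg f0, hB]
      refine f1.trans (mul_le_mul_of_nonneg_left (pow_le_pow_left₀ (by positivity) ?_ p) hC₀)
      have h2 : (i : ℝ) ≤ r := by exact_mod_cast (by omega : i ≤ r)
      have h3 : (Y.s : ℝ) * i ≤ (Y.s : ℝ) * r := by gcongr
      have h4 : (0 : ℝ) ≤ (Y.s : ℝ) * r * n := by positivity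
      push_cast
      nlinarith) hM1
  have h5 := hM2 n hn
  refine h1.trans ?_
  rw [hB, mul_pow]
  have h9 : (1 : ℝ) ≤ (1 + (Y.s : ℝ) * r) ^ p := one_le_pow₀ hsr
  have h10 : 0 ≤ ∑ w ∈ Y.K n, F w := sum_nonneg (fun w hw => (hFB n w hw).1)
  have h11 : 0 ≤ ε ^ r * ∑ w ∈ Y.K n, F w := by positivity
  have h12 : ε ^ r * ∑ w ∈ Y.K n, M (st w) ≤
      ((1 + (Y.s : ℝ) * r) ^ p + C₀) * (ε ^ r * ∑ w ∈ Y.K n, F w) := by
    have h13 : ε ^ r * ∑ w ∈ Y.K n, M (st w) ≤ ε ^ r * (C₀ * ∑ w ∈ Y.K n, F w) :=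
      mul_le_mul_of_nonneg_left h5 (by positivity)
    have h14 : 0 ≤ (1 + (Y.s : ℝ) * r) ^ p * (ε ^ r * ∑ w ∈ Y.K n, F w) := by positivity
    calc _ ≤ _ := h13
      _ = C₀ * (ε ^ r * ∑ w ∈ Y.K n, F w) := by ring
      _ ≤ _ := by rw [add_mul]; linarith
  have h15 : 0 ≤ C₀ * ((n : ℝ) + 1) ^ p * (Real.exp (-(ε ^ 2 * n / A)) * μ ^ n) := by
    positivity
  have h16 : C₀ * ((1 + (Y.s : ℝ) * r) ^ p * ((n : ℝ) + 1) ^ p) *
        (Real.exp (-(ε ^ 2 * n / A)) * μ ^ n) ≤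
      ((1 + (Y.s : ℝ) * r) ^ p + C₀) *
        (C₀ * ((n : ℝ) + 1) ^ p * (Real.exp (-(ε ^ 2 * n / A)) * μ ^ n)) := by
    have : 0 ≤ C₀ * (C₀ * ((n : ℝ) + 1) ^ p * (Real.exp (-(ε ^ 2 * n / A)) * μ ^ n)) :=
      mul_nonneg hC₀ h15
    rw [add_mul]
    calc _ = (1 + (Y.s : ℝ) * r) ^ p *
          (C₀ * ((n : ℝ) + 1) ^ p * (Real.exp (-(ε ^ 2 * n / A)) * μ ^ n)) := by ring
      _ ≤ _ := by linarith
  calc C * (ε ^ r * (∑ w ∈ Y.K n, M (st w)) +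
        C₀ * ((1 + (Y.s : ℝ) * r) ^ p * ((n : ℝ) + 1) ^ p) *
        (Real.exp (-(ε ^ 2 * n / A)) * μ ^ n))
      ≤ C * (((1 + (Y.s : ℝ) * r) ^ p + C₀) * (ε ^ r * ∑ w ∈ Y.K n, F w) +
        ((1 + (Y.s : ℝ) * r) ^ p + C₀) *
        (C₀ * ((n : ℝ) + 1) ^ p * (Real.exp (-(ε ^ 2 * n / A)) * μ ^ n))) :=
        mul_le_mul_of_nonneg_left (add_le_add h12 h16) hC.le
    _ = _ := by ring

/-- **Uniform pointwise regularity to all orders, for functionals** -/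
theorem gen_ptU (Y : TS α σ) {μ : ℝ} {φ : ℕ → ℝ} (G : Gr Y μ φ) (C₀ : ℝ) (p : ℕ)
    (hC₀ : 0 ≤ C₀) (r : ℕ) (hr : 1 ≤ r) :
    ∃ A' C' : ℝ, 0 < A' ∧ 0 < C' ∧ ∀ F : α → ℝ,
      (∀ n, ∀ w ∈ Y.K n, 0 ≤ F w ∧ F w ≤ C₀ * ((n : ℝ) + 1) ^ p) →
      (∀ L : Finset σ, Fam Y L → ∀ st fl, Fill Y L st fl →
        ∃ M : α → ℝ, (∀ w, 0 ≤ M w) ∧
          (∀ w, Em Y L w → Rp (Sl Y L w) (fun U => F (fl w U)) (M w)) ∧
          ∀ n, 2 ≤ n → ∑ w ∈ Y.K n, M (st w) ≤ C₀ * ∑ w ∈ Y.K n, F w) →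
      ∀ (n : ℕ) (ε L : ℝ), 2 ≤ n → 0 < ε → ε ≤ 1 / A' → 0 ≤ L →
        A' * (φ n + L) ≤ ε ^ 2 * n → μ ^ n ≤ Real.exp L * ∑ w ∈ Y.K n, F w →
        (∀ i, i ≤ r → 0 < ∑ w ∈ Y.K (n + Y.s * i), F w) ∧
        |∑ i ∈ range (r + 1), (-1 : ℝ) ^ i * (r.choose i : ℝ) *
          Real.log ((∑ w ∈ Y.K (n + Y.s * i), F w) / μ ^ (n + Y.s * i))| ≤ C' * ε ^ r := by
  have hμ1 := G.one
  have hg := hd_genU Y G C₀ p hC₀
  choose A C hA hC hAC using hg
  obtain ⟨A', C', hA', hC', h⟩ := pt_finU r hr G.one Y.s φ G.phi.log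
    (K := 2 * C₀ + 2 * p) (by positivity) A C hA hC
  refine ⟨A', C', hA', hC', fun F hFB hrep n ε L hn hε hεA hL hle hlow => ?_⟩
  have hpos : 0 < ∑ w ∈ Y.K n, F w := by
    by_contra hcon
    push Not at hcon
    have h2 : 0 < μ ^ n := by positivity
    have h3 : 0 < Real.exp L := Real.exp_pos _
    nlinarith
  refine h (fun n => ∑ w ∈ Y.K n, F w) (fun n => C₀ * ((n : ℝ) + 1) ^ p * μ ^ n)
    (fun n => by positivity) (fun t n ε hn hε hε1 hle => hAC t F hFB hrep n ε hn hε hε1 hle)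
    n ε L hn hε hεA hL hle hpos ?_
  have h1 := poly_le G.phi hn hC₀ p
  calc C₀ * ((n : ℝ) + 1) ^ p * μ ^ n
      ≤ Real.exp ((2 * C₀ + 2 * p) * φ n) * (Real.exp L * ∑ w ∈ Y.K n, F w) := by gcongr
    _ = _ := by
        rw [← mul_assoc, ← Real.exp_add, add_comm L]

/-- **Uniform pointwise regularity to all orders, for invariant weights** -/
theorem inv_ptU (Y : TS α σ) {μ : ℝ} {φ : ℕ → ℝ} (G : Gr Y μ φ) (r : ℕ) (hr : 1 ≤ r) :
    ∃ A' C' : ℝ, 0 < A' ∧ 0 < C' ∧ ∀ F : α → ℝ, (∀ n, ∀ w ∈ Y.K n, 0 ≤ F w ∧ F w ≤ 1) →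
      (∀ n, ∀ w ∈ Y.K n, ∀ q ∈ Y.S w, F (Y.ins w q) = F w) →
      ∀ (n : ℕ) (ε L : ℝ), 2 ≤ n → 0 < ε → ε ≤ 1 / A' → 0 ≤ L →
        A' * (φ n + L) ≤ ε ^ 2 * n → μ ^ n ≤ Real.exp L * ∑ w ∈ Y.K n, F w →
        (∀ i, i ≤ r → 0 < ∑ w ∈ Y.K (n + Y.s * i), F w) ∧
        |∑ i ∈ range (r + 1), (-1 : ℝ) ^ i * (r.choose i : ℝ) *
          Real.log ((∑ w ∈ Y.K (n + Y.s * i), F w) / μ ^ (n + Y.s * i))| ≤ C' * ε ^ r := by
  obtain ⟨A', C', hA', hC', h⟩ := gen_ptU Y G 1 0 zero_le_one r hr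
  refine ⟨A', C', hA', hC', fun F hFB hFi => h F (fun n w hw => ?_) (fun L hL st fl hfl => ?_)⟩
  · obtain ⟨h1, h2⟩ := hFB n w hw
    exact ⟨h1, by rw [pow_zero, mul_one]; exact h2⟩
  · refine ⟨fun w => |F w|, fun w => abs_nonneg _, fun w hw => ?_, fun n hn => ?_⟩
    · obtain ⟨v, hv, hv'⟩ := Rp.const (E := Sl Y L w) (F w)
      exact ⟨v, hv, fun U hU => (fl_inv hfl hFi hw U hU).trans (hv' U hU)⟩
    · have h5 : ∑ w ∈ Y.K n, |F (st w)| = ∑ w ∈ Y.K n, F w := by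
        refine sum_congr rfl (fun w hw => ?_)
        rw [sum_st hfl hFi hw, abs_of_nonneg (hFB n w hw).1]
      rw [h5, one_mul]

theorem card_posT' (Y : TS α σ) {μ : ℝ} {φ : ℕ → ℝ} (G : Gr Y μ φ)
    (hc : ∃ K' : ℝ, 0 ≤ K' ∧ ∀ n : ℕ, 2 ≤ n →
      μ ^ n ≤ Real.exp (K' * φ n) * ((Y.K n).card : ℝ)) {n : ℕ} (hn : 2 ≤ n) :
    0 < ((Y.K n).card : ℝ) := by
  obtain ⟨K', hK', h⟩ := hc
  have h1 := h n hn
  have hμ := G.one
  have h2 : 0 < μ ^ n := by positivity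
  by_contra hcon
  push Not at hcon
  have h3 := Real.exp_pos (K' * φ n)
  nlinarith

/-- **Means of invariant weights** -/
theorem mean_ptU (Y : TS α σ) {μ : ℝ} {φ : ℕ → ℝ} (G : Gr Y μ φ)
    (hc : ∃ K' : ℝ, 0 ≤ K' ∧ ∀ n : ℕ, 2 ≤ n →
      μ ^ n ≤ Real.exp (K' * φ n) * ((Y.K n).card : ℝ)) (r : ℕ) (hr : 1 ≤ r) :
    ∃ C : ℝ, 0 < C ∧ ∀ F : α → ℝ, (∀ n, ∀ w ∈ Y.K n, 0 ≤ F w ∧ F w ≤ 1) →
      (∀ n, ∀ w ∈ Y.K n, ∀ q ∈ Y.S w, F (Y.ins w q) = F w) →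
      ∀ n : ℕ, 2 ≤ n → 0 < ∑ w ∈ Y.K n, F w →
        C * (φ n + Real.log (((Y.K n).card : ℝ) / ∑ w ∈ Y.K n, F w)) ≤ n →
        (∀ i, i ≤ r → 0 < ∑ w ∈ Y.K (n + Y.s * i), F w) ∧
        |∑ i ∈ range (r + 1), (-1 : ℝ) ^ i * (r.choose i : ℝ) *
          Real.log ((∑ w ∈ Y.K (n + Y.s * i), F w) / ((Y.K (n + Y.s * i)).card : ℝ))| ≤
          C * Real.sqrt ((φ n + Real.log (((Y.K n).card : ℝ) / ∑ w ∈ Y.K n, F w)) / n) ^ r := by
  have hcp : ∀ n, 2 ≤ n → 0 < ((Y.K n).card : ℝ) := fun n hn => card_posT' Y G hc hn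
  have hμ0 : 0 < μ := by linarith [G.one]
  obtain ⟨K', hK', hc'⟩ := hc
  obtain ⟨A', C', hA', hC', h⟩ := inv_ptU Y G r hr
  -- constants
  obtain ⟨A1, hA1⟩ : ∃ A1 : ℝ, A1 = A' * (K' + 1) + 1 := ⟨_, rfl⟩
  have hA10 : 0 < A1 := by rw [hA1]; positivity
  refine ⟨A1 * A' ^ 2 + 2 * (C' * Real.sqrt A1 ^ r) + 1, by positivity,
    fun F hFB hFi n hn hpos hle => ?_⟩
  have hn0 : (0 : ℝ) < n := by exact_mod_cast (by omega : 0 < n)
  have hφ0 := phi_pos G.phi hn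
  obtain ⟨l, hl⟩ : ∃ l : ℝ, l = Real.log (((Y.K n).card : ℝ) / ∑ w ∈ Y.K n, F w) := ⟨_, rfl⟩
  rw [← hl] at hle ⊢
  have hcpn := hcp n hn
  have hsum : ∑ w ∈ Y.K n, F w ≤ ((Y.K n).card : ℝ) := by
    calc ∑ w ∈ Y.K n, F w ≤ ∑ w ∈ Y.K n, (1 : ℝ) := sum_le_sum (fun w hw => (hFB n w hw).2)
      _ = _ := by simp
  have hl0 : 0 ≤ l := by
    rw [hl]
    apply Real.log_nonneg
    rw [le_div_iff₀ hpos, one_mul]
    exact hsum
  obtain ⟨x, hx⟩ : ∃ x : ℝ, x = φ n + l := ⟨_, rfl⟩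
  have hx0 : 0 < x := by rw [hx]; linarith
  rw [← hx] at hle ⊢
  have hsq0 : 0 < Real.sqrt (x / n) := Real.sqrt_pos.2 (by positivity)
  obtain ⟨ε, hε⟩ : ∃ ε : ℝ, ε = Real.sqrt A1 * Real.sqrt (x / n) := ⟨_, rfl⟩
  have hε0 : 0 < ε := by
    rw [hε]
    have := Real.sqrt_pos.2 hA10
    positivity
  have hε2 : ε ^ 2 = A1 * (x / n) := by
    rw [hε, mul_pow, Real.sq_sqrt hA10.le, Real.sq_sqrt (by positivity)]
  have hεn : ε ^ 2 * n = A1 * x := by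
    rw [hε2]
    field_simp
  have hεA : ε ≤ 1 / A' := by
    have h1 : ε ^ 2 ≤ (1 / A') ^ 2 := by
      rw [hε2, ← mul_div_assoc, div_le_iff₀ hn0, div_pow, one_pow, div_mul_eq_mul_div, one_mul,
        le_div_iff₀ (by positivity)]
      have h2 : 0 ≤ 2 * (C' * Real.sqrt A1 ^ r) + 1 := by positivity
      nlinarith
    exact le_of_sq_le_sq h1 (by positivity)
  -- the function F and the constant function
  have hF := h F hFB hFi n ε (K' * φ n + l) hn hε0 hεA (by positivity)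
    (by
      rw [hεn]
      have h1 : φ n + (K' * φ n + l) ≤ (K' + 1) * x := by
        rw [hx]
        nlinarith
      calc A' * (φ n + (K' * φ n + l)) ≤ A' * ((K' + 1) * x) :=
            mul_le_mul_of_nonneg_left h1 hA'.le
        _ ≤ A1 * x := by rw [hA1]; nlinarith)
    (by
      rw [Real.exp_add, hl, Real.exp_log (by positivity), mul_assoc, div_mul_cancel₀ _ hpos.ne']
      exact hc' n hn)
  have h1 := h (fun _ => 1) (fun n w hw => by norm_num) (fun n w hw q hq => rfl) n ε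
    (K' * φ n + l) hn hε0 hεA (by positivity)
    (by
      rw [hεn]
      have h1 : φ n + (K' * φ n + l) ≤ (K' + 1) * x := by
        rw [hx]
        nlinarith
      calc A' * (φ n + (K' * φ n + l)) ≤ A' * ((K' + 1) * x) :=
            mul_le_mul_of_nonneg_left h1 hA'.le
        _ ≤ A1 * x := by rw [hA1]; nlinarith)
    (by
      simp only [sum_const, nsmul_eq_mul, mul_one]
      refine (hc' n hn).trans (mul_le_mul_of_nonneg_right ?_ hcpn.le)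
      exact Real.exp_le_exp.mpr (by linarith))
  simp only [sum_const, nsmul_eq_mul, mul_one] at h1
  refine ⟨hF.1, ?_⟩
  have e : ∑ i ∈ range (r + 1), (-1 : ℝ) ^ i * (r.choose i : ℝ) *
        Real.log ((∑ w ∈ Y.K (n + Y.s * i), F w) / ((Y.K (n + Y.s * i)).card : ℝ)) =
      (∑ i ∈ range (r + 1), (-1 : ℝ) ^ i * (r.choose i : ℝ) *
        Real.log ((∑ w ∈ Y.K (n + Y.s * i), F w) / μ ^ (n + Y.s * i))) -
      (∑ i ∈ range (r + 1), (-1 : ℝ) ^ i * (r.choose i : ℝ) *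
        Real.log (((Y.K (n + Y.s * i)).card : ℝ) / μ ^ (n + Y.s * i))) := by
    rw [← sum_sub_distrib]
    refine sum_congr rfl (fun i hi => ?_)
    have hi' := mem_range.1 hi
    have h3 := hF.1 i (by omega)
    have h4 := h1.1 i (by omega)
    have h5 : 0 < μ ^ (n + Y.s * i) := by positivity
    rw [Real.log_div h3.ne' h4.ne', Real.log_div h3.ne' h5.ne', Real.log_div h4.ne' h5.ne']
    ring
  rw [e]
  have h2 : C' * ε ^ r = C' * Real.sqrt A1 ^ r * Real.sqrt (x / n) ^ r := by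
    rw [hε, mul_pow, mul_assoc]
  have h3 : 0 ≤ Real.sqrt (x / n) ^ r := by positivity
  calc _ ≤ C' * ε ^ r + C' * ε ^ r := (abs_sub _ _).trans (add_le_add hF.2 h1.2)
    _ = 2 * (C' * Real.sqrt A1 ^ r) * Real.sqrt (x / n) ^ r := by rw [h2]; ring
    _ ≤ _ := mul_le_mul_of_nonneg_right (by nlinarith [show 0 ≤ A1 * A' ^ 2 by positivity]) h3

end

end Pool.Agent.N929.EG
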