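import Pool.Agent.N929.EG.Stm

/-!
# Regularity to all orders of the logarithms, for invariant weights
-/

set_option autoImplicit false
set_option linter.unusedVariables false

namespace Pool.Agent.N929.EG

open Finset Filter Topology
open scoped Classical

noncomputable section

variable {α σ : Type}

theorem Rp.const {E : Finset σ} (c : ℝ) : Rp E (fun _ => c) |c| := by
  refine ⟨fun T => if T = ∅ then c else 0, ?_, fun U hU => ?_⟩
  · rw [sum_eq_single (∅ : Finset σ)]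
    · simp
    · intro T _ hT
      simp [hT]
    · intro h
      exact absurd (empty_mem_powerset E) h
  · rw [sum_eq_single (∅ : Finset σ)]
    · simp
    · intro T _ hT
      simp [hT]
    · intro h
      exact absurd (empty_mem_powerset E) h

theorem fl_inv {Y : TS α σ} {L : Finset σ} {st : α → α} {fl : α → Finset σ → α}
    (h : Fill Y L st fl) {F : α → ℝ} (hF : ∀ n, ∀ w ∈ Y.K n, ∀ q ∈ Y.S w, F (Y.ins w q) = F w)
    {w : α} (hw : Em Y L w) : ∀ U : Finset σ, U ⊆ Sl Y L w → F (fl w U) = F w := by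
  intro U
  induction U using Finset.induction_on with
  | empty =>
    intro _
    rw [h.fl_empty w hw]
  | insert q U hq ih =>
    intro hU
    have h1 : U ⊆ Sl Y L w := fun x hx => hU (mem_insert_of_mem hx)
    have h2 : q ∈ Sl Y L w := hU (mem_insert_self q U)
    obtain ⟨h3, h4⟩ := h.fl_insert w U q hw h1 h2 hq
    rw [h4, hF _ _ (h.fl_K w U hw h1) q h3, ih h1]

theorem phi_pos {φ : ℕ → ℝ} (h : Phi φ) {n : ℕ} (hn : 2 ≤ n) : 0.69 ≤ φ n := by
  have hn' : (2 : ℝ) ≤ n := by exact_mod_cast hn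
  have := Real.log_two_gt_d9
  have h3 : Real.log 2 ≤ Real.log n := Real.log_le_log (by norm_num) hn'
  have := h.log n hn
  linarith

theorem poly_le {φ : ℕ → ℝ} (h : Phi φ) {n : ℕ} (hn : 2 ≤ n) {C₀ : ℝ} (hC : 0 ≤ C₀) (p : ℕ) :
    C₀ * ((n : ℝ) + 1) ^ p ≤ Real.exp ((2 * C₀ + 2 * p) * φ n) := by
  have hn' : (2 : ℝ) ≤ n := by exact_mod_cast hn
  have h0 := phi_pos h hn
  have h1 : C₀ ≤ Real.exp (2 * C₀ * φ n) := by
    have := Real.add_one_le_exp (2 * C₀ * φ n)
    nlinarith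
  have h2 : (n : ℝ) + 1 ≤ Real.exp (2 * φ n) := by
    have h3 : (n : ℝ) + 1 ≤ (n : ℝ) ^ 2 := by nlinarith
    have h4 : (n : ℝ) ^ 2 = Real.exp (2 * Real.log n) := by
      rw [two_mul, Real.exp_add, Real.exp_log (by linarith), sq]
    rw [h4] at h3
    refine h3.trans (Real.exp_le_exp.mpr ?_)
    have := h.log n hn
    linarith
  calc C₀ * ((n : ℝ) + 1) ^ p ≤ Real.exp (2 * C₀ * φ n) * (Real.exp (2 * φ n)) ^ p := by gcongr
    _ = Real.exp ((2 * C₀ + 2 * p) * φ n) := by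
        rw [← Real.exp_nat_mul, ← Real.exp_add]
        ring_nf

theorem inv (hbij : S_BIJ) (haof : S_AOF) (hfin : S_FIN) : S_INV := by
  intro α σ Y μ φ G P F C₀ p hC₀ hP2 hPs hFB hFi hlow
  obtain ⟨K', hK'0, hK'⟩ := hlow
  have hμ1 := G.one
  have hμ0 : 0 < μ := by linarith
  have hpos : ∀ n, P n → 0 < ∑ w ∈ Y.K n, F w := by
    intro n hn
    have h1 := hK' n hn
    by_contra hcon
    push Not at hcon
    have h2 : 0 < μ ^ n := by positivity
    have h3 : 0 < Real.exp (K' * φ n) := Real.exp_pos _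
    nlinarith
  refine hfin μ Y.s φ P (fun n => ∑ w ∈ Y.K n, F w)
    (fun n => C₀ * ((n : ℝ) + 1) ^ p * μ ^ n) hμ1 Y.hs G.phi hP2 hPs hpos
    (fun n => by positivity) ⟨(2 * C₀ + 2 * p) + K', by positivity, fun n hn => ?_⟩ ?_
  · have h1 := poly_le G.phi (hP2 n hn) hC₀ p
    have h2 := hpos n hn
    calc C₀ * ((n : ℝ) + 1) ^ p * μ ^ n
        ≤ Real.exp ((2 * C₀ + 2 * p) * φ n) * (Real.exp (K' * φ n) * ∑ w ∈ Y.K n, F w) := by
          have := hK' n hn
          gcongr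
      _ = _ := by
          rw [← mul_assoc, ← Real.exp_add]
          ring_nf
  · intro r
    obtain ⟨A, C, hA, hC, h⟩ := haof α σ Y μ φ G r
    have hsr : (1 : ℝ) ≤ 1 + (Y.s : ℝ) * r := by
      have : (0 : ℝ) ≤ (Y.s : ℝ) * r := by positivity
      linarith
    refine ⟨A, C * (1 + (Y.s : ℝ) * r) ^ p, hA, by positivity, fun n ε hPn hε hε1 hAn => ?_⟩
    obtain ⟨L, hL, hh⟩ := h n ε (hP2 n hPn) hε hε1 hAn
    obtain ⟨st, fl, hfl⟩ := hbij α σ Y L hL
    obtain ⟨B, hB⟩ : ∃ B : ℝ, B = C₀ * ((1 + (Y.s : ℝ) * r) * ((n : ℝ) + 1)) ^ p := ⟨_, rfl⟩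
    have hB0 : 0 ≤ B := by rw [hB]; positivity
    have h1 := hh st fl hfl F (fun w => |F w|) B hB0 (fun w => abs_nonneg _)
      (fun i hi w hw => by
        have hi' := mem_range.1 hi
        obtain ⟨f0, f1⟩ := hFB _ w hw
        rw [abs_of_nonneg f0, hB]
        refine f1.trans (mul_le_mul_of_nonneg_left (pow_le_pow_left₀ (by positivity) ?_ p) hC₀)
        have h2 : (i : ℝ) ≤ r := by exact_mod_cast (by omega : i ≤ r)
        have h3 : (Y.s : ℝ) * i ≤ (Y.s : ℝ) * r := by gcongr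
        have h4 : (0 : ℝ) ≤ (Y.s : ℝ) * r * n := by positivity
        push_cast
        nlinarith)
      (fun w hw => by
        obtain ⟨v, hv, hv'⟩ := Rp.const (E := Sl Y L w) (F w)
        exact ⟨v, hv, fun U hU => (fl_inv hfl hFi hw U hU).trans (hv' U hU)⟩)
    have h5 : ∑ w ∈ Y.K n, |F (st w)| = ∑ w ∈ Y.K n, F w := by
      refine sum_congr rfl (fun w hw => ?_)
      have hlen := Y.len_K n w hw
      have hw' : w ∈ Y.K (Y.len w) := by rw [hlen]; exact hw
      have h6 := hfl.fl_st w hw'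
      have h7 : Oc Y L w ⊆ Sl Y L (st w) := by
        rw [hfl.st_sl w hw']
        unfold Oc Sl
        intro q hq
        rw [mem_filter] at hq ⊢
        exact ⟨hq.1, Or.inr hq.2⟩
      have h8 := fl_inv hfl hFi (hfl.st_em w hw') _ h7
      rw [h6] at h8
      rw [← h8, abs_of_nonneg (hFB n w hw).1]
    refine h1.trans ?_
    rw [h5, hB, mul_pow]
    have h9 : (1 : ℝ) ≤ (1 + (Y.s : ℝ) * r) ^ p := one_le_pow₀ hsr
    have h10 := hpos n hPn
    have h11 : 0 ≤ ε ^ r * ∑ w ∈ Y.K n, F w := by positivity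
    have h12 := le_mul_of_one_le_left h11 h9
    calc C * (ε ^ r * ∑ w ∈ Y.K n, F w + C₀ * ((1 + (Y.s : ℝ) * r) ^ p * ((n : ℝ) + 1) ^ p) *
          (Real.exp (-(ε ^ 2 * n / A)) * μ ^ n))
        ≤ C * ((1 + (Y.s : ℝ) * r) ^ p * (ε ^ r * ∑ w ∈ Y.K n, F w) +
          C₀ * ((1 + (Y.s : ℝ) * r) ^ p * ((n : ℝ) + 1) ^ p) *
          (Real.exp (-(ε ^ 2 * n / A)) * μ ^ n)) :=
          mul_le_mul_of_nonneg_left (add_le_add_left h12 _) hC.le
      _ = _ := by ring

end

end Pool.Agent.N929.EG
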