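import Pool.Agent.N929.EG.AOF
import Pool.Agent.N929.EG.Inv
import Pool.Agent.N607.EG.Bij
import Pool.Agent.N547.EG.MV
import Pool.Agent.N547.EG.SEL
import Pool.Agent.N547.EG.FAM
import Pool.Agent.N364.EG.Fin
import Pool.Agent.N169.EG.Win
import Pool.Agent.N278.EZ.Rat
import Pool.Agent.N861.EZ.Dfj

/-!
# Regularity to all orders for systems of local moves: the unconditional theorems
-/

set_option autoImplicit false
set_option linter.unusedVariables false

namespace Pool.Agent.N929.EG

theorem s_bij : S_BIJ := Pool.Agent.N607.EG.bij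

theorem s_win : S_WIN := Pool.Agent.N169.EG.win

theorem s_aof : S_AOF :=
  aof Pool.Agent.N861.EZ.dfj Pool.Agent.N547.EG.mv Pool.Agent.N278.EZ.rat
    (Pool.Agent.N547.EG.Fam.fam Pool.Agent.N547.EG.Sel.sel)

theorem s_inv : S_INV := inv s_bij s_aof Pool.Agent.N364.EG.fin

end Pool.Agent.N929.EG
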