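import Pool.Agent.N929.EG.Ab
import Pool.Agent.N929.EG.Main

/-!
# Systems of moves with geometric weights: all orders
-/

set_option autoImplicit false
set_option linter.unusedVariables false

namespace Pool.Agent.N929.EG

open Finset Pool.Agent.N929.EG.Seq
open scoped Classical

noncomputable section

variable {α σ : Type}

/-- the objects of size at most `N` -/
def All (Y : TS α σ) (N : ℕ) : Finset α := (range (N + 1)).biUnion Y.K

theorem mem_All {Y : TS α σ} {N : ℕ} {w : α} :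
    w ∈ All Y N ↔ w ∈ Y.K (Y.len w) ∧ Y.len w ≤ N := by
  unfold All
  rw [mem_biUnion]
  constructor
  · rintro ⟨n, hn, hw⟩
    have := Y.len_K n w hw
    rw [mem_range] at hn
    rw [this]
    exact ⟨hw, by omega⟩
  · rintro ⟨h1, h2⟩
    exact ⟨Y.len w, mem_range.2 (by omega), h1⟩

/-- invariance away from the set `E` of places -/
def InvOff (Y : TS α σ) (E : Finset σ) (F : α → ℝ) : Prop :=
  ∀ n, ∀ w ∈ Y.K n, ∀ q ∈ Y.S w, q ∉ E → F (Y.ins w q) = F w

theorem fl_inv' {Y : TS α σ} {L E : Finset σ} {st : α → α} {fl : α → Finset σ → α}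
    (h : Fill Y L st fl) (hLE : ∀ q ∈ L, q ∉ E) {F : α → ℝ} (hF : InvOff Y E F)
    {w : α} (hw : Em Y L w) : ∀ U : Finset σ, U ⊆ Sl Y L w → F (fl w U) = F w := by
  intro U
  induction U using Finset.induction_on with
  | empty =>
    intro _
    rw [h.fl_empty w hw]
  | insert q U hq ih =>
    intro hU
    have h1 : U ⊆ Sl Y L w := fun x hx => hU (mem_insert_of_mem hx)
    have h2 : q ∈ Sl Y L w := hU (mem_insert_self q U)
    have h5 : q ∈ L := (mem_filter.1 h2).1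
    obtain ⟨h3, h4⟩ := h.fl_insert w U q hw h1 h2 hq
    rw [h4, hF _ _ (h.fl_K w U hw h1) q h3 (hLE q h5), ih h1]

/-- the objects by classes -/
theorem class_sum {Y : TS α σ} {L : Finset σ} {st : α → α} {fl : α → Finset σ → α} {N : ℕ}
    (h : Fill Y L st fl) (hN : ∀ n, N < n → Y.K n = ∅) (φ : α → ℝ) :
    ∑ w ∈ All Y N, φ w =
      ∑ w ∈ (All Y N).filter (Em Y L), ∑ U ∈ (Sl Y L w).powerset, φ (fl w U) := by
  rw [sum_sigma']
  symm
  refine sum_nbij' (fun x => fl x.1 x.2) (fun w => ⟨st w, Oc Y L w⟩) ?_ ?_ ?_ ?_ ?_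
  · rintro ⟨w, U⟩ hx
    rw [mem_sigma, mem_filter, mem_powerset] at hx
    obtain ⟨⟨h1, h2⟩, h3⟩ := hx
    simp only at h1 h2 h3 ⊢
    have e2 := h.fl_K w U h2 h3
    have e3 := Y.len_K _ _ e2
    rw [mem_All, e3]
    refine ⟨e2, ?_⟩
    by_contra hc
    rw [hN _ (not_le.1 hc)] at e2
    exact absurd e2 (notMem_empty _)
  · intro w hw
    rw [mem_All] at hw
    rw [mem_sigma, mem_filter, mem_powerset]
    simp only
    have g1 := h.st_em w hw.1
    have g2 := h.st_len w hw.1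
    have g3 := h.st_sl w hw.1
    refine ⟨⟨mem_All.2 ⟨g1.1, by omega⟩, g1⟩, ?_⟩
    rw [g3]
    intro q hq
    unfold Oc at hq
    unfold Sl
    rw [mem_filter] at hq ⊢
    exact ⟨hq.1, Or.inr hq.2⟩
  · rintro ⟨w, U⟩ hx
    rw [mem_sigma, mem_filter, mem_powerset] at hx
    obtain ⟨⟨h1, h2⟩, h3⟩ := hx
    simp only at h1 h2 h3 ⊢
    rw [h.st_fl w U h2 h3, h.fl_oc w U h2 h3]
  · intro w hw
    exact h.fl_st w (mem_All.1 hw).1
  · rintro ⟨w, U⟩ hx
    rfl

/-- one family of places -/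
theorem gc1 {c : ℝ} (hc : 0 < c) (s r : ℕ) : ∃ C : ℝ, 0 < C ∧ ∀ x : ℝ, 0 < x →
    (1 + x ^ s) / Real.sqrt (x ^ s) ≤ c → ∀ (α σ : Type) (Y : TS α σ), Y.s = s → ∀ N : ℕ, (∀ n, N < n → Y.K n = ∅) → ∀ (L E : Finset σ) (st : α → α)
      (fl : α → Finset σ → α), Fill Y L st fl → (∀ q ∈ L, q ∉ E) →
      ∀ (F : α → ℝ) (g : ℕ → ℝ), (∀ w, 0 ≤ F w) → InvOff Y E F → (∀ n, |g n| ≤ 1) →
      |∑ w ∈ All Y N, x ^ Y.len w * (F w * D s r g (Y.len w))| ≤
        C * ∑ w ∈ All Y N, x ^ Y.len w * (F w / Real.sqrt ((Sl Y L w).card + 1) ^ r) := by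
  obtain ⟨C, hC, h'⟩ := Ab_all hc r
  refine ⟨C, hC, ?_⟩
  intro x hx hxc α σ Y hs N hN L E st fl hfl hLE F g hF0 hF hg
  have h := h' (x ^ s) (by positivity) hxc
  rw [class_sum hfl hN, class_sum hfl hN, mul_sum]
  refine (abs_sum_le_sum_abs _ _).trans (sum_le_sum fun w hw => ?_)
  obtain ⟨h1, h2⟩ := mem_filter.1 hw
  have hlen : ∀ U ∈ (Sl Y L w).powerset, Y.len (fl w U) = Y.len w + s * U.card := by
    intro U hU
    rw [← hs]
    exact Y.len_K _ _ (hfl.fl_K w U h2 (mem_powerset.1 hU))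
  have e1 : ∑ U ∈ (Sl Y L w).powerset, x ^ Y.len (fl w U) *
      (F (fl w U) * D s r g (Y.len (fl w U))) =
      x ^ Y.len w * F w * Ab (x ^ s) (Sl Y L w).card (D 1 r (fun j => g (Y.len w + s * j))) 0 := by
    have e4 : Ab (x ^ s) (Sl Y L w).card (D 1 r (fun j => g (Y.len w + s * j))) 0 =
        ∑ U ∈ (Sl Y L w).powerset, (x ^ s) ^ U.card *
          D 1 r (fun j => g (Y.len w + s * j)) (0 + U.card) := by
      rw [sum_powerset_apply_card (fun j => (x ^ s) ^ j *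
        D 1 r (fun j => g (Y.len w + s * j)) (0 + j))]
      unfold Ab
      refine sum_congr rfl fun j _ => ?_
      rw [nsmul_eq_mul]
      ring
    rw [e4, mul_sum]
    refine sum_congr rfl fun U hU => ?_
    rw [hlen U hU, fl_inv' hfl hLE hF h2 U (mem_powerset.1 hU), pow_add, pow_mul]
    have e2 : D s r g (Y.len w + s * U.card) =
        D 1 r (fun j => g (Y.len w + s * j)) (0 + U.card) := by
      unfold D
      refine sum_congr rfl fun i _ => ?_
      simp only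
      rw [show Y.len w + s * U.card + s * i = Y.len w + s * (0 + U.card + 1 * i) by ring]
    rw [e2]
    ring
  have e2 : ∑ U ∈ (Sl Y L w).powerset, x ^ Y.len (fl w U) *
      (F (fl w U) / Real.sqrt ((Sl Y L (fl w U)).card + 1) ^ r) =
      x ^ Y.len w * F w * ((1 + x ^ s) ^ (Sl Y L w).card /
        Real.sqrt ((Sl Y L w).card + 1) ^ r) := by
    have e3 : (1 + x ^ s) ^ (Sl Y L w).card = ∑ U ∈ (Sl Y L w).powerset, (x ^ s) ^ U.card := by
      have := Finset.sum_pow_mul_eq_add_pow (x ^ s) 1 (Sl Y L w)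
      simp only [one_pow, mul_one] at this
      rw [this, add_comm]
    rw [e3, sum_div, mul_sum]
    refine sum_congr rfl fun U hU => ?_
    rw [hlen U hU, fl_inv' hfl hLE hF h2 U (mem_powerset.1 hU), pow_add, pow_mul,
      hfl.fl_sl w U h2 (mem_powerset.1 hU)]
    ring
  rw [e1, e2, abs_mul, abs_of_nonneg (mul_nonneg (by positivity) (hF0 w))]
  have h3 := h (Sl Y L w).card (fun j => g (Y.len w + s * j)) 1 (fun a => hg _) 0
  calc x ^ Y.len w * F w * |Ab (x ^ s) (Sl Y L w).card (D 1 r (fun j => g (Y.len w + s * j))) 0|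
      ≤ x ^ Y.len w * F w * (C * ((1 + x ^ s) ^ (Sl Y L w).card * 1) /
        Real.sqrt ((Sl Y L w).card + 1) ^ r) :=
        mul_le_mul_of_nonneg_left h3 (mul_nonneg (by positivity) (hF0 w))
    _ = _ := by ring

/-- the places of the moves, away from `E` -/
def Pl' (Y : TS α σ) (E : Finset σ) (w : α) : Finset σ := (Y.S w ∪ Y.B w) \ E

theorem exp_poly (κ r : ℕ) (hκ : 1 ≤ κ) : ∃ C : ℝ, 0 < C ∧ ∀ p : ℕ,
    Real.exp (-((p : ℝ) / κ)) ≤ C / Real.sqrt ((p : ℝ) + 1) ^ r := by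
  have hκ0 : (0 : ℝ) < κ := by exact_mod_cast hκ
  refine ⟨(r.factorial : ℝ) * κ ^ r * Real.exp (1 / κ), by positivity, fun p => ?_⟩
  have hp : (0 : ℝ) < (p : ℝ) + 1 := by positivity
  have hs : 0 < Real.sqrt ((p : ℝ) + 1) := Real.sqrt_pos.2 hp
  rw [le_div_iff₀ (by positivity)]
  have h1 : Real.sqrt ((p : ℝ) + 1) ^ r ≤ ((p : ℝ) + 1) ^ r := by
    refine pow_le_pow_left₀ hs.le ?_ r
    rw [Real.sqrt_le_left hp.le]
    nlinarith [show (0 : ℝ) ≤ p from Nat.cast_nonneg p]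
  have h2 : ((p : ℝ) + 1) ^ r ≤ (r.factorial : ℝ) * κ ^ r * Real.exp (((p : ℝ) + 1) / κ) := by
    have h3 := Real.pow_div_factorial_le_exp (((p : ℝ) + 1) / κ) (by positivity) r
    rw [div_le_iff₀ (by positivity), div_pow, div_le_iff₀ (by positivity)] at h3
    linarith
  have h3 : Real.exp (-((p : ℝ) / κ)) * Real.exp (((p : ℝ) + 1) / κ) = Real.exp (1 / κ) := by
    rw [← Real.exp_add]
    congr 1
    ring
  calc Real.exp (-((p : ℝ) / κ)) * Real.sqrt ((p : ℝ) + 1) ^ r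
      ≤ Real.exp (-((p : ℝ) / κ)) *
        ((r.factorial : ℝ) * κ ^ r * Real.exp (((p : ℝ) + 1) / κ)) :=
        mul_le_mul_of_nonneg_left (h1.trans h2) (Real.exp_pos _).le
    _ = (r.factorial : ℝ) * κ ^ r * (Real.exp (-((p : ℝ) / κ)) *
        Real.exp (((p : ℝ) + 1) / κ)) := by ring
    _ = _ := by rw [h3]

/-- **Systems of moves with geometric weights: all orders.** -/
theorem gc {c : ℝ} (hc : 0 < c) (s d r : ℕ) : ∃ C : ℝ, 0 < C ∧ ∀ x : ℝ, 0 < x →
    (1 + x ^ s) / Real.sqrt (x ^ s) ≤ c → ∀ (α σ : Type) (Y : TS α σ), Y.s = s → Y.d ≤ d → ∀ N : ℕ, (∀ n, N < n → Y.K n = ∅) → ∀ (E : Finset σ),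
      ∀ (F : α → ℝ) (g : ℕ → ℝ), (∀ w, 0 ≤ F w) → InvOff Y E F → (∀ n, |g n| ≤ 1) →
      |∑ w ∈ All Y N, x ^ Y.len w * (F w * D s r g (Y.len w))| ≤
        C * ∑ w ∈ All Y N, x ^ Y.len w * (F w / Real.sqrt ((Pl' Y E w).card + 1) ^ r) := by
  obtain ⟨C, hC, h'⟩ := gc1 hc s r
  obtain ⟨κ, hκ, hsel⟩ := Pool.Agent.N547.EG.Sel.sel d
  obtain ⟨C', hC', hexp⟩ := exp_poly κ r hκ
  have hκ0 : (0 : ℝ) < κ := by exact_mod_cast hκ
  have hκ1 : (1 : ℝ) ≤ κ := by exact_mod_cast hκ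
  have hsκ : 0 < Real.sqrt κ := Real.sqrt_pos.2 hκ0
  refine ⟨C * (Real.sqrt κ ^ r + C'), by positivity, ?_⟩
  intro x hx hxc α σ Y hs hd N hN E F g hF0 hF hg
  have h := h' x hx hxc
  obtain ⟨ι, _, _, Λ, hΛ, hP⟩ := hsel σ ((Y.U N).filter (fun q => q ∉ E)) Y.cf Y.cf_symm
    (fun q hq => by
      refine le_trans (card_le_card ?_) ((Y.deg N q (mem_filter.1 hq).1).trans hd)
      intro q' hq'
      rw [mem_filter] at hq' ⊢
      exact ⟨(mem_filter.1 hq'.1).1, hq'.2⟩)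
  obtain ⟨I, hI⟩ : ∃ I : ℝ, I = (Fintype.card ι : ℝ) := ⟨_, rfl⟩
  have hI0 : 0 < I := by
    rw [hI]
    exact_mod_cast Fintype.card_pos
  have h1 : ∀ i : ι, |∑ w ∈ All Y N, x ^ Y.len w * (F w * D s r g (Y.len w))| ≤
      C * ∑ w ∈ All Y N, x ^ Y.len w * (F w / Real.sqrt ((Sl Y (Λ i) w).card + 1) ^ r) := by
    intro i
    obtain ⟨h2, h3⟩ := hΛ i
    obtain ⟨st, fl, hfl⟩ := s_bij α σ Y (Λ i) h3
    exact h α σ Y hs N hN (Λ i) E st fl hfl (fun q hq => (mem_filter.1 (h2 hq)).2) F g hF0 hF hg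
  have h2 : I * |∑ w ∈ All Y N, x ^ Y.len w * (F w * D s r g (Y.len w))| ≤
      ∑ i : ι, C * ∑ w ∈ All Y N, x ^ Y.len w *
        (F w / Real.sqrt ((Sl Y (Λ i) w).card + 1) ^ r) := by
    rw [hI, ← nsmul_eq_mul, ← card_univ, ← sum_const]
    exact sum_le_sum fun i _ => h1 i
  have h3 : ∀ w ∈ All Y N, ∑ i : ι, 1 / Real.sqrt ((Sl Y (Λ i) w).card + 1) ^ r ≤
      I * ((Real.sqrt κ ^ r + C') / Real.sqrt ((Pl' Y E w).card + 1) ^ r) := by
    intro w hw
    obtain ⟨hw1, hw2⟩ := mem_All.1 hw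
    obtain ⟨hS, hB⟩ := Y.S_U (Y.len w) N w hw1 hw2
    obtain ⟨P, hPdef⟩ : ∃ P, P = Pl' Y E w := ⟨_, rfl⟩
    rw [← hPdef]
    have hPU : P ⊆ (Y.U N).filter (fun q => q ∉ E) := by
      intro q hq
      rw [hPdef] at hq
      unfold Pl' at hq
      rw [mem_sdiff, mem_union] at hq
      rw [mem_filter]
      exact ⟨hq.1.elim (fun h => hS h) (fun h => hB h), hq.2⟩
    have hSl : ∀ i, Sl Y (Λ i) w = Λ i ∩ P := by
      intro i
      ext q
      unfold Sl
      rw [mem_filter, mem_inter, hPdef]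
      unfold Pl'
      rw [mem_sdiff, mem_union]
      constructor
      · rintro ⟨h4, h5⟩
        exact ⟨h4, h5, (mem_filter.1 ((hΛ i).1 h4)).2⟩
      · rintro ⟨h4, h5, -⟩
        exact ⟨h4, h5⟩
    have hP' := hP P hPU
    have hP0 : (0 : ℝ) < (P.card : ℝ) + 1 := by positivity
    have hsP : 0 < Real.sqrt ((P.card : ℝ) + 1) := Real.sqrt_pos.2 hP0
    have h4 : ∀ i : ι, 1 / Real.sqrt ((Sl Y (Λ i) w).card + 1) ^ r ≤
        Real.sqrt κ ^ r / Real.sqrt (P.card + 1) ^ r +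
          if κ * (Λ i ∩ P).card < P.card then (1 : ℝ) else 0 := by
      intro i
      rw [hSl i]
      obtain ⟨k, hk⟩ : ∃ k, k = (Λ i ∩ P).card := ⟨_, rfl⟩
      rw [← hk]
      have hk0 : (0 : ℝ) < (k : ℝ) + 1 := by positivity
      have hsk : 0 < Real.sqrt ((k : ℝ) + 1) := Real.sqrt_pos.2 hk0
      split_ifs with h5
      · have h6 : 1 / Real.sqrt ((k : ℝ) + 1) ^ r ≤ 1 := by
          rw [div_le_one (by positivity)]
          refine one_le_pow₀ ?_
          rw [Real.one_le_sqrt]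
          linarith [show (0 : ℝ) ≤ k from Nat.cast_nonneg k]
        have h7 : 0 ≤ Real.sqrt κ ^ r / Real.sqrt ((P.card : ℝ) + 1) ^ r := by positivity
        linarith
      · rw [add_zero, ← div_pow, ← one_div_pow]
        refine pow_le_pow_left₀ (by positivity) ?_ r
        rw [div_le_div_iff₀ hsk hsP, one_mul, ← Real.sqrt_mul hκ0.le]
        apply Real.sqrt_le_sqrt
        have h6 : (P.card : ℝ) ≤ κ * k := by exact_mod_cast not_lt.1 h5
        nlinarith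
    calc ∑ i : ι, 1 / Real.sqrt ((Sl Y (Λ i) w).card + 1) ^ r
        ≤ ∑ i : ι, (Real.sqrt κ ^ r / Real.sqrt (P.card + 1) ^ r +
          if κ * (Λ i ∩ P).card < P.card then (1 : ℝ) else 0) := sum_le_sum fun i _ => h4 i
      _ = I * (Real.sqrt κ ^ r / Real.sqrt (P.card + 1) ^ r) +
          ((univ.filter (fun i => κ * (Λ i ∩ P).card < P.card)).card : ℝ) := by
          rw [sum_add_distrib, sum_const, card_univ, nsmul_eq_mul, ← hI, sum_boole]
      _ ≤ I * (Real.sqrt κ ^ r / Real.sqrt (P.card + 1) ^ r) +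
          C' / Real.sqrt (P.card + 1) ^ r * I := by
          refine add_le_add le_rfl (hP'.trans ?_)
          rw [← hI]
          exact mul_le_mul_of_nonneg_right (hexp P.card) hI0.le
      _ = _ := by ring
  have h4 : ∑ i : ι, C * ∑ w ∈ All Y N, x ^ Y.len w *
        (F w / Real.sqrt ((Sl Y (Λ i) w).card + 1) ^ r) ≤
      I * (C * (Real.sqrt κ ^ r + C') *
        ∑ w ∈ All Y N, x ^ Y.len w * (F w / Real.sqrt ((Pl' Y E w).card + 1) ^ r)) := by
    rw [← mul_sum, sum_comm]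
    have e : I * (C * (Real.sqrt κ ^ r + C') *
        ∑ w ∈ All Y N, x ^ Y.len w * (F w / Real.sqrt ((Pl' Y E w).card + 1) ^ r)) =
        C * ∑ w ∈ All Y N, x ^ Y.len w * F w * (I * ((Real.sqrt κ ^ r + C') /
          Real.sqrt ((Pl' Y E w).card + 1) ^ r)) := by
      rw [mul_sum, mul_sum, mul_sum]
      refine sum_congr rfl fun w _ => ?_
      ring
    rw [e]
    refine mul_le_mul_of_nonneg_left (sum_le_sum fun w hw => ?_) hC.le
    have e2 : ∑ i : ι, x ^ Y.len w * (F w / Real.sqrt ((Sl Y (Λ i) w).card + 1) ^ r) =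
        x ^ Y.len w * F w * ∑ i : ι, 1 / Real.sqrt ((Sl Y (Λ i) w).card + 1) ^ r := by
      rw [mul_sum]
      refine sum_congr rfl fun i _ => ?_
      ring
    rw [e2]
    exact mul_le_mul_of_nonneg_left (h3 w hw) (mul_nonneg (by positivity) (hF0 w))
  exact le_of_mul_le_mul_left (h2.trans h4) hI0

end

end Pool.Agent.N929.EG
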