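import Pool.Agent.N929.EG.Main

/-!
# Regularity to all orders of the logarithms, for functionals
-/

set_option autoImplicit false
set_option linter.unusedVariables false

namespace Pool.Agent.N929.EG

open Finset Filter Topology
open scoped Classical

noncomputable section

variable {α σ : Type}

/-- regularity to all orders of the logarithms of the sums of functionals that depend on the
occupied slots -/
theorem genF (Y : TS α σ) {μ : ℝ} {φ : ℕ → ℝ} (G : Gr Y μ φ) (P : ℕ → Prop) (F : α → ℝ) (C₀ : ℝ)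
    (p : ℕ) (hC₀ : 0 ≤ C₀) (hP2 : ∀ n, P n → 2 ≤ n) (hPs : ∀ n, P n → P (n + Y.s))
    (hFB : ∀ n, ∀ w ∈ Y.K n, 0 ≤ F w ∧ F w ≤ C₀ * ((n : ℝ) + 1) ^ p)
    (hrep : ∀ L : Finset σ, Fam Y L → ∀ st fl, Fill Y L st fl →
      ∃ M : α → ℝ, (∀ w, 0 ≤ M w) ∧
        (∀ w, Em Y L w → Rp (Sl Y L w) (fun U => F (fl w U)) (M w)) ∧
        ∀ n, P n → ∑ w ∈ Y.K n, M (st w) ≤ C₀ * ∑ w ∈ Y.K n, F w)
    (hlow : ∃ K' : ℝ, 0 ≤ K' ∧ ∀ n, P n → μ ^ n ≤ Real.exp (K' * φ n) * ∑ w ∈ Y.K n, F w) :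
    ∀ r : ℕ, 1 ≤ r → ∃ C : ℝ, 0 < C ∧ ∀ n : ℕ, P n →
      |∑ i ∈ range (r + 1), (-1 : ℝ) ^ i * (r.choose i : ℝ) *
        Real.log ((∑ w ∈ Y.K (n + Y.s * i), F w) / μ ^ (n + Y.s * i))| ≤
        C * Real.sqrt (φ n / n) ^ r := by
  obtain ⟨K', hK'0, hK'⟩ := hlow
  have hμ1 := G.one
  have hμ0 : 0 < μ := by linarith
  have hpos : ∀ n, P n → 0 < ∑ w ∈ Y.K n, F w := by
    intro n hn
    have h1 := hK' n hn
    by_contra hcon
    push Not at hcon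
    have h2 : 0 < μ ^ n := by positivity
    have h3 : 0 < Real.exp (K' * φ n) := Real.exp_pos _
    nlinarith
  refine Pool.Agent.N364.EG.fin μ Y.s φ P (fun n => ∑ w ∈ Y.K n, F w)
    (fun n => C₀ * ((n : ℝ) + 1) ^ p * μ ^ n) hμ1 Y.hs G.phi hP2 hPs hpos
    (fun n => by positivity) ⟨(2 * C₀ + 2 * p) + K', by positivity, fun n hn => ?_⟩ ?_
  · have h1 := poly_le G.phi (hP2 n hn) hC₀ p
    have h2 := hpos n hn
    calc C₀ * ((n : ℝ) + 1) ^ p * μ ^ n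
        ≤ Real.exp ((2 * C₀ + 2 * p) * φ n) * (Real.exp (K' * φ n) * ∑ w ∈ Y.K n, F w) := by
          have := hK' n hn
          gcongr
      _ = _ := by
          rw [← mul_assoc, ← Real.exp_add]
          ring_nf
  · intro r
    obtain ⟨A, C, hA, hC, h⟩ := s_aof α σ Y μ φ G r
    have hsr : (1 : ℝ) ≤ 1 + (Y.s : ℝ) * r := by
      have : (0 : ℝ) ≤ (Y.s : ℝ) * r := by positivity
      linarith
    refine ⟨A, C * ((1 + (Y.s : ℝ) * r) ^ p + C₀), hA, by positivity,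
      fun n ε hPn hε hε1 hAn => ?_⟩
    obtain ⟨L, hL, hh⟩ := h n ε (hP2 n hPn) hε hε1 hAn
    obtain ⟨st, fl, hfl⟩ := s_bij α σ Y L hL
    obtain ⟨M, hM0, hM1, hM2⟩ := hrep L hL st fl hfl
    obtain ⟨B, hB⟩ : ∃ B : ℝ, B = C₀ * ((1 + (Y.s : ℝ) * r) * ((n : ℝ) + 1)) ^ p := ⟨_, rfl⟩
    have hB0 : 0 ≤ B := by rw [hB]; positivity
    have h1 := hh st fl hfl F M B hB0 hM0
      (fun i hi w hw => by
        have hi' := mem_range.1 hi
        obtain ⟨f0, f1⟩ := hFB _ w hw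
        rw [abs_of_nonneg f0, hB]
        refine f1.trans (mul_le_mul_of_nonneg_left (pow_le_pow_left₀ (by positivity) ?_ p) hC₀)
        have h2 : (i : ℝ) ≤ r := by exact_mod_cast (by omega : i ≤ r)
        have h3 : (Y.s : ℝ) * i ≤ (Y.s : ℝ) * r := by gcongr
        have h4 : (0 : ℝ) ≤ (Y.s : ℝ) * r * n := by positivity
        push_cast
        nlinarith) hM1
    have h5 := hM2 n hPn
    refine h1.trans ?_
    rw [hB, mul_pow]
    have h9 : (1 : ℝ) ≤ (1 + (Y.s : ℝ) * r) ^ p := one_le_pow₀ hsr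
    have h10 := hpos n hPn
    have h11 : 0 ≤ ε ^ r * ∑ w ∈ Y.K n, F w := by positivity
    have h12 : ε ^ r * ∑ w ∈ Y.K n, M (st w) ≤
        ((1 + (Y.s : ℝ) * r) ^ p + C₀) * (ε ^ r * ∑ w ∈ Y.K n, F w) := by
      have h13 : ε ^ r * ∑ w ∈ Y.K n, M (st w) ≤ ε ^ r * (C₀ * ∑ w ∈ Y.K n, F w) :=
        mul_le_mul_of_nonneg_left h5 (by positivity)
      have h14 : 0 ≤ (1 + (Y.s : ℝ) * r) ^ p * (ε ^ r * ∑ w ∈ Y.K n, F w) := by positivity
      calc _ ≤ _ := h13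
        _ = C₀ * (ε ^ r * ∑ w ∈ Y.K n, F w) := by ring
        _ ≤ _ := by rw [add_mul]; linarith
    have h15 : 0 ≤ C₀ * ((n : ℝ) + 1) ^ p * (Real.exp (-(ε ^ 2 * n / A)) * μ ^ n) := by
      positivity
    have h16 : C₀ * ((1 + (Y.s : ℝ) * r) ^ p * ((n : ℝ) + 1) ^ p) *
          (Real.exp (-(ε ^ 2 * n / A)) * μ ^ n) ≤
        ((1 + (Y.s : ℝ) * r) ^ p + C₀) *
          (C₀ * ((n : ℝ) + 1) ^ p * (Real.exp (-(ε ^ 2 * n / A)) * μ ^ n)) := by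
      have : 0 ≤ C₀ * (C₀ * ((n : ℝ) + 1) ^ p * (Real.exp (-(ε ^ 2 * n / A)) * μ ^ n)) :=
        mul_nonneg hC₀ h15
      rw [add_mul]
      calc _ = (1 + (Y.s : ℝ) * r) ^ p *
            (C₀ * ((n : ℝ) + 1) ^ p * (Real.exp (-(ε ^ 2 * n / A)) * μ ^ n)) := by ring
        _ ≤ _ := by linarith
    calc C * (ε ^ r * ∑ w ∈ Y.K n, M (st w) +
          C₀ * ((1 + (Y.s : ℝ) * r) ^ p * ((n : ℝ) + 1) ^ p) *
          (Real.exp (-(ε ^ 2 * n / A)) * μ ^ n))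
        ≤ C * (((1 + (Y.s : ℝ) * r) ^ p + C₀) * (ε ^ r * ∑ w ∈ Y.K n, F w) +
          ((1 + (Y.s : ℝ) * r) ^ p + C₀) *
          (C₀ * ((n : ℝ) + 1) ^ p * (Real.exp (-(ε ^ 2 * n / A)) * μ ^ n))) :=
          mul_le_mul_of_nonneg_left (add_le_add h12 h16) hC.le
      _ = _ := by ring

end

end Pool.Agent.N929.EG
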