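import Pool.Agent.N929.EG.Stm3

/-!
# Lattice polygons in `ℤ³` as walks that end next to the origin: statements
-/

set_option autoImplicit false
set_option linter.unusedVariables false

namespace Pool.Agent.N929.EG

open Finset Filter Topology KN TH966.KO

/-- KNI: a class of polygons which is invariant under the moves of words is invariant under the
moves of lists of vertices -/
def S_KNI : Prop := ∀ (Q : List Dir → Prop), KN.Inv Q → ∀ (n : ℕ) (d : Dir) (u u' : List Dir),
  u ∈ SS n → 3 ≤ n → pos u + vec d = 0 → ∀ U U' : List Z3, T3 U U' →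
    Free U U' (path u).reverse → (path u').reverse = rep (path u).reverse U U' →
    (Q (d :: u) ↔ Q (d :: u'))

/-- KNC: the moves of the polygon and of the walk -/
def S_KNC : Prop := ∀ (n : ℕ) (d : Dir) (u : List Dir), u ∈ SS n → 3 ≤ n → pos u + vec d = 0 →
  KN.fr (d :: u) ≤ KN.fr u + 6 ∧ KN.bu (d :: u) ≤ KN.bu u + 1

/-- KNK: polygons and walks -/
def S_KNK : Prop := ∀ (Q : List Dir → Prop) (n : ℕ) (w : List Dir), 3 ≤ n →
  (w ∈ KN.K Q (n + 1) ↔ ∃ (d : Dir) (u : List Dir), w = d :: u ∧ u ∈ SS n ∧ pos u + vec d = 0 ∧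
    Q (d :: u))

end Pool.Agent.N929.EG
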