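import Pool.Agent.N929.EG.GC
import Pool.Agent.N929.EG.Two
import Pool.Agent.R131.LT.Fin

/-!
# Walks in a domain between two points, with geometric weights: all orders
-/

set_option autoImplicit false
set_option linter.unusedVariables false

namespace Pool.Agent.N929.EG

open Finset Pool.Agent.N929.EG.Seq
open Pool.Agent.R131.LS (AD ruleD Kw_D Yp mem_Yp Dp pi ps pi_ps ps_pi pi_zero Tj traj_eq Ex bd pi_inj ps_inj)
open Pool.Agent.W832.HR (Nbr Traj)
open TH966.AK (P)
open scoped Classical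

noncomputable section

/-- the system of moves of a rule, with the constant -/
theorem sysd {A : ℤ × ℤ → ℤ × ℤ → Prop} (Z : TH966.AK.Rule A) (hs : 1 ≤ Z.s) :
    ∃ Y : TS (List (ℤ × ℤ)) (List (ℤ × ℤ) × List (ℤ × ℤ)), Y.s = Z.s ∧
      (∀ n, Y.K n = TH966.AK.Kw A n) ∧ (∀ w, Y.S w = Z.S w) ∧ (∀ w, Y.B w = Z.B w) ∧
      (∀ w q, Y.ins w q = rep w q.1 q.2) ∧ (∀ w, Y.len w = w.length - 1) ∧
      Y.d = Pool.Agent.N169.EG.CC (toRul Z hs) := by
  refine ⟨Pool.Agent.N169.EG.sys (toRul Z hs), rfl, fun n => ?_, fun w => ?_, fun w => ?_,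
    fun _ _ => rfl, fun _ => rfl, rfl⟩
  · ext w
    have h := Pool.Agent.N169.EG.mem_K (toRul Z hs) (n := n) (w := w)
    rw [Z.mem_K]
    exact h
  · ext q
    have h := Pool.Agent.N169.EG.mem_S (toRul Z hs) (w := w) (q := q)
    rw [Z.mem_S]
    exact h
  · ext q
    have h := Pool.Agent.N169.EG.mem_B (toRul Z hs) (w := w) (q := q)
    rw [Z.mem_B]
    exact h

theorem All_sum {α σ : Type} (Y : TS α σ) (N : ℕ) (φ : α → ℝ) :
    ∑ w ∈ All Y N, φ w = ∑ n ∈ range (N + 1), ∑ w ∈ Y.K n, φ w := by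
  unfold All
  rw [sum_biUnion]
  intro m _ m' _ hm
  simp only [Function.onFun]
  rw [Finset.disjoint_left]
  intro w hw hw'
  exact hm ((Y.len_K m w hw).symm.trans (Y.len_K m' w hw'))

theorem le_Pl' {α σ : Type} (Y : TS α σ) (E : Finset σ) (w : α) :
    (Y.B w).card - E.card ≤ (Pl' Y E w).card := by
  have h4 : (Y.B w) \ E ⊆ Pl' Y E w := by
    intro z hz
    unfold Pl'
    rw [mem_sdiff] at hz ⊢
    exact ⟨mem_union_right _ hz.1, hz.2⟩
  have h5 := card_le_card h4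
  have h6 := le_card_sdiff E (Y.B w)
  omega

/-- the rule in the domain -/
def ZD (D : Set P) (p : P) : TH966.AK.Rule (AD TH966.AK.Hex.A (Dp D p)) :=
  ruleD TH966.AK.Hex.rule (Dp D p)

/-- the constant of the rule -/
def dH : ℕ := Pool.Agent.N169.EG.CC (toRul TH966.AK.Hex.rule (show 1 ≤ 2 by norm_num))

/-- the systems of moves -/
structure SysD (D : Set P) (p : P) (Y : TS (List P) (List P × List P)) : Prop where
  s : Y.s = 2
  K : ∀ n, Y.K n = TH966.AK.Kw (AD TH966.AK.Hex.A (Dp D p)) n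
  S : ∀ w, Y.S w = (ZD D p).S w
  B : ∀ w, Y.B w = (ZD D p).B w
  ins : ∀ w q, Y.ins w q = rep w q.1 q.2
  len : ∀ w, Y.len w = w.length - 1
  d : Y.d = dH

theorem exD (D : Set P) (p : P) : ∃ Y : TS (List P) (List P × List P), SysD D p Y := by
  obtain ⟨Y, h1, h2, h3, h4, h5, h6, h7⟩ := sysd (ZD D p) (show 1 ≤ 2 by norm_num)
  exact ⟨Y, ⟨h1, h2, h3, h4, h5, h6, h7⟩⟩

variable {D : Set P} {p q : P} {Y : TS (List P) (List P × List P)}

theorem traj_iff (hp : p ∈ D) (H : SysD D p Y) {n : ℕ} {w : List P} (hw : w ∈ Y.K n) :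
    w.map (pi p) ∈ Traj D p q ↔ w.getLast? = some (ps p q) := by
  rw [H.K] at hw
  have h1 : w ∈ (Yp D p q).K n ↔ w ∈ (TH966.AK.Kw (AD TH966.AK.Hex.A (Dp D p)) n).filter
      (fun w => w.getLast? = some (ps p q)) := Iff.rfl
  rw [mem_Yp hp, mem_filter] at h1
  rw [traj_eq]
  constructor
  · intro h
    exact (h1.1 ⟨((ZD D p).mem_K.1 hw).1, h⟩).2
  · intro h
    exact (h1.2 ⟨hw, h⟩).2

/-- the functional on the walks of the system -/
def Fp (D : Set P) (p q : P) (F : List P → ℝ) (w : List P) : ℝ :=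
  if w.map (pi p) ∈ Traj D p q then F (w.map (pi p)) else 0

/-- invariance under local changes away from `Q` -/
def InvQ (D : Set P) (p q : P) (Q : Finset P) (F : List P → ℝ) : Prop :=
  ∀ L U U' R : List P, U.length = 3 → U'.length = 5 → U.head? = U'.head? →
    U.getLast? = U'.getLast? → (∀ v ∈ U ++ U', v ∉ Q) → L ++ U ++ R ∈ Traj D p q →
    L ++ U' ++ R ∈ Traj D p q → F (L ++ U' ++ R) = F (L ++ U ++ R)

/-- the places which touch `Q` -/
def EQ (D : Set P) (p : P) (Q : Finset P) : Finset (List P × List P) :=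
  (Q.image (ps p)).biUnion (ZD D p).cand

theorem EQ_card (D : Set P) (p : P) (Q : Finset P) :
    (EQ D p Q).card ≤ Q.card * TH966.AK.Hex.rule.c0 := by
  have h := card_biUnion_le_card_mul (Q.image (ps p)) (ZD D p).cand (ZD D p).c0
    fun x _ => (ZD D p).card_cand x
  exact h.trans (Nat.mul_le_mul_right _ card_image_le)

theorem inv_off (hp : p ∈ D) (H : SysD D p Y) {Q : Finset P} {F : List P → ℝ}
    (hF : InvQ D p q Q F) : InvOff Y (EQ D p Q) (Fp D p q F) := by
  intro n w hw z hz hzE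
  have hw2 := hw
  rw [H.K, (ZD D p).mem_K] at hw2
  have hz2 := hz
  rw [H.S, (ZD D p).mem_S] at hz2
  have hins := Y.ins_K n w z hw hz
  have hpair := (ZD D p).pair _ _ hz2.1
  have hlast : (Y.ins w z).getLast? = w.getLast? := by
    rw [H.ins]
    exact last_rep (o := 0) hpair hw2.2 hz2.2
  obtain ⟨L, R, h1, h2, -⟩ := rep_all (o := 0) hpair hw2.2 hz2.2
  rw [← H.ins] at h2
  unfold Fp
  by_cases hT : w.map (pi p) ∈ Traj D p q
  · have hT' : (Y.ins w z).map (pi p) ∈ Traj D p q := by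
      rw [traj_iff hp H hins, hlast, ← traj_iff hp H hw]
      exact hT
    rw [if_pos hT, if_pos hT']
    obtain ⟨⟨a, b, X, X', e1, e2, -⟩, -⟩ := hpair
    obtain ⟨l1, l2⟩ := (ZD D p).len _ _ hz2.1
    rw [h2, h1]
    rw [h2] at hT'
    rw [h1] at hT
    simp only [List.map_append] at hT hT' ⊢
    refine hF _ _ _ _ ?_ ?_ ?_ ?_ ?_ hT hT'
    · rw [List.length_map, l1]
      rfl
    · rw [List.length_map, l2]
      rfl
    · rw [e1, e2]
      simp
    · have e : ∀ X : List P, (a :: (X ++ [b])).getLast? = some b := by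
        intro X
        rw [← List.cons_append, List.getLast?_concat]
      rw [e1, e2, List.getLast?_map, List.getLast?_map, e, e]
    · intro v hv hvQ
      rw [← List.map_append, List.mem_map] at hv
      obtain ⟨x, hx, rfl⟩ := hv
      apply hzE
      unfold EQ
      rw [mem_biUnion]
      refine ⟨x, mem_image.2 ⟨pi p x, hvQ, ps_pi p x⟩, ?_⟩
      exact (ZD D p).mem_cand hz2.1 hx
  · have hT' : ¬ (Y.ins w z).map (pi p) ∈ Traj D p q := by
      rw [traj_iff hp H hins, hlast, ← traj_iff hp H hw]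
      exact hT
    rw [if_neg hT, if_neg hT']

theorem K_empty (hp : p ∈ D) (H : SysD D p Y) (F0 : Finset P) (hF0 : (F0 : Set P) = D) (n : ℕ)
    (hn : F0.card - 1 < n) : Y.K n = ∅ := by
  have h0 : Dp D p 0 := by
    unfold Dp
    rwa [pi_zero]
  rw [eq_empty_iff_forall_notMem]
  intro w hw
  rw [H.K, Kw_D TH966.AK.Hex.rule h0, TH966.AK.Hex.rule.mem_K] at hw
  obtain ⟨⟨h1, -, h3, -⟩, h4⟩ := hw
  have h5 : (w.map (pi p)).toFinset ⊆ F0 := by
    intro v hv
    rw [List.mem_toFinset, List.mem_map] at hv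
    obtain ⟨x, hx, rfl⟩ := hv
    have : pi p x ∈ D := h4 x hx
    rw [← hF0] at this
    exact this
  have h6 := card_le_card h5
  rw [List.toFinset_card_of_nodup (h3.map (pi_inj p)), List.length_map, h1] at h6
  omega

theorem card_pos' (hp : p ∈ D) (F0 : Finset P) (hF0 : (F0 : Set P) = D) : 1 ≤ F0.card := by
  rw [Nat.one_le_iff_ne_zero, Finset.card_ne_zero]
  refine ⟨p, ?_⟩
  rw [← mem_coe, hF0]
  exact hp

theorem sumY (hp : p ∈ D) (H : SysD D p Y) (F0 : Finset P) (hF0 : (F0 : Set P) = D) (x : ℝ)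
    (F : List P → ℝ) (h : ℕ → List P → ℝ) :
    ∑ w ∈ All Y (F0.card - 1), x ^ Y.len w * (Fp D p q F w * h (Y.len w) w) =
      Ex (Yp D p q) x F0.card (fun m w => F (w.map (pi p)) * h m w) := by
  have h1 := card_pos' hp F0 hF0
  rw [All_sum, Nat.sub_add_cancel h1]
  unfold Ex
  refine sum_congr rfl fun n _ => ?_
  have e : (Yp D p q).K n = (Y.K n).filter (fun w => w.getLast? = some (ps p q)) := by
    rw [H.K]
    rfl
  rw [e, sum_filter, mul_sum]
  refine sum_congr rfl fun w hw => ?_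
  rw [Y.len_K n w hw]
  unfold Fp
  have h2 := traj_iff (q := q) hp H hw
  by_cases h3 : w.map (pi p) ∈ Traj D p q
  · rw [if_pos h3, if_pos (h2.1 h3)]
  · rw [if_neg h3, if_neg (fun h4 => h3 (h2.2 h4))]
    ring

/-- **the main estimate in a domain** -/
theorem domain {c : ℝ} (hc : 0 < c) (r : ℕ) : ∃ C : ℝ, 0 < C ∧ ∀ x : ℝ, 0 < x →
    (1 + x ^ 2) / Real.sqrt (x ^ 2) ≤ c → ∀ (D : Set P) (p q : P) (F0 : Finset P),
    p ∈ D → (F0 : Set P) = D → ∀ (Q : Finset P) (F : List P → ℝ) (g : ℕ → ℝ),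
    (∀ l ∈ Traj D p q, 0 ≤ F l) → InvQ D p q Q F → (∀ n, |g n| ≤ 1) →
    |Ex (Yp D p q) x F0.card (fun m w => F (w.map (pi p)) * Seq.D 2 r g m)| ≤
      C * Ex (Yp D p q) x F0.card (fun m w => F (w.map (pi p)) *
        (1 / Real.sqrt ((((Yp D p q).B w).card - Q.card * TH966.AK.Hex.rule.c0 : ℕ) + 1) ^ r)) := by
  obtain ⟨C, hC, h⟩ := gc hc 2 dH r
  refine ⟨C, hC, ?_⟩
  intro x hx hxc D p q F0 hp hF0 Q F g hF hI hg
  obtain ⟨Y, H⟩ := exD D p
  have h1 := h x hx hxc _ _ Y H.s H.d.le (F0.card - 1) (fun n hn => K_empty hp H F0 hF0 n hn)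
    (EQ D p Q) (Fp D p q F) g (fun w => by
      unfold Fp
      split_ifs with h2
      · exact hF _ h2
      · exact le_rfl) (inv_off hp H hI) hg
  rw [sumY hp H F0 hF0 x F (fun m _ => Seq.D 2 r g m)] at h1
  have h2 : ∑ w ∈ All Y (F0.card - 1), x ^ Y.len w * (Fp D p q F w /
      Real.sqrt ((Pl' Y (EQ D p Q) w).card + 1) ^ r) ≤
      Ex (Yp D p q) x F0.card (fun m w => F (w.map (pi p)) *
        (1 / Real.sqrt ((((Yp D p q).B w).card - Q.card * TH966.AK.Hex.rule.c0 : ℕ) + 1) ^ r)) := by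
    rw [← sumY hp H F0 hF0 x F (fun m w => 1 / Real.sqrt ((((Yp D p q).B w).card -
      Q.card * TH966.AK.Hex.rule.c0 : ℕ) + 1) ^ r)]
    refine sum_le_sum fun w hw => ?_
    refine mul_le_mul_of_nonneg_left ?_ (by positivity)
    rw [div_eq_mul_one_div]
    have hF' : 0 ≤ Fp D p q F w := by
      unfold Fp
      split_ifs with h2
      · exact hF _ h2
      · exact le_rfl
    refine mul_le_mul_of_nonneg_left ?_ hF'
    obtain ⟨k, hk⟩ : ∃ k, k = ((Yp D p q).B w).card - Q.card * TH966.AK.Hex.rule.c0 := ⟨_, rfl⟩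
    rw [← hk]
    have hB : (Yp D p q).B w = (ZD D p).B w := rfl
    have h3 : k ≤ (Pl' Y (EQ D p Q) w).card := by
      have h5 := le_Pl' Y (EQ D p Q) w
      have h7 := EQ_card D p Q
      rw [hB, ← H.B] at hk
      omega
    have h4 : (k : ℝ) ≤ (Pl' Y (EQ D p Q) w).card := by exact_mod_cast h3
    have h5 : 0 < Real.sqrt ((k : ℝ) + 1) := Real.sqrt_pos.2 (by positivity)
    refine one_div_le_one_div_of_le (by positivity) ?_
    exact pow_le_pow_left₀ h5.le (Real.sqrt_le_sqrt (by linarith)) r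
  exact h1.trans (mul_le_mul_of_nonneg_left h2 hC.le)

end

end Pool.Agent.N929.EG
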