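import Pool.Agent.N929.EG.LenD

/-!
# The number of steps of the path of the O(0) model in a domain: all orders
-/

set_option autoImplicit false
set_option linter.unusedVariables false

namespace Pool.Agent.N929.EG

open Finset Pool.Agent.R131.LT
open Pool.Agent.Y981.QB
open Pool.Agent.R131.LS (Yp mem_Yp Dp pi ps pi_zero traj_eq Ex Ex_mono Ex_add Ex_mul bd xr xr_pos
  coe_TT Z_eq Zr Cl Closed nbr_eq closed bad_le absorb)
open Pool.Agent.W832.HR (Nbr Traj xc Z emb lv HD Hd Bd)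
open TH966.AK (P)
open scoped Classical ENNReal

noncomputable section

theorem len_num1 {κ c1 δ c0 C q : ℝ} (hκ0 : 0 < κ) (hc1pos : 0 < c1) (hδ : 0 < δ) (hq : 0 ≤ q)
    (hCq : 2 * c0 / (κ * c1) ≤ C) (hQ : C * δ * q ≤ 1) : q * c0 ≤ κ / 2 * (c1 / δ) := by
  have h1 : 2 * c0 ≤ C * (κ * c1) := by rwa [div_le_iff₀ (by positivity)] at hCq
  have h2 : C * δ * q * (κ * c1 / (2 * δ)) ≤ 1 * (κ * c1 / (2 * δ)) :=
    mul_le_mul_of_nonneg_right hQ (by positivity)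
  have h3 : C * δ * q * (κ * c1 / (2 * δ)) = q * (C * (κ * c1) / 2) := by
    field_simp
  have h4 : q * c0 ≤ q * (C * (κ * c1) / 2) :=
    mul_le_mul_of_nonneg_left (by linarith) hq
  have h5 : 1 * (κ * c1 / (2 * δ)) = κ / 2 * (c1 / δ) := by
    field_simp
  linarith

theorem len_num2 {k B q m κ X : ℝ} (h6 : B ≤ k + q) (h7 : κ * (m + 1) ≤ B) (hq : q ≤ X)
    (h8 : X ≤ κ / 2 * (m + 1)) (hκ0 : 0 < κ) : m + 1 ≤ 2 / κ * (k + 1) := by
  have h9 : κ / 2 * (m + 1) ≤ k + 1 := by linarith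
  rw [div_mul_eq_mul_div, le_div_iff₀ hκ0]
  linarith

theorem lenF (W : Set ℂ) (hW : IsOpen W) (hc : IsConnected W)
    (a b : ℂ) (hab : a ≠ b) (ε ε' : ℝ) (hε : ε = 1 ∨ ε = -1) (hε' : ε' = 1 ∨ ε' = -1) (ρ : ℝ)
    (hρ : 0 < ρ) (ha : HD a ε ρ ⊆ W) (hb : HD b ε' ρ ⊆ W) (M : ℝ) :
    ∃ K : Set ℂ, K ⊆ W ∧ IsCompact K ∧ ∃ C : ℝ, 1 ≤ C ∧ ∀ r : ℕ, ∃ B : ℝ, 0 ≤ B ∧
      ∀ δ : ℝ, 0 < δ → C * δ ≤ 1 →
      ∀ (D : Set P) (p q : P), Bd ε p → Bd ε' q →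
      C * ‖(δ : ℂ) * emb p - a‖ ≤ 1 → C * ‖(δ : ℂ) * emb q - b‖ ≤ 1 →
      (∀ v : P, (δ : ℂ) * emb v ∈ K → v ∈ D) → Hd δ ε ρ p ⊆ D → Hd δ ε' ρ q ⊆ D →
      (∀ v ∈ D, ‖(δ : ℂ) * emb v‖ ≤ M) → Closed D → ∀ x : ℝ, xr ≤ x → x ≤ 544 / 1000 →
      (Traj D p q).Finite ∧ 0 < Zx x D p q ∧
      (∀ l ∈ Traj D p q, 1 ≤ C * δ * ((l.length - 1 : ℕ) : ℝ)) ∧
      ∀ (Q : Finset P) (F : List P → ℝ) (g : ℕ → ℝ), C * δ * Q.card ≤ 1 →
        (∀ l ∈ Traj D p q, 0 ≤ F l ∧ F l ≤ 1) → InvQ D p q Q F → (∀ n, |g n| ≤ 1) →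
        |Mx x D p q (fun l => F l * Seq.D 2 r g (l.length - 1))| ≤
          B * Mx x D p q (fun l => 1 / Real.sqrt (((l.length - 1 : ℕ) : ℝ) + 1) ^ r) := by
  obtain ⟨K, hK, hKc, C₁, hC₁, h⟩ := Pool.Agent.Y981.Sup.low W hW hc a b hab ε ε' hε hε' ρ hρ ha hb
  obtain ⟨C₃, hC₃, hcard⟩ := domain_card M
  obtain ⟨C0', hC0'⟩ := TH966.AK.Hex.poor
  obtain ⟨C0, hC0⟩ : ∃ C0 : ℝ, C0 = |C0'| := ⟨_, rfl⟩
  have hC00 : 0 ≤ C0 := by rw [hC0]; exact abs_nonneg _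
  have hab' : 0 < ‖a - b‖ := norm_pos_iff.2 (sub_ne_zero.2 hab)
  obtain ⟨θ, hθ⟩ : ∃ θ : ℝ, θ = 544 / 1000 * (459 / 250) := ⟨_, rfl⟩
  have hθ0 : 0 ≤ θ := by rw [hθ]; norm_num
  have hθ1 : θ < 1 := by rw [hθ]; norm_num
  have hθ2 : 0 < 1 - θ := by linarith
  obtain ⟨c1, hc1⟩ : ∃ c1 : ℝ, c1 = ‖a - b‖ / 2 := ⟨_, rfl⟩
  have hc1pos : 0 < c1 := by rw [hc1]; positivity
  obtain ⟨κ, hκ⟩ : ∃ κ : ℝ, κ = 1 / (2 * ((10000 : ℕ) : ℝ)) := ⟨_, rfl⟩
  have hκ0 : 0 < κ := by rw [hκ]; norm_num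
  obtain ⟨c0, hc0⟩ : ∃ c0 : ℕ, c0 = TH966.AK.Hex.rule.c0 := ⟨_, rfl⟩
  have hdiv : 0 < 32 / ‖a - b‖ := by positivity
  have hdiv1 : 0 < 1 / c1 := by positivity
  have hdiv2 : 0 ≤ 2 * (c0 : ℝ) / (κ * c1) := by positivity
  obtain ⟨C, hCdef⟩ : ∃ C : ℝ, C = C₁ + 100 + 32 / ‖a - b‖ + 1 / c1 + 2 * (c0 : ℝ) / (κ * c1) :=
    ⟨_, rfl⟩
  have hC1r : (9 : ℝ) ≤ C₁ := by exact_mod_cast hC₁
  have hC100 : 100 ≤ C := by rw [hCdef]; linarith
  have hCC1 : (C₁ : ℝ) ≤ C := by rw [hCdef]; linarith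
  have hCab : 32 / ‖a - b‖ ≤ C := by rw [hCdef]; linarith
  have hCc : 1 / c1 ≤ C := by rw [hCdef]; linarith
  have hCq : 2 * (c0 : ℝ) / (κ * c1) ≤ C := by rw [hCdef]; linarith
  refine ⟨K, hK, hKc, C, by linarith, fun r => ?_⟩
  obtain ⟨Bθ, hB0, hB⟩ := absorb (C₁ + r) hθ0 hθ1
  have hxr := xr_pos
  obtain ⟨G, hG, hdom⟩ := domain (show 0 < 2 / xr by positivity) r
  obtain ⟨A1, hA1⟩ : ∃ A1 : ℝ, A1 = C0 / (1 - θ) * (Bθ / c1 ^ (C₁ + r) * Real.sqrt C₃ ^ r) :=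
    ⟨_, rfl⟩
  obtain ⟨A2, hA2⟩ : ∃ A2 : ℝ, A2 = Real.sqrt (2 / κ) ^ r := ⟨_, rfl⟩
  have g1 : 0 ≤ A1 := by rw [hA1]; positivity
  have g2 : 0 ≤ A2 := by rw [hA2]; positivity
  refine ⟨G * (A1 + A2), by positivity, ?_⟩
  intro δ hδ hCδ D p q hp hq hpa hqb hKD hpD hqD hDM hcl x hx hx'
  have hx0 : 0 < x := lt_of_lt_of_le xr_pos hx
  have hx1 : x ≤ 1 := by linarith
  have hδ1 : δ ≤ 1 / 100 := by
    by_contra hcon
    have : 1 / 100 < δ := not_le.1 hcon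
    nlinarith
  have hmono : ∀ x : ℝ, 0 ≤ x → C * x ≤ 1 → C₁ * x ≤ 1 := fun x hx h1 =>
    (mul_le_mul_of_nonneg_right hCC1 hx).trans h1
  obtain ⟨hpq, hlow⟩ := h δ hδ (hmono δ hδ.le hCδ) D p q hp hq (hmono _ (norm_nonneg _) hpa)
    (hmono _ (norm_nonneg _) hqb) hKD hpD hqD
  obtain ⟨D', hD', hDc⟩ := hcard δ hδ (by linarith) D hDM
  have hpm : p ∈ D := hpD (by
    show ‖(δ : ℂ) * emb p - δ * emb p‖ < ρ ∧ 0 ≤ ε * (lv (emb p) - lv (emb p))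
    simp [hρ])
  have hfin : (Traj D p q).Finite := by
    rw [traj_eq, ← coe_TT hpm D' hD']
    exact Finset.finite_toSet _
  have hZlow : δ ^ C₁ ≤ Zx x D p q := by
    have h1 := hlow D (Set.Subset.refl D)
    rw [Z_eq hpm D' hD'] at h1
    have h2 : δ ^ C₁ ≤ Zr D p q := by
      refine (ENNReal.ofReal_le_ofReal_iff ?_).1 h1
      unfold Zr
      exact finsum_nonneg fun l => finsum_nonneg fun _ => by
        have := xr_pos
        positivity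
    refine h2.trans ?_
    unfold Zr Zx
    rw [finsum_mem_eq_finite_toFinset_sum _ hfin, finsum_mem_eq_finite_toFinset_sum _ hfin]
    exact Finset.sum_le_sum fun l _ => pow_le_pow_left₀ xr_pos.le hx _
  have hZ : 0 < Zx x D p q := lt_of_lt_of_le (by positivity) hZlow
  -- the walks are long
  have hdL : c1 / δ ≤ dst p q := by
    rw [hc1]
    exact far hδ (by
      have := mul_le_mul_of_nonneg_right hCab hab'.le
      rw [div_mul_cancel₀ _ hab'.ne'] at this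
      linarith) (by linarith) hpa hqb
  have hlong' : ∀ l ∈ Traj D p q, c1 / δ ≤ ((l.length - 1 : ℕ) : ℝ) := by
    intro l hl
    rw [traj_eq] at hl
    refine hdL.trans (sw_far (l := l) (n := l.length - 1) ?_ hl.2.1).1
    refine ⟨?_, hl.1, hl.2.2.2.1, hl.2.2.1⟩
    have : l ≠ [] := by
      intro h0
      have := hl.1
      rw [h0] at this
      simp at this
    have := List.length_pos_iff.2 this
    omega
  have hlong : ∀ m, ∀ w ∈ (Yp D p q).K m, c1 / δ ≤ m := by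
    intro m w hw
    obtain ⟨h1, h2⟩ := (mem_Yp hpm).1 hw
    rw [← traj_eq] at h2
    have h3 := hlong' _ h2
    rwa [List.length_map, h1, Nat.add_sub_cancel] at h3
  obtain ⟨n1, hn1⟩ : ∃ n1 : ℕ, n1 = ⌈c1 / δ⌉₊ := ⟨_, rfl⟩
  have hcd : 0 < c1 / δ := by positivity
  have hn1c : c1 / δ ≤ n1 := by rw [hn1]; exact Nat.le_ceil _
  have hn1p : 0 < (n1 : ℝ) := lt_of_lt_of_le hcd hn1c
  have hn1' : 1 ≤ n1 := by exact_mod_cast hn1p
  have hKn : ∀ m, m < n1 → (Yp D p q).K m = ∅ := by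
    intro m hm
    rw [Finset.eq_empty_iff_forall_notMem]
    intro w hw
    have h1 := hlong m w hw
    have h2 : n1 ≤ m := by
      rw [hn1]
      exact Nat.ceil_le.2 h1
    omega
  have h0 : Dp D p 0 := by
    unfold Dp
    rwa [pi_zero]
  have hclD : Cl D := by
    intro v hv
    obtain ⟨u, u', h1, h2, h3, h4⟩ := hcl v hv
    rw [nbr_eq] at h2 h3
    exact ⟨u, u', h1, h2, h3, h4⟩
  have hbad : Ex (Yp D p q) x D'.card (bd (Yp D p q) κ) ≤ C0 * θ ^ n1 / (1 - θ) := by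
    have hxθ : x * (459 / 250) ≤ θ := by
      rw [hθ]
      exact mul_le_mul_of_nonneg_right hx' (by norm_num)
    have h1 : Ex (Yp D p q) x D'.card (bd (Yp D p q) κ) ≤
        C0 * (x * (459 / 250)) ^ n1 / (1 - x * (459 / 250)) := by
      rw [hκ]
      refine bad_le TH966.AK.Hex.rule (ps p q) hx0 D'.card h0
        (fun U U' hT hx => closed hclD p U U' hT hx) (by norm_num) (by norm_num)
        (lt_of_le_of_lt hxθ hθ1) hC00 (fun n => (hC0' n).trans ?_) n1 hn1' hKn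
      rw [hC0]
      exact mul_le_mul_of_nonneg_right (le_abs_self _) (by positivity)
    refine h1.trans (div_le_div₀ (by positivity) ?_ hθ2 (by linarith))
    exact mul_le_mul_of_nonneg_left (pow_le_pow_left₀ (by positivity) hxθ _) hC00
  -- the mean of the inverse power of the length
  obtain ⟨R, hR⟩ : ∃ R : ℝ, R =
    Mx x D p q (fun l => 1 / Real.sqrt (((l.length - 1 : ℕ) : ℝ) + 1) ^ r) := ⟨_, rfl⟩
  have hRR : Ex (Yp D p q) x D'.card (fun m _ => 1 / Real.sqrt ((m : ℝ) + 1) ^ r) =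
      R * Zx x D p q := by
    rw [hR]
    unfold Mx
    rw [div_mul_cancel₀ _ hZ.ne',
      sumx_eq hpm D' hD' x (fun m _ => 1 / Real.sqrt ((m : ℝ) + 1) ^ r)]
  have hC30 : 0 < C₃ := by linarith
  have hsC3 : 0 < Real.sqrt C₃ := Real.sqrt_pos.2 hC30
  have hRlow : δ ^ r ≤ Real.sqrt C₃ ^ r * R := by
    have h1 : δ ^ r * Zx x D p q ≤ Real.sqrt C₃ ^ r * (R * Zx x D p q) := by
      rw [← hRR, Zx_eq hpm D' hD', ← Ex_mul, ← Ex_mul]
      refine Ex_mono hx0 fun m w hw => ?_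
      have h2 : ((m : ℝ) + 1) ≤ C₃ * (1 / δ) ^ 2 := by
        refine le_trans ?_ hDc
        exact_mod_cast K_card hpm D' hD' hw
      have h3 : Real.sqrt ((m : ℝ) + 1) ≤ Real.sqrt C₃ / δ := by
        rw [Real.sqrt_le_left (by positivity), div_pow, Real.sq_sqrt hC30.le]
        refine h2.trans (le_of_eq ?_)
        rw [one_div, inv_pow]
        rfl
      have hm0 : 0 < Real.sqrt ((m : ℝ) + 1) := Real.sqrt_pos.2 (by positivity)
      rw [mul_one, mul_one_div, ← div_pow]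
      refine pow_le_pow_left₀ hδ.le ?_ r
      rw [le_div_iff₀ hm0]
      rw [le_div_iff₀ hδ] at h3
      linarith
    rw [← mul_assoc] at h1
    exact le_of_mul_le_mul_right h1 hZ
  refine ⟨hfin, hZ, fun l hl => ?_, ?_⟩
  · have h1 := hlong' l hl
    rw [div_le_iff₀ hδ] at h1
    have h2 : 1 ≤ C * c1 := by rwa [div_le_iff₀ hc1pos] at hCc
    have h3 : C * c1 ≤ C * (((l.length - 1 : ℕ) : ℝ) * δ) :=
      mul_le_mul_of_nonneg_left h1 (by linarith)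
    linarith
  intro Q F g hQ hF hI hg
  rw [← hR]
  have hxc : (1 + x ^ 2) / Real.sqrt (x ^ 2) ≤ 2 / xr := by
    rw [Real.sqrt_sq hx0.le, div_le_div_iff₀ hx0 hxr]
    have h1 : x ^ 2 ≤ 1 := pow_le_one₀ hx0.le hx1
    nlinarith
  have hm := hdom x hx0 hxc D p q D' hpm hD' Q F g (fun l hl => (hF l hl).1) hI hg
  have hQc : (Q.card : ℝ) * c0 ≤ κ / 2 * (c1 / δ) :=
    len_num1 hκ0 hc1pos hδ (Nat.cast_nonneg _) hCq hQ
  have hup : Ex (Yp D p q) x D'.card (fun m w => F (w.map (pi p)) *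
        (1 / Real.sqrt ((((Yp D p q).B w).card - Q.card * TH966.AK.Hex.rule.c0 : ℕ) + 1) ^ r)) ≤
      Ex (Yp D p q) x D'.card (fun m w => bd (Yp D p q) κ m w +
        A2 * (1 / Real.sqrt ((m : ℝ) + 1) ^ r)) := by
    refine Ex_mono hx0 fun m w hw => ?_
    obtain ⟨h1, h2⟩ := (mem_Yp hpm).1 hw
    rw [← traj_eq] at h2
    obtain ⟨f0, f1⟩ := hF _ h2
    rw [← hc0]
    obtain ⟨k, hk⟩ : ∃ k, k = ((Yp D p q).B w).card - Q.card * c0 := ⟨_, rfl⟩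
    rw [← hk]
    have hm0 : (0 : ℝ) < (m : ℝ) + 1 := by positivity
    have hsm : 0 < Real.sqrt ((m : ℝ) + 1) := Real.sqrt_pos.2 hm0
    have hk0 : (0 : ℝ) < (k : ℝ) + 1 := by positivity
    have hsk : 0 < Real.sqrt ((k : ℝ) + 1) := Real.sqrt_pos.2 hk0
    have h3 : F (w.map (pi p)) * (1 / Real.sqrt ((k : ℝ) + 1) ^ r) ≤
        1 / Real.sqrt ((k : ℝ) + 1) ^ r := mul_le_of_le_one_left (by positivity) f1
    refine h3.trans ?_
    unfold bd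
    split_ifs with h4
    · have h5 : 1 / Real.sqrt ((k : ℝ) + 1) ^ r ≤ 1 := by
        rw [div_le_one (by positivity)]
        refine one_le_pow₀ ?_
        rw [Real.one_le_sqrt]
        linarith [show (0 : ℝ) ≤ k from Nat.cast_nonneg k]
      have h6 : 0 ≤ A2 * (1 / Real.sqrt ((m : ℝ) + 1) ^ r) := by positivity
      linarith
    · rw [zero_add, hA2, mul_one_div, ← div_pow, ← one_div_pow]
      refine pow_le_pow_left₀ (by positivity) ?_ r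
      rw [div_le_div_iff₀ hsk hsm, one_mul, ← Real.sqrt_mul (by positivity)]
      apply Real.sqrt_le_sqrt
      have h5 := hlong m w hw
      have h6 : (((Yp D p q).B w).card : ℝ) ≤ k + Q.card * c0 := by
        have : ((Yp D p q).B w).card ≤ k + Q.card * c0 := by omega
        exact_mod_cast this
      have h7 := not_lt.1 h4
      have h10 : c1 / δ ≤ (m : ℝ) + 1 := h5.trans (le_add_of_nonneg_right zero_le_one)
      have h8 : κ / 2 * (c1 / δ) ≤ κ / 2 * ((m : ℝ) + 1) :=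
        mul_le_mul_of_nonneg_left h10 (by positivity)
      exact len_num2 h6 h7 hQc h8 hκ0
  rw [Ex_add, Ex_mul, hRR] at hup
  have hbb : C0 * θ ^ n1 / (1 - θ) ≤ A1 * (R * Zx x D p q) := by
    have h2 : (c1 / δ) ^ (C₁ + r) ≤ (n1 : ℝ) ^ (C₁ + r) := pow_le_pow_left₀ hcd.le hn1c _
    have h3 : (c1 / δ) ^ (C₁ + r) * θ ^ n1 ≤ Bθ :=
      (mul_le_mul_of_nonneg_right h2 (by positivity)).trans (hB n1)
    have h4 : θ ^ n1 ≤ Bθ / c1 ^ (C₁ + r) * (δ ^ C₁ * δ ^ r) := by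
      rw [div_pow, div_mul_eq_mul_div, div_le_iff₀ (by positivity)] at h3
      rw [← pow_add, div_mul_eq_mul_div, le_div_iff₀ (by positivity)]
      linarith
    have hR0 : 0 ≤ R := by
      have h5 : 0 < Real.sqrt C₃ ^ r := by positivity
      have h6 : 0 < δ ^ r := by positivity
      by_contra hcon
      push Not at hcon
      nlinarith
    have h5 : δ ^ C₁ * δ ^ r ≤ Zx x D p q * (Real.sqrt C₃ ^ r * R) :=
      mul_le_mul hZlow hRlow (by positivity) hZ.le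
    have h6 : θ ^ n1 ≤ Bθ / c1 ^ (C₁ + r) * (Zx x D p q * (Real.sqrt C₃ ^ r * R)) :=
      h4.trans (mul_le_mul_of_nonneg_left h5 (by positivity))
    calc C0 * θ ^ n1 / (1 - θ) = C0 / (1 - θ) * θ ^ n1 := by ring
      _ ≤ C0 / (1 - θ) * (Bθ / c1 ^ (C₁ + r) * (Zx x D p q * (Real.sqrt C₃ ^ r * R))) :=
          mul_le_mul_of_nonneg_left h6 (by positivity)
      _ = _ := by rw [hA1]; ring
  have e1 : Mx x D p q (fun l => F l * Seq.D 2 r g (l.length - 1)) =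
      Ex (Yp D p q) x D'.card (fun m w => F (w.map (pi p)) * Seq.D 2 r g m) / Zx x D p q := by
    unfold Mx
    rw [sumx_eq hpm D' hD' x (fun m l => F l * Seq.D 2 r g m)]
  rw [e1, abs_div, abs_of_pos hZ, div_le_iff₀ hZ]
  refine hm.trans ?_
  calc _ ≤ G * (C0 * θ ^ n1 / (1 - θ) + A2 * (R * Zx x D p q)) :=
        mul_le_mul_of_nonneg_left (hup.trans (add_le_add hbad le_rfl)) hG.le
    _ ≤ G * (A1 * (R * Zx x D p q) + A2 * (R * Zx x D p q)) :=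
        mul_le_mul_of_nonneg_left (add_le_add hbb le_rfl) hG.le
    _ = _ := by ring

end

end Pool.Agent.N929.EG
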