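import Pool.Agent.N929.EG.Stm

/-!
# Local replacements in self-avoiding walks on graphs (adapted from TH966.AK.Win)
-/

set_option autoImplicit false
set_option linter.unusedVariables false

namespace Pool.Agent.N929.EG

open Finset Filter Topology
open scoped Classical

variable {Ver : Type}

/-! ### lists -/

theorem infix_split {V L M : List Ver} {z : Ver} (h : V <:+: L ++ z :: M) (hz : z ∉ V) :
    V <:+: L ∨ V <:+: M := by
  obtain ⟨a, b, h⟩ := h
  rcases List.append_eq_append_iff.1 h with ⟨c, h1, h2⟩ | ⟨c, h1, h2⟩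
  · exact Or.inl ⟨a, c, h1.symm⟩
  · rcases c with _ | ⟨x, c'⟩
    · left
      refine ⟨a, [], ?_⟩
      simpa using h1
    · rw [List.cons_append, List.cons.injEq] at h2
      obtain ⟨rfl, h2⟩ := h2
      rcases List.append_eq_append_iff.1 h1 with ⟨d, h3, h4⟩ | ⟨d, h3, h4⟩
      · exact absurd (by rw [h4]; simp) hz
      · rcases d with _ | ⟨y, d'⟩
        · rw [List.nil_append] at h4
          exact absurd (by rw [← h4]; simp) hz
        · rw [List.cons_append, List.cons.injEq] at h4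
          obtain ⟨-, h4⟩ := h4
          right
          refine ⟨d', b, ?_⟩
          rw [h2, h4]

theorem infix_drop {V : List Ver} (hV : V ≠ []) : ∀ {X M : List Ver}, V <:+: X ++ M →
    (∀ x ∈ X, x ∉ V) → V <:+: M := by
  intro X
  induction X with
  | nil => intro M h _; simpa using h
  | cons x X ih =>
    intro M h hx
    rw [List.cons_append] at h
    have h1 : V <:+: [] ++ x :: (X ++ M) := by simpa using h
    rcases infix_split h1 (hx x (by simp)) with h2 | h2
    · rw [List.infix_nil] at h2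
      exact absurd h2 hV
    · exact ih h2 fun y hy => hx y (by simp [hy])

/-- a window which avoids `p` and `X` survives the replacement of `X` -/
theorem infix_keep {V L X X' R : List Ver} {p r : Ver} (hV : V ≠ [])
    (h : V <:+: L ++ (p :: (X ++ [r])) ++ R) (hp : p ∉ V) (hX : ∀ x ∈ X, x ∉ V) :
    V <:+: L ++ (p :: (X' ++ [r])) ++ R := by
  have e : L ++ (p :: (X ++ [r])) ++ R = L ++ p :: (X ++ (r :: R)) := by simp
  rw [e] at h
  rcases infix_split h hp with h1 | h1
  · refine h1.trans ⟨[], (p :: (X' ++ [r])) ++ R, by simp⟩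
  · have h2 := infix_drop hV h1 hX
    refine h2.trans ⟨L ++ (p :: X'), [], by simp⟩

theorem split_unique {U L R L' R' : List Ver} (hU : U ≠ []) (hn : (L ++ U ++ R).Nodup)
    (h : L ++ U ++ R = L' ++ U ++ R') : L = L' ∧ R = R' := by
  obtain ⟨p, U0, rfl⟩ := List.exists_cons_of_ne_nil hU
  have e1 : L ++ (p :: U0) ++ R = L ++ p :: (U0 ++ R) := by simp
  have e2 : L' ++ (p :: U0) ++ R' = L' ++ p :: (U0 ++ R') := by simp
  rw [e1] at hn
  rw [e1, e2] at h
  rw [List.nodup_middle] at hn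
  have h1 := (List.nodup_cons.1 hn).1
  rw [List.mem_append, not_or] at h1
  obtain ⟨h2, -, h3⟩ := (List.append_cons_inj_of_notMem h1.1 h1.2).1 h
  exact ⟨h2, List.append_cancel_left h3⟩

/-! ### walks and replacements -/

variable {o : Ver} {A : Ver → Ver → Prop}

/-- a self-avoiding walk from the origin -/
def Walk (o : Ver) (A : Ver → Ver → Prop) (w : List Ver) : Prop := w.head? = some o ∧ w.Nodup ∧ w.IsChain A

/-- two windows with the same ends -/
def Pair (A : Ver → Ver → Prop) (U U' : List Ver) : Prop :=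
  (∃ p r X X', U = p :: (X ++ [r]) ∧ U' = p :: (X' ++ [r]) ∧ (∀ x ∈ X, x ∉ U') ∧
    (∀ x ∈ X', x ∉ U)) ∧ U.Nodup ∧ U'.Nodup ∧ U.IsChain A ∧ U'.IsChain A

theorem Pair.symm {U U' : List Ver} (h : Pair A U U') : Pair A U' U := by
  obtain ⟨⟨p, r, X, X', h1, h2, h3, h4⟩, h5, h6, h7, h8⟩ := h
  exact ⟨⟨p, r, X', X, h2, h1, h4, h3⟩, h6, h5, h8, h7⟩

/-- `U` is a window of `w` and the new points of `U'` are free -/
def Free (U U' w : List Ver) : Prop := U <:+: w ∧ ∀ x ∈ U', x ∉ U → x ∉ w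

theorem flip {U U' L R : List Ver} (h : Pair A U U') (hw : Walk o A (L ++ U ++ R))
    (hf : ∀ x ∈ U', x ∉ U → x ∉ L ++ U ++ R) :
    Walk o A (L ++ U' ++ R) ∧ Free U' U (L ++ U' ++ R) := by
  obtain ⟨⟨p, r, X, X', h1, h2, h3, h4⟩, h5, h6, h7, h8⟩ := h
  obtain ⟨w1, w2, w3⟩ := hw
  have hX' : ∀ x ∈ X', x ∉ L ++ U ++ R := fun x hx => hf x (by rw [h2]; simp [hx]) (h4 x hx)
  have hX : ∀ x ∈ X, x ∉ L ∧ x ∉ R := by
    intro x hx
    have hxU : x ∈ U := by rw [h1]; simp [hx]
    rw [List.nodup_append, List.nodup_append] at w2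
    obtain ⟨⟨-, -, w4⟩, -, w5⟩ := w2
    exact ⟨fun hc => w4 x hc x hxU rfl, fun hc => w5 x (by simp [hxU]) x hc rfl⟩
  have hpr : ∀ x ∈ U', x ∉ X' → x ∈ U := by
    intro x hx hx'
    rw [h2] at hx
    rw [h1]
    simp only [List.mem_cons, List.mem_append, List.mem_singleton, List.not_mem_nil,
      or_false] at hx ⊢
    tauto
  refine ⟨⟨?_, ?_, ?_⟩, ⟨L, R, rfl⟩, ?_⟩
  · rw [← w1, h1, h2]
    cases L <;> simp
  · rw [List.nodup_append, List.nodup_append] at w2 ⊢
    obtain ⟨⟨w4, w5, w6⟩, w7, w8⟩ := w2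
    refine ⟨⟨w4, h6, ?_⟩, w7, ?_⟩
    · intro a ha b hb hab
      subst hab
      by_cases hbX : a ∈ X'
      · exact hX' a hbX (by simp [ha])
      · exact w6 a ha a (hpr a hb hbX) rfl
    · intro a ha b hb hab
      subst hab
      rw [List.mem_append] at ha
      rcases ha with ha | ha
      · exact w8 a (by simp [ha]) a hb rfl
      · by_cases hbX : a ∈ X'
        · exact hX' a hbX (by simp [hb])
        · exact w8 a (by simp [hpr a ha hbX]) a hb rfl
  · rw [h1] at w3
    have e1 : L ++ (p :: (X ++ [r])) ++ R = L ++ p :: (X ++ r :: R) := by simp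
    have e2 : L ++ (p :: (X' ++ [r])) ++ R = L ++ p :: (X' ++ r :: R) := by simp
    rw [e1, List.isChain_split] at w3
    rw [h2, e2, List.isChain_split]
    refine ⟨w3.1, ?_⟩
    have e3 : p :: (X' ++ r :: R) = (p :: X') ++ r :: R := by simp
    have e4 : p :: (X ++ r :: R) = (p :: X) ++ r :: R := by simp
    rw [e3, List.isChain_split]
    have w4 := w3.2
    rw [e4, List.isChain_split] at w4
    refine ⟨?_, w4.2⟩
    rw [h2] at h8
    simpa using h8
  · intro x hx hx'
    have hxX : x ∈ X := by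
      rw [h1] at hx
      rw [h2] at hx'
      simp only [List.mem_cons, List.mem_append, List.mem_singleton, List.not_mem_nil,
        or_false, not_or] at hx hx'
      tauto
    have := hX x hxX
    simp only [List.mem_append, not_or]
    exact ⟨⟨this.1, hx'⟩, this.2⟩

/-- a local window of `w` is a local window after the replacement unless it meets the windows -/
theorem keep {U U' V V' L R : List Ver} (h : Pair A U U') (hV : V ≠ [])
    (hf : Free V V' (L ++ U ++ R)) (hd : ∀ x ∈ U ++ U', x ∉ V ++ V') :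
    Free V V' (L ++ U' ++ R) := by
  obtain ⟨⟨p, r, X, X', h1, h2, h3, h4⟩, -⟩ := h
  obtain ⟨f1, f2⟩ := hf
  constructor
  · rw [h2]
    refine infix_keep (X := X) hV (by rw [← h1]; exact f1) ?_ ?_
    · intro hc
      exact hd p (by rw [h1]; simp) (by simp [hc])
    · intro x hx hc
      exact hd x (by rw [h1]; simp [hx]) (by simp [hc])
  · intro x hx hxV hc
    have h5 := f2 x hx hxV
    simp only [List.mem_append, not_or] at h5 hc
    rcases hc with (hc | hc) | hc
    · exact h5.1.1 hc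
    · exact hd x (by simp [hc]) (by simp [hx])
    · exact h5.2 hc

noncomputable section

theorem ne_nil {U U' : List Ver} (h : Pair A U U') : U ≠ [] := by
  obtain ⟨⟨p, r, X, X', h1, -⟩, -⟩ := h
  rw [h1]; simp


/-- replacement of a window -/
def rep (w U U' : List Ver) : List Ver :=
  if h : ∃ L R, w = L ++ U ++ R then h.choose ++ U' ++ h.choose_spec.choose else w

theorem rep_eq {L U U' R : List Ver} (hU : U ≠ []) (hn : (L ++ U ++ R).Nodup) :
    rep (L ++ U ++ R) U U' = L ++ U' ++ R := by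
  have h : ∃ L' R', L ++ U ++ R = L' ++ U ++ R' := ⟨L, R, rfl⟩
  have h2 := h.choose_spec.choose_spec
  obtain ⟨h3, h4⟩ := split_unique hU hn h2
  unfold rep
  rw [dif_pos h]
  exact congrArg₂ (fun a b => a ++ U' ++ b) h3.symm h4.symm

/-- everything about one replacement -/
theorem rep_all {U U' w : List Ver} (h : Pair A U U') (hw : Walk o A w) (hf : Free U U' w) :
    ∃ L R, w = L ++ U ++ R ∧ rep w U U' = L ++ U' ++ R ∧ Walk o A (L ++ U' ++ R) ∧
      Free U' U (L ++ U' ++ R) ∧ rep (L ++ U' ++ R) U' U = w := by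
  obtain ⟨⟨L, R, h1⟩, h2⟩ := hf
  subst h1
  obtain ⟨h3, h4⟩ := flip h hw h2
  refine ⟨L, R, rfl, rep_eq (ne_nil h) hw.2.1, h3, h4, ?_⟩
  exact rep_eq (ne_nil h.symm) h3.2.1

end

/-- a set of vertices with finite balls of bounded size -/
structure Geo (Ver : Type) where
  o : Ver
  bx : Ver → ℕ → Finset Ver
  g : ℕ → ℕ
  card_bx : ∀ x ρ, (bx x ρ).card ≤ g ρ
  self : ∀ x ρ, x ∈ bx x ρ
  symm : ∀ x y ρ, y ∈ bx x ρ → x ∈ bx y ρ
  mono : ∀ x ρ ρ', ρ ≤ ρ' → bx x ρ ⊆ bx x ρ'
  tri : ∀ x y z ρ ρ', y ∈ bx x ρ → z ∈ bx y ρ' → z ∈ bx x (ρ + ρ')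

/-- a local rule -/
structure Rul (X : Geo Ver) (A : Ver → Ver → Prop) where
  T : List Ver → List Ver → Prop
  ρ : ℕ
  k : ℕ
  s : ℕ
  hs : 1 ≤ s
  step : ∀ p q, A p q → q ∈ X.bx p 1
  pair : ∀ U U', T U U' → Pair A U U'
  len : ∀ U U', T U U' → U.length = k ∧ U'.length = k + s
  loc : ∀ U U', T U U' → ∀ x ∈ U ++ U', ∀ y ∈ U ++ U', y ∈ X.bx x ρ

/-- WIN: the system of local moves given by a local rule -/
def S_WIN : Prop :=
  ∀ (Ver : Type) (X : Geo Ver) (A : Ver → Ver → Prop) (Z : Rul X A),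
    ∃ Y : TS (List Ver) (List Ver × List Ver), Y.s = Z.s ∧ (∀ w, Y.len w = w.length - 1) ∧
      (∀ n w, w ∈ Y.K n ↔ w.length = n + 1 ∧ Walk X.o A w) ∧
      (∀ w q, q ∈ Y.S w ↔ Z.T q.1 q.2 ∧ Free q.1 q.2 w) ∧
      (∀ w q, q ∈ Y.B w ↔ Z.T q.1 q.2 ∧ Free q.2 q.1 w) ∧
      (∀ w q, Y.ins w q = rep w q.1 q.2)

end Pool.Agent.N929.EG
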