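import Pool.Agent.N929.EG.Stm
import Pool.Agent.R965.HP.Rate

/-!
# The rate function for `ℤ³`
-/

set_option autoImplicit false

namespace Pool.Agent.N929.EG

open Filter Topology

noncomputable section

/-- `log (log (n + 16))^2` -/
def ll (n : ℕ) : ℝ := Real.log (Real.log ((n : ℝ) + 16)) ^ 2

theorem log_add_sq {L b : ℝ} (hL : 1 ≤ L) (hb : 0 ≤ b) (hb2 : b ≤ 2) :
    Real.log (L + b) ^ 2 ≤ Real.log L ^ 2 + 8 := by
  have hL0 : 0 < L := by linarith
  have h0 : 0 ≤ Real.log L := Real.log_nonneg hL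
  have h0' : 0 ≤ Real.log (L + b) := Real.log_nonneg (by linarith)
  have h1 : Real.log (L + b) = Real.log L + Real.log (1 + b / L) := by
    rw [← Real.log_mul (by linarith) (by positivity)]
    congr 1
    field_simp
  have h2 : Real.log (1 + b / L) ≤ b / L := by
    have := Real.log_le_sub_one_of_pos (show 0 < 1 + b / L by positivity)
    linarith
  have h3 : Real.log L ≤ L := by
    have := Real.log_le_sub_one_of_pos hL0
    linarith
  have h4 : b / L ≤ 2 := by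
    rw [div_le_iff₀ hL0]
    nlinarith
  have h5 : b / L * Real.log L ≤ 2 := by
    calc b / L * Real.log L ≤ b / L * L := by gcongr
      _ = b := by field_simp
      _ ≤ 2 := hb2
  have h6 : 0 ≤ b / L := by positivity
  have h7 : Real.log (L + b) ≤ Real.log L + b / L := by linarith
  nlinarith

theorem log16 (n : ℕ) : 2 ≤ Real.log ((n : ℝ) + 16) := by
  have h1 : Real.log 16 ≤ Real.log ((n : ℝ) + 16) := by
    apply Real.log_le_log (by norm_num)
    have := Nat.cast_nonneg (α := ℝ) n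
    linarith
  have h2 : Real.log 16 = 4 * Real.log 2 := by
    rw [show (16 : ℝ) = 2 ^ (4 : ℕ) by norm_num, Real.log_pow]
    norm_num
  have := Real.log_two_gt_d9
  linarith

theorem ll_nonneg (n : ℕ) : 0 ≤ ll n := sq_nonneg _

theorem ll_mono {n m : ℕ} (h : n ≤ m) : ll n ≤ ll m := by
  unfold ll
  have h1 := log16 n
  have h2 : Real.log ((n : ℝ) + 16) ≤ Real.log ((m : ℝ) + 16) := by
    apply Real.log_le_log (by positivity)
    have : (n : ℝ) ≤ m := by exact_mod_cast h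
    linarith
  have h3 : 0 ≤ Real.log (Real.log ((n : ℝ) + 16)) := Real.log_nonneg (by linarith)
  exact pow_le_pow_left₀ h3 (Real.log_le_log (by linarith) h2) 2

theorem ll_dbl (n : ℕ) : ll (2 * n) ≤ ll n + 8 := by
  unfold ll
  have h1 := log16 n
  have h2 : Real.log (((2 * n : ℕ) : ℝ) + 16) ≤ Real.log ((n : ℝ) + 16) + 1 := by
    have h3 : Real.log (((2 * n : ℕ) : ℝ) + 16) ≤ Real.log (2 * ((n : ℝ) + 16)) := by
      apply Real.log_le_log (by positivity)
      push_cast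
      linarith
    rw [Real.log_mul (by norm_num) (by positivity)] at h3
    have := Real.log_two_lt_d9
    linarith
  have h1' := log16 (2 * n)
  have h3 : 0 ≤ Real.log (Real.log (((2 * n : ℕ) : ℝ) + 16)) := Real.log_nonneg (by linarith)
  calc Real.log (Real.log (((2 * n : ℕ) : ℝ) + 16)) ^ 2
      ≤ Real.log (Real.log ((n : ℝ) + 16) + 1) ^ 2 :=
        pow_le_pow_left₀ h3 (Real.log_le_log (by linarith) h2) 2
    _ ≤ _ := log_add_sq (by linarith) (by norm_num) (by norm_num)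

/-- comparison with `log (log n)^2` -/
theorem ll_le {n : ℕ} (hn : 3 ≤ n) : ll n ≤ Real.log (Real.log n) ^ 2 + 8 := by
  have hn' : (3 : ℝ) ≤ n := by exact_mod_cast hn
  have h0 : 1 ≤ Real.log n := by
    have h1 : Real.log (Real.exp 1) ≤ Real.log n := by
      apply Real.log_le_log (Real.exp_pos 1)
      have := Real.exp_one_lt_d9
      linarith
    rwa [Real.log_exp] at h1
  have h2 : Real.log ((n : ℝ) + 16) ≤ Real.log n + 2 := by
    have h3 : Real.log ((n : ℝ) + 16) ≤ Real.log (n * 7) := by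
      apply Real.log_le_log (by positivity)
      linarith
    rw [Real.log_mul (by positivity) (by norm_num)] at h3
    have h4 : Real.log 7 ≤ 2 := by
      rw [Real.log_le_iff_le_exp (by norm_num)]
      have h5 : Real.exp 2 = Real.exp 1 * Real.exp 1 := by
        rw [← Real.exp_add]
        norm_num
      have := Real.exp_one_gt_d9
      rw [h5]
      nlinarith
    linarith
  have h1' := log16 n
  have h3 : 0 ≤ Real.log (Real.log ((n : ℝ) + 16)) := Real.log_nonneg (by linarith)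
  unfold ll
  calc Real.log (Real.log ((n : ℝ) + 16)) ^ 2
      ≤ Real.log (Real.log n + 2) ^ 2 :=
        pow_le_pow_left₀ h3 (Real.log_le_log (by linarith) h2) 2
    _ ≤ _ := log_add_sq h0 (by norm_num) le_rfl

theorem le_ll {n : ℕ} (hn : 3 ≤ n) : Real.log (Real.log n) ^ 2 ≤ ll n := by
  have hn' : (3 : ℝ) ≤ n := by exact_mod_cast hn
  have h0 : 1 ≤ Real.log n := by
    have h1 : Real.log (Real.exp 1) ≤ Real.log n := by
      apply Real.log_le_log (Real.exp_pos 1)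
      have := Real.exp_one_lt_d9
      linarith
    rwa [Real.log_exp] at h1
  have h3 : 0 ≤ Real.log (Real.log n) := Real.log_nonneg h0
  unfold ll
  refine pow_le_pow_left₀ h3 (Real.log_le_log (by linarith) (Real.log_le_log (by linarith) ?_)) 2
  linarith

/-- `n^(1/3) exp(K (log log (n + 16))^2)` -/
def psi3 (K : ℝ) (n : ℕ) : ℝ := (n : ℝ) ^ (1 / 3 : ℝ) * Real.exp (K * ll n)

theorem psi3_nonneg (K : ℝ) (n : ℕ) : 0 ≤ psi3 K n := by
  unfold psi3
  positivity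

theorem one_le_psi3 {K : ℝ} (hK : 0 ≤ K) {n : ℕ} (hn : 1 ≤ n) : 1 ≤ psi3 K n := by
  have h1 : (1 : ℝ) ≤ (n : ℝ) ^ (1 / 3 : ℝ) :=
    Real.one_le_rpow (by exact_mod_cast hn) (by norm_num)
  have h2 : (1 : ℝ) ≤ Real.exp (K * ll n) := Real.one_le_exp (mul_nonneg hK (ll_nonneg n))
  unfold psi3
  nlinarith

theorem psi3_dbl {K : ℝ} (hK : 0 ≤ K) {n m : ℕ} (hm : m ≤ 2 * n) :
    psi3 K m ≤ (2 * Real.exp (8 * K)) * psi3 K n := by
  have h1 : (m : ℝ) ^ (1 / 3 : ℝ) ≤ 2 * (n : ℝ) ^ (1 / 3 : ℝ) := by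
    have h2 : (m : ℝ) ^ (1 / 3 : ℝ) ≤ ((2 : ℝ) * n) ^ (1 / 3 : ℝ) := by
      apply Real.rpow_le_rpow (by positivity) _ (by norm_num)
      exact_mod_cast hm
    rw [Real.mul_rpow (by norm_num) (by positivity)] at h2
    have h3 : (2 : ℝ) ^ (1 / 3 : ℝ) ≤ 2 ^ (1 : ℝ) :=
      Real.rpow_le_rpow_of_exponent_le (by norm_num) (by norm_num)
    rw [Real.rpow_one] at h3
    have h4 : (0 : ℝ) ≤ (n : ℝ) ^ (1 / 3 : ℝ) := by positivity
    nlinarith
  have h5 : Real.exp (K * ll m) ≤ Real.exp (8 * K) * Real.exp (K * ll n) := by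
    rw [← Real.exp_add]
    apply Real.exp_le_exp.mpr
    have := (ll_mono hm).trans (ll_dbl n)
    nlinarith
  unfold psi3
  calc (m : ℝ) ^ (1 / 3 : ℝ) * Real.exp (K * ll m)
      ≤ (2 * (n : ℝ) ^ (1 / 3 : ℝ)) * (Real.exp (8 * K) * Real.exp (K * ll n)) :=
        mul_le_mul h1 h5 (Real.exp_pos _).le (by positivity)
    _ = _ := by ring

/-- the exponential of `(log log)²` is smaller than every power -/
theorem exp_ll_le (K : ℝ) (hK : 0 ≤ K) (n : ℕ) :
    Real.exp (K * ll n) ≤ Real.exp (192 * K ^ 2) * ((n : ℝ) + 16) ^ (1 / 3 : ℝ) := by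
  have hL := log16 n
  obtain ⟨L, hLd⟩ : ∃ L : ℝ, L = Real.log ((n : ℝ) + 16) := ⟨_, rfl⟩
  rw [← hLd] at hL
  have hL0 : 0 < L := by linarith
  have h1 : Real.log L ≤ 4 * L ^ (1 / 4 : ℝ) := by
    have := Real.log_le_rpow_div hL0.le (show (0 : ℝ) < 1 / 4 by norm_num)
    linarith
  have h2 : Real.log L ^ 2 ≤ 16 * L ^ (1 / 2 : ℝ) := by
    have h3 : 0 ≤ Real.log L := Real.log_nonneg (by linarith)
    have h4 : (4 * L ^ (1 / 4 : ℝ)) ^ 2 = 16 * L ^ (1 / 2 : ℝ) := by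
      rw [mul_pow, ← Real.rpow_natCast (L ^ (1 / 4 : ℝ)) 2, ← Real.rpow_mul hL0.le]
      norm_num
    rw [← h4]
    exact pow_le_pow_left₀ h3 h1 2
  have h5 : L ^ (1 / 2 : ℝ) * L ^ (1 / 2 : ℝ) = L := by
    rw [← Real.rpow_add hL0]
    norm_num
  have h6 : K * ll n ≤ 192 * K ^ 2 + L * (1 / 3) := by
    have h7 : ll n = Real.log L ^ 2 := by rw [hLd]; rfl
    rw [h7]
    have h8 : K * Real.log L ^ 2 ≤ K * (16 * L ^ (1 / 2 : ℝ)) :=
      mul_le_mul_of_nonneg_left h2 hK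
    nlinarith [sq_nonneg (24 * K - L ^ (1 / 2 : ℝ))]
  have h9 : ((n : ℝ) + 16) ^ (1 / 3 : ℝ) = Real.exp (L * (1 / 3)) := by
    rw [Real.rpow_def_of_pos (by positivity), hLd]
  rw [h9, ← Real.exp_add]
  exact Real.exp_le_exp.mpr h6

theorem phi3 (K K₁ : ℝ) (hK : 0 ≤ K) (hK₁ : 3 ≤ K₁) : Phi (fun n => K₁ * psi3 K n) := by
  constructor
  · intro n hn
    have h1 : Real.log n ≤ 3 * (n : ℝ) ^ (1 / 3 : ℝ) := by
      have := Real.log_le_rpow_div (Nat.cast_nonneg (α := ℝ) n)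
        (show (0 : ℝ) < 1 / 3 by norm_num)
      linarith
    have h2 : (1 : ℝ) ≤ Real.exp (K * ll n) := Real.one_le_exp (mul_nonneg hK (ll_nonneg n))
    have h3 : (0 : ℝ) ≤ (n : ℝ) ^ (1 / 3 : ℝ) := by positivity
    have h4 : (n : ℝ) ^ (1 / 3 : ℝ) ≤ psi3 K n := by
      unfold psi3
      exact le_mul_of_one_le_right h3 h2
    have h5 := psi3_nonneg K n
    nlinarith
  · refine ⟨2 * Real.exp (8 * K), ?_, fun n m _ _ hm => ?_⟩
    · have := Real.one_le_exp (show 0 ≤ 8 * K by positivity)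
      linarith
    · have := psi3_dbl hK hm
      have h0 : 0 ≤ K₁ := by linarith
      calc K₁ * psi3 K m ≤ K₁ * ((2 * Real.exp (8 * K)) * psi3 K n) :=
            mul_le_mul_of_nonneg_left this h0
        _ = _ := by ring
  · -- the limit
    have hK0 : 0 ≤ K₁ := by linarith
    have h1 : ∀ᶠ n : ℕ in atTop, K₁ * psi3 K n / n ≤
        (K₁ * (Real.exp (192 * K ^ 2) * 3)) * ((n : ℝ) ^ (-(1 / 3) : ℝ)) := by
      filter_upwards [eventually_ge_atTop 1] with n hn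
      have hn' : (1 : ℝ) ≤ n := by exact_mod_cast hn
      have hn0 : (0 : ℝ) < n := by linarith
      have h2 := exp_ll_le K hK n
      have h3 : ((n : ℝ) + 16) ^ (1 / 3 : ℝ) ≤ 3 * (n : ℝ) ^ (1 / 3 : ℝ) := by
        have h4 : ((n : ℝ) + 16) ^ (1 / 3 : ℝ) ≤ (27 * n) ^ (1 / 3 : ℝ) := by
          apply Real.rpow_le_rpow (by positivity) _ (by norm_num)
          linarith
        rw [Real.mul_rpow (by norm_num) hn0.le] at h4
        have h5 : (27 : ℝ) ^ (1 / 3 : ℝ) = 3 := by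
          rw [show (27 : ℝ) = 3 ^ (3 : ℝ) by norm_num, ← Real.rpow_mul (by norm_num)]
          norm_num
        rwa [h5] at h4
      have h6 : psi3 K n ≤ (Real.exp (192 * K ^ 2) * 3) * ((n : ℝ) ^ (1 / 3 : ℝ) *
          (n : ℝ) ^ (1 / 3 : ℝ)) := by
        unfold psi3
        calc (n : ℝ) ^ (1 / 3 : ℝ) * Real.exp (K * ll n)
            ≤ (n : ℝ) ^ (1 / 3 : ℝ) * (Real.exp (192 * K ^ 2) * (3 * (n : ℝ) ^ (1 / 3 : ℝ))) := by
              refine mul_le_mul_of_nonneg_left (h2.trans ?_) (by positivity)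
              exact mul_le_mul_of_nonneg_left h3 (Real.exp_pos _).le
          _ = _ := by ring
      have h7 : (n : ℝ) ^ (1 / 3 : ℝ) * (n : ℝ) ^ (1 / 3 : ℝ) / n = (n : ℝ) ^ (-(1 / 3) : ℝ) := by
        rw [← Real.rpow_add hn0]
        nth_rewrite 2 [← Real.rpow_one (n : ℝ)]
        rw [← Real.rpow_sub hn0]
        norm_num
      rw [← h7, div_eq_mul_inv, div_eq_mul_inv]
      have h8 : 0 ≤ (n : ℝ)⁻¹ := by positivity
      calc K₁ * psi3 K n * (n : ℝ)⁻¹
          ≤ K₁ * ((Real.exp (192 * K ^ 2) * 3) * ((n : ℝ) ^ (1 / 3 : ℝ) *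
            (n : ℝ) ^ (1 / 3 : ℝ))) * (n : ℝ)⁻¹ := by gcongr
        _ = _ := by ring
    have h2 : ∀ᶠ n : ℕ in atTop, 0 ≤ K₁ * psi3 K n / n := by
      filter_upwards with n
      have := psi3_nonneg K n
      positivity
    have h3 : Tendsto (fun n : ℕ => (K₁ * (Real.exp (192 * K ^ 2) * 3)) *
        ((n : ℝ) ^ (-(1 / 3) : ℝ))) atTop (𝓝 0) := by
      have h4 := (tendsto_rpow_neg_atTop (show (0 : ℝ) < 1 / 3 by norm_num)).comp
        (tendsto_natCast_atTop_atTop (R := ℝ))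
      have h5 := h4.const_mul (K₁ * (Real.exp (192 * K ^ 2) * 3))
      rw [mul_zero] at h5
      exact h5
    exact squeeze_zero' h2 h1 h3

/-- the rate -/
theorem sqrt_phi3 {K K₁ : ℝ} (hK : 0 ≤ K) (hK₁ : 0 ≤ K₁) {n : ℕ} (hn : 3 ≤ n) :
    Real.sqrt (K₁ * psi3 K n / n) ≤ (Real.sqrt K₁ * Real.exp (4 * K)) *
      ((n : ℝ) ^ (-(1 / 3) : ℝ) * Real.exp (K * Real.log (Real.log n) ^ 2)) := by
  have hn0 : (0 : ℝ) < n := by
    have : 0 < n := by omega
    exact_mod_cast this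
  have h1 := ll_le hn
  have h2 : Real.exp (K * ll n) ≤ Real.exp (4 * K) ^ 2 *
      Real.exp (K * Real.log (Real.log n) ^ 2) := by
    rw [← Real.exp_nat_mul, ← Real.exp_add]
    apply Real.exp_le_exp.mpr
    push_cast
    nlinarith
  have h3 : Real.exp (K * Real.log (Real.log n) ^ 2) ≤
      Real.exp (K * Real.log (Real.log n) ^ 2) ^ 2 := by
    have := Real.one_le_exp (show 0 ≤ K * Real.log (Real.log n) ^ 2 by positivity)
    nlinarith
  apply Real.sqrt_le_iff.mpr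
  refine ⟨by positivity, ?_⟩
  have h7 : (n : ℝ) ^ (1 / 3 : ℝ) / n = ((n : ℝ) ^ (-(1 / 3) : ℝ)) ^ 2 := by
    rw [← Real.rpow_natCast ((n : ℝ) ^ (-(1 / 3) : ℝ)) 2, ← Real.rpow_mul hn0.le]
    nth_rewrite 2 [← Real.rpow_one (n : ℝ)]
    rw [← Real.rpow_sub hn0]
    norm_num
  have e : (Real.sqrt K₁ * Real.exp (4 * K) *
      ((n : ℝ) ^ (-(1 / 3) : ℝ) * Real.exp (K * Real.log (Real.log n) ^ 2))) ^ 2 =
      Real.sqrt K₁ ^ 2 * ((n : ℝ) ^ (-(1 / 3) : ℝ)) ^ 2 * (Real.exp (4 * K) ^ 2 *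
        Real.exp (K * Real.log (Real.log n) ^ 2) ^ 2) := by ring
  rw [e, Real.sq_sqrt hK₁, ← h7]
  unfold psi3
  have h8 : K₁ * ((n : ℝ) ^ (1 / 3 : ℝ) * Real.exp (K * ll n)) / n =
      K₁ * ((n : ℝ) ^ (1 / 3 : ℝ) / n) * Real.exp (K * ll n) := by ring
  rw [h8]
  refine mul_le_mul_of_nonneg_left (h2.trans ?_) (by positivity)
  exact mul_le_mul_of_nonneg_left h3 (by positivity)

end

end Pool.Agent.N929.EG
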