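import Pool.Agent.N929.EG.Lst

/-!
# Sums over the vertices of a walk and the sizes of a walk: statements
-/

set_option autoImplicit false
set_option linter.unusedVariables false

namespace Pool.Agent.N929.EG

open Finset Filter Topology
open scoped Classical

noncomputable section

variable {Ver : Type}

/-- `Y` is the system of moves of the local rule `Z` -/
structure Win {X : Geo Ver} {A : Ver → Ver → Prop} (Z : Rul X A)
    (Y : TS (List Ver) (List Ver × List Ver)) : Prop where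
  s : Y.s = Z.s
  len : ∀ w, Y.len w = w.length - 1
  K : ∀ n w, w ∈ Y.K n ↔ w.length = n + 1 ∧ Walk X.o A w
  S : ∀ w q, q ∈ Y.S w ↔ Z.T q.1 q.2 ∧ Free q.1 q.2 w
  B : ∀ w q, q ∈ Y.B w ↔ Z.T q.1 q.2 ∧ Free q.2 q.1 w
  ins : ∀ w q, Y.ins w q = rep w q.1 q.2

/-- the sum of `f` over the vertices -/
def sm {V : Type} [AddCommGroup V] (f : Ver → V) (w : List Ver) : V := (w.map f).sum

/-- the first vertex of the window -/
def hd (X : Geo Ver) (q : List Ver × List Ver) : Ver := q.1.head?.getD X.o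

/-- FSM: the sum over the vertices depends additively on the occupied slots -/
def S_FSM : Prop :=
  ∀ (Ver : Type) (X : Geo Ver) (A : Ver → Ver → Prop) (Z : Rul X A)
    (Y : TS (List Ver) (List Ver × List Ver)), Win Z Y →
    ∀ (L : Finset (List Ver × List Ver)) (st : List Ver → List Ver)
      (fl : List Ver → Finset (List Ver × List Ver) → List Ver), Fill Y L st fl →
    ∀ (V : Type) (_ : AddCommGroup V) (f : Ver → V) (w : List Ver), Em Y L w →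
      ∀ U ⊆ Sl Y L w, sm f (fl w U) = sm f w + ∑ q ∈ U, (sm f q.2 - sm f q.1)

/-- MUL: sums over moves and sums over vertices -/
def S_MUL : Prop :=
  ∀ (Ver : Type) (X : Geo Ver) (A : Ver → Ver → Prop) (Z : Rul X A), ∃ M : ℝ, 0 ≤ M ∧
    ∀ (Q : Finset (List Ver × List Ver)) (w : List Ver), w.Nodup →
      (∀ q ∈ Q, Z.T q.1 q.2 ∧ hd X q ∈ w) → ∀ f : Ver → ℝ, (∀ x, 0 ≤ f x) →
        ∑ q ∈ Q, f (hd X q) ≤ M * sm f w

/-- NEA: all the vertices of a move are near its first vertex -/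
def S_NEA : Prop :=
  ∀ (Ver : Type) (X : Geo Ver) (A : Ver → Ver → Prop) (Z : Rul X A) (pt : Ver → ℂ) (R : ℝ),
    (∀ x y, y ∈ X.bx x Z.ρ → ‖pt x - pt y‖ ≤ R) → ∃ C : ℝ, 0 ≤ C ∧
      ∀ (q : List Ver × List Ver), Z.T q.1 q.2 → ∀ c : ℂ,
        sm (fun x => ‖pt x - c‖ ^ 2) q.1 ≤ C * (‖pt (hd X q) - c‖ ^ 2 + 1) ∧
        sm (fun x => ‖pt x - c‖ ^ 2) q.2 ≤ C * (‖pt (hd X q) - c‖ ^ 2 + 1) ∧
        ‖sm (fun x => pt x - c) q.2 - sm (fun x => pt x - c) q.1‖ ≤ C * (‖pt (hd X q) - c‖ + 1)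

/-- the sum of the squared distances of all pairs of vertices -/
def TT (pt : Ver → ℂ) (w : List Ver) : ℝ := sm (fun x => sm (fun y => ‖pt x - pt y‖ ^ 2) w) w

/-- TTI: the sum of the squared distances, with respect to a centre `c` -/
def S_TTI : Prop :=
  ∀ (Ver : Type) (pt : Ver → ℂ) (w : List Ver) (c : ℂ),
    TT pt w = 2 * ((w.length : ℝ) * sm (fun x => ‖pt x - c‖ ^ 2) w - ‖sm (fun x => pt x - c) w‖ ^ 2)

/-- TTL: lower bound and upper bound -/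
def S_TTL : Prop :=
  ∀ (Ver : Type) (A : Ver → Ver → Prop) (o : Ver) (pt : Ver → ℂ) (δ : ℝ), 0 < δ →
    (∀ x y, x ≠ y → δ ≤ ‖pt x - pt y‖) → (∀ x y, A x y → ‖pt x - pt y‖ ≤ 1) →
    ∀ (n : ℕ) (w : List Ver), 1 ≤ n → w.length = n + 1 → Walk o A w →
      δ ^ 2 / 2 * ((n : ℝ) + 1) ^ 2 ≤ TT pt w ∧ TT pt w ≤ ((n : ℝ) + 1) ^ 4 ∧
      ∀ x ∈ w, ∀ y ∈ w, ‖pt x - pt y‖ ≤ n

/-- LGN: the differences of the logarithm -/
def S_LGN : Prop :=
  ∀ s r : ℕ, 1 ≤ r → ∃ C : ℝ, 0 < C ∧ ∀ n : ℕ, 2 ≤ n →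
    |∑ i ∈ range (r + 1), (-1 : ℝ) ^ i * (r.choose i : ℝ) *
      Real.log (((n + s * i : ℕ) : ℝ) + 1)| ≤ C * (1 / Real.sqrt n) ^ r

/-- LIN: a function which is additive in the slots -/
def S_RPL : Prop :=
  ∀ (σ : Type) (E : Finset σ) (a : ℝ) (δ : σ → ℝ),
    Rp E (fun U => a + ∑ q ∈ U, δ q) (|a| + 2 * ∑ q ∈ E, |δ q|)

/-- RPM: products -/
def S_RPM : Prop :=
  ∀ (σ : Type) (E : Finset σ) (Φ Ψ : Finset σ → ℝ) (M N : ℝ), Rp E Φ M → Rp E Ψ N →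
    Rp E (fun U => Φ U * Ψ U) (M * N) ∧ Rp E (fun U => Φ U + Ψ U) (M + N) ∧
    ∀ c : ℝ, Rp E (fun U => c * Φ U) (|c| * M) ∧ ∀ k : ℕ, Rp E (fun U => Φ U ^ k) (M ^ k)

end

end Pool.Agent.N929.EG
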