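import Mathlib

/-!
# Differences of sequences
-/

set_option autoImplicit false
set_option linter.unusedVariables false

namespace Pool.Agent.N929.EG.Seq

open Finset

noncomputable section

/-- the difference of order `r` with step `h`, up to the sign `(-1)^r` -/
def D (h r : ℕ) (u : ℕ → ℝ) (n : ℕ) : ℝ :=
  ∑ i ∈ range (r + 1), (-1 : ℝ) ^ i * (r.choose i : ℝ) * u (n + h * i)

theorem D_eq (h r : ℕ) (u : ℕ → ℝ) (n : ℕ) : D h r u n = (-1) ^ r * (fwdDiff h)^[r] u n := by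
  unfold D
  rw [fwdDiff_iter_eq_sum_shift, mul_sum]
  refine sum_congr rfl (fun i hi => ?_)
  have hi' : i ≤ r := by
    have := mem_range.1 hi
    omega
  obtain ⟨k, rfl⟩ := Nat.exists_eq_add_of_le hi'
  rw [Nat.add_sub_cancel_left, zsmul_eq_mul, smul_eq_mul, mul_comm i h]
  push_cast
  have h1 : ((-1 : ℝ) ^ k) * (-1) ^ k = 1 := by
    rw [← mul_pow]
    norm_num
  rw [pow_add]
  calc (-1 : ℝ) ^ i * ((i + k).choose i : ℝ) * u (n + h * i)
      = (-1 : ℝ) ^ i * (((-1 : ℝ) ^ k) * (-1) ^ k) * ((i + k).choose i : ℝ) * u (n + h * i) := by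
        rw [h1, mul_one]
    _ = _ := by ring

theorem D_zero (h : ℕ) (u : ℕ → ℝ) (n : ℕ) : D h 0 u n = u n := by
  simp [D]

theorem D_succ (h r : ℕ) (u : ℕ → ℝ) (n : ℕ) : D h (r + 1) u n = D h r u n - D h r u (n + h) := by
  rw [D_eq, D_eq, D_eq, Function.iterate_succ_apply']
  unfold fwdDiff
  rw [pow_succ]
  ring

theorem D_one (h : ℕ) (u : ℕ → ℝ) (n : ℕ) : D h 1 u n = u n - u (n + h) := by
  rw [D_succ, D_zero, D_zero]

theorem D_D (h r q : ℕ) (u : ℕ → ℝ) : ∀ n, D h r (D h q u) n = D h (r + q) u n := by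
  induction r with
  | zero =>
    intro n
    rw [D_zero, Nat.zero_add]
  | succ r ih =>
    intro n
    rw [D_succ, ih, ih, show r + 1 + q = (r + q) + 1 by omega, D_succ]

theorem D_add (h r : ℕ) (u v : ℕ → ℝ) (n : ℕ) :
    D h r (fun x => u x + v x) n = D h r u n + D h r v n := by
  unfold D
  rw [← sum_add_distrib]
  exact sum_congr rfl (fun i _ => by ring)

theorem D_sub (h r : ℕ) (u v : ℕ → ℝ) (n : ℕ) :
    D h r (fun x => u x - v x) n = D h r u n - D h r v n := by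
  unfold D
  rw [← sum_sub_distrib]
  exact sum_congr rfl (fun i _ => by ring)

theorem D_mul (h r : ℕ) (c : ℝ) (u : ℕ → ℝ) (n : ℕ) :
    D h r (fun x => c * u x) n = c * D h r u n := by
  unfold D
  rw [mul_sum]
  exact sum_congr rfl (fun i _ => by ring)

theorem D_shift (h r : ℕ) (u : ℕ → ℝ) (m n : ℕ) :
    D h r (fun x => u (x + m)) n = D h r u (n + m) := by
  unfold D
  refine sum_congr rfl (fun i _ => ?_)
  simp only
  rw [show n + h * i + m = n + m + h * i by ring]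

theorem D_const {r : ℕ} (hr : 1 ≤ r) (h : ℕ) (c : ℝ) (n : ℕ) : D h r (fun _ => c) n = 0 := by
  obtain ⟨q, rfl⟩ : ∃ q, r = q + 1 := ⟨r - 1, by omega⟩
  rw [D_succ]
  unfold D
  rw [sub_self]

/-- a linear sequence -/
theorem D_lin {r : ℕ} (hr : 2 ≤ r) (h : ℕ) (c : ℝ) (n : ℕ) :
    D h r (fun x => (x : ℝ) * c) n = 0 := by
  obtain ⟨q, rfl⟩ : ∃ q, r = q + 1 := ⟨r - 1, by omega⟩
  rw [← D_D h q 1]
  have e : D h 1 (fun x : ℕ => (x : ℝ) * c) = fun _ => -(h : ℝ) * c := by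
    funext x
    rw [D_one]
    push_cast
    ring
  rw [e, D_const (by omega)]

/-- the sequence with the two arguments -/
theorem D_mixed {r q : ℕ} (hr : 1 ≤ r) (hq : 1 ≤ q) (h : ℕ) (u : ℕ → ℝ) (n m : ℕ) :
    D h r (fun a => D h q (fun b => u (a + b) - u a - u b) m) n = D h (r + q) u (n + m) := by
  have e1 : ∀ a, D h q (fun b => u (a + b) - u a - u b) m = D h q u (a + m) - D h q u m := by
    intro a
    have e2 : (fun b => u (a + b) - u a - u b) = fun b => (u (b + a) - (fun _ : ℕ => u a) b) - u b := by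
      funext b
      rw [add_comm a b]
    rw [e2, D_sub, D_sub, D_shift, D_const hq, sub_zero, add_comm m a]
  simp only [e1]
  rw [D_sub, D_const hr, sub_zero, D_shift h r (D h q u), D_D]

theorem D_first {r : ℕ} (hr : 1 ≤ r) (h : ℕ) (u : ℕ → ℝ) (n m : ℕ) :
    D h r (fun a => u (a + m) - u a - u m) n = D h r u (n + m) - D h r u n := by
  rw [D_sub, D_sub, D_shift, D_const hr, sub_zero]

theorem D_telescope (h r : ℕ) (u : ℕ → ℝ) (n : ℕ) : ∀ t : ℕ,
    D h r u n - D h r u (n + h * t) = ∑ s ∈ range t, D h (r + 1) u (n + h * s) := by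
  intro t
  induction t with
  | zero => simp
  | succ t ih =>
    rw [sum_range_succ, ← ih, D_succ, show n + h * (t + 1) = n + h * t + h by ring]
    ring

theorem D_tel_le (h r : ℕ) (u : ℕ → ℝ) (n t : ℕ) (B : ℝ)
    (hB : ∀ s < t, |D h (r + 1) u (n + h * s)| ≤ B) :
    |D h r u (n + h * t) - D h r u n| ≤ t * B := by
  rw [abs_sub_comm, D_telescope]
  refine (abs_sum_le_sum_abs _ _).trans ?_
  calc _ ≤ ∑ s ∈ range t, B := sum_le_sum (fun s hs => hB s (mem_range.1 hs))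
    _ = _ := by simp

/-- the double step -/
theorem D_double (h : ℕ) : ∀ (k : ℕ) (v : ℕ → ℝ) (n : ℕ) (B : ℝ),
    (∀ j ≤ k, |D h k v (n + h * j)| ≤ B) → |D (2 * h) k v n| ≤ 2 ^ k * B := by
  intro k
  induction k with
  | zero =>
    intro v n B hB
    have := hB 0 le_rfl
    rw [D_zero] at this ⊢
    simpa using this
  | succ k ih =>
    intro v n B hB
    have e1 : D (2 * h) (k + 1) v n = D (2 * h) k (fun x => D h 1 v x + D h 1 v (x + h)) n := by
      rw [← D_D (2 * h) k 1]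
      congr 1
      funext x
      rw [D_one, D_one, D_one, show x + h + h = x + 2 * h by ring]
      ring
    rw [e1, D_add, D_shift (2 * h) k (D h 1 v)]
    have h1 := ih (D h 1 v) n B (fun j hj => by
      rw [D_D]
      exact hB j (by omega))
    have h2 := ih (D h 1 v) (n + h) B (fun j hj => by
      rw [D_D, show n + h + h * j = n + h * (j + 1) by ring]
      exact hB (j + 1) (by omega))
    calc _ ≤ |D (2 * h) k (D h 1 v) n| + |D (2 * h) k (D h 1 v) (n + h)| := abs_add_le _ _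
      _ ≤ 2 ^ k * B + 2 ^ k * B := add_le_add h1 h2
      _ = _ := by ring

/-- the diagonal -/
theorem D_diag {r : ℕ} (hr : 1 ≤ r) (h : ℕ) (u : ℕ → ℝ) (n : ℕ) :
    D h r (fun a => u (a + a) - u a - u a) n = D (2 * h) r u (n + n) - 2 * D h r u n := by
  rw [D_sub, D_sub]
  have e : D h r (fun a => u (a + a)) n = D (2 * h) r u (n + n) := by
    unfold D
    refine sum_congr rfl (fun i _ => ?_)
    simp only
    rw [show n + h * i + (n + h * i) = n + n + 2 * h * i by ring]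
  rw [e]
  ring

/-! ### the rates -/

/-- the rate in two dimensions -/
def ρ2 (n : ℕ) : ℝ := Real.log n / Real.sqrt n

/-- the rate in three dimensions -/
def ρ3 (K : ℝ) (n : ℕ) : ℝ := (n : ℝ) ^ (-(1 / 3) : ℝ) * Real.exp (K * Real.log (Real.log n) ^ 2)

theorem log3 {n : ℕ} (hn : 3 ≤ n) : 1 ≤ Real.log n := by
  have h1 : Real.exp 1 ≤ n := by
    have := Real.exp_one_lt_d9
    have h2 : (3 : ℝ) ≤ n := by exact_mod_cast hn
    linarith
  have h2 : (0 : ℝ) < n := by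
    have : 0 < n := by omega
    exact_mod_cast this
  rw [Real.le_log_iff_exp_le h2]
  exact h1

theorem ρ2_mono {n N : ℕ} (hn : 3 ≤ n) (h : n ≤ N) : ρ2 N ≤ 3 * ρ2 n := by
  unfold ρ2
  have h0 : (0 : ℝ) < n := by exact_mod_cast (by omega : 0 < n)
  have h1 : (n : ℝ) ≤ N := by exact_mod_cast h
  have h2 : (0 : ℝ) < N := by linarith
  have hl := log3 hn
  have hs : 0 < Real.sqrt n := Real.sqrt_pos.2 h0
  have hS : 0 < Real.sqrt N := Real.sqrt_pos.2 h2
  have hsS : Real.sqrt n ≤ Real.sqrt N := Real.sqrt_le_sqrt h1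
  have h3 : Real.log N ≤ Real.log n + 2 * (Real.sqrt N / Real.sqrt n) := by
    have h4 : Real.log N = Real.log n + Real.log (N / n) := by
      rw [Real.log_div h2.ne' h0.ne']
      ring
    have h5 : Real.log ((N : ℝ) / n) = 2 * Real.log (Real.sqrt N / Real.sqrt n) := by
      rw [← Real.sqrt_div' _ h0.le, Real.log_sqrt (by positivity)]
      ring
    have h6 : Real.log (Real.sqrt N / Real.sqrt n) ≤ Real.sqrt N / Real.sqrt n := by
      have := Real.log_le_sub_one_of_pos (show 0 < Real.sqrt N / Real.sqrt n by positivity)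
      linarith
    rw [h4, h5]
    linarith
  rw [div_le_iff₀ hS]
  have h4 : 3 * (Real.log n / Real.sqrt n) * Real.sqrt N =
      Real.log n * (Real.sqrt N / Real.sqrt n) + 2 * Real.log n * (Real.sqrt N / Real.sqrt n) := by
    field_simp
    ring
  rw [h4]
  have h5 : 1 ≤ Real.sqrt N / Real.sqrt n := by rwa [one_le_div hs]
  nlinarith

theorem ρ2_nonneg (n : ℕ) : 0 ≤ ρ2 n := by
  unfold ρ2
  have := Real.log_natCast_nonneg n
  positivity

theorem ρ3_nonneg (K : ℝ) (n : ℕ) : 0 ≤ ρ3 K n := by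
  unfold ρ3
  positivity

theorem log_sq_le {K y : ℝ} (hK : 0 ≤ K) (hy : 0 ≤ y) :
    2 * K * Real.log (1 + y) ^ 2 - y / 3 ≤ 1 / 3 + 768 * K ^ 2 := by
  obtain ⟨z, hz⟩ : ∃ z, z = Real.sqrt (Real.sqrt (1 + y)) := ⟨_, rfl⟩
  have h1 : 0 < Real.sqrt (1 + y) := Real.sqrt_pos.2 (by linarith)
  have h2 : 0 < z := by rw [hz]; exact Real.sqrt_pos.2 h1
  have h3 : z ^ 2 = Real.sqrt (1 + y) := by rw [hz, Real.sq_sqrt h1.le]
  have h4 : z ^ 4 = 1 + y := by
    calc z ^ 4 = (z ^ 2) ^ 2 := by ring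
      _ = _ := by rw [h3, Real.sq_sqrt (by linarith)]
  have h5 : Real.log (1 + y) = 4 * Real.log z := by
    rw [← h4, Real.log_pow]
    norm_num
  have h6 : 0 ≤ Real.log (1 + y) := Real.log_nonneg (by linarith)
  have h7 : Real.log z ≤ z := by
    have := Real.log_le_sub_one_of_pos h2
    linarith
  have h8 : Real.log (1 + y) ^ 2 ≤ 16 * z ^ 2 := by
    rw [h5] at h6 ⊢
    have : 0 ≤ Real.log z := by linarith
    nlinarith
  have h9 : 2 * K * Real.log (1 + y) ^ 2 ≤ 2 * K * (16 * z ^ 2) :=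
    mul_le_mul_of_nonneg_left h8 (by linarith)
  have h10 : y = z ^ 4 - 1 := by linarith
  have h11 : 0 ≤ (z ^ 2 - 48 * K) ^ 2 := sq_nonneg _
  rw [h10] at h9 ⊢
  nlinarith

theorem ρ3_mono {K : ℝ} (hK : 0 ≤ K) {n N : ℕ} (hn : 3 ≤ n) (h : n ≤ N) :
    ρ3 K N ≤ Real.exp (1 / 3 + 768 * K ^ 2) * ρ3 (2 * K) n := by
  unfold ρ3
  have h0 : (0 : ℝ) < n := by exact_mod_cast (by omega : 0 < n)
  have h1 : (n : ℝ) ≤ N := by exact_mod_cast h
  have h2 : (0 : ℝ) < N := by linarith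
  have hl := log3 hn
  have hL := log3 (hn.trans h)
  obtain ⟨y, hy⟩ : ∃ y, y = Real.log N - Real.log n := ⟨_, rfl⟩
  have hy0 : 0 ≤ y := by
    rw [hy]
    have := Real.log_le_log h0 h1
    linarith
  have h3 : Real.log (Real.log N) ≤ Real.log (Real.log n) + Real.log (1 + y) := by
    rw [← Real.log_mul (by linarith) (by linarith)]
    apply Real.log_le_log (by linarith)
    nlinarith
  have h4 : 0 ≤ Real.log (Real.log N) := Real.log_nonneg hL
  have h5 : Real.log (Real.log N) ^ 2 ≤ 2 * Real.log (Real.log n) ^ 2 +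
      2 * Real.log (1 + y) ^ 2 := by
    have h6 : 0 ≤ Real.log (Real.log n) := Real.log_nonneg hl
    have h7 : 0 ≤ Real.log (1 + y) := Real.log_nonneg (by linarith)
    have h8 : Real.log (Real.log N) ^ 2 ≤ (Real.log (Real.log n) + Real.log (1 + y)) ^ 2 :=
      pow_le_pow_left₀ h4 h3 2
    nlinarith [sq_nonneg (Real.log (Real.log n) - Real.log (1 + y))]
  have h6 := log_sq_le hK hy0
  have e1 : (N : ℝ) ^ (-(1 / 3) : ℝ) = (n : ℝ) ^ (-(1 / 3) : ℝ) * Real.exp (-(y / 3)) := by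
    rw [Real.rpow_def_of_pos h2, Real.rpow_def_of_pos h0, ← Real.exp_add, hy]
    congr 1
    ring
  rw [e1]
  have e2 : Real.exp (-(y / 3)) * Real.exp (K * Real.log (Real.log N) ^ 2) ≤
      Real.exp (1 / 3 + 768 * K ^ 2) * Real.exp (2 * K * Real.log (Real.log n) ^ 2) := by
    rw [← Real.exp_add, ← Real.exp_add]
    apply Real.exp_le_exp.2
    have h7 : K * Real.log (Real.log N) ^ 2 ≤
        K * (2 * Real.log (Real.log n) ^ 2 + 2 * Real.log (1 + y) ^ 2) :=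
      mul_le_mul_of_nonneg_left h5 hK
    linarith
  have h7 : 0 ≤ (n : ℝ) ^ (-(1 / 3) : ℝ) := by positivity
  calc (n : ℝ) ^ (-(1 / 3) : ℝ) * Real.exp (-(y / 3)) * Real.exp (K * Real.log (Real.log N) ^ 2)
      = (n : ℝ) ^ (-(1 / 3) : ℝ) * (Real.exp (-(y / 3)) *
        Real.exp (K * Real.log (Real.log N) ^ 2)) := by ring
    _ ≤ (n : ℝ) ^ (-(1 / 3) : ℝ) * (Real.exp (1 / 3 + 768 * K ^ 2) *
        Real.exp (2 * K * Real.log (Real.log n) ^ 2)) := mul_le_mul_of_nonneg_left e2 h7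
    _ = _ := by ring

/-! ### the three consequences -/

/-- regularity to all orders, with a rate -/
def Reg (u : ℕ → ℝ) (ρ : ℕ → ℝ) : Prop :=
  ∀ r : ℕ, 1 ≤ r → ∃ C : ℝ, 0 ≤ C ∧ ∀ n : ℕ, 3 ≤ n → |D 2 r u n| ≤ C * ρ n ^ r

theorem Reg.first {u ρ ρ' : ℕ → ℝ} {A : ℝ} (H : Reg u ρ) (hρ : ∀ n, 0 ≤ ρ n) (hρ' : ∀ n, 0 ≤ ρ' n)
    (hA : 1 ≤ A) (hm : ∀ n N : ℕ, 3 ≤ n → n ≤ N → ρ N ≤ A * ρ' n) (r : ℕ) (hr : 1 ≤ r) :
    ∃ C : ℝ, 0 ≤ C ∧ ∀ n m : ℕ, 3 ≤ n →
      |D 2 r (fun a => u (a + m) - u a - u m) n| ≤ C * ρ' n ^ r ∧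
      (Even m → |D 2 r (fun a => u (a + m) - u a - u m) n| ≤ C * m * ρ' n ^ (r + 1)) := by
  obtain ⟨C1, hC1, h1⟩ := H r hr
  obtain ⟨C2, hC2, h2⟩ := H (r + 1) (by omega)
  have hA0 : 0 ≤ A := by linarith
  refine ⟨2 * C1 * A ^ r + C2 * A ^ (r + 1), by positivity, fun n m hn => ⟨?_, fun hm' => ?_⟩⟩
  · rw [D_first hr]
    have h3 := h1 (n + m) (by omega)
    have h4 := h1 n hn
    have h5 : ρ (n + m) ^ r ≤ A ^ r * ρ' n ^ r := by
      rw [← mul_pow]
      exact pow_le_pow_left₀ (hρ _) (hm n (n + m) hn (by omega)) r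
    have h6 : ρ n ^ r ≤ A ^ r * ρ' n ^ r := by
      rw [← mul_pow]
      exact pow_le_pow_left₀ (hρ _) (hm n n hn le_rfl) r
    have h7 : 0 ≤ C2 * A ^ (r + 1) * ρ' n ^ r := by
      have := hρ' n
      positivity
    calc |D 2 r u (n + m) - D 2 r u n| ≤ |D 2 r u (n + m)| + |D 2 r u n| := abs_sub _ _
      _ ≤ C1 * ρ (n + m) ^ r + C1 * ρ n ^ r := add_le_add h3 h4
      _ ≤ C1 * (A ^ r * ρ' n ^ r) + C1 * (A ^ r * ρ' n ^ r) := by gcongr
      _ ≤ _ := by linarith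
  · rw [D_first hr]
    obtain ⟨t, rfl⟩ := hm'
    have h5 := D_tel_le 2 r u n t (C2 * (A ^ (r + 1) * ρ' n ^ (r + 1))) (fun s hs => by
      refine (h2 (n + 2 * s) (by omega)).trans (mul_le_mul_of_nonneg_left ?_ hC2)
      rw [← mul_pow]
      exact pow_le_pow_left₀ (hρ _) (hm n (n + 2 * s) hn (by omega)) _)
    rw [show n + (t + t) = n + 2 * t by ring]
    refine h5.trans ?_
    have h6 : 0 ≤ ρ' n ^ (r + 1) := pow_nonneg (hρ' n) _
    have h7 : (0 : ℝ) ≤ t := Nat.cast_nonneg t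
    have h8 : 0 ≤ 2 * C1 * A ^ r * ((t : ℝ) + t) * ρ' n ^ (r + 1) := by positivity
    have h9 : 0 ≤ C2 * A ^ (r + 1) * t * ρ' n ^ (r + 1) := by positivity
    push_cast
    nlinarith

theorem Reg.diag {u ρ ρ' : ℕ → ℝ} {A : ℝ} (H : Reg u ρ) (hρ : ∀ n, 0 ≤ ρ n) (hρ' : ∀ n, 0 ≤ ρ' n)
    (hA : 1 ≤ A) (hm : ∀ n N : ℕ, 3 ≤ n → n ≤ N → ρ N ≤ A * ρ' n) (r : ℕ) (hr : 1 ≤ r) :
    ∃ C : ℝ, 0 ≤ C ∧ ∀ n : ℕ, 3 ≤ n →
      |D 2 r (fun a => u (a + a) - u a - u a) n| ≤ C * ρ' n ^ r := by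
  obtain ⟨C1, hC1, h1⟩ := H r hr
  have hA0 : 0 ≤ A := by linarith
  refine ⟨(2 ^ r + 2) * (C1 * A ^ r), by positivity, fun n hn => ?_⟩
  rw [D_diag hr]
  have h3 : ∀ N, n ≤ N → |D 2 r u N| ≤ C1 * A ^ r * ρ' n ^ r := by
    intro N hN
    refine (h1 N (by omega)).trans ?_
    rw [mul_assoc]
    refine mul_le_mul_of_nonneg_left ?_ hC1
    rw [← mul_pow]
    exact pow_le_pow_left₀ (hρ _) (hm n N hn hN) r
  have h4 := D_double 2 r u (n + n) (C1 * A ^ r * ρ' n ^ r) (fun j _ => h3 _ (by omega))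
  have h5 := h3 n le_rfl
  calc |D (2 * 2) r u (n + n) - 2 * D 2 r u n|
      ≤ |D (2 * 2) r u (n + n)| + |2 * D 2 r u n| := abs_sub _ _
    _ ≤ 2 ^ r * (C1 * A ^ r * ρ' n ^ r) + 2 * (C1 * A ^ r * ρ' n ^ r) := by
        refine add_le_add h4 ?_
        rw [abs_mul, abs_of_pos (by norm_num : (0 : ℝ) < 2)]
        linarith
    _ = _ := by ring

end

end Pool.Agent.N929.EG.Seq
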