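import Pool.Agent.N929.EG.Seq

/-!
# Differences of all orders with a general step
-/

set_option autoImplicit false
set_option linter.unusedVariables false

namespace Pool.Agent.N929.EG.Seq

open Finset

noncomputable section

/-! ### the three consequences -/

/-- regularity to all orders, with a rate -/
def RegH (h : ℕ) (u : ℕ → ℝ) (ρ : ℕ → ℝ) : Prop :=
  ∀ r : ℕ, 1 ≤ r → ∃ C : ℝ, 0 ≤ C ∧ ∀ n : ℕ, 3 ≤ n → |D h r u n| ≤ C * ρ n ^ r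

theorem RegH.first {h : ℕ} (hh : 1 ≤ h) {u ρ ρ' : ℕ → ℝ} {A : ℝ} (H : RegH h u ρ) (hρ : ∀ n, 0 ≤ ρ n) (hρ' : ∀ n, 0 ≤ ρ' n)
    (hA : 1 ≤ A) (hm : ∀ n N : ℕ, 3 ≤ n → n ≤ N → ρ N ≤ A * ρ' n) (r : ℕ) (hr : 1 ≤ r) :
    ∃ C : ℝ, 0 ≤ C ∧ ∀ n m : ℕ, 3 ≤ n →
      |D h r (fun a => u (a + m) - u a - u m) n| ≤ C * ρ' n ^ r ∧
      (h ∣ m → |D h r (fun a => u (a + m) - u a - u m) n| ≤ C * m * ρ' n ^ (r + 1)) := by
  obtain ⟨C1, hC1, h1⟩ := H r hr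
  obtain ⟨C2, hC2, h2⟩ := H (r + 1) (by omega)
  have hA0 : 0 ≤ A := by linarith
  refine ⟨2 * C1 * A ^ r + C2 * A ^ (r + 1), by positivity, fun n m hn => ⟨?_, fun hm' => ?_⟩⟩
  · rw [D_first hr]
    have h3 := h1 (n + m) (by omega)
    have h4 := h1 n hn
    have h5 : ρ (n + m) ^ r ≤ A ^ r * ρ' n ^ r := by
      rw [← mul_pow]
      exact pow_le_pow_left₀ (hρ _) (hm n (n + m) hn (by omega)) r
    have h6 : ρ n ^ r ≤ A ^ r * ρ' n ^ r := by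
      rw [← mul_pow]
      exact pow_le_pow_left₀ (hρ _) (hm n n hn le_rfl) r
    have h7 : 0 ≤ C2 * A ^ (r + 1) * ρ' n ^ r := by
      have := hρ' n
      positivity
    calc |D h r u (n + m) - D h r u n| ≤ |D h r u (n + m)| + |D h r u n| := abs_sub _ _
      _ ≤ C1 * ρ (n + m) ^ r + C1 * ρ n ^ r := add_le_add h3 h4
      _ ≤ C1 * (A ^ r * ρ' n ^ r) + C1 * (A ^ r * ρ' n ^ r) := by gcongr
      _ ≤ _ := by linarith
  · rw [D_first hr]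
    obtain ⟨t, rfl⟩ := hm'
    have h5 := D_tel_le h r u n t (C2 * (A ^ (r + 1) * ρ' n ^ (r + 1))) (fun s hs => by
      refine (h2 (n + h * s) (by omega)).trans (mul_le_mul_of_nonneg_left ?_ hC2)
      rw [← mul_pow]
      exact pow_le_pow_left₀ (hρ _) (hm n (n + h * s) hn (by omega)) _)
    refine h5.trans ?_
    have h6 : 0 ≤ ρ' n ^ (r + 1) := pow_nonneg (hρ' n) _
    have h7 : (0 : ℝ) ≤ t := Nat.cast_nonneg t
    have h8 : 0 ≤ 2 * C1 * A ^ r * ((h : ℝ) * t) * ρ' n ^ (r + 1) := by positivity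
    have h10 : (1 : ℝ) ≤ h := by exact_mod_cast hh
    have h11 : (t : ℝ) ≤ (h : ℝ) * t := by nlinarith
    have h12 : t * (C2 * (A ^ (r + 1) * ρ' n ^ (r + 1))) ≤ C2 * A ^ (r + 1) * ((h : ℝ) * t) * ρ' n ^ (r + 1) := by
      have h13 : 0 ≤ C2 * (A ^ (r + 1) * ρ' n ^ (r + 1)) := by positivity
      nlinarith
    push_cast
    nlinarith

theorem RegH.diag {h : ℕ} {u ρ ρ' : ℕ → ℝ} {A : ℝ} (H : RegH h u ρ) (hρ : ∀ n, 0 ≤ ρ n) (hρ' : ∀ n, 0 ≤ ρ' n)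
    (hA : 1 ≤ A) (hm : ∀ n N : ℕ, 3 ≤ n → n ≤ N → ρ N ≤ A * ρ' n) (r : ℕ) (hr : 1 ≤ r) :
    ∃ C : ℝ, 0 ≤ C ∧ ∀ n : ℕ, 3 ≤ n →
      |D h r (fun a => u (a + a) - u a - u a) n| ≤ C * ρ' n ^ r := by
  obtain ⟨C1, hC1, h1⟩ := H r hr
  have hA0 : 0 ≤ A := by linarith
  refine ⟨(2 ^ r + 2) * (C1 * A ^ r), by positivity, fun n hn => ?_⟩
  rw [D_diag hr]
  have h3 : ∀ N, n ≤ N → |D h r u N| ≤ C1 * A ^ r * ρ' n ^ r := by
    intro N hN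
    refine (h1 N (by omega)).trans ?_
    rw [mul_assoc]
    refine mul_le_mul_of_nonneg_left ?_ hC1
    rw [← mul_pow]
    exact pow_le_pow_left₀ (hρ _) (hm n N hn hN) r
  have h4 := D_double h r u (n + n) (C1 * A ^ r * ρ' n ^ r) (fun j _ => h3 _ (by omega))
  have h5 := h3 n le_rfl
  calc |D (2 * h) r u (n + n) - 2 * D h r u n|
      ≤ |D (2 * h) r u (n + n)| + |2 * D h r u n| := abs_sub _ _
    _ ≤ 2 ^ r * (C1 * A ^ r * ρ' n ^ r) + 2 * (C1 * A ^ r * ρ' n ^ r) := by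
        refine add_le_add h4 ?_
        rw [abs_mul, abs_of_pos (by norm_num : (0 : ℝ) < 2)]
        linarith
    _ = _ := by ring

end

end Pool.Agent.N929.EG.Seq
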