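import Pool.Agent.N929.EG.RpA
import Pool.Agent.N929.EG.GenF
import Pool.Agent.N929.EG.MomT
import Pool.Agent.N929.EG.Two

/-!
# The sizes of walks: representation by slots
-/

set_option autoImplicit false
set_option linter.unusedVariables false

namespace Pool.Agent.N929.EG

open Finset Filter Topology
open scoped Classical

noncomputable section

variable {Ver : Type}

/-! ### sums over lists -/

theorem sm_nonneg {f : Ver → ℝ} (hf : ∀ x, 0 ≤ f x) (w : List Ver) : 0 ≤ sm f w := by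
  unfold sm
  apply List.sum_nonneg
  intro y hy
  obtain ⟨x, -, rfl⟩ := List.mem_map.1 hy
  exact hf x

theorem sm_one (w : List Ver) : sm (fun _ => (1 : ℝ)) w = w.length := by
  unfold sm
  simp

/-- squared distances from a centre -/
def S2 (pt : Ver → ℂ) (c : ℂ) (w : List Ver) : ℝ := sm (fun x => ‖pt x - c‖ ^ 2) w

def S1 (pt : Ver → ℂ) (c : ℂ) (w : List Ver) : ℂ := sm (fun x => pt x - c) w

theorem S2_nonneg (pt : Ver → ℂ) (c : ℂ) (w : List Ver) : 0 ≤ S2 pt c w :=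
  sm_nonneg (fun _ => by positivity) w

/-- the barycentre -/
def bary (pt : Ver → ℂ) (w : List Ver) : ℂ := sm pt w / (w.length : ℂ)

theorem S1_bary (pt : Ver → ℂ) (w : List Ver) : S1 pt (bary pt w) w = 0 := by
  unfold S1 bary sm
  rcases Nat.eq_zero_or_pos w.length with h | h
  · rw [List.length_eq_zero_iff] at h
    subst h
    simp
  · have e : ∀ (c : ℂ) (l : List Ver), (l.map (fun x => pt x - c)).sum =
        (l.map pt).sum - (l.length : ℂ) * c := by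
      intro c l
      induction l with
      | nil => simp
      | cons x l ih =>
        rw [List.map_cons, List.sum_cons, ih, List.map_cons, List.sum_cons, List.length_cons]
        push_cast
        ring
    rw [e]
    have hne : (w.length : ℂ) ≠ 0 := by
      exact_mod_cast h.ne'
    field_simp
    ring

theorem mem_Sl {α σ : Type} {Y : TS α σ} {L : Finset σ} {w : α} {q : σ} :
    q ∈ Sl Y L w ↔ q ∈ L ∧ (q ∈ Y.S w ∨ q ∈ Y.B w) := by
  unfold Sl
  rw [mem_filter]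

theorem mem_Oc {α σ : Type} {Y : TS α σ} {L : Finset σ} {w : α} {q : σ} :
    q ∈ Oc Y L w ↔ q ∈ L ∧ q ∈ Y.B w := by
  unfold Oc
  rw [mem_filter]

theorem fl_invG {α σ β : Type} {Y : TS α σ} {L : Finset σ} {st : α → α} {fl : α → Finset σ → α}
    (h : Fill Y L st fl) {F : α → β} (hF : ∀ n, ∀ w ∈ Y.K n, ∀ q ∈ Y.S w, F (Y.ins w q) = F w)
    {w : α} (hw : Em Y L w) : ∀ U : Finset σ, U ⊆ Sl Y L w → F (fl w U) = F w := by
  intro U
  induction U using Finset.induction_on with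
  | empty =>
    intro _
    rw [h.fl_empty w hw]
  | insert q U hq ih =>
    intro hU
    have h1 : U ⊆ Sl Y L w := fun x hx => hU (mem_insert_of_mem hx)
    have h2 : q ∈ Sl Y L w := hU (mem_insert_self q U)
    obtain ⟨h3, h4⟩ := h.fl_insert w U q hw h1 h2 hq
    rw [h4, hF _ _ (h.fl_K w U hw h1) q h3, ih h1]

/-! ### the setting -/

/-- the geometry of a lattice -/
structure Lt (X : Geo Ver) (A : Ver → Ver → Prop) (ρ : ℕ) (pt : Ver → ℂ) (R δ : ℝ) : Prop where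
  near : ∀ x y, y ∈ X.bx x ρ → ‖pt x - pt y‖ ≤ R
  δ0 : 0 < δ
  sep : ∀ x y, x ≠ y → δ ≤ ‖pt x - pt y‖
  adj : ∀ x y, A x y → ‖pt x - pt y‖ ≤ 1

variable {X : Geo Ver} {A : Ver → Ver → Prop} {Z : Rul X A}
  {Y : TS (List Ver) (List Ver × List Ver)} {pt : Ver → ℂ} {R δ : ℝ}

/-- constants for the moves -/
structure Cst (X : Geo Ver) (A : Ver → Ver → Prop) (Z : Rul X A) (pt : Ver → ℂ) (C M : ℝ) :
    Prop where
  C0 : 0 ≤ C
  M0 : 0 ≤ M
  mul : ∀ (Q : Finset (List Ver × List Ver)) (w : List Ver), w.Nodup →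
      (∀ q ∈ Q, Z.T q.1 q.2 ∧ hd X q ∈ w) → ∀ f : Ver → ℝ, (∀ x, 0 ≤ f x) →
        ∑ q ∈ Q, f (hd X q) ≤ M * sm f w
  nea : ∀ (q : List Ver × List Ver), Z.T q.1 q.2 → ∀ c : ℂ,
        S2 pt c q.1 ≤ C * (‖pt (hd X q) - c‖ ^ 2 + 1) ∧
        S2 pt c q.2 ≤ C * (‖pt (hd X q) - c‖ ^ 2 + 1) ∧
        ‖S1 pt c q.2 - S1 pt c q.1‖ ≤ C * (‖pt (hd X q) - c‖ + 1)

theorem cst (hmul : S_MUL) (hnea : S_NEA) (H : Lt X A Z.ρ pt R δ) :
    ∃ C M : ℝ, Cst X A Z pt C M := by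
  obtain ⟨M, hM, h1⟩ := hmul Ver X A Z
  obtain ⟨C, hC, h2⟩ := hnea Ver X A Z pt R H.near
  exact ⟨C, M, hC, hM, h1, h2⟩

theorem hd_mem {q : List Ver × List Ver} (h : Pair A q.1 q.2) : hd X q ∈ q.1 ∧ hd X q ∈ q.2 := by
  obtain ⟨⟨p, r, X1, X2, h1, h2, -⟩, -⟩ := h
  unfold hd
  rw [h1, h2]
  simp

theorem hd_S (W : Win Z Y) {w : List Ver} {q : List Ver × List Ver} (hq : q ∈ Y.S w) :
    Z.T q.1 q.2 ∧ hd X q ∈ w := by
  rw [W.S] at hq
  exact ⟨hq.1, hq.2.1.subset (hd_mem (Z.pair _ _ hq.1)).1⟩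

theorem hd_B (W : Win Z Y) {w : List Ver} {q : List Ver × List Ver} (hq : q ∈ Y.B w) :
    Z.T q.1 q.2 ∧ hd X q ∈ w := by
  rw [W.B] at hq
  exact ⟨hq.1, hq.2.1.subset (hd_mem (Z.pair _ _ hq.1)).2⟩

variable {L : Finset (List Ver × List Ver)} {st : List Ver → List Ver}
  {fl : List Ver → Finset (List Ver × List Ver) → List Ver}

theorem hd_Sl (W : Win Z Y) {w : List Ver} {q : List Ver × List Ver} (hq : q ∈ Sl Y L w) :
    Z.T q.1 q.2 ∧ hd X q ∈ w := by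
  rw [mem_Sl] at hq
  rcases hq.2 with h | h
  · exact hd_S W h
  · exact hd_B W h

theorem hd_Oc (W : Win Z Y) {w : List Ver} {q : List Ver × List Ver} (hq : q ∈ Oc Y L w) :
    Z.T q.1 q.2 ∧ hd X q ∈ w := by
  rw [mem_Oc] at hq
  exact hd_B W hq.2

theorem nodup_K (W : Win Z Y) {n : ℕ} {w : List Ver} (hw : w ∈ Y.K n) : w.Nodup :=
  ((W.K n w).1 hw).2.2.1

theorem card_le {C M : ℝ} (K : Cst X A Z pt C M) {Q : Finset (List Ver × List Ver)}
    {w : List Ver} (hw : w.Nodup) (hQ : ∀ q ∈ Q, Z.T q.1 q.2 ∧ hd X q ∈ w) :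
    (Q.card : ℝ) ≤ M * w.length := by
  have h := K.mul Q w hw hQ (fun _ => 1) (fun _ => zero_le_one)
  rw [sm_one, sum_const, nsmul_eq_mul, mul_one] at h
  exact h

theorem sum2_le {C M : ℝ} (K : Cst X A Z pt C M) {Q : Finset (List Ver × List Ver)}
    {w : List Ver} (hw : w.Nodup) (hQ : ∀ q ∈ Q, Z.T q.1 q.2 ∧ hd X q ∈ w) (c : ℂ) :
    ∑ q ∈ Q, (‖pt (hd X q) - c‖ ^ 2 + 1) ≤ M * (S2 pt c w + w.length) := by
  rw [sum_add_distrib]
  have h1 := K.mul Q w hw hQ (fun x => ‖pt x - c‖ ^ 2) (fun _ => by positivity)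
  have h2 := card_le K hw hQ
  rw [sum_const, nsmul_eq_mul, mul_one]
  unfold S2
  linarith

/-- the representation of the sum of squared distances from a fixed centre -/
theorem rp_S2 (hfsm : S_FSM) (W : Win Z Y) {C M : ℝ} (K : Cst X A Z pt C M)
    (hfl : Fill Y L st fl) (c : ℂ) {w : List Ver} (hw : Em Y L w) :
    Rp (Sl Y L w) (fun U => S2 pt c (fl w U))
      ((1 + 4 * (C * M)) * (S2 pt c w + w.length)) := by
  have h1 := rpl _ (Sl Y L w) (S2 pt c w) (fun q => S2 pt c q.2 - S2 pt c q.1)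
  have hnd := nodup_K W hw.1
  have hQ : ∀ q ∈ Sl Y L w, Z.T q.1 q.2 ∧ hd X q ∈ w := fun q hq => hd_Sl W hq
  refine (h1.mono ?_).congr (fun U hU => ?_)
  · have h2 : ∑ q ∈ Sl Y L w, |S2 pt c q.2 - S2 pt c q.1| ≤
        ∑ q ∈ Sl Y L w, (2 * C) * (‖pt (hd X q) - c‖ ^ 2 + 1) := by
      refine sum_le_sum (fun q hq => ?_)
      obtain ⟨a1, a2, -⟩ := K.nea q (hQ q hq).1 c
      have b1 := S2_nonneg pt c q.1
      have b2 := S2_nonneg pt c q.2
      have hp : 0 ≤ C * (‖pt (hd X q) - c‖ ^ 2 + 1) := mul_nonneg K.C0 (by positivity)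
      rw [abs_le]
      constructor <;> linarith
    rw [← mul_sum] at h2
    have h3 := mul_le_mul_of_nonneg_left (sum2_le K hnd hQ c)
      (show 0 ≤ 2 * C by linarith [K.C0])
    rw [abs_of_nonneg (S2_nonneg pt c w)]
    have hl : (0 : ℝ) ≤ w.length := Nat.cast_nonneg _
    nlinarith
  · exact hfsm Ver X A Z Y W L st fl hfl ℝ inferInstance (fun x => ‖pt x - c‖ ^ 2) w hw U hU

/-- the number of vertices -/
theorem rp_N (hfsm : S_FSM) (W : Win Z Y) {C M : ℝ} (K : Cst X A Z pt C M)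
    (hfl : Fill Y L st fl) {w : List Ver} (hw : Em Y L w) :
    Rp (Sl Y L w) (fun U => ((fl w U).length : ℝ)) ((1 + 2 * (Z.s * M)) * w.length) := by
  have h1 := rpl _ (Sl Y L w) (w.length : ℝ) (fun q => (Z.s : ℝ))
  have hnd := nodup_K W hw.1
  have hQ : ∀ q ∈ Sl Y L w, Z.T q.1 q.2 ∧ hd X q ∈ w := fun q hq => hd_Sl W hq
  refine (h1.mono ?_).congr (fun U hU => ?_)
  · have h2 := card_le K hnd hQ
    rw [abs_of_nonneg (Nat.cast_nonneg _), sum_const, nsmul_eq_mul,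
      abs_of_nonneg (Nat.cast_nonneg _)]
    have hs : (0 : ℝ) ≤ Z.s := Nat.cast_nonneg _
    nlinarith
  · have h2 := hfsm Ver X A Z Y W L st fl hfl ℝ inferInstance (fun _ => (1 : ℝ)) w hw U hU
    rw [sm_one, sm_one] at h2
    rw [h2]
    congr 1
    refine sum_congr rfl (fun q hq => ?_)
    rw [sm_one, sm_one]
    have h3 := Z.len _ _ (hQ q (hU hq)).1
    rw [h3.1, h3.2]
    push_cast
    ring

/-- the sum of the vertices, for the barycentre as centre -/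
theorem rp_S1 (hfsm : S_FSM) (W : Win Z Y) {C M : ℝ} (K : Cst X A Z pt C M)
    (hfl : Fill Y L st fl) {w : List Ver} (hw : Em Y L w) :
    Rp (Sl Y L w) (fun U => ‖S1 pt (bary pt w) (fl w U)‖ ^ 2)
      (8 * (2 * C ^ 2 * M ^ 2) * ((w.length : ℝ) * (S2 pt (bary pt w) w + w.length))) := by
  obtain ⟨c, hc⟩ : ∃ c, c = bary pt w := ⟨_, rfl⟩
  rw [← hc]
  have hnd := nodup_K W hw.1
  have hQ : ∀ q ∈ Sl Y L w, Z.T q.1 q.2 ∧ hd X q ∈ w := fun q hq => hd_Sl W hq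
  obtain ⟨δ1, hδ1⟩ : ∃ δ1 : List Ver × List Ver → ℂ, δ1 = fun q => S1 pt c q.2 - S1 pt c q.1 :=
    ⟨_, rfl⟩
  have e1 : ∀ U ⊆ Sl Y L w, S1 pt c (fl w U) = ∑ q ∈ U, δ1 q := by
    intro U hU
    have h2 := hfsm Ver X A Z Y W L st fl hfl ℂ inferInstance (fun x => pt x - c) w hw U hU
    have h3 := S1_bary pt w
    rw [← hc] at h3
    unfold S1 at h3 ⊢
    rw [h2, h3, zero_add, hδ1]
    rfl
  obtain ⟨D, hD⟩ : ∃ D : ℝ, D = ∑ q ∈ Sl Y L w, ‖δ1 q‖ := ⟨_, rfl⟩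
  have hDsq : D ^ 2 ≤ (2 * C ^ 2 * M ^ 2) * ((w.length : ℝ) * (S2 pt c w + w.length)) := by
    have h4 : D ^ 2 ≤ ((Sl Y L w).card : ℝ) * ∑ q ∈ Sl Y L w, ‖δ1 q‖ ^ 2 := by
      rw [hD]
      exact sq_sum_le_card_mul_sum_sq
    have h5 : ∑ q ∈ Sl Y L w, ‖δ1 q‖ ^ 2 ≤
        ∑ q ∈ Sl Y L w, (2 * C ^ 2) * (‖pt (hd X q) - c‖ ^ 2 + 1) := by
      refine sum_le_sum (fun q hq => ?_)
      obtain ⟨-, -, a3⟩ := K.nea q (hQ q hq).1 c
      have h6 : ‖δ1 q‖ ≤ C * (‖pt (hd X q) - c‖ + 1) := by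
        rw [hδ1]
        exact a3
      have h7 := pow_le_pow_left₀ (norm_nonneg _) h6 2
      have h8 : (‖pt (hd X q) - c‖ + 1) ^ 2 ≤ 2 * (‖pt (hd X q) - c‖ ^ 2 + 1) := by
        nlinarith [sq_nonneg (‖pt (hd X q) - c‖ - 1)]
      rw [mul_pow] at h7
      have h9 : 0 ≤ C ^ 2 := sq_nonneg C
      nlinarith
    rw [← mul_sum] at h5
    have h6 := sum2_le K hnd hQ c
    have h7 := card_le K hnd hQ
    have h8 : 0 ≤ ∑ q ∈ Sl Y L w, ‖δ1 q‖ ^ 2 := sum_nonneg (fun _ _ => by positivity)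
    have hl : (0 : ℝ) ≤ w.length := Nat.cast_nonneg _
    have hS := S2_nonneg pt c w
    calc D ^ 2 ≤ ((Sl Y L w).card : ℝ) * ∑ q ∈ Sl Y L w, ‖δ1 q‖ ^ 2 := h4
      _ ≤ (M * w.length) * ((2 * C ^ 2) * (M * (S2 pt c w + w.length))) := by
          refine mul_le_mul h7 (h5.trans ?_) h8 (mul_nonneg K.M0 hl)
          exact mul_le_mul_of_nonneg_left h6 (by positivity)
      _ = _ := by ring
  have hre : Rp (Sl Y L w) (fun U => (S1 pt c (fl w U)).re ^ 2) ((2 * D) ^ 2) := by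
    have h1 := rpl _ (Sl Y L w) 0 (fun q => (δ1 q).re)
    have h2 : |(0 : ℝ)| + 2 * ∑ q ∈ Sl Y L w, |(δ1 q).re| ≤ 2 * D := by
      rw [abs_zero, zero_add, hD]
      exact mul_le_mul_of_nonneg_left (sum_le_sum (fun q _ => Complex.abs_re_le_norm _))
        (by norm_num)
    refine ((h1.mono h2).pow 2).congr (fun U hU => ?_)
    rw [e1 U hU, Complex.re_sum, zero_add]
  have him : Rp (Sl Y L w) (fun U => (S1 pt c (fl w U)).im ^ 2) ((2 * D) ^ 2) := by
    have h1 := rpl _ (Sl Y L w) 0 (fun q => (δ1 q).im)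
    have h2 : |(0 : ℝ)| + 2 * ∑ q ∈ Sl Y L w, |(δ1 q).im| ≤ 2 * D := by
      rw [abs_zero, zero_add, hD]
      exact mul_le_mul_of_nonneg_left (sum_le_sum (fun q _ => Complex.abs_im_le_norm _))
        (by norm_num)
    refine ((h1.mono h2).pow 2).congr (fun U hU => ?_)
    rw [e1 U hU, Complex.im_sum, zero_add]
  refine ((hre.add him).mono ?_).congr (fun U hU => ?_)
  · nlinarith
  · rw [Complex.sq_norm, Complex.normSq_apply]
    ring

/-- the representation of `TT` -/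
theorem rp_TT (hfsm : S_FSM) (htti : S_TTI) (W : Win Z Y) {C M : ℝ} (K : Cst X A Z pt C M) :
    ∃ C₁ : ℝ, 0 ≤ C₁ ∧ ∀ (L : Finset (List Ver × List Ver)) (st : List Ver → List Ver)
      (fl : List Ver → Finset (List Ver × List Ver) → List Ver), Fill Y L st fl →
      ∀ w, Em Y L w → Rp (Sl Y L w) (fun U => TT pt (fl w U))
        (C₁ * (TT pt w + (w.length : ℝ) ^ 2)) := by
  have hC := K.C0
  have hM := K.M0
  have hs : (0 : ℝ) ≤ Z.s := Nat.cast_nonneg _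
  refine ⟨2 * ((1 + 2 * (Z.s * M)) * (1 + 4 * (C * M)) + 8 * (2 * C ^ 2 * M ^ 2)), by positivity,
    fun L st fl hfl w hw => ?_⟩
  obtain ⟨c, hc⟩ : ∃ c, c = bary pt w := ⟨_, rfl⟩
  have h1 := rp_S2 hfsm W K hfl c hw
  have h2 := rp_N hfsm W K hfl hw
  have h3 := rp_S1 hfsm W K hfl hw
  rw [← hc] at h3
  have h4 := ((h2.mul h1).add (h3.smul (-1))).smul 2
  refine (h4.mono ?_).congr (fun U hU => ?_)
  · have h5 := htti Ver pt w c
    have h6 := S1_bary pt w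
    rw [← hc] at h6
    have h7 : sm (fun x => pt x - c) w = 0 := h6
    rw [h7, norm_zero] at h5
    have h8 : TT pt w = 2 * ((w.length : ℝ) * S2 pt c w) := by
      rw [h5]
      unfold S2
      ring
    have h9 := S2_nonneg pt c w
    have hl : (0 : ℝ) ≤ w.length := Nat.cast_nonneg _
    have h10 : (w.length : ℝ) * (S2 pt c w + w.length) ≤ TT pt w + (w.length : ℝ) ^ 2 := by
      rw [h8]
      have := mul_nonneg hl h9
      nlinarith
    rw [abs_two, abs_neg, abs_one, one_mul]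
    have hp : 0 ≤ (1 + 2 * (Z.s * M)) * (1 + 4 * (C * M)) + 8 * (2 * C ^ 2 * M ^ 2) := by
      positivity
    calc 2 * ((1 + 2 * (Z.s * M)) * (w.length : ℝ) *
            ((1 + 4 * (C * M)) * (S2 pt c w + w.length)) +
          8 * (2 * C ^ 2 * M ^ 2) * ((w.length : ℝ) * (S2 pt c w + w.length)))
        = 2 * ((1 + 2 * (Z.s * M)) * (1 + 4 * (C * M)) + 8 * (2 * C ^ 2 * M ^ 2)) *
          ((w.length : ℝ) * (S2 pt c w + w.length)) := by ring
      _ ≤ _ := mul_le_mul_of_nonneg_left h10 (by positivity)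
  · rw [htti Ver pt (fl w U) c]
    unfold S2 S1
    ring

/-- sums of squared distances before and after the removal of the slots -/
theorem S2_st (hfsm : S_FSM) (W : Win Z Y) {C M : ℝ} (K : Cst X A Z pt C M)
    (hfl : Fill Y L st fl) (c : ℂ) {n : ℕ} {w : List Ver} (hw : w ∈ Y.K n) :
    S2 pt c (st w) ≤ (1 + C * M) * (S2 pt c w + w.length) ∧ (st w).length ≤ w.length := by
  have hw' : w ∈ Y.K (Y.len w) := by rwa [Y.len_K n w hw]
  have hem := hfl.st_em w hw'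
  have hsub : Oc Y L w ⊆ Sl Y L (st w) := by
    rw [hfl.st_sl w hw']
    exact Oc_sub
  have hQ : ∀ q ∈ Oc Y L w, Z.T q.1 q.2 ∧ hd X q ∈ w := fun q hq => hd_Oc W hq
  constructor
  · have h1 := hfsm Ver X A Z Y W L st fl hfl ℝ inferInstance (fun x => ‖pt x - c‖ ^ 2) (st w) hem _ hsub
    rw [hfl.fl_st w hw'] at h1
    have h2 : ∑ q ∈ Oc Y L w, S2 pt c q.1 ≤ C * (M * (S2 pt c w + w.length)) := by
      calc ∑ q ∈ Oc Y L w, S2 pt c q.1
          ≤ ∑ q ∈ Oc Y L w, C * (‖pt (hd X q) - c‖ ^ 2 + 1) :=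
            sum_le_sum (fun q hq => (K.nea q (hQ q hq).1 c).1)
        _ = C * ∑ q ∈ Oc Y L w, (‖pt (hd X q) - c‖ ^ 2 + 1) := by rw [mul_sum]
        _ ≤ _ := mul_le_mul_of_nonneg_left (sum2_le K (nodup_K W hw) hQ c) K.C0
    have h3 : 0 ≤ ∑ q ∈ Oc Y L w, S2 pt c q.2 := sum_nonneg (fun q _ => S2_nonneg pt c q.2)
    have h4 : S2 pt c w = S2 pt c (st w) +
        ∑ q ∈ Oc Y L w, (S2 pt c q.2 - S2 pt c q.1) := h1
    rw [sum_sub_distrib] at h4
    have hl : (0 : ℝ) ≤ w.length := Nat.cast_nonneg _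
    nlinarith
  · have h1 := hfl.st_len w hw'
    have h2 := ((W.K _ _).1 hem.1).1
    have h3 := ((W.K _ _).1 hw').1
    omega

theorem TT_nonneg (pt : Ver → ℂ) (w : List Ver) : 0 ≤ TT pt w :=
  sm_nonneg (fun x => sm_nonneg (fun y => by positivity) w) w

theorem TT_st (hfsm : S_FSM) (htti : S_TTI) (W : Win Z Y) {C M : ℝ} (K : Cst X A Z pt C M)
    (hfl : Fill Y L st fl) {n : ℕ} {w : List Ver} (hw : w ∈ Y.K n) :
    TT pt (st w) + ((st w).length : ℝ) ^ 2 ≤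
      (3 + 2 * (C * M)) * (TT pt w + (w.length : ℝ) ^ 2) := by
  obtain ⟨c, hc⟩ : ∃ c, c = bary pt w := ⟨_, rfl⟩
  obtain ⟨h1, h2⟩ := S2_st hfsm W K hfl c hw
  have h3 := htti Ver pt (st w) c
  have h5 := htti Ver pt w c
  have h6 := S1_bary pt w
  rw [← hc] at h6
  have h7 : sm (fun x => pt x - c) w = 0 := h6
  rw [h7, norm_zero] at h5
  have h8 : TT pt w = 2 * ((w.length : ℝ) * S2 pt c w) := by
    rw [h5]
    unfold S2
    ring
  have h9 : TT pt (st w) ≤ 2 * (((st w).length : ℝ) * S2 pt c (st w)) := by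
    rw [h3]
    unfold S2
    have := sq_nonneg ‖sm (fun x => pt x - c) (st w)‖
    linarith
  have h2' : ((st w).length : ℝ) ≤ w.length := by exact_mod_cast h2
  have hl : (0 : ℝ) ≤ (st w).length := Nat.cast_nonneg _
  have hl' : (0 : ℝ) ≤ w.length := Nat.cast_nonneg _
  have h10 := S2_nonneg pt c (st w)
  have h11 := S2_nonneg pt c w
  have hCM : 0 ≤ C * M := mul_nonneg K.C0 K.M0
  have h12 : ((st w).length : ℝ) * S2 pt c (st w) ≤
      (w.length : ℝ) * ((1 + C * M) * (S2 pt c w + w.length)) :=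
    mul_le_mul h2' h1 h10 hl'
  have h13 : ((st w).length : ℝ) ^ 2 ≤ (w.length : ℝ) ^ 2 := pow_le_pow_left₀ hl h2' 2
  have h14 : 0 ≤ (w.length : ℝ) * S2 pt c w := mul_nonneg hl' h11
  have e : 2 * ((w.length : ℝ) * ((1 + C * M) * (S2 pt c w + w.length))) =
      (1 + C * M) * TT pt w + 2 * (1 + C * M) * (w.length : ℝ) ^ 2 := by
    rw [h8]
    ring
  have h15 : 0 ≤ TT pt w := TT_nonneg pt w
  have h16 : 0 ≤ (w.length : ℝ) ^ 2 := sq_nonneg _
  nlinarith [mul_nonneg hCM h15, mul_nonneg hCM h16]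

/-! ### the distances from both ends -/

/-- the last vertex -/
def en (X : Geo Ver) (w : List Ver) : Ver := w.getLast?.getD X.o

/-- the sum of the squared distances from the two ends -/
def MM (X : Geo Ver) (pt : Ver → ℂ) (w : List Ver) : ℝ :=
  S2 pt (pt X.o) w + S2 pt (pt (en X w)) w

theorem en_inv (W : Win Z Y) : ∀ n, ∀ w ∈ Y.K n, ∀ q ∈ Y.S w, en X (Y.ins w q) = en X w := by
  intro n w hw q hq
  rw [W.S] at hq
  have h1 := last_rep (A := A) (o := X.o) (U := q.1) (U' := q.2) (w := w)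
    (Z.pair _ _ hq.1) ((W.K n w).1 hw).2 hq.2
  rw [W.ins]
  unfold en
  rw [h1]

theorem en_fl (W : Win Z Y) (hfl : Fill Y L st fl) {w : List Ver} (hw : Em Y L w) :
    ∀ U ⊆ Sl Y L w, en X (fl w U) = en X w :=
  fl_invG hfl (en_inv W) hw

theorem en_st (W : Win Z Y) (hfl : Fill Y L st fl) {n : ℕ} {w : List Ver} (hw : w ∈ Y.K n) :
    en X (st w) = en X w := by
  have hw' : w ∈ Y.K (Y.len w) := by rwa [Y.len_K n w hw]
  have hem := hfl.st_em w hw'
  have hsub : Oc Y L w ⊆ Sl Y L (st w) := by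
    rw [hfl.st_sl w hw']
    exact Oc_sub
  have h := en_fl W hfl hem _ hsub
  rw [hfl.fl_st w hw'] at h
  exact h.symm

theorem rp_MM (hfsm : S_FSM) (W : Win Z Y) {C M : ℝ} (K : Cst X A Z pt C M)
    (hfl : Fill Y L st fl) {w : List Ver} (hw : Em Y L w) :
    Rp (Sl Y L w) (fun U => MM X pt (fl w U))
      (2 * (1 + 4 * (C * M)) * (MM X pt w + w.length)) := by
  have h1 := (rp_S2 hfsm W K hfl (pt X.o) hw).add (rp_S2 hfsm W K hfl (pt (en X w)) hw)
  refine (h1.mono ?_).congr (fun U hU => ?_)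
  · have hCM : 0 ≤ C * M := mul_nonneg K.C0 K.M0
    have h2 := S2_nonneg pt (pt X.o) w
    have h3 := S2_nonneg pt (pt (en X w)) w
    have hl : (0 : ℝ) ≤ w.length := Nat.cast_nonneg _
    unfold MM
    nlinarith [mul_nonneg hCM h2, mul_nonneg hCM h3, mul_nonneg hCM hl]
  · unfold MM
    rw [en_fl W hfl hw U hU]

theorem MM_nonneg (X : Geo Ver) (pt : Ver → ℂ) (w : List Ver) : 0 ≤ MM X pt w :=
  add_nonneg (S2_nonneg _ _ _) (S2_nonneg _ _ _)

theorem MM_st (hfsm : S_FSM) (W : Win Z Y) {C M : ℝ} (K : Cst X A Z pt C M)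
    (hfl : Fill Y L st fl) {n : ℕ} {w : List Ver} (hw : w ∈ Y.K n) :
    MM X pt (st w) + ((st w).length : ℝ) ≤ (3 + 2 * (C * M)) * (MM X pt w + w.length) := by
  obtain ⟨h1, h2⟩ := S2_st hfsm W K hfl (pt X.o) hw
  obtain ⟨h3, -⟩ := S2_st hfsm W K hfl (pt (en X w)) hw
  have h2' : ((st w).length : ℝ) ≤ w.length := by exact_mod_cast h2
  have hCM : 0 ≤ C * M := mul_nonneg K.C0 K.M0
  have h4 := S2_nonneg pt (pt X.o) w
  have h5 := S2_nonneg pt (pt (en X w)) w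
  have hl : (0 : ℝ) ≤ w.length := Nat.cast_nonneg _
  unfold MM
  rw [en_st W hfl hw]
  nlinarith [mul_nonneg hCM h4, mul_nonneg hCM h5, mul_nonneg hCM hl]

end

end Pool.Agent.N929.EG
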