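import Pool.Agent.N929.EG.Size

/-!
# The moments of the sizes of walks
-/

set_option autoImplicit false
set_option linter.unusedVariables false

namespace Pool.Agent.N929.EG

open Finset Filter Topology
open scoped Classical

noncomputable section

/-- moments of functionals -/
theorem fun_mom {α σ : Type} (Y : TS α σ) {μ : ℝ} {φ : ℕ → ℝ} (G : Gr Y μ φ)
    (hc : ∃ K' : ℝ, 0 ≤ K' ∧ ∀ n : ℕ, 2 ≤ n →
      μ ^ n ≤ Real.exp (K' * φ n) * ((Y.K n).card : ℝ))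
    (f : α → ℝ) (c₀ C₁ : ℝ) (p : ℕ) (hc₀ : 0 < c₀) (hC₁ : 0 ≤ C₁) (nn : ∀ w, 0 ≤ f w)
    (lo : ∀ n, 1 ≤ n → ∀ w ∈ Y.K n, c₀ ≤ f w)
    (up : ∀ n, 1 ≤ n → ∀ w ∈ Y.K n, f w ≤ C₁ * ((n : ℝ) + 1) ^ p)
    (hrep : ∀ L : Finset σ, Fam Y L → ∀ st fl, Fill Y L st fl →
      ∃ M : α → ℝ, (∀ w, 0 ≤ M w) ∧
        (∀ w, Em Y L w → Rp (Sl Y L w) (fun U => f (fl w U)) (M w)) ∧
        ∀ n, 1 ≤ n → ∀ w ∈ Y.K n, M (st w) ≤ C₁ * f w) (k : ℕ) :
    (∀ n, 2 ≤ n → 0 < ∑ w ∈ Y.K n, f w ^ k) ∧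
    ∀ r : ℕ, 1 ≤ r → ∃ C : ℝ, 0 < C ∧ ∀ n : ℕ, 2 ≤ n →
      |∑ i ∈ range (r + 1), (-1 : ℝ) ^ i * (r.choose i : ℝ) *
        Real.log ((∑ w ∈ Y.K (n + Y.s * i), f w ^ k) / ((Y.K (n + Y.s * i)).card : ℝ))| ≤
        C * Real.sqrt (φ n / n) ^ r := by
  have hcp : ∀ n, 2 ≤ n → 0 < ((Y.K n).card : ℝ) := fun n hn => card_posT Y G hc hn
  have hμ0 : 0 < μ := by linarith [G.one]
  have hpos : ∀ n, 2 ≤ n → 0 < ∑ w ∈ Y.K n, f w ^ k := by
    intro n hn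
    refine sum_pos (fun w hw => ?_) (card_pos.1 (by exact_mod_cast hcp n hn))
    exact pow_pos (lt_of_lt_of_le hc₀ (lo n (by omega) w hw)) k
  refine ⟨hpos, fun r hr => ?_⟩
  obtain ⟨C1, hC1, g1⟩ := cntT Y G hc r hr
  obtain ⟨K', hK', hc'⟩ := hc
  obtain ⟨S0, hS0⟩ : ∃ S0 : ℝ, S0 = ∑ w ∈ Y.K 0, f w ^ k := ⟨_, rfl⟩
  have hS00 : 0 ≤ S0 := by
    rw [hS0]
    exact sum_nonneg (fun w _ => pow_nonneg (nn w) k)
  obtain ⟨C2, hC2, g2⟩ := genF Y G (fun n => 2 ≤ n) (fun w => f w ^ k) (C₁ ^ k + S0) (p * k)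
    (by positivity) (fun n hn => hn) (fun n hn => by omega)
    (fun n w hw => by
      refine ⟨pow_nonneg (nn w) k, ?_⟩
      have hn0 : (0 : ℝ) ≤ n := Nat.cast_nonneg n
      have h1 : (1 : ℝ) ≤ ((n : ℝ) + 1) ^ (p * k) := one_le_pow₀ (by linarith)
      rcases Nat.eq_zero_or_pos n with rfl | hn
      · have h2 : f w ^ k ≤ S0 := by
          rw [hS0]
          exact single_le_sum (f := fun w => f w ^ k) (fun w _ => pow_nonneg (nn w) k) hw
        have h3 : 0 ≤ C₁ ^ k := pow_nonneg hC₁ k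
        nlinarith
      · have h2 := pow_le_pow_left₀ (nn w) (up n hn w hw) k
        rw [mul_pow, ← pow_mul] at h2
        have h3 : 0 ≤ ((n : ℝ) + 1) ^ (p * k) := by positivity
        nlinarith)
    (fun L hL st fl hfl => by
      obtain ⟨M, hM0, hM1, hM2⟩ := hrep L hL st fl hfl
      refine ⟨fun w => M w ^ k, fun w => pow_nonneg (hM0 w) k, fun w hw => (hM1 w hw).pow k,
        fun n hn => ?_⟩
      rw [mul_sum]
      refine sum_le_sum (fun w hw => ?_)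
      have h2 := pow_le_pow_left₀ (hM0 _) (hM2 n (by omega) w hw) k
      rw [mul_pow] at h2
      have h3 : 0 ≤ f w ^ k := pow_nonneg (nn w) k
      nlinarith)
    ⟨(2 * (1 / c₀ ^ k) + 2 * (0 : ℕ)) + K', by positivity, fun n hn => by
      have h3 := poly_le G.phi hn (C₀ := 1 / c₀ ^ k) (by positivity) 0
      rw [pow_zero, mul_one] at h3
      have h4 : ((Y.K n).card : ℝ) ≤ 1 / c₀ ^ k * ∑ w ∈ Y.K n, f w ^ k := by
        rw [mul_sum, show ((Y.K n).card : ℝ) = ∑ w ∈ Y.K n, (1 : ℝ) by simp]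
        refine sum_le_sum (fun w hw => ?_)
        have h5 := pow_le_pow_left₀ hc₀.le (lo n (by omega) w hw) k
        rw [one_div, inv_mul_eq_div, le_div_iff₀ (by positivity), one_mul]
        exact h5
      have h5 := hpos n hn
      calc μ ^ n ≤ Real.exp (K' * φ n) * ((Y.K n).card : ℝ) := hc' n hn
        _ ≤ Real.exp (K' * φ n) * (1 / c₀ ^ k * ∑ w ∈ Y.K n, f w ^ k) := by gcongr
        _ ≤ Real.exp (K' * φ n) * (Real.exp ((2 * (1 / c₀ ^ k) + 2 * (0 : ℕ)) * φ n) *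
            ∑ w ∈ Y.K n, f w ^ k) := by gcongr
        _ = _ := by
            rw [← mul_assoc, ← Real.exp_add]
            ring_nf⟩ r hr
  refine ⟨C2 + C1, by positivity, fun n hn => ?_⟩
  have e : ∑ i ∈ range (r + 1), (-1 : ℝ) ^ i * (r.choose i : ℝ) *
        Real.log ((∑ w ∈ Y.K (n + Y.s * i), f w ^ k) / ((Y.K (n + Y.s * i)).card : ℝ)) =
      (∑ i ∈ range (r + 1), (-1 : ℝ) ^ i * (r.choose i : ℝ) *
        Real.log ((∑ w ∈ Y.K (n + Y.s * i), f w ^ k) / μ ^ (n + Y.s * i))) -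
      (∑ i ∈ range (r + 1), (-1 : ℝ) ^ i * (r.choose i : ℝ) *
        Real.log (((Y.K (n + Y.s * i)).card : ℝ) / μ ^ (n + Y.s * i))) := by
    rw [← sum_sub_distrib]
    refine sum_congr rfl (fun i _ => ?_)
    have h3 := hpos (n + Y.s * i) (by omega)
    have h4 := hcp (n + Y.s * i) (by omega)
    have h5 : 0 < μ ^ (n + Y.s * i) := by positivity
    rw [Real.log_div h3.ne' h4.ne', Real.log_div h3.ne' h5.ne', Real.log_div h4.ne' h5.ne']
    ring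
  rw [e, add_mul]
  exact (abs_sub _ _).trans (add_le_add (g2 n hn) (g1 n hn))

/-- differences of a constant -/
theorem diff_const {r : ℕ} (hr : 1 ≤ r) (c : ℝ) :
    ∑ i ∈ range (r + 1), (-1 : ℝ) ^ i * (r.choose i : ℝ) * c = 0 := by
  rw [← sum_mul]
  have h := (add_pow (-1 : ℝ) 1 r).symm
  simp only [one_pow, mul_one] at h
  rw [h, neg_add_cancel, zero_pow (by omega), zero_mul]

/-- division by a power of the number of vertices -/
theorem mean_norm {α σ : Type} (Y : TS α σ) {μ : ℝ} {φ : ℕ → ℝ} (G : Gr Y μ φ) (hlgn : S_LGN)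
    (T : ℕ → ℝ) (hT : ∀ n, 2 ≤ n → 0 < T n) (a : ℝ) (ha : 0 < a) (m r : ℕ) (hr : 1 ≤ r)
    (h : ∃ C : ℝ, 0 < C ∧ ∀ n : ℕ, 2 ≤ n →
      |∑ i ∈ range (r + 1), (-1 : ℝ) ^ i * (r.choose i : ℝ) * Real.log (T (n + Y.s * i))| ≤
        C * Real.sqrt (φ n / n) ^ r) :
    ∃ C : ℝ, 0 < C ∧ ∀ n : ℕ, 2 ≤ n →
      |∑ i ∈ range (r + 1), (-1 : ℝ) ^ i * (r.choose i : ℝ) *
        Real.log (T (n + Y.s * i) / (a * (((n + Y.s * i : ℕ) : ℝ) + 1) ^ m))| ≤
        C * Real.sqrt (φ n / n) ^ r := by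
  obtain ⟨C, hC, h⟩ := h
  obtain ⟨C', hC', h'⟩ := hlgn Y.s r hr
  refine ⟨C + m * (C' * 2 ^ r), by positivity, fun n hn => ?_⟩
  have hn0 : (0 : ℝ) < n := by
    have : 0 < n := by omega
    exact_mod_cast this
  have e : ∑ i ∈ range (r + 1), (-1 : ℝ) ^ i * (r.choose i : ℝ) *
        Real.log (T (n + Y.s * i) / (a * (((n + Y.s * i : ℕ) : ℝ) + 1) ^ m)) =
      ∑ i ∈ range (r + 1), (-1 : ℝ) ^ i * (r.choose i : ℝ) * Real.log (T (n + Y.s * i)) -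
      m * ∑ i ∈ range (r + 1), (-1 : ℝ) ^ i * (r.choose i : ℝ) *
        Real.log (((n + Y.s * i : ℕ) : ℝ) + 1) := by
    have e1 := diff_const hr (Real.log a)
    have e2 : ∑ i ∈ range (r + 1), (-1 : ℝ) ^ i * (r.choose i : ℝ) *
        Real.log (T (n + Y.s * i) / (a * (((n + Y.s * i : ℕ) : ℝ) + 1) ^ m)) =
      ∑ i ∈ range (r + 1), ((-1 : ℝ) ^ i * (r.choose i : ℝ) * Real.log (T (n + Y.s * i)) -
      m * ((-1 : ℝ) ^ i * (r.choose i : ℝ) * Real.log (((n + Y.s * i : ℕ) : ℝ) + 1)) -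
      (-1 : ℝ) ^ i * (r.choose i : ℝ) * Real.log a) := by
      refine sum_congr rfl (fun i _ => ?_)
      have h1 := hT (n + Y.s * i) (by omega)
      have h2 : (0 : ℝ) < ((n + Y.s * i : ℕ) : ℝ) + 1 := by positivity
      rw [Real.log_div h1.ne' (by positivity), Real.log_mul ha.ne' (by positivity), Real.log_pow]
      ring
    rw [e2, sum_sub_distrib, sum_sub_distrib, e1, sub_zero, mul_sum]
  rw [e]
  have h1 := h n hn
  have h2 := h' n hn
  have h3 : 1 / Real.sqrt n ≤ 2 * Real.sqrt (φ n / n) := by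
    have h4 := phi_pos G.phi hn
    have h5 : Real.sqrt (1 / n) ≤ 2 * Real.sqrt (φ n / n) := by
      have h6 : Real.sqrt (1 / n) ≤ Real.sqrt (4 * (φ n / n)) := by
        apply Real.sqrt_le_sqrt
        rw [← mul_div_assoc]
        apply div_le_div_of_nonneg_right _ hn0.le
        linarith
      rw [Real.sqrt_mul (by norm_num)] at h6
      have h7 : Real.sqrt 4 = 2 := by
        rw [show (4 : ℝ) = 2 ^ 2 by norm_num]
        exact Real.sqrt_sq (by norm_num)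
      rwa [h7] at h6
    rwa [Real.sqrt_div' _ hn0.le, Real.sqrt_one] at h5
  have h4 : (1 / Real.sqrt n) ^ r ≤ 2 ^ r * Real.sqrt (φ n / n) ^ r := by
    rw [← mul_pow]
    exact pow_le_pow_left₀ (by positivity) h3 r
  refine (abs_sub _ _).trans ?_
  rw [abs_mul (m : ℝ), abs_of_nonneg (Nat.cast_nonneg (α := ℝ) m), add_mul]
  refine add_le_add h1 ?_
  calc (m : ℝ) * |∑ i ∈ range (r + 1), (-1 : ℝ) ^ i * (r.choose i : ℝ) *
        Real.log (((n + Y.s * i : ℕ) : ℝ) + 1)|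
      ≤ m * (C' * (2 ^ r * Real.sqrt (φ n / n) ^ r)) := by
        refine mul_le_mul_of_nonneg_left (h2.trans ?_) (Nat.cast_nonneg m)
        exact mul_le_mul_of_nonneg_left h4 hC'.le
    _ = _ := by ring

variable {Ver : Type} {X : Geo Ver} {A : Ver → Ver → Prop} {Z : Rul X A}
  {Y : TS (List Ver) (List Ver × List Ver)} {pt : Ver → ℂ} {R δ : ℝ}

theorem sm_le {f : Ver → ℝ} {B : ℝ} {w : List Ver} (h : ∀ x ∈ w, f x ≤ B) :
    sm f w ≤ w.length * B := by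
  unfold sm
  induction w with
  | nil => simp
  | cons x w ih =>
    rw [List.map_cons, List.sum_cons, List.length_cons]
    have h1 := ih (fun y hy => h y (List.mem_cons_of_mem _ hy))
    have h2 := h x (List.mem_cons_self)
    push_cast
    linarith

theorem le_sm {f : Ver → ℝ} {B : ℝ} {w : List Ver} (h : ∀ x ∈ w, B ≤ f x) :
    w.length * B ≤ sm f w := by
  unfold sm
  induction w with
  | nil => simp
  | cons x w ih =>
    rw [List.map_cons, List.sum_cons, List.length_cons]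
    have h1 := ih (fun y hy => h y (List.mem_cons_of_mem _ hy))
    have h2 := h x (List.mem_cons_self)
    push_cast
    linarith

theorem TT_bd (httl : S_TTL) (H : Lt X A Z.ρ pt R δ) (W : Win Z Y) {n : ℕ} (hn : 1 ≤ n)
    {w : List Ver} (hw : w ∈ Y.K n) :
    δ ^ 2 / 2 * ((n : ℝ) + 1) ^ 2 ≤ TT pt w ∧ TT pt w ≤ ((n : ℝ) + 1) ^ 4 ∧
      ∀ x ∈ w, ∀ y ∈ w, ‖pt x - pt y‖ ≤ n := by
  obtain ⟨h1, h2⟩ := (W.K n w).1 hw
  exact httl Ver A X.o pt δ H.δ0 H.sep H.adj n w hn h1 h2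

theorem MM_bd (httl : S_TTL) (H : Lt X A Z.ρ pt R δ) (W : Win Z Y) {n : ℕ} (hn : 1 ≤ n)
    {w : List Ver} (hw : w ∈ Y.K n) :
    δ ^ 2 / 2 * ((n : ℝ) + 1) ≤ MM X pt w ∧ MM X pt w ≤ 2 * ((n : ℝ) + 1) ^ 3 := by
  obtain ⟨-, -, h3⟩ := TT_bd httl H W hn hw
  obtain ⟨h1, h2⟩ := (W.K n w).1 hw
  obtain ⟨t, ht⟩ : ∃ t, w = X.o :: t := by
    obtain ⟨h4, -⟩ := h2
    cases w with
    | nil => simp at h4
    | cons x t =>
      rw [List.head?_cons, Option.some.injEq] at h4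
      exact ⟨t, by rw [h4]⟩
  have hn' : (1 : ℝ) ≤ n := by exact_mod_cast hn
  have hδ := H.δ0
  have ho : X.o ∈ w := by rw [ht]; exact List.mem_cons_self
  have he : en X w ∈ w := by
    unfold en
    have hne : w ≠ [] := by rw [ht]; exact List.cons_ne_nil _ _
    rw [List.getLast?_eq_getLast_of_ne_nil hne]
    exact List.getLast_mem hne
  constructor
  · have h4 : (t.length : ℝ) * δ ^ 2 ≤ sm (fun x => ‖pt x - pt X.o‖ ^ 2) t := by
      refine le_sm (fun x hx => ?_)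
      have h5 : x ≠ X.o := by
        rintro rfl
        have := h2.2.1
        rw [ht] at this
        exact (List.nodup_cons.1 this).1 hx
      exact pow_le_pow_left₀ hδ.le (H.sep x X.o h5) 2
    have h5 : t.length = n := by
      rw [ht, List.length_cons] at h1
      omega
    have h6 : S2 pt (pt X.o) w = sm (fun x => ‖pt x - pt X.o‖ ^ 2) t := by
      unfold S2 sm
      rw [ht, List.map_cons, List.sum_cons, sub_self, norm_zero]
      simp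
    have h7 := S2_nonneg pt (pt (en X w)) w
    rw [h5] at h4
    unfold MM
    rw [h6]
    nlinarith [sq_nonneg δ]
  · have hB : ∀ c ∈ w, S2 pt (pt c) w ≤ ((n : ℝ) + 1) ^ 3 := by
      intro c hc
      have h4 : S2 pt (pt c) w ≤ w.length * (n : ℝ) ^ 2 :=
        sm_le (fun x hx => pow_le_pow_left₀ (norm_nonneg _) (h3 x hx c hc) 2)
      rw [h1] at h4
      push_cast at h4
      have h5 : (n : ℝ) ^ 2 ≤ ((n : ℝ) + 1) ^ 2 := by nlinarith
      nlinarith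
    unfold MM
    linarith [hB _ ho, hB _ he]

/-- the library of facts -/
structure Lib : Prop where
  fsm : S_FSM
  mul : S_MUL
  nea : S_NEA
  tti : S_TTI
  ttl : S_TTL
  lgn : S_LGN

/-- **The radius of gyration** -/
theorem gyr (B : Lib) (W : Win Z Y) (H : Lt X A Z.ρ pt R δ) {μ : ℝ} {φ : ℕ → ℝ} (G : Gr Y μ φ)
    (hc : ∃ K' : ℝ, 0 ≤ K' ∧ ∀ n : ℕ, 2 ≤ n →
      μ ^ n ≤ Real.exp (K' * φ n) * ((Y.K n).card : ℝ)) (k : ℕ) :
    (∀ n, 2 ≤ n → 0 < ∑ w ∈ Y.K n, TT pt w ^ k) ∧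
    ∀ r : ℕ, 1 ≤ r → ∃ C : ℝ, 0 < C ∧ ∀ n : ℕ, 2 ≤ n →
      |∑ i ∈ range (r + 1), (-1 : ℝ) ^ i * (r.choose i : ℝ) *
        Real.log ((∑ w ∈ Y.K (n + Y.s * i), TT pt w ^ k) / ((Y.K (n + Y.s * i)).card : ℝ))| ≤
        C * Real.sqrt (φ n / n) ^ r := by
  obtain ⟨C, M, K⟩ := cst B.mul B.nea H
  obtain ⟨C₁, hC₁, h1⟩ := rp_TT B.fsm B.tti W K
  have hδ := H.δ0
  have hCM : 0 ≤ C * M := mul_nonneg K.C0 K.M0
  obtain ⟨D, hD⟩ : ∃ D : ℝ, D = C₁ * ((3 + 2 * (C * M)) * (1 + 2 / δ ^ 2)) := ⟨_, rfl⟩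
  have hD0 : 0 ≤ D := by rw [hD]; positivity
  refine fun_mom Y G hc (TT pt) (δ ^ 2 / 2) (D + 1) 4 (by positivity) (by linarith)
    (TT_nonneg pt) (fun n hn w hw => ?_) (fun n hn w hw => ?_) (fun L hL st fl hfl => ?_) k
  · obtain ⟨h2, -⟩ := TT_bd B.ttl H W hn hw
    have h3 : (1 : ℝ) ≤ ((n : ℝ) + 1) ^ 2 := one_le_pow₀ (by
      have := Nat.cast_nonneg (α := ℝ) n
      linarith)
    have h4 : 0 ≤ δ ^ 2 / 2 := by positivity
    nlinarith
  · obtain ⟨-, h2, -⟩ := TT_bd B.ttl H W hn hw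
    have h3 : (0 : ℝ) ≤ ((n : ℝ) + 1) ^ 4 := by positivity
    nlinarith
  · refine ⟨fun w => C₁ * (TT pt w + (w.length : ℝ) ^ 2),
      fun w => mul_nonneg hC₁ (add_nonneg (TT_nonneg pt w) (sq_nonneg _)),
      fun w hw => h1 L st fl hfl w hw, fun n hn w hw => ?_⟩
    have h2 := TT_st B.fsm B.tti W K hfl hw
    obtain ⟨h3, -⟩ := TT_bd B.ttl H W hn hw
    have h4 := ((W.K n w).1 hw).1
    have h5 : (w.length : ℝ) ^ 2 ≤ 2 / δ ^ 2 * TT pt w := by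
      rw [h4]
      push_cast
      rw [div_mul_eq_mul_div, le_div_iff₀ (by positivity)]
      nlinarith
    have h6 := TT_nonneg pt w
    calc C₁ * (TT pt (st w) + ((st w).length : ℝ) ^ 2)
        ≤ C₁ * ((3 + 2 * (C * M)) * (TT pt w + (w.length : ℝ) ^ 2)) :=
          mul_le_mul_of_nonneg_left h2 hC₁
      _ ≤ C₁ * ((3 + 2 * (C * M)) * (TT pt w + 2 / δ ^ 2 * TT pt w)) := by
          refine mul_le_mul_of_nonneg_left ?_ hC₁
          exact mul_le_mul_of_nonneg_left (by linarith) (by positivity)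
      _ = D * TT pt w := by rw [hD]; ring
      _ ≤ _ := mul_le_mul_of_nonneg_right (by linarith) h6

/-- **The monomer-endpoint distance** -/
theorem mon (B : Lib) (W : Win Z Y) (H : Lt X A Z.ρ pt R δ) {μ : ℝ} {φ : ℕ → ℝ} (G : Gr Y μ φ)
    (hc : ∃ K' : ℝ, 0 ≤ K' ∧ ∀ n : ℕ, 2 ≤ n →
      μ ^ n ≤ Real.exp (K' * φ n) * ((Y.K n).card : ℝ)) (k : ℕ) :
    (∀ n, 2 ≤ n → 0 < ∑ w ∈ Y.K n, MM X pt w ^ k) ∧
    ∀ r : ℕ, 1 ≤ r → ∃ C : ℝ, 0 < C ∧ ∀ n : ℕ, 2 ≤ n →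
      |∑ i ∈ range (r + 1), (-1 : ℝ) ^ i * (r.choose i : ℝ) *
        Real.log ((∑ w ∈ Y.K (n + Y.s * i), MM X pt w ^ k) / ((Y.K (n + Y.s * i)).card : ℝ))| ≤
        C * Real.sqrt (φ n / n) ^ r := by
  obtain ⟨C, M, K⟩ := cst B.mul B.nea H
  have hδ := H.δ0
  have hCM : 0 ≤ C * M := mul_nonneg K.C0 K.M0
  obtain ⟨D, hD⟩ : ∃ D : ℝ, D = (2 * (1 + 4 * (C * M))) *
      ((3 + 2 * (C * M)) * (1 + 2 / δ ^ 2)) := ⟨_, rfl⟩
  have hD0 : 0 ≤ D := by rw [hD]; positivity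
  refine fun_mom Y G hc (MM X pt) (δ ^ 2 / 2) (D + 2) 3 (by positivity) (by linarith)
    (MM_nonneg X pt) (fun n hn w hw => ?_) (fun n hn w hw => ?_) (fun L hL st fl hfl => ?_) k
  · obtain ⟨h2, -⟩ := MM_bd B.ttl H W hn hw
    have h3 := Nat.cast_nonneg (α := ℝ) n
    have h4 : 0 ≤ δ ^ 2 / 2 := by positivity
    nlinarith
  · obtain ⟨-, h2⟩ := MM_bd B.ttl H W hn hw
    have h3 : (0 : ℝ) ≤ ((n : ℝ) + 1) ^ 3 := by positivity
    nlinarith
  · refine ⟨fun w => 2 * (1 + 4 * (C * M)) * (MM X pt w + w.length),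
      fun w => mul_nonneg (by positivity) (add_nonneg (MM_nonneg X pt w) (Nat.cast_nonneg _)),
      fun w hw => rp_MM B.fsm W K hfl hw, fun n hn w hw => ?_⟩
    have h2 := MM_st (pt := pt) B.fsm W K hfl hw
    obtain ⟨h3, -⟩ := MM_bd B.ttl H W hn hw
    have h4 := ((W.K n w).1 hw).1
    have h5 : (w.length : ℝ) ≤ 2 / δ ^ 2 * MM X pt w := by
      rw [h4]
      push_cast
      rw [div_mul_eq_mul_div, le_div_iff₀ (by positivity)]
      nlinarith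
    have h6 := MM_nonneg X pt w
    calc 2 * (1 + 4 * (C * M)) * (MM X pt (st w) + ((st w).length : ℝ))
        ≤ 2 * (1 + 4 * (C * M)) * ((3 + 2 * (C * M)) * (MM X pt w + (w.length : ℝ))) :=
          mul_le_mul_of_nonneg_left h2 (by positivity)
      _ ≤ 2 * (1 + 4 * (C * M)) * ((3 + 2 * (C * M)) * (MM X pt w + 2 / δ ^ 2 * MM X pt w)) := by
          refine mul_le_mul_of_nonneg_left ?_ (by positivity)
          exact mul_le_mul_of_nonneg_left (by linarith) (by positivity)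
      _ = D * MM X pt w := by rw [hD]; ring
      _ ≤ _ := mul_le_mul_of_nonneg_right (by linarith) h6

end

end Pool.Agent.N929.EG
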