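import Mathlib

/-!
# Regularity to all orders for systems of local moves (project EG): statements
-/

set_option autoImplicit false
set_option linter.unusedVariables false

namespace Pool.Agent.N929.EG

open Finset Filter Topology
open scoped Classical

noncomputable section

/-- classes `K n` of objects of size `n` with upward moves `S w` (from `K n` to `K (n + s)`) and
downward moves `B w`, inverse to each other; moves at places which are not in conflict (`cf`) do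
not influence each other; a place is in conflict with at most `d` others -/
structure TS (α σ : Type) where
  K : ℕ → Finset α
  len : α → ℕ
  S : α → Finset σ
  B : α → Finset σ
  ins : α → σ → α
  rem : α → σ → α
  s : ℕ
  cf : σ → σ → Prop
  d : ℕ
  U : ℕ → Finset σ
  hs : 1 ≤ s
  len_K : ∀ n w, w ∈ K n → len w = n
  ins_K : ∀ n w q, w ∈ K n → q ∈ S w → ins w q ∈ K (n + s)
  ins_B : ∀ n w q, w ∈ K n → q ∈ S w → q ∈ B (ins w q)
  rem_ins : ∀ n w q, w ∈ K n → q ∈ S w → rem (ins w q) q = w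
  rem_le : ∀ n w q, w ∈ K n → q ∈ B w → s ≤ n
  rem_K : ∀ n w q, w ∈ K n → q ∈ B w → rem w q ∈ K (n - s)
  rem_S : ∀ n w q, w ∈ K n → q ∈ B w → q ∈ S (rem w q)
  ins_rem : ∀ n w q, w ∈ K n → q ∈ B w → ins (rem w q) q = w
  disj : ∀ n w q, w ∈ K n → q ∈ S w → q ∉ B w
  cf_symm : ∀ q q', cf q q' → cf q' q
  ins_S : ∀ n w q q', w ∈ K n → q ∈ S w → ¬ cf q q' → (q' ∈ S (ins w q) ↔ q' ∈ S w)
  ins_BB : ∀ n w q q', w ∈ K n → q ∈ S w → ¬ cf q q' → (q' ∈ B (ins w q) ↔ q' ∈ B w)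
  ins_comm : ∀ n w q q', w ∈ K n → q ∈ S w → q' ∈ S w → ¬ cf q q' →
    ins (ins w q) q' = ins (ins w q') q
  S_U : ∀ n N w, w ∈ K n → n ≤ N → S w ⊆ U N ∧ B w ⊆ U N
  deg : ∀ N q, q ∈ U N → ((U N).filter (fun q' => cf q q')).card ≤ d

variable {α σ : Type}

/-- a family of places without conflicts -/
def Fam (Y : TS α σ) (L : Finset σ) : Prop := ∀ q ∈ L, ∀ q' ∈ L, q ≠ q' → ¬ Y.cf q q'

/-- the slots in `L`: places where a move is possible -/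
def Sl (Y : TS α σ) (L : Finset σ) (w : α) : Finset σ := L.filter (fun q => q ∈ Y.S w ∨ q ∈ Y.B w)

/-- the occupied slots in `L` -/
def Oc (Y : TS α σ) (L : Finset σ) (w : α) : Finset σ := L.filter (fun q => q ∈ Y.B w)

/-- objects without occupied slots in `L` -/
def Em (Y : TS α σ) (L : Finset σ) (w : α) : Prop := w ∈ Y.K (Y.len w) ∧ Oc Y L w = ∅

/-- `fl w U` is obtained from `w` (without occupied slots) by occupying the slots in `U`; `st`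
frees all the slots -/
structure Fill (Y : TS α σ) (L : Finset σ) (st : α → α) (fl : α → Finset σ → α) : Prop where
  st_em : ∀ w, w ∈ Y.K (Y.len w) → Em Y L (st w)
  st_len : ∀ w, w ∈ Y.K (Y.len w) → Y.len (st w) + Y.s * (Oc Y L w).card = Y.len w
  st_sl : ∀ w, w ∈ Y.K (Y.len w) → Sl Y L (st w) = Sl Y L w
  fl_st : ∀ w, w ∈ Y.K (Y.len w) → fl (st w) (Oc Y L w) = w
  fl_K : ∀ w U, Em Y L w → U ⊆ Sl Y L w → fl w U ∈ Y.K (Y.len w + Y.s * U.card)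
  fl_sl : ∀ w U, Em Y L w → U ⊆ Sl Y L w → Sl Y L (fl w U) = Sl Y L w
  fl_oc : ∀ w U, Em Y L w → U ⊆ Sl Y L w → Oc Y L (fl w U) = U
  st_fl : ∀ w U, Em Y L w → U ⊆ Sl Y L w → st (fl w U) = w
  fl_empty : ∀ w, Em Y L w → fl w ∅ = w
  fl_insert : ∀ w U q, Em Y L w → U ⊆ Sl Y L w → q ∈ Sl Y L w → q ∉ U →
    q ∈ Y.S (fl w U) ∧ fl w (insert q U) = Y.ins (fl w U) q

/-- BIJ: the objects are the pairs of an object without occupied slots and a set of slots -/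
def S_BIJ : Prop :=
  ∀ (α σ : Type) (Y : TS α σ) (L : Finset σ), Fam Y L → ∃ (st : α → α) (fl : α → Finset σ → α),
    Fill Y L st fl

/-- MV: occupying or freeing `t` slots -/
def S_MV : Prop :=
  ∀ (α σ : Type) (Y : TS α σ) (L : Finset σ) (st : α → α) (fl : α → Finset σ → α),
    Fill Y L st fl → ∀ (Q : ℕ → ℕ → Prop) (M : ℝ) (N t : ℕ), 0 ≤ M →
    ((∀ S i, Q S i → i ≤ S → (S.choose i : ℝ) ≤ M * (S.choose (i + t) : ℝ)) →
      (((Y.K N).filter (fun w => Q (Sl Y L w).card (Oc Y L w).card)).card : ℝ) ≤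
        M * ((Y.K (N + Y.s * t)).card : ℝ)) ∧
    ((∀ S i, Q S i → i ≤ S → t ≤ i ∧ (S.choose i : ℝ) ≤ M * (S.choose (i - t) : ℝ)) →
      (((Y.K N).filter (fun w => Q (Sl Y L w).card (Oc Y L w).card)).card : ℝ) ≤
        M * ((Y.K (N - Y.s * t)).card : ℝ))

/-- SEL: a finite set of families without conflicts such that every set of places is hit well by
all but an exponentially small proportion of them -/
def S_SEL : Prop :=
  ∀ d : ℕ, ∃ κ : ℕ, 1 ≤ κ ∧ ∀ (σ : Type) (U : Finset σ) (cf : σ → σ → Prop),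
    (∀ q q', cf q q' → cf q' q) → (∀ q ∈ U, (U.filter (fun q' => cf q q')).card ≤ d) →
    ∃ (ι : Type) (_ : Fintype ι) (_ : Nonempty ι) (Λ : ι → Finset σ),
      (∀ i, Λ i ⊆ U ∧ ∀ q ∈ Λ i, ∀ q' ∈ Λ i, q ≠ q' → ¬ cf q q') ∧
      ∀ P ⊆ U, ((univ.filter (fun i => κ * (Λ i ∩ P).card < P.card)).card : ℝ) ≤
        Real.exp (-((P.card : ℝ) / κ)) * Fintype.card ι

/-- the objects with few moves -/
def bad (Y : TS α σ) (M n : ℕ) : Finset α :=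
  (Y.K n).filter (fun w => M * (Y.S w).card ≤ n ∨ M * (Y.B w).card ≤ n)

/-- the pattern theorem -/
def Pat (Y : TS α σ) (μ : ℝ) : Prop :=
  ∃ (M : ℕ) (θ C' : ℝ), 1 ≤ M ∧ 0 < θ ∧ θ < 1 ∧ 0 ≤ C' ∧ ∀ n : ℕ,
    ((bad Y M n).card : ℝ) ≤ C' * (θ * μ) ^ n

/-- many free and many occupied slots in `L` -/
def G4 (Y : TS α σ) (L : Finset σ) (M : ℕ) (w : α) : Prop :=
  Y.len w ≤ M * (Oc Y L w).card ∧ Y.len w + M * (Oc Y L w).card ≤ M * (Sl Y L w).card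

/-- FAM: one family which is good for all but exponentially few objects of similar sizes -/
def S_FAM : Prop :=
  ∀ (α σ : Type) (Y : TS α σ) (μ : ℝ), 1 ≤ μ → Pat Y μ →
    ∃ (c C : ℝ) (M : ℕ), 0 < c ∧ 0 < C ∧ 1 ≤ M ∧ ∀ n : ℕ, 1 ≤ n → ∃ L : Finset σ, Fam Y L ∧
      ∀ N : ℕ, n ≤ N → N ≤ 2 * n →
        (((Y.K N).filter (fun w => ¬ G4 Y L M w)).card : ℝ) ≤
          C * Real.exp (-(c * n)) * (μ ^ N + ((Y.K N).card : ℝ))

/-- the rate function -/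
structure Phi (φ : ℕ → ℝ) : Prop where
  log : ∀ n : ℕ, 2 ≤ n → Real.log n ≤ φ n
  dbl : ∃ D : ℝ, 1 ≤ D ∧ ∀ n m : ℕ, 2 ≤ n → n ≤ m → m ≤ 2 * n → φ m ≤ D * φ n
  lim : Tendsto (fun n : ℕ => φ n / n) atTop (𝓝 0)

/-- upper bound for the numbers of objects and pattern theorem -/
structure Gr (Y : TS α σ) (μ : ℝ) (φ : ℕ → ℝ) : Prop where
  one : 1 ≤ μ
  phi : Phi φ
  up : ∀ n m : ℕ, 2 ≤ n → m ≤ 2 * n → ((Y.K m).card : ℝ) ≤ μ ^ m * Real.exp (φ n)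
  pat : Pat Y μ

/-- the function `Φ` of a set `U` of slots is a combination of the indicator functions of
`U ∩ T = ∅` for sets `T` of slots, with sum of the absolute values of the coefficients at most
`M` -/
def Rp (E : Finset σ) (Φ : Finset σ → ℝ) (M : ℝ) : Prop :=
  ∃ v : Finset σ → ℝ, (∑ T ∈ E.powerset, |v T|) ≤ M ∧
    ∀ U ⊆ E, Φ U = ∑ T ∈ E.powerset, if Disjoint T U then v T else 0

/-- AOF: regularity to all orders, for functionals -/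
def S_AOF : Prop :=
  ∀ (α σ : Type) (Y : TS α σ) (μ : ℝ) (φ : ℕ → ℝ), Gr Y μ φ →
    ∀ r : ℕ, ∃ A C : ℝ, 0 < A ∧ 0 < C ∧ ∀ (n : ℕ) (ε : ℝ), 2 ≤ n →
      0 < ε → ε ≤ 1 → A * φ n ≤ ε ^ 2 * n →
      ∃ L : Finset σ, Fam Y L ∧
        ∀ st fl, Fill Y L st fl → ∀ (F M : α → ℝ) (B : ℝ), 0 ≤ B → (∀ w, 0 ≤ M w) →
          (∀ i ∈ range (r + 1), ∀ w ∈ Y.K (n + Y.s * i), |F w| ≤ B) →
          (∀ w, Em Y L w → Rp (Sl Y L w) (fun U => F (fl w U)) (M w)) →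
          |∑ i ∈ range (r + 1), (-1 : ℝ) ^ i * (r.choose i : ℝ) *
            ((∑ w ∈ Y.K (n + Y.s * i), F w) / μ ^ (Y.s * i))| ≤
            C * (ε ^ r * (∑ w ∈ Y.K n, M (st w)) + B * (Real.exp (-(ε ^ 2 * n / A)) * μ ^ n))

/-- FIN: from the differences with error terms to the differences of the logarithms -/
def S_FIN : Prop :=
  ∀ (μ : ℝ) (s : ℕ) (φ : ℕ → ℝ) (P : ℕ → Prop) (T E : ℕ → ℝ), 1 ≤ μ → 1 ≤ s → Phi φ →
    (∀ n, P n → 2 ≤ n) → (∀ n, P n → P (n + s)) → (∀ n, P n → 0 < T n) → (∀ n, 0 ≤ E n) →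
    (∃ K : ℝ, 0 ≤ K ∧ ∀ n, P n → E n ≤ Real.exp (K * φ n) * T n) →
    (∀ r : ℕ, ∃ A C : ℝ, 0 < A ∧ 0 < C ∧ ∀ (n : ℕ) (ε : ℝ), P n → 0 < ε → ε ≤ 1 →
      A * φ n ≤ ε ^ 2 * n →
      |∑ i ∈ range (r + 1), (-1 : ℝ) ^ i * (r.choose i : ℝ) * (T (n + s * i) / μ ^ (s * i))| ≤
        C * (ε ^ r * T n + Real.exp (-(ε ^ 2 * n / A)) * E n)) →
    ∀ r : ℕ, 1 ≤ r → ∃ C : ℝ, 0 < C ∧ ∀ n : ℕ, P n →
      |∑ i ∈ range (r + 1), (-1 : ℝ) ^ i * (r.choose i : ℝ) *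
        Real.log (T (n + s * i) / μ ^ (n + s * i))| ≤ C * Real.sqrt (φ n / n) ^ r

/-- INV: regularity to all orders of the logarithms, for invariant weights -/
def S_INV : Prop :=
  ∀ (α σ : Type) (Y : TS α σ) (μ : ℝ) (φ : ℕ → ℝ), Gr Y μ φ →
    ∀ (P : ℕ → Prop) (F : α → ℝ) (C₀ : ℝ) (p : ℕ), 0 ≤ C₀ →
      (∀ n, P n → 2 ≤ n) → (∀ n, P n → P (n + Y.s)) →
      (∀ n, ∀ w ∈ Y.K n, 0 ≤ F w ∧ F w ≤ C₀ * ((n : ℝ) + 1) ^ p) →
      (∀ n, ∀ w ∈ Y.K n, ∀ q ∈ Y.S w, F (Y.ins w q) = F w) →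
      (∃ K' : ℝ, 0 ≤ K' ∧ ∀ n, P n → μ ^ n ≤ Real.exp (K' * φ n) * ∑ w ∈ Y.K n, F w) →
      ∀ r : ℕ, 1 ≤ r → ∃ C : ℝ, 0 < C ∧ ∀ n : ℕ, P n →
        |∑ i ∈ range (r + 1), (-1 : ℝ) ^ i * (r.choose i : ℝ) *
          Real.log ((∑ w ∈ Y.K (n + Y.s * i), F w) / μ ^ (n + Y.s * i))| ≤
          C * Real.sqrt (φ n / n) ^ r

end

end Pool.Agent.N929.EG
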