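import Pool.Agent.N929.EG.Stm
import Pool.Agent.N929.EZ.Stm2

/-!
# The unbalanced objects are rare (adapted from EZ.Unb)
-/

set_option autoImplicit false
set_option linter.unusedVariables false

namespace Pool.Agent.N929.EG

open Finset
open scoped Classical

noncomputable section

variable {α σ : Type}

/-- the balance condition for `S` slots, `k` of them occupied -/
def Gk (m ε : ℝ) (S k : ℕ) : Prop :=
  k ≤ S ∧ 1 ≤ ε ^ 2 * (k : ℝ) ∧ |((S : ℝ) - k) / ((k : ℝ) + 1) - m| ≤ ε * m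

/-- the balance condition for an object with `i` additional occupied slots -/
def Bal (m ε : ℝ) (i S j : ℕ) : Prop := i ≤ j ∧ Gk m ε S (j - i)

theorem exp_lo {x : ℝ} (h0 : 0 ≤ x) (h1 : x ≤ 1) : Real.exp (x / 2) ≤ 1 + x := by
  have := Real.exp_bound_div_one_sub_of_interval (x := x / 2) (by linarith) (by linarith)
  refine this.trans ?_
  rw [div_le_iff₀ (by linarith)]
  nlinarith

theorem pow1 {ε : ℝ} (h0 : 0 < ε) (h1 : ε ≤ 1) (s : ℕ) :
    1 / (1 + ε / 2) ^ s ≤ Real.exp (-(ε * s / 4)) := by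
  rw [Real.exp_neg, ← one_div]
  apply one_div_le_one_div_of_le (Real.exp_pos _)
  have := exp_lo (x := ε / 2) (by linarith) (by linarith)
  calc Real.exp (ε * s / 4) = Real.exp (ε / 2 / 2) ^ s := by
        rw [← Real.exp_nat_mul]; ring_nf
    _ ≤ (1 + ε / 2) ^ s := pow_le_pow_left₀ (Real.exp_pos _).le this s

theorem pow2 {ε : ℝ} (h0 : 0 < ε) (h1 : ε ≤ 1) (s : ℕ) :
    (1 - ε / 2) ^ s ≤ Real.exp (-(ε * s / 4)) := by
  have : 1 - ε / 2 ≤ Real.exp (-(ε / 2)) := by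
    have := Real.add_one_le_exp (-(ε / 2))
    linarith
  calc (1 - ε / 2) ^ s ≤ Real.exp (-(ε / 2)) ^ s := pow_le_pow_left₀ (by linarith) this s
    _ = Real.exp (-(ε * s / 2)) := by rw [← Real.exp_nat_mul]; ring_nf
    _ ≤ Real.exp (-(ε * s / 4)) := by
        apply Real.exp_le_exp.mpr
        have : 0 ≤ ε * s := by positivity
        linarith

/-- the two conditions -/
def QA (m ε : ℝ) (i : ℕ) (x : ℝ) (S j : ℕ) : Prop :=
  i ≤ j ∧ x ≤ (j : ℝ) - i + 1 ∧ (1 + ε) * m < ((S : ℝ) - ((j : ℝ) - i)) / ((j : ℝ) - i + 1)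

def QB (m ε : ℝ) (i : ℕ) (x : ℝ) (S j : ℕ) : Prop :=
  i ≤ j ∧ x ≤ (j : ℝ) - i + 1 ∧ ((S : ℝ) - ((j : ℝ) - i)) / ((j : ℝ) - i + 1) < (1 - ε) * m

/-- objects with too few occupied slots -/
theorem unbA (hmv : S_MV) (hrat : Pool.Agent.N929.EZ.S_RAT) (Y : TS α σ) {μ : ℝ} {φ : ℕ → ℝ}
    (G : Gr Y μ φ) {n i t : ℕ} {ε : ℝ} (hn : 2 ≤ n)
    (hε : 0 < ε) (hε1 : ε ≤ 1) {L : Finset σ} {st : α → α} {fl : α → Finset σ → α}
    (hL : Fill Y L st fl)
    (hs : n + Y.s * i + Y.s * t ≤ 2 * n) {x : ℝ} (hx : 12 * ((i : ℝ) + t) ≤ ε * x) :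
    (((Y.K (n + Y.s * i)).filter (fun w => QA (μ ^ Y.s) ε i x (Sl Y L w).card
      (Oc Y L w).card)).card : ℝ) ≤
      Real.exp (φ n) * Real.exp (-(ε * t / 4)) * μ ^ (n + Y.s * i) := by
  have hμ := G.one
  have hμ0 : 0 < μ := by linarith
  have hμ2 : 1 ≤ μ ^ Y.s := one_le_pow₀ hμ
  have hM : (0 : ℝ) ≤ 1 / (μ ^ Y.s * (1 + ε / 2)) ^ t := by positivity
  have h1 := (hmv α σ Y L st fl hL (QA (μ ^ Y.s) ε i x) (1 / (μ ^ Y.s * (1 + ε / 2)) ^ t)
    (n + Y.s * i) t hM).1 (fun S j hQ hj => by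
      obtain ⟨q1, q2, q3⟩ := hQ
      have := (hrat (μ ^ Y.s) ε S j i t hμ2 hε hε1 q1 hj
        (hx.trans (mul_le_mul_of_nonneg_left q2 hε.le))).1 q3
      rw [one_div, inv_mul_eq_div, le_div_iff₀ (by positivity)]
      exact this)
  refine h1.trans ?_
  have h2 := G.up n (n + Y.s * i + Y.s * t) hn hs
  calc 1 / (μ ^ Y.s * (1 + ε / 2)) ^ t * ((Y.K (n + Y.s * i + Y.s * t)).card : ℝ)
      ≤ 1 / (μ ^ Y.s * (1 + ε / 2)) ^ t *
        (μ ^ (n + Y.s * i + Y.s * t) * Real.exp (φ n)) := mul_le_mul_of_nonneg_left h2 hM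
    _ = Real.exp (φ n) * (1 / (1 + ε / 2) ^ t) * μ ^ (n + Y.s * i) := by
        rw [mul_pow, pow_add μ (n + Y.s * i), pow_mul μ Y.s t]
        field_simp
    _ ≤ Real.exp (φ n) * Real.exp (-(ε * t / 4)) * μ ^ (n + Y.s * i) := by
        have := pow1 hε hε1 t
        gcongr

/-- objects with too many occupied slots -/
theorem unbB (hmv : S_MV) (hrat : Pool.Agent.N929.EZ.S_RAT) (Y : TS α σ) {μ : ℝ} {φ : ℕ → ℝ}
    (G : Gr Y μ φ) {n i t : ℕ} {ε : ℝ} (hn : 2 ≤ n)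
    (hε : 0 < ε) (hε1 : ε ≤ 1) {L : Finset σ} {st : α → α} {fl : α → Finset σ → α}
    (hL : Fill Y L st fl)
    (hs : n + Y.s * i + Y.s * t ≤ 2 * n) {x : ℝ} (hx : 12 * ((i : ℝ) + t) ≤ ε * x) :
    (((Y.K (n + Y.s * i)).filter (fun w => QB (μ ^ Y.s) ε i x (Sl Y L w).card
      (Oc Y L w).card)).card : ℝ) ≤
      Real.exp (φ n) * Real.exp (-(ε * t / 4)) * μ ^ (n + Y.s * i) := by
  have hμ := G.one
  have hμ0 : 0 < μ := by linarith
  have hμ2 : 1 ≤ μ ^ Y.s := one_le_pow₀ hμ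
  have hM : (0 : ℝ) ≤ (μ ^ Y.s * (1 - ε / 2)) ^ t := by
    have : 0 ≤ 1 - ε / 2 := by linarith
    positivity
  have h1 := (hmv α σ Y L st fl hL (QB (μ ^ Y.s) ε i x) ((μ ^ Y.s * (1 - ε / 2)) ^ t)
    (n + Y.s * i) t hM).2 (fun S j hQ hj => by
      obtain ⟨q1, q2, q3⟩ := hQ
      exact (hrat (μ ^ Y.s) ε S j i t hμ2 hε hε1 q1 hj
        (hx.trans (mul_le_mul_of_nonneg_left q2 hε.le))).2 q3)
  refine h1.trans ?_
  have h2 := G.up n (n + Y.s * i - Y.s * t) hn (by omega)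
  have e0 : n + Y.s * i - Y.s * t + Y.s * t = n + Y.s * i := by omega
  calc (μ ^ Y.s * (1 - ε / 2)) ^ t * ((Y.K (n + Y.s * i - Y.s * t)).card : ℝ)
      ≤ (μ ^ Y.s * (1 - ε / 2)) ^ t * (μ ^ (n + Y.s * i - Y.s * t) * Real.exp (φ n)) :=
        mul_le_mul_of_nonneg_left h2 hM
    _ = Real.exp (φ n) * (1 - ε / 2) ^ t * μ ^ (n + Y.s * i) := by
        rw [← e0, mul_pow, pow_add μ (n + Y.s * i - Y.s * t), pow_mul μ Y.s t, e0]
        ring
    _ ≤ Real.exp (φ n) * Real.exp (-(ε * t / 4)) * μ ^ (n + Y.s * i) := by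
        have := pow2 hε hε1 t
        gcongr

set_option maxHeartbeats 4000000 in
/-- the unbalanced objects -/
theorem unb (hmv : S_MV) (hrat : Pool.Agent.N929.EZ.S_RAT) (Y : TS α σ) {μ : ℝ} {φ : ℕ → ℝ}
    (G : Gr Y μ φ) {c C₀ : ℝ} {M : ℕ} (hc : 0 < c) (hC₀ : 0 < C₀) (hM : 1 ≤ M) (r : ℕ) :
    ∃ A C : ℝ, 0 < A ∧ 0 < C ∧ ∀ (n i : ℕ) (ε : ℝ), 2 ≤ n → i ≤ r →
      0 < ε → ε ≤ 1 → A * φ n ≤ ε ^ 2 * n → ∀ (L : Finset σ) (st : α → α)
      (fl : α → Finset σ → α), Fill Y L st fl →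
      (∀ N : ℕ, n ≤ N → N ≤ 2 * n → (((Y.K N).filter (fun w => ¬ G4 Y L M w)).card : ℝ) ≤
          C₀ * Real.exp (-(c * n)) * (μ ^ N + ((Y.K N).card : ℝ))) →
      (((Y.K (n + Y.s * i)).filter (fun w => ¬ Bal (μ ^ Y.s) ε i (Sl Y L w).card
          (Oc Y L w).card)).card : ℝ) ≤
        C * Real.exp (-(ε ^ 2 * n / A)) * μ ^ (n + Y.s * i) := by
  have hM' : (1 : ℝ) ≤ M := by exact_mod_cast hM
  obtain ⟨D, hD⟩ : ∃ D : ℝ, D = 48 * M + 4 * Y.s := ⟨_, rfl⟩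
  have hs1 : (1 : ℝ) ≤ Y.s := by exact_mod_cast Y.hs
  have hD1 : 1 ≤ D := by rw [hD]; linarith
  obtain ⟨A, hA⟩ : ∃ A : ℝ, A = 16 * D + 200 * M * (r + 1) + 8 * Y.s * (r + 1) + 2 / c :=
    ⟨_, rfl⟩
  have hr0 : (0 : ℝ) ≤ r := Nat.cast_nonneg r
  have hp1 : 0 ≤ 200 * (M : ℝ) * (r + 1) := by positivity
  have hp2 : 0 ≤ 8 * (Y.s : ℝ) * (r + 1) := by positivity
  have hp3 : 0 ≤ 2 / c := by positivity
  have hA1 : 16 * D ≤ A := by rw [hA]; linarith
  have hA2 : 200 * (M : ℝ) * (r + 1) ≤ A := by rw [hA]; linarith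
  have hA3 : 8 * (Y.s : ℝ) * (r + 1) ≤ A := by rw [hA]; linarith
  have hA4 : 2 / c ≤ A := by rw [hA]; linarith
  have hA0 : 0 < A := by linarith
  refine ⟨A, 2 * C₀ + 2, hA0, by positivity, ?_⟩
  intro n i ε hn hir hε hε1 hAn L st fl hL hfam
  have hn' : (2 : ℝ) ≤ n := by exact_mod_cast hn
  have hn0 : (0 : ℝ) ≤ n := by linarith
  have hlog : (0.69 : ℝ) ≤ φ n := by
    have := Real.log_two_gt_d9
    have h3 : Real.log 2 ≤ Real.log n := Real.log_le_log (by norm_num) hn'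
    have := G.phi.log n hn
    linarith
  have he1 : ε * n ≤ n := mul_le_of_le_one_left hn0 hε1
  have he2 : ε ^ 2 * n ≤ ε * n := by
    have : ε * (ε * n) ≤ 1 * (ε * n) := mul_le_mul_of_nonneg_right hε1 (by positivity)
    calc ε ^ 2 * n = ε * (ε * n) := by ring
      _ ≤ 1 * (ε * n) := this
      _ = ε * n := one_mul _
  have hAe : 0.69 * A ≤ ε ^ 2 * n := by nlinarith
  have hir' : (i : ℝ) ≤ r := by exact_mod_cast hir
  have hi0 : (0 : ℝ) ≤ i := Nat.cast_nonneg i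
  have hμ := G.one
  have hμ0 : 0 < μ := by linarith
  obtain ⟨t, ht⟩ : ∃ t : ℕ, t = ⌊ε * n / D⌋₊ := ⟨_, rfl⟩
  have ht1 : (t : ℝ) ≤ ε * n / D := by rw [ht]; exact Nat.floor_le (by positivity)
  have ht2 : ε * n / D < t + 1 := by rw [ht]; exact Nat.lt_floor_add_one _
  have hD0 : 0 < D := by linarith
  have ht3 : (t : ℝ) * D ≤ ε * n := by rwa [le_div_iff₀ hD0] at ht1
  have hi3 : 200 * (M : ℝ) * (i + 1) * 0.69 ≤ ε ^ 2 * n := by
    have : 200 * (M : ℝ) * (i + 1) ≤ 200 * (M : ℝ) * (r + 1) := by gcongr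
    linarith
  have hi4 : 8 * (Y.s : ℝ) * (i + 1) * 0.69 ≤ ε ^ 2 * n := by
    have : 8 * (Y.s : ℝ) * (i + 1) ≤ 8 * (Y.s : ℝ) * (r + 1) := by gcongr
    linarith
  have hsn : n + Y.s * i + Y.s * t ≤ 2 * n := by
    have h1 : (Y.s : ℝ) * t ≤ n / 4 := by
      have : (t : ℝ) * (4 * Y.s) ≤ t * D := by
        apply mul_le_mul_of_nonneg_left _ (Nat.cast_nonneg t)
        rw [hD]
        linarith
      linarith
    have h2 : (Y.s : ℝ) * i ≤ n / 4 := by nlinarith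
    have : (n : ℝ) + Y.s * i + Y.s * t ≤ 2 * n := by linarith
    exact_mod_cast this
  obtain ⟨x, hx⟩ : ∃ x : ℝ, x = (n : ℝ) / (2 * M) := ⟨_, rfl⟩
  have hM0 : (0 : ℝ) < M := by linarith
  have hix : 12 * ((i : ℝ) + t) ≤ ε * x := by
    rw [hx, ← mul_div_assoc, le_div_iff₀ (by positivity)]
    have h1 : 24 * (M : ℝ) * t ≤ ε * n / 2 := by
      have : (t : ℝ) * (48 * M) ≤ t * D := by
        apply mul_le_mul_of_nonneg_left _ (Nat.cast_nonneg t)
        rw [hD]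
        linarith
      linarith
    have h2 : 24 * (M : ℝ) * i ≤ ε * n / 2 := by nlinarith
    nlinarith
  have uA := unbA hmv hrat Y G (i := i) (t := t) hn hε hε1 hL hsn hix
  have uB := unbB hmv hrat Y G (i := i) (t := t) hn hε hε1 hL hsn hix
  have uF := hfam (n + Y.s * i) (by omega) (by omega)
  -- the three parts
  have hsub : (Y.K (n + Y.s * i)).filter (fun w =>
        ¬ Bal (μ ^ Y.s) ε i (Sl Y L w).card (Oc Y L w).card) ⊆
      (Y.K (n + Y.s * i)).filter (fun w => ¬ G4 Y L M w) ∪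
      ((Y.K (n + Y.s * i)).filter (fun w => QA (μ ^ Y.s) ε i x (Sl Y L w).card
        (Oc Y L w).card) ∪
      (Y.K (n + Y.s * i)).filter (fun w => QB (μ ^ Y.s) ε i x (Sl Y L w).card
        (Oc Y L w).card)) := by
    intro w hw
    rw [mem_filter] at hw
    rw [mem_union, mem_union, mem_filter, mem_filter, mem_filter]
    obtain ⟨h1, h3⟩ := hw
    by_cases hg : G4 Y L M w
    · right
      have hSj : (Oc Y L w).card ≤ (Sl Y L w).card := by
        apply card_le_card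
        unfold Oc Sl
        intro q hq
        rw [mem_filter] at hq ⊢
        exact ⟨hq.1, Or.inr hq.2⟩
      obtain ⟨j, hj⟩ : ∃ j, j = (Oc Y L w).card := ⟨_, rfl⟩
      obtain ⟨S, hS⟩ : ∃ S, S = (Sl Y L w).card := ⟨_, rfl⟩
      unfold G4 at hg
      rw [← hj, ← hS, Y.len_K _ _ h1] at hg
      rw [← hj, ← hS] at hSj h3 ⊢
      have g1 : n ≤ M * j := by
        have := hg.1
        omega
      have g2 : (n : ℝ) ≤ M * (j : ℝ) := by exact_mod_cast g1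
      have g3 : (n : ℝ) / (2 * M) ≤ (j : ℝ) - i := by
        rw [div_le_iff₀ (by positivity)]
        nlinarith
      have g4 : (i : ℝ) ≤ j := by
        have : 0 ≤ (n : ℝ) / (2 * M) := by positivity
        linarith
      have g5 : i ≤ j := by exact_mod_cast g4
      have g6 : x ≤ (j : ℝ) - i + 1 := by rw [hx]; linarith
      have g7 : 1 ≤ ε ^ 2 * (((j - i : ℕ) : ℝ)) := by
        rw [Nat.cast_sub g5]
        have : ε ^ 2 * ((n : ℝ) / (2 * M)) ≤ ε ^ 2 * ((j : ℝ) - i) :=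
          mul_le_mul_of_nonneg_left g3 (by positivity)
        refine le_trans ?_ this
        have h5 : ε ^ 2 * ((n : ℝ) / (2 * M)) = ε ^ 2 * n / (2 * M) := by ring
        rw [h5, le_div_iff₀ (by positivity)]
        nlinarith
      have g8 : ¬ |((S : ℝ) - ((j - i : ℕ) : ℝ)) / (((j - i : ℕ) : ℝ) + 1) - μ ^ Y.s| ≤
          ε * μ ^ Y.s :=
        fun h => h3 ⟨g5, by omega, g7, h⟩
      rw [Nat.cast_sub g5, abs_le, not_and_or, not_le, not_le] at g8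
      rcases g8 with g8 | g8
      · right
        exact ⟨h1, g5, g6, by linarith⟩
      · left
        exact ⟨h1, g5, g6, by linarith⟩
    · left
      exact ⟨h1, hg⟩
  have hcard := (card_le_card hsub).trans ((card_union_le _ _).trans
    (Nat.add_le_add_left (card_union_le _ _) _))
  have hcard' : (((Y.K (n + Y.s * i)).filter (fun w =>
        ¬ Bal (μ ^ Y.s) ε i (Sl Y L w).card (Oc Y L w).card)).card : ℝ) ≤
      (((Y.K (n + Y.s * i)).filter (fun w => ¬ G4 Y L M w)).card : ℝ) +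
      ((((Y.K (n + Y.s * i)).filter (fun w => QA (μ ^ Y.s) ε i x (Sl Y L w).card
        (Oc Y L w).card)).card : ℝ) +
      (((Y.K (n + Y.s * i)).filter (fun w => QB (μ ^ Y.s) ε i x (Sl Y L w).card
        (Oc Y L w).card)).card : ℝ)) := by exact_mod_cast hcard
  refine hcard'.trans ?_
  obtain ⟨E, hE⟩ : ∃ E : ℝ, E = Real.exp (-(ε ^ 2 * n / A)) := ⟨_, rfl⟩
  have hE0 : 0 ≤ E := by rw [hE]; positivity
  have hφA : φ n ≤ ε ^ 2 * n / A := by
    rw [le_div_iff₀ hA0]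
    linarith
  have hx0 : 0 ≤ ε ^ 2 * n := by positivity
  -- exponents
  have x1 : Real.exp (φ n) * Real.exp (-(c * n)) ≤ E := by
    rw [hE, ← Real.exp_add]
    apply Real.exp_le_exp.mpr
    have h1 : 2 * (ε ^ 2 * n / A) ≤ c * n := by
      have h2 : 2 ≤ A * c := by rwa [div_le_iff₀ hc] at hA4
      rw [← mul_div_assoc, div_le_iff₀ hA0]
      have h3 : ε ^ 2 * n ≤ n := he2.trans he1
      nlinarith
    linarith
  have x2 : Real.exp (φ n) * Real.exp (-(ε * t / 4)) ≤ E := by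
    rw [hE, ← Real.exp_add]
    apply Real.exp_le_exp.mpr
    have h3 : 2 * (ε ^ 2 * n / A) ≤ ε * t / 4 := by
      have h4 : ε * n / (2 * D) ≤ t := by
        have h5 : 1 ≤ ε * n / (2 * D) := by
          rw [le_div_iff₀ (by positivity)]
          nlinarith
        have h6 : ε * n / D = ε * n / (2 * D) + ε * n / (2 * D) := by field_simp; norm_num
        linarith
      have h7 : 2 * (ε ^ 2 * n / A) ≤ 2 * (ε ^ 2 * n / (16 * D)) := by gcongr
      calc 2 * (ε ^ 2 * n / A) ≤ 2 * (ε ^ 2 * n / (16 * D)) := h7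
        _ = ε * (ε * n / (2 * D)) / 4 := by field_simp; norm_num
        _ ≤ ε * t / 4 := by gcongr
    linarith
  have hcN := G.up n (n + Y.s * i) hn (by omega)
  have hone : 1 ≤ Real.exp (φ n) := Real.one_le_exp (by linarith)
  have y1 : C₀ * Real.exp (-(c * n)) * (μ ^ (n + Y.s * i) + ((Y.K (n + Y.s * i)).card : ℝ)) ≤
      2 * C₀ * E * μ ^ (n + Y.s * i) := by
    have h1 : μ ^ (n + Y.s * i) + ((Y.K (n + Y.s * i)).card : ℝ) ≤
        2 * (Real.exp (φ n) * μ ^ (n + Y.s * i)) := by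
      have : μ ^ (n + Y.s * i) ≤ Real.exp (φ n) * μ ^ (n + Y.s * i) :=
        le_mul_of_one_le_left (by positivity) hone
      linarith
    calc C₀ * Real.exp (-(c * n)) * (μ ^ (n + Y.s * i) + ((Y.K (n + Y.s * i)).card : ℝ))
        ≤ C₀ * Real.exp (-(c * n)) * (2 * (Real.exp (φ n) * μ ^ (n + Y.s * i))) := by gcongr
      _ = 2 * C₀ * (Real.exp (φ n) * Real.exp (-(c * n))) * μ ^ (n + Y.s * i) := by ring
      _ ≤ 2 * C₀ * E * μ ^ (n + Y.s * i) := by gcongr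
  have y2 : Real.exp (φ n) * Real.exp (-(ε * t / 4)) * μ ^ (n + Y.s * i) ≤
      E * μ ^ (n + Y.s * i) := by gcongr
  calc _ ≤ 2 * C₀ * E * μ ^ (n + Y.s * i) + (E * μ ^ (n + Y.s * i) + E * μ ^ (n + Y.s * i)) :=
        add_le_add (uF.trans y1) (add_le_add (uA.trans y2) (uB.trans y2))
    _ = _ := by rw [hE]; ring

end

end Pool.Agent.N929.EG
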